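import Pool.Agent.Work.BV.SHB

/-!
Module PIV (from theta to pi; size M).

Fix `q, c` and let `e(n) = thp n q c - n/φ(q)`, `e₁(n) = thp n 1 1 - n`.  Since
`pic y q c = ∑_{2≤n≤y} (thp n q c - thp (n-1) q c)/log n` and `π(y) = ∑_{2≤n≤y} (thp n 1 1 - thp (n-1) 1 1)/log n`,
summation by parts (`1/log` is decreasing on `[2, ∞)`, total variation `1/log 2`) gives
`|pic y q c - π(y)/φ(q)| ≤ C (max_{n ≤ y} |e(n)| + max_{n ≤ y} |e₁(n)| / φ(q))`.
ld_strong: for each `q` choose `y'_q ≤ Y` with `|e(y'_q)|` maximal and use bv_theta (for `A`); for the second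
part `q = 1` in bv_theta for `A + 1` with maximizing `y'_1` (if `⌊Y^t⌋ = 0` the sum is empty; use the exponent
`max t (1/4)` to have `q = 1` in the range) and `∑_{q ≤ Y} 1/φ(q) ≤ C (1 + log Y)` (`totient_inv`).
pnt_all: `thp Y 1 1 = Y + O(Y/log Y)` by bv_theta with `q = 1`, `A = 1`; then
`π(Y) log Y ≥ thp Y 1 1` and `π(Y) ≤ Y^{1-δ} + thp Y 1 1/((1-δ) log Y)` for every `δ ∈ (0,1)`.
ld_all: special case.
-/

set_option autoImplicit false

open Finset Filter MeasureTheory Topology
open scoped ContDiff ArithmeticFunction.Moebius ArithmeticFunction.vonMangoldt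

noncomputable section

namespace BV

private theorem piv_thp_succ (y q c : ℕ) : thp (y + 1) q c = thp y q c +
    if (y + 1).Prime ∧ (y + 1) % q = c % q then Real.log ((y + 1 : ℕ) : ℝ) else 0 := by
  unfold thp
  rw [Finset.sum_filter, Finset.sum_filter, Finset.sum_Icc_succ_top (by omega)]

private theorem piv_pic_succ (y q c : ℕ) : (pic (y + 1) q c : ℝ) = pic y q c +
    if (y + 1).Prime ∧ (y + 1) % q = c % q then 1 else 0 := by
  unfold pic
  rw [Finset.card_filter, Finset.card_filter, Finset.sum_Icc_succ_top (by omega)]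
  push_cast
  rfl

private theorem piv_pi_succ (y : ℕ) : (Nat.primeCounting (y + 1) : ℝ) = Nat.primeCounting y +
    if (y + 1).Prime then 1 else 0 := by
  unfold Nat.primeCounting Nat.primeCounting'
  have h := Nat.count_succ Nat.Prime (y + 1)
  rw [h]
  push_cast
  rfl

private theorem piv_id (q c : ℕ) (y : ℕ) (hy : 1 ≤ y) :
    (pic y q c : ℝ) - Nat.primeCounting y / Nat.totient q =
      ∑ n ∈ Finset.Ico 1 y, ((thp (n + 1) q c - thp (n + 1) 1 1 / Nat.totient q) -
        (thp n q c - thp n 1 1 / Nat.totient q)) * (1 / Real.log ((n + 1 : ℕ) : ℝ)) := by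
  induction y, hy using Nat.le_induction with
  | base =>
    have h1 : (pic 1 q c : ℝ) = 0 := by
      unfold pic
      have : (Finset.Icc 1 1).filter (fun p => p.Prime ∧ p % q = c % q) = ∅ := by
        apply Finset.filter_false_of_mem
        intro p hp
        rw [Finset.Icc_self, Finset.mem_singleton] at hp
        rw [hp]
        exact fun hc => Nat.not_prime_one hc.1
      rw [this, Finset.card_empty, Nat.cast_zero]
    rw [h1]
    simp
  | succ n hn ih =>
    rw [Finset.sum_Ico_succ_top hn, ← ih, piv_pic_succ, piv_pi_succ, piv_thp_succ,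
      piv_thp_succ n 1 1]
    have hl : Real.log ((n + 1 : ℕ) : ℝ) ≠ 0 := by
      apply ne_of_gt
      apply Real.log_pos
      exact_mod_cast (by omega : 1 < n + 1)
    simp only [Nat.mod_one, and_true]
    by_cases h1 : (n + 1).Prime
    · by_cases h2 : (n + 1) % q = c % q
      · rw [if_pos ⟨h1, h2⟩, if_pos h1, if_pos ⟨h1, h2⟩, if_pos h1]
        field_simp
        ring
      · rw [if_neg (fun hc => h2 hc.2), if_pos h1, if_neg (fun hc => h2 hc.2), if_pos h1]
        field_simp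
        ring
    · rw [if_neg (fun hc => h1 hc.1), if_neg h1, if_neg (fun hc => h1 hc.1), if_neg h1]
      ring

private theorem piv_abel (D : ℕ → ℝ) (h1 : D 1 = 0) (M : ℝ) (y : ℕ) (hy : 2 ≤ y)
    (hM : ∀ n ≤ y, |D n| ≤ M) :
    |(∑ n ∈ Finset.Ico 1 y, (D (n + 1) - D n) * (1 / Real.log ((n + 1 : ℕ) : ℝ))) -
      D y * (1 / Real.log y)| ≤ M * (1 / Real.log 2 - 1 / Real.log y) := by
  induction y, hy using Nat.le_induction with
  | base =>
    rw [show Finset.Ico 1 2 = {1} by rfl, Finset.sum_singleton, h1]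
    norm_num
  | succ n hn ih =>
    have i1 := ih fun k hk => hM k (by omega)
    rw [Finset.sum_Ico_succ_top (by omega)]
    have e1 : (∑ n ∈ Finset.Ico 1 n, (D (n + 1) - D n) * (1 / Real.log ((n + 1 : ℕ) : ℝ))) +
        (D (n + 1) - D n) * (1 / Real.log ((n + 1 : ℕ) : ℝ)) -
        D (n + 1) * (1 / Real.log ((n + 1 : ℕ) : ℝ)) =
        ((∑ n ∈ Finset.Ico 1 n, (D (n + 1) - D n) * (1 / Real.log ((n + 1 : ℕ) : ℝ))) -
          D n * (1 / Real.log n)) +
          D n * (1 / Real.log n - 1 / Real.log ((n + 1 : ℕ) : ℝ)) := by ring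
    rw [e1]
    refine (abs_add_le _ _).trans ?_
    have hn2 : (2 : ℝ) ≤ n := by exact_mod_cast hn
    have hlog : 0 < Real.log n := Real.log_pos (by linarith)
    have h2 : 1 / Real.log ((n + 1 : ℕ) : ℝ) ≤ 1 / Real.log n := by
      apply one_div_le_one_div_of_le hlog
      apply Real.log_le_log (by linarith)
      push_cast
      linarith
    rw [abs_mul, abs_of_nonneg (sub_nonneg.2 h2)]
    have h3 := mul_le_mul_of_nonneg_right (hM n (by omega)) (sub_nonneg.2 h2)
    linarith

private theorem piv_point (q c y : ℕ) (M : ℝ)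
    (hM : ∀ n ≤ y, |thp n q c - thp n 1 1 / Nat.totient q| ≤ M) :
    |(pic y q c : ℝ) - Nat.primeCounting y / Nat.totient q| ≤ 2 * M := by
  have hM0 : 0 ≤ M := (abs_nonneg _).trans (hM 0 (Nat.zero_le _))
  have h0 : ∀ q c, thp 1 q c = 0 := by
    intro q c
    unfold thp
    have : (Finset.Icc 1 1).filter (fun p => p.Prime ∧ p % q = c % q) = ∅ := by
      apply Finset.filter_false_of_mem
      intro p hp
      rw [Finset.Icc_self, Finset.mem_singleton] at hp
      rw [hp]
      exact fun hc => Nat.not_prime_one hc.1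
    rw [this, Finset.sum_empty]
  rcases Nat.lt_or_ge y 2 with hy | hy
  · have h1 : (pic y q c : ℝ) - Nat.primeCounting y / Nat.totient q = 0 := by
      rcases Nat.eq_zero_or_pos y with h | h
      · rw [h]
        unfold pic
        simp
      · rw [piv_id q c y h, Finset.Ico_eq_empty (by omega), Finset.sum_empty]
    rw [h1, abs_zero]
    linarith
  · rw [piv_id q c y (by omega)]
    have h1 := piv_abel (fun n => thp n q c - thp n 1 1 / Nat.totient q) (by
      simp only [h0]
      simp) M y hy hM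
    have hy2 : (2 : ℝ) ≤ y := by exact_mod_cast hy
    have hly : 0 < Real.log y := Real.log_pos (by linarith)
    have h2 : |(thp y q c - thp y 1 1 / Nat.totient q) * (1 / Real.log y)| ≤
        M * (1 / Real.log y) := by
      rw [abs_mul, abs_of_nonneg (by positivity : 0 ≤ 1 / Real.log y)]
      exact mul_le_mul_of_nonneg_right (hM y le_rfl) (by positivity)
    have h3 : M * (1 / Real.log 2) ≤ 2 * M := by
      have h4 : 1 / Real.log 2 ≤ 2 := by
        rw [div_le_iff₀ (Real.log_pos (by norm_num))]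
        have := Real.log_two_gt_d9
        linarith
      nlinarith
    have h5 := abs_add_le ((∑ n ∈ Finset.Ico 1 y, ((thp (n + 1) q c -
      thp (n + 1) 1 1 / Nat.totient q) - (thp n q c - thp n 1 1 / Nat.totient q)) *
      (1 / Real.log ((n + 1 : ℕ) : ℝ))) - (thp y q c - thp y 1 1 / Nat.totient q) *
      (1 / Real.log y)) ((thp y q c - thp y 1 1 / Nat.totient q) * (1 / Real.log y))
    rw [sub_add_cancel] at h5
    linarith

theorem ld_strong {t : ℝ} (ht : t < 1 / 2) (A : ℕ) : ∃ C : ℝ, 0 < C ∧ ∀ Y : ℕ, 2 ≤ Y →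
    ∀ y c : ℕ → ℕ, (∀ q, y q ≤ Y) → (∀ q, 0 < q → Nat.Coprime (c q) q) →
      ∑ q ∈ Finset.Icc 1 ⌊(Y : ℝ) ^ t⌋₊,
        |(pic (y q) q (c q) : ℝ) - Nat.primeCounting (y q) / Nat.totient q| ≤
          C * Y / Real.log Y ^ A := by
  obtain ⟨C1, hC1, h1⟩ := bv_theta ht A
  obtain ⟨C2, hC2, h2⟩ := bv_theta (max_lt ht (by norm_num : (1 / 4 : ℝ) < 1 / 2)) (A + 1)
  obtain ⟨C3, hC3, h3⟩ := totient_inv
  refine ⟨2 * C1 + 6 * C2 * C3, by positivity, ?_⟩
  intro Y hY y c hy hc
  have hY2 : (2 : ℝ) ≤ Y := by exact_mod_cast hY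
  have hY1 : (1 : ℝ) ≤ Y := by linarith
  have hL0 : Real.log 2 ≤ Real.log Y := Real.log_le_log (by norm_num) hY2
  have hL2 := Real.log_two_gt_d9
  have hL : 0 < Real.log Y := by linarith
  set Q := ⌊(Y : ℝ) ^ t⌋₊ with hQ
  have hQY : Q ≤ Y := by
    have h4 : (Q : ℝ) ≤ Y := by
      refine (Nat.floor_le (by positivity)).trans ?_
      calc (Y : ℝ) ^ t ≤ (Y : ℝ) ^ (1 : ℝ) :=
            Real.rpow_le_rpow_of_exponent_le hY1 (by linarith)
        _ = Y := Real.rpow_one _
    exact_mod_cast h4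
  -- maximizers
  have hmax : ∀ q, ∃ m, m ≤ y q ∧ ∀ n ≤ y q, |thp n q (c q) - (n : ℝ) / (Nat.totient q : ℝ)| ≤
      |thp m q (c q) - (m : ℝ) / (Nat.totient q : ℝ)| := by
    intro q
    obtain ⟨m, hm, hm'⟩ := Finset.exists_max_image (Finset.range (y q + 1))
      (fun n => |thp n q (c q) - (n : ℝ) / (Nat.totient q : ℝ)|) ⟨0, by simp⟩
    refine ⟨m, by simpa [Nat.lt_succ_iff] using hm, fun n hn => hm' n ?_⟩
    simpa [Nat.lt_succ_iff] using hn
  choose y' hy' hy'' using hmax
  obtain ⟨z, hz, hz'⟩ := Finset.exists_max_image (Finset.range (Y + 1))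
      (fun n => |thp n 1 1 - (n : ℝ)|) ⟨0, by simp⟩
  have hzY : z ≤ Y := by simpa [Nat.lt_succ_iff] using hz
  set E1 := |thp z 1 1 - (z : ℝ)| with hE1
  have hE10 : 0 ≤ E1 := abs_nonneg _
  have hE1b : E1 ≤ C2 * Y / Real.log Y ^ (A + 1) := by
    have h4 := h2 Y hY (fun _ => z) (fun _ => 1) (fun _ => hzY) (fun q _ => Nat.coprime_one_left q)
    refine le_trans ?_ h4
    have h5 : 1 ∈ Finset.Icc 1 ⌊(Y : ℝ) ^ max t (1 / 4)⌋₊ := by
      rw [Finset.mem_Icc]
      refine ⟨le_rfl, (Nat.one_le_floor_iff _).2 (Real.one_le_rpow hY1 ?_)⟩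
      exact (by norm_num : (0 : ℝ) ≤ 1 / 4).trans (le_max_right _ _)
    refine le_trans (le_of_eq ?_) (Finset.single_le_sum (f := fun q =>
      |thp z q 1 - (z : ℝ) / (Nat.totient q : ℝ)|) (fun q _ => abs_nonneg _) h5)
    rw [hE1]
    simp
  have hterm : ∀ q ∈ Finset.Icc 1 Q,
      |(pic (y q) q (c q) : ℝ) - Nat.primeCounting (y q) / Nat.totient q| ≤
      2 * |thp (y' q) q (c q) - (y' q : ℝ) / (Nat.totient q : ℝ)| +
        2 * E1 * (1 / Nat.totient q : ℝ) := by
    intro q hq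
    have hφ : (0 : ℝ) < Nat.totient q := by
      exact_mod_cast Nat.totient_pos.2 (Finset.mem_Icc.1 hq).1
    have h4 := piv_point q (c q) (y q) (|thp (y' q) q (c q) - (y' q : ℝ) / (Nat.totient q : ℝ)| +
        E1 * (1 / Nat.totient q : ℝ)) (fun n hn => by
      have e1 : thp n q (c q) - thp n 1 1 / Nat.totient q =
          (thp n q (c q) - (n : ℝ) / Nat.totient q) - (thp n 1 1 - n) * (1 / Nat.totient q) := by
        field_simp
        ring
      rw [e1]
      refine (abs_sub _ _).trans (add_le_add (hy'' q n hn) ?_)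
      rw [abs_mul, abs_of_nonneg (by positivity : (0 : ℝ) ≤ 1 / Nat.totient q)]
      refine mul_le_mul_of_nonneg_right (hz' n ?_) (by positivity)
      have := hn.trans (hy q)
      simpa [Nat.lt_succ_iff] using this)
    linarith
  refine (Finset.sum_le_sum hterm).trans ?_
  rw [Finset.sum_add_distrib, ← Finset.mul_sum, ← Finset.mul_sum]
  have g1 := h1 Y hY y' c (fun q => (hy' q).trans (hy q)) hc
  rcases Nat.eq_zero_or_pos Q with hQ0 | hQ0
  · rw [hQ0]
    simp only [Finset.Icc_eq_empty (by norm_num : ¬ (1 ≤ 0)), Finset.sum_empty, mul_zero, add_zero]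
    positivity
  · have g2 := h3 Q hQ0
    have g3 : 1 + Real.log Q ≤ 3 * Real.log Y := by
      have : Real.log Q ≤ Real.log Y := by
        apply Real.log_le_log
        · exact_mod_cast hQ0
        · exact_mod_cast hQY
      linarith
    have g4 : ∑ q ∈ Finset.Icc 1 Q, (1 / Nat.totient q : ℝ) ≤ C3 * (3 * Real.log Y) :=
      g2.trans (mul_le_mul_of_nonneg_left g3 hC3)
    have g5 : 2 * E1 * ∑ q ∈ Finset.Icc 1 Q, (1 / Nat.totient q : ℝ) ≤
        2 * (C2 * Y / Real.log Y ^ (A + 1)) * (C3 * (3 * Real.log Y)) :=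
      mul_le_mul (mul_le_mul_of_nonneg_left hE1b (by norm_num)) g4
        (Finset.sum_nonneg fun _ _ => by positivity) (by positivity)
    have g6 : 2 * (C2 * Y / Real.log Y ^ (A + 1)) * (C3 * (3 * Real.log Y)) =
        6 * C2 * C3 * Y / Real.log Y ^ A := by
      rw [pow_succ]
      field_simp
      ring
    rw [g6] at g5
    have g7 : (2 * C1 + 6 * C2 * C3) * Y / Real.log Y ^ A =
        2 * (C1 * Y / Real.log Y ^ A) + 6 * C2 * C3 * Y / Real.log Y ^ A := by ring
    rw [g7]
    exact add_le_add (mul_le_mul_of_nonneg_left g1 (by norm_num)) g5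

theorem ld_all : ∀ t : ℝ, t < 1 / 2 → LD t := by
  intro t ht A
  obtain ⟨C, hC, h⟩ := ld_strong ht A
  exact ⟨C, hC, fun Y hY y c hy hc => h Y hY y c hy (fun q _ => hc q)⟩

private theorem piv_theta (n : ℕ) : Chebyshev.theta n = thp n 1 1 := by
  unfold Chebyshev.theta thp
  rw [Nat.floor_natCast]
  refine Finset.sum_congr ?_ fun _ _ => rfl
  ext p
  simp only [Finset.mem_filter, Finset.mem_Ioc, Finset.mem_Icc, Nat.mod_one, and_true]
  constructor
  · rintro ⟨⟨h1, h2⟩, h3⟩
    exact ⟨⟨h1, h2⟩, h3⟩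
  · rintro ⟨⟨h1, h2⟩, h3⟩
    exact ⟨⟨h1, h2⟩, h3⟩

theorem pnt_all : PNT := by
  obtain ⟨C, hC, h⟩ := bv_theta (by norm_num : (1 / 4 : ℝ) < 1 / 2) 1
  have hlogt : Tendsto (fun n : ℕ => Real.log (n : ℝ)) atTop atTop :=
    Real.tendsto_log_atTop.comp tendsto_natCast_atTop_atTop
  -- theta
  have h1 : ∀ Y : ℕ, 2 ≤ Y → |thp Y 1 1 / Y - 1| ≤ C / Real.log Y := by
    intro Y hY
    have hY2 : (2 : ℝ) ≤ Y := by exact_mod_cast hY
    have hY0 : (0 : ℝ) < Y := by linarith
    have h4 := h Y hY (fun _ => Y) (fun _ => 1) (fun _ => le_rfl)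
      (fun q _ => Nat.coprime_one_left q)
    have h5 : 1 ∈ Finset.Icc 1 ⌊(Y : ℝ) ^ (1 / 4 : ℝ)⌋₊ := by
      rw [Finset.mem_Icc]
      exact ⟨le_rfl, (Nat.one_le_floor_iff _).2 (Real.one_le_rpow (by linarith) (by norm_num))⟩
    have h6 := (Finset.single_le_sum (f := fun q =>
      |thp Y q 1 - (Y : ℝ) / (Nat.totient q : ℝ)|) (fun q _ => abs_nonneg _) h5).trans h4
    simp only [Nat.totient_one, Nat.cast_one, div_one, pow_one] at h6
    have h7 : thp Y 1 1 / Y - 1 = (thp Y 1 1 - Y) / Y := by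
      field_simp
    rw [h7, abs_div, abs_of_pos hY0, div_le_iff₀ hY0]
    refine h6.trans_eq ?_
    ring
  have h2 : Tendsto (fun n : ℕ => thp n 1 1 / n) atTop (𝓝 1) := by
    have h3 : Tendsto (fun n : ℕ => C / Real.log n) atTop (𝓝 0) := hlogt.const_div_atTop C
    rw [tendsto_iff_norm_sub_tendsto_zero]
    refine squeeze_zero' (Eventually.of_forall fun _ => norm_nonneg _) ?_ h3
    filter_upwards [eventually_ge_atTop 2] with n hn
    exact h1 n hn
  -- comparison
  obtain ⟨K, hK⟩ := Chebyshev.primeCounting_sub_theta_div_log_isBigO.bound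
  have h3 := tendsto_natCast_atTop_atTop.eventually hK
  have h4 : Tendsto (fun n : ℕ => (Nat.primeCounting n : ℝ) * Real.log n / n - thp n 1 1 / n)
      atTop (𝓝 0) := by
    have h5 : Tendsto (fun n : ℕ => K / Real.log n) atTop (𝓝 0) := hlogt.const_div_atTop K
    refine squeeze_zero_norm' ?_ h5
    filter_upwards [h3, eventually_ge_atTop 2] with n hn hn2
    have hn2' : (2 : ℝ) ≤ n := by exact_mod_cast hn2
    have hn0 : (0 : ℝ) < n := by linarith
    have hl : 0 < Real.log n := Real.log_pos (by linarith)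
    rw [Nat.floor_natCast, piv_theta] at hn
    have e1 : (Nat.primeCounting n : ℝ) * Real.log n / n - thp n 1 1 / n =
        ((Nat.primeCounting n : ℝ) - thp n 1 1 / Real.log n) * (Real.log n / n) := by
      field_simp
    rw [e1, norm_mul]
    have e2 : ‖(n : ℝ) / Real.log n ^ 2‖ = n / Real.log n ^ 2 :=
      Real.norm_of_nonneg (by positivity)
    rw [e2] at hn
    have e3 : ‖Real.log n / (n : ℝ)‖ = Real.log n / n := Real.norm_of_nonneg (by positivity)
    rw [e3]
    refine (mul_le_mul_of_nonneg_right hn (by positivity)).trans_eq ?_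
    field_simp
  have h5 := h4.add h2
  rw [zero_add] at h5
  refine h5.congr fun n => ?_
  ring

end BV

end
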