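import Mathlib

/-!
# Definitions for the Bombieri-Vinogradov library

Namespace `BV`.  Target: `LD t` for every `t < 1/2` (level of distribution of the primes), the theta
version `bv_theta`, and the prime number theorem `PNT`.
-/

set_option autoImplicit false

open Finset Filter MeasureTheory Topology
open scoped ContDiff ArithmeticFunction.Moebius ArithmeticFunction.vonMangoldt

noncomputable section

namespace BV

/-- a smooth weight supported in `[1, 2]`, with the function and three derivatives bounded by `D` -/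
structure Bump (psi : ℝ → ℝ) (D : ℝ) : Prop where
  smooth : ContDiff ℝ ∞ psi
  zero : ∀ t, t ≤ 1 ∨ 2 ≤ t → psi t = 0
  nrm : ∀ i ≤ 3, ∀ t, |iteratedDeriv i psi t| ≤ D

/-- the transform of a weight (Mellin transform in the variable `exp t`) -/
def TR (psi : ℝ → ℝ) (z : ℂ) : ℂ := ∫ t : ℝ, (psi (Real.exp t) : ℂ) * Complex.exp (z * t)

/-- `log p` on the primes -/
def th (n : ℕ) : ℝ := if n.Prime then Real.log n else 0

/-- error term for smoothly weighted primes in a residue class -/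
def Eerr (psi : ℝ → ℝ) (N q c : ℕ) : ℝ :=
  (∑ p ∈ (Finset.range (2 * N)).filter (fun p => p ≡ c [MOD q]), th p * psi ((p : ℝ) / N)) -
    N / (Nat.totient q : ℝ) * ∫ t, psi t

open Classical in
/-- sum over the primitive characters modulo `r` -/
def pSum (r : ℕ) (f : DirichletCharacter ℂ r → ℝ) : ℝ :=
  if h : r = 0 then 0 else
    haveI : NeZero r := ⟨h⟩
    ∑ χ ∈ (Finset.univ : Finset (DirichletCharacter ℂ r)).filter (fun χ => χ.IsPrimitive), f χ

/-- smooth character sum over the primes -/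
def thC {r : ℕ} (χ : DirichletCharacter ℂ r) (psi : ℝ → ℝ) (N : ℕ) : ℂ :=
  ∑ p ∈ Finset.range (2 * N), χ p * (th p : ℂ) * (psi ((p : ℝ) / N) : ℂ)

/-- smooth character sum of the von Mangoldt function -/
def laC {r : ℕ} (χ : DirichletCharacter ℂ r) (psi : ℝ → ℝ) (N : ℕ) : ℂ :=
  ∑ n ∈ Finset.range (2 * N), χ n * (Λ n : ℂ) * (psi ((n : ℝ) / N) : ℂ)

/-- `∑ χ(n) (log n)^j n^{-s}` -/
def Dc {r : ℕ} (χ : DirichletCharacter ℂ r) (j : ℕ) (s : ℂ) : ℂ :=
  LSeries (fun n => χ n * ((Real.log n : ℂ)) ^ j) s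

/-- `∑ χ(n) Λ(n) (log n)^j n^{-s}` -/
def Zc {r : ℕ} (χ : DirichletCharacter ℂ r) (j : ℕ) (s : ℂ) : ℂ :=
  LSeries (fun n => χ n * (Λ n : ℂ) * ((Real.log n : ℂ)) ^ j) s

/-- the size parameter `log (r (|t| + 3))` -/
def ell (r : ℕ) (t : ℝ) : ℝ := Real.log (r * (|t| + 3))

/-- `∑ log p` over the primes `p ≤ y`, `p = c` modulo `q` -/
def thp (y q c : ℕ) : ℝ :=
  ∑ p ∈ (Finset.Icc 1 y).filter (fun p => p.Prime ∧ p % q = c % q), Real.log p

/-- number of primes `p ≤ y`, `p = c` modulo `q` -/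
def pic (y q c : ℕ) : ℕ :=
  ((Finset.Icc 1 y).filter (fun p => p.Prime ∧ p % q = c % q)).card

/-- the primes have level of distribution `t` -/
def LD (t : ℝ) : Prop :=
  ∀ A : ℕ, ∃ C : ℝ, 0 < C ∧ ∀ Y : ℕ, 2 ≤ Y → ∀ y c : ℕ → ℕ,
    (∀ q, y q ≤ Y) → (∀ q, Nat.Coprime (c q) q) →
    ∑ q ∈ Finset.Icc 1 ⌊(Y : ℝ) ^ t⌋₊,
      |(pic (y q) q (c q) : ℝ) - Nat.primeCounting (y q) / Nat.totient q| ≤
        C * Y / Real.log Y ^ A

/-- the prime number theorem -/
def PNT : Prop :=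
  Tendsto (fun x : ℕ => (Nat.primeCounting x : ℝ) * Real.log x / x) atTop (𝓝 1)

end BV

end
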