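import Mathlib
import Pool.Agent.Work.Vino.Dual

/-!
Module LSA (additive large sieve, Gallagher's proof; Mathlib only; size M).

Let `S(α) = ∑_{n ∈ [M0, M0+M)} a_n e(nα)`.  Multiplying by `e(-cα)` with `c` the middle of the interval
changes no `|S(α)|`, so assume the frequencies are real numbers of absolute value `≤ M/2`.
For a `C^1` function `f` on an interval `I` of length `δ` with `α ∈ I`:
`f(α) ≤ δ⁻¹ ∫_I |f| + ∫_I |f'|`.  Apply it to `f = |S|²`, `|f'| ≤ 2 |S S'|`: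
`|S(α)|² ≤ δ⁻¹ ∫_{I(α)} |S|² + 2 ∫_{I(α)} |S S'|`, `I(α) = [α - δ/2, α + δ/2]`.
The points `b/r`, `r ≤ R`, `(b,r) = 1`, `0 ≤ b < r` are `R^{-2}` spaced mod 1, so the intervals with
`δ = R^{-2}` are disjoint mod 1 (up to end points), and (Cauchy)
`∑ |S(b/r)|² ≤ R² ∫_0^1 |S|² + 2 (∫_0^1 |S|²)^{1/2} (∫_0^1 |S'|²)^{1/2} ≤ (R² + 2π M) ∑ |a_n|²`
(Parseval; `S'` has coefficients `2π i n a_n`, `|n| ≤ M/2`).  We state it with the constant 8.
-/

set_option autoImplicit false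

open Finset Filter MeasureTheory Topology
open scoped ContDiff ArithmeticFunction.Moebius ArithmeticFunction.vonMangoldt

noncomputable section

namespace BV

/-- geometric sums -/
private theorem lsa_geom (y : ℝ) (hy0 : 0 < y) (hy1 : y < 1) (L : ℕ) :
    ‖∑ j ∈ Finset.range L, Complex.exp (Complex.I * ((2 * Real.pi * y : ℝ) : ℂ)) ^ j‖ ≤
      1 / (2 * min y (1 - y)) := by
  obtain ⟨z, hz⟩ : ∃ z : ℂ, z = Complex.exp (Complex.I * ((2 * Real.pi * y : ℝ) : ℂ)) := ⟨_, rfl⟩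
  rw [← hz]
  have hn1 : ‖z‖ = 1 := by
    rw [hz, mul_comm, Complex.norm_exp_ofReal_mul_I]
  have hpi := Real.pi_pos
  have hsin : 2 * min y (1 - y) ≤ Real.sin (Real.pi * y) := by
    rcases le_total y (1 / 2) with h | h
    · rw [min_eq_left (by linarith)]
      have h1 : 2 / Real.pi * (Real.pi * y) ≤ Real.sin (Real.pi * y) :=
        Real.mul_le_sin (by positivity) (by nlinarith)
      have h2 : 2 / Real.pi * (Real.pi * y) = 2 * y := by field_simp
      rwa [h2] at h1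
    · rw [min_eq_right (by linarith)]
      have h1 : 2 / Real.pi * (Real.pi * (1 - y)) ≤ Real.sin (Real.pi * (1 - y)) := by
        refine Real.mul_le_sin ?_ (by nlinarith)
        have : 0 ≤ 1 - y := by linarith
        positivity
      have h2 : 2 / Real.pi * (Real.pi * (1 - y)) = 2 * (1 - y) := by field_simp
      have h3 : Real.sin (Real.pi * (1 - y)) = Real.sin (Real.pi * y) := by
        rw [← Real.sin_pi_sub]
        congr 1
        ring
      rw [h2, h3] at h1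
      exact h1
  have hmin : 0 < min y (1 - y) := lt_min hy0 (by linarith)
  have hz1 : 4 * min y (1 - y) ≤ ‖z - 1‖ := by
    rw [hz, Complex.norm_exp_I_mul_ofReal_sub_one]
    have e : (2 * Real.pi * y) / 2 = Real.pi * y := by ring
    rw [e, norm_mul, Real.norm_of_nonneg (by norm_num : (0 : ℝ) ≤ 2), Real.norm_eq_abs]
    have h1 := le_abs_self (Real.sin (Real.pi * y))
    linarith
  have hzne : z ≠ 1 := by
    intro h
    rw [h, sub_self, norm_zero] at hz1
    linarith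
  rw [geom_sum_eq hzne, norm_div]
  have hnum : ‖z ^ L - 1‖ ≤ 2 := by
    refine (norm_sub_le _ _).trans ?_
    rw [norm_pow, hn1, one_pow, norm_one]
    norm_num
  calc ‖z ^ L - 1‖ / ‖z - 1‖ ≤ 2 / (4 * min y (1 - y)) :=
        div_le_div₀ (by norm_num) hnum (by positivity) hz1
    _ = 1 / (2 * min y (1 - y)) := by field_simp; ring

/-- the weight -/
private def lsaW (L k : ℕ) : ℝ :=
  2 / L * (((Finset.range L ×ˢ Finset.range L).filter (fun p => p.1 + p.2 = k)).card : ℝ)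

private theorem lsa_w_nonneg (L k : ℕ) : 0 ≤ lsaW L k := by
  unfold lsaW; positivity

private theorem lsa_w_one (s k : ℕ) (hs : 0 < s) (h1 : s ≤ k) (h2 : k < 3 * s) :
    1 ≤ lsaW (2 * s) k := by
  classical
  have hcard : s ≤ ((Finset.range (2 * s) ×ˢ Finset.range (2 * s)).filter
      (fun p => p.1 + p.2 = k)).card := by
    rcases le_or_gt k (2 * s - 1) with hk | hk
    · have : (Finset.range s).card ≤ ((Finset.range (2 * s) ×ˢ Finset.range (2 * s)).filter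
          (fun p => p.1 + p.2 = k)).card := by
        refine Finset.card_le_card_of_injOn (fun i => (i, k - i)) ?_ ?_
        · intro i hi
          simp only [Finset.coe_range, Set.mem_Iio] at hi
          simp only [Finset.coe_filter, Finset.mem_product, Finset.mem_range, Set.mem_ofPred_eq]
          omega
        · intro i _ j _ hij
          exact (Prod.mk.inj hij).1
      rwa [Finset.card_range] at this
    · have : (Finset.range s).card ≤ ((Finset.range (2 * s) ×ˢ Finset.range (2 * s)).filter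
          (fun p => p.1 + p.2 = k)).card := by
        refine Finset.card_le_card_of_injOn (fun i => (2 * s - 1 - i, k - (2 * s - 1 - i))) ?_ ?_
        · intro i hi
          simp only [Finset.coe_range, Set.mem_Iio] at hi
          simp only [Finset.coe_filter, Finset.mem_product, Finset.mem_range, Set.mem_ofPred_eq]
          omega
        · intro i hi j hj hij
          simp only [Finset.coe_range, Set.mem_Iio] at hi hj
          have := (Prod.mk.inj hij).1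
          omega
      rwa [Finset.card_range] at this
  have hcard' : (s : ℝ) ≤ (((Finset.range (2 * s) ×ˢ Finset.range (2 * s)).filter
      (fun p => p.1 + p.2 = k)).card : ℝ) := by exact_mod_cast hcard
  have hs' : (0 : ℝ) < s := by exact_mod_cast hs
  unfold lsaW
  have e : (2 : ℝ) / ((2 * s : ℕ) : ℝ) = 1 / s := by push_cast; field_simp
  rw [e]
  calc (1 : ℝ) = 1 / s * s := by field_simp
    _ ≤ _ := mul_le_mul_of_nonneg_left hcard' (by positivity)

private theorem lsa_kernel (L : ℕ) (w : ℂ) :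
    ∑ k ∈ Finset.range (2 * L), (lsaW L k : ℂ) * w ^ k = 2 / L * (∑ j ∈ Finset.range L, w ^ j) ^ 2 := by
  classical
  have h1 : (∑ j ∈ Finset.range L, w ^ j) ^ 2 =
      ∑ p ∈ Finset.range L ×ˢ Finset.range L, w ^ (p.1 + p.2) := by
    rw [sq, Finset.sum_mul_sum, Finset.sum_product]
    refine Finset.sum_congr rfl fun i _ => Finset.sum_congr rfl fun j _ => ?_
    rw [pow_add]
  have h2 : ∑ p ∈ Finset.range L ×ˢ Finset.range L, w ^ (p.1 + p.2) =
      ∑ k ∈ Finset.range (2 * L), ∑ p ∈ (Finset.range L ×ˢ Finset.range L).filter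
        (fun p => p.1 + p.2 = k), w ^ (p.1 + p.2) := by
    symm
    refine Finset.sum_fiberwise_of_maps_to (fun p hp => ?_) _
    rw [Finset.mem_product, Finset.mem_range, Finset.mem_range] at hp
    rw [Finset.mem_range]
    omega
  rw [h1, h2, Finset.mul_sum]
  refine Finset.sum_congr rfl fun k _ => ?_
  have h3 : ∑ p ∈ (Finset.range L ×ˢ Finset.range L).filter (fun p => p.1 + p.2 = k),
      w ^ (p.1 + p.2) = (((Finset.range L ×ˢ Finset.range L).filter
        (fun p => p.1 + p.2 = k)).card : ℂ) * w ^ k := by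
    rw [Finset.sum_congr rfl fun p hp => by rw [(Finset.mem_filter.1 hp).2], Finset.sum_const,
      nsmul_eq_mul]
  rw [h3]
  unfold lsaW
  push_cast
  ring

/-- the bound of the kernel in terms of the cell -/
private def lsaH (L Q j : ℕ) : ℝ := if j = 0 then 2 * L else (Q : ℝ) ^ 2 / (2 * L * (j : ℝ) ^ 2)

private theorem lsa_H_nonneg (L Q j : ℕ) : 0 ≤ lsaH L Q j := by
  unfold lsaH
  split_ifs <;> positivity

private theorem lsa_H_sum (L Q : ℕ) (hL : 0 < L) (n : ℕ) :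
    ∑ j ∈ Finset.range n, lsaH L Q j ≤ 2 * L + (Q : ℝ) ^ 2 / L := by
  have hL' : (0 : ℝ) < L := by exact_mod_cast hL
  cases n with
  | zero => simp only [Finset.range_zero, Finset.sum_empty]; positivity
  | succ n =>
    rw [Finset.sum_range_succ', add_comm]
    refine add_le_add (by unfold lsaH; rw [if_pos rfl]) ?_
    have h1 : ∀ j ∈ Finset.range n, lsaH L Q (j + 1) =
        (Q : ℝ) ^ 2 / (2 * L) * (((j + 1 : ℕ) : ℝ) ^ 2)⁻¹ := by
      intro j _
      unfold lsaH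
      rw [if_neg (Nat.succ_ne_zero j)]
      field_simp
    rw [Finset.sum_congr rfl h1, ← Finset.mul_sum]
    have h2 : ∑ j ∈ Finset.range n, (((j + 1 : ℕ) : ℝ) ^ 2)⁻¹ ≤ 2 := by
      have h3 := sum_Ioo_inv_sq_le (α := ℝ) 0 (n + 1)
      have h4 : ∑ i ∈ Finset.Ioo 0 (n + 1), ((i : ℝ) ^ 2)⁻¹ =
          ∑ j ∈ Finset.range n, (((j + 1 : ℕ) : ℝ) ^ 2)⁻¹ := by
        have h5 := Finset.sum_Ico_add' (fun i : ℕ => ((i : ℝ) ^ 2)⁻¹) 0 n 1
        rw [Finset.range_eq_Ico, h5]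
        refine Finset.sum_congr ?_ fun _ _ => rfl
        ext i
        rw [Finset.mem_Ioo, Finset.mem_Ico]
        omega
      rw [h4] at h3
      norm_num at h3
      exact_mod_cast h3
    calc (Q : ℝ) ^ 2 / (2 * L) * ∑ j ∈ Finset.range n, (((j + 1 : ℕ) : ℝ) ^ 2)⁻¹
        ≤ (Q : ℝ) ^ 2 / (2 * L) * 2 := mul_le_mul_of_nonneg_left h2 (by positivity)
      _ = (Q : ℝ) ^ 2 / L := by field_simp

private theorem lsa_kernel_le (L Q : ℕ) (hL : 0 < L) (hQ : 0 < Q) (y : ℝ) (hy0 : 0 ≤ y)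
    (hy1 : y < 1) :
    ‖∑ k ∈ Finset.range (2 * L), (lsaW L k : ℂ) *
      Complex.exp (Complex.I * ((2 * Real.pi * y : ℝ) : ℂ)) ^ k‖ ≤
      lsaH L Q ⌊y * Q⌋₊ + lsaH L Q (Q - 1 - ⌊y * Q⌋₊) := by
  have hL' : (0 : ℝ) < L := by exact_mod_cast hL
  have hQ' : (0 : ℝ) < Q := by exact_mod_cast hQ
  obtain ⟨k, hk⟩ : ∃ k : ℕ, k = ⌊y * Q⌋₊ := ⟨_, rfl⟩
  rw [← hk]
  have hyQ : 0 ≤ y * Q := by positivity
  have hk1 : (k : ℝ) ≤ y * Q := by rw [hk]; exact Nat.floor_le hyQ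
  have hk2 : y * Q < k + 1 := by rw [hk]; exact Nat.lt_floor_add_one _
  have hkQ : k < Q := by
    have : (k : ℝ) < Q := lt_of_le_of_lt hk1 (by nlinarith)
    exact_mod_cast this
  rw [lsa_kernel, norm_mul, norm_pow]
  have e1 : ‖(2 : ℂ) / (L : ℂ)‖ = 2 / L := by
    rw [norm_div, Complex.norm_natCast]
    simp
  rw [e1]
  have htriv : ‖∑ j ∈ Finset.range L, Complex.exp (Complex.I * ((2 * Real.pi * y : ℝ) : ℂ)) ^ j‖ ≤
      L := by
    refine (norm_sum_le _ _).trans ?_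
    refine (Finset.sum_le_card_nsmul _ _ 1 fun j _ => ?_).trans (by simp)
    rw [norm_pow, mul_comm, Complex.norm_exp_ofReal_mul_I, one_pow]
  have hbase : ∀ j : ℕ, (∀ _ : 0 < j, (j : ℝ) / Q ≤ min y (1 - y)) →
      2 / (L : ℝ) * ‖∑ j ∈ Finset.range L,
        Complex.exp (Complex.I * ((2 * Real.pi * y : ℝ) : ℂ)) ^ j‖ ^ 2 ≤ lsaH L Q j := by
    intro j hj
    unfold lsaH
    split_ifs with h0
    · calc 2 / (L : ℝ) * ‖_‖ ^ 2 ≤ 2 / L * L ^ 2 :=
            mul_le_mul_of_nonneg_left (pow_le_pow_left₀ (norm_nonneg _) htriv 2) (by positivity)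
        _ = 2 * L := by field_simp
    · have hj0 : 0 < j := Nat.pos_of_ne_zero h0
      have hj0' : (0 : ℝ) < j := by exact_mod_cast hj0
      have h1 := hj hj0
      have h2 : 0 < (j : ℝ) / Q := by positivity
      have hmin : 0 < min y (1 - y) := lt_of_lt_of_le h2 h1
      have hy0' : 0 < y := lt_of_lt_of_le hmin (min_le_left _ _)
      have h3 := lsa_geom y hy0' hy1 L
      have h4 : 1 / (2 * min y (1 - y)) ≤ Q / (2 * j) := by
        calc 1 / (2 * min y (1 - y)) ≤ 1 / (2 * (j / Q)) :=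
              one_div_le_one_div_of_le (by positivity) (by linarith)
          _ = Q / (2 * j) := by field_simp
      calc 2 / (L : ℝ) * ‖_‖ ^ 2 ≤ 2 / L * (Q / (2 * j)) ^ 2 :=
            mul_le_mul_of_nonneg_left (pow_le_pow_left₀ (norm_nonneg _) (h3.trans h4) 2)
              (by positivity)
        _ = _ := by field_simp
  rcases le_total k (Q - 1 - k) with h | h
  · refine (hbase k fun _ => ?_).trans (le_add_of_nonneg_right (lsa_H_nonneg _ _ _))
    refine le_min ?_ ?_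
    · rw [div_le_iff₀ hQ']; exact hk1
    · have h5 : ((2 * k + 1 : ℕ) : ℝ) ≤ Q := by exact_mod_cast (by omega : 2 * k + 1 ≤ Q)
      push_cast at h5
      rw [div_le_iff₀ hQ']
      nlinarith
  · refine (hbase (Q - 1 - k) fun _ => ?_).trans (le_add_of_nonneg_left (lsa_H_nonneg _ _ _))
    have h6 : ((Q - 1 - k : ℕ) : ℝ) = Q - 1 - k := by
      rw [Nat.cast_sub (by omega), Nat.cast_sub (by omega)]
      simp
    have h5 : (Q : ℝ) ≤ ((2 * k + 1 : ℕ) : ℝ) := by exact_mod_cast (by omega : Q ≤ 2 * k + 1)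
    push_cast at h5
    refine le_min ?_ ?_
    · rw [div_le_iff₀ hQ', h6]; linarith
    · rw [div_le_iff₀ hQ', h6]; nlinarith

private theorem lsa_inj {R : ℕ} {r₁ b₁ r₂ b₂ : ℕ} (hr₁ : 1 ≤ r₁) (hr₁R : r₁ ≤ R) (hr₂ : 1 ≤ r₂)
    (hr₂R : r₂ ≤ R) (hb₁ : b₁ < r₁) (hb₂ : b₂ < r₂) (hc₁ : Nat.Coprime b₁ r₁)
    (hc₂ : Nat.Coprime b₂ r₂) (x : ℝ)
    (h : ⌊Int.fract (x - (b₁ : ℝ) / r₁) * ((R ^ 2 : ℕ) : ℝ)⌋₊ =
      ⌊Int.fract (x - (b₂ : ℝ) / r₂) * ((R ^ 2 : ℕ) : ℝ)⌋₊) : r₁ = r₂ ∧ b₁ = b₂ := by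
  have hRpos : (0 : ℝ) < ((R ^ 2 : ℕ) : ℝ) := by
    have hR0 : 0 < R := by omega
    have : 0 < R ^ 2 := by positivity
    exact_mod_cast this
  obtain ⟨y₁, hy₁⟩ : ∃ y, y = Int.fract (x - (b₁ : ℝ) / r₁) := ⟨_, rfl⟩
  obtain ⟨y₂, hy₂⟩ : ∃ y, y = Int.fract (x - (b₂ : ℝ) / r₂) := ⟨_, rfl⟩
  rw [← hy₁, ← hy₂] at h
  have hn₁ : 0 ≤ y₁ * ((R ^ 2 : ℕ) : ℝ) := by
    rw [hy₁]
    exact mul_nonneg (Int.fract_nonneg _) hRpos.le
  have hn₂ : 0 ≤ y₂ * ((R ^ 2 : ℕ) : ℝ) := by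
    rw [hy₂]
    exact mul_nonneg (Int.fract_nonneg _) hRpos.le
  have a1 := Nat.floor_le hn₁
  have a2 := Nat.lt_floor_add_one (y₁ * ((R ^ 2 : ℕ) : ℝ))
  have a3 := Nat.floor_le hn₂
  have a4 := Nat.lt_floor_add_one (y₂ * ((R ^ 2 : ℕ) : ℝ))
  rw [← h] at a3 a4
  have hdiff : |y₁ - y₂| * ((R ^ 2 : ℕ) : ℝ) < 1 := by
    have e0 : |y₁ - y₂| * ((R ^ 2 : ℕ) : ℝ) = |(y₁ - y₂) * ((R ^ 2 : ℕ) : ℝ)| := by
      rw [abs_mul, abs_of_pos hRpos]
    rw [e0, abs_lt]
    constructor <;> nlinarith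
  obtain ⟨n, hn⟩ : ∃ n : ℤ, n = ⌊x - (b₁ : ℝ) / r₁⌋ - ⌊x - (b₂ : ℝ) / r₂⌋ := ⟨_, rfl⟩
  have e1 : y₁ - y₂ = (b₂ : ℝ) / r₂ - (b₁ : ℝ) / r₁ - n := by
    rw [hy₁, hy₂, Int.fract, Int.fract, hn]
    push_cast
    ring
  have h1 : (0 : ℝ) < r₁ := by exact_mod_cast hr₁
  have h2 : (0 : ℝ) < r₂ := by exact_mod_cast hr₂
  have hle : (r₁ : ℝ) * r₂ ≤ ((R ^ 2 : ℕ) : ℝ) := by
    have : r₁ * r₂ ≤ R ^ 2 := by rw [sq]; exact Nat.mul_le_mul hr₁R hr₂R
    exact_mod_cast this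
  have hz : ((b₂ : ℤ) * r₁ - b₁ * r₂ - n * (r₁ * r₂)) = 0 := by
    have e2 : (((b₂ : ℤ) * r₁ - b₁ * r₂ - n * (r₁ * r₂) : ℤ) : ℝ) = (y₁ - y₂) * (r₁ * r₂) := by
      rw [e1]
      push_cast
      field_simp
    have e3 : |(((b₂ : ℤ) * r₁ - b₁ * r₂ - n * (r₁ * r₂) : ℤ) : ℝ)| < 1 := by
      rw [e2, abs_mul, abs_of_pos (mul_pos h1 h2)]
      exact lt_of_le_of_lt (mul_le_mul_of_nonneg_left hle (abs_nonneg _)) hdiff
    rw [← Int.cast_abs] at e3
    have e4 : |(b₂ : ℤ) * r₁ - b₁ * r₂ - n * (r₁ * r₂)| < 1 := by exact_mod_cast e3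
    exact Int.abs_lt_one_iff.1 e4
  have hd1 : (r₁ : ℤ) ∣ b₁ * r₂ := ⟨b₂ - n * r₂, by linear_combination -hz⟩
  have hd2 : (r₂ : ℤ) ∣ b₂ * r₁ := ⟨b₁ + n * r₁, by linear_combination hz⟩
  have hd1' : r₁ ∣ r₂ := by
    have : r₁ ∣ b₁ * r₂ := by exact_mod_cast hd1
    exact (Nat.Coprime.dvd_of_dvd_mul_left hc₁.symm this)
  have hd2' : r₂ ∣ r₁ := by
    have : r₂ ∣ b₂ * r₁ := by exact_mod_cast hd2
    exact (Nat.Coprime.dvd_of_dvd_mul_left hc₂.symm this)
  have hr : r₁ = r₂ := Nat.dvd_antisymm hd1' hd2'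
  subst hr
  refine ⟨rfl, ?_⟩
  have hr0 : (r₁ : ℤ) ≠ 0 := by omega
  have h3 : (b₂ : ℤ) = b₁ + n * r₁ := by
    refine mul_right_cancel₀ hr0 ?_
    linear_combination hz
  have hn0 : n = 0 := by
    by_contra hne
    rcases lt_or_gt_of_ne hne with hlt | hgt
    · have : n * (r₁ : ℤ) ≤ -1 * r₁ := mul_le_mul_of_nonneg_right (by omega) (by omega)
      omega
    · have : 1 * (r₁ : ℤ) ≤ n * r₁ := mul_le_mul_of_nonneg_right (by omega) (by omega)
      omega
  rw [hn0] at h3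
  omega

theorem large_sieve_add (R M0 M : ℕ) (a : ℕ → ℂ) :
    ∑ r ∈ Finset.Icc 1 R, ∑ b ∈ (Finset.range r).filter (fun b => Nat.Coprime b r),
      ‖∑ n ∈ Finset.Ico M0 (M0 + M), a n * Complex.exp (2 * Real.pi * Complex.I * (b * n / r))‖ ^ 2 ≤
      8 * (M + (R : ℝ) ^ 2) * ∑ n ∈ Finset.Ico M0 (M0 + M), ‖a n‖ ^ 2 := by
  classical
  rcases Nat.eq_zero_or_pos M with hM | hM
  · subst hM; simp
  rcases Nat.eq_zero_or_pos R with hR | hR
  · subst hR
    simp only [Finset.Icc_eq_empty_of_lt Nat.one_pos, Finset.sum_empty]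
    positivity
  obtain ⟨Q, hQ⟩ : ∃ Q : ℕ, Q = R ^ 2 := ⟨_, rfl⟩
  have hQ0 : 0 < Q := by rw [hQ]; positivity
  obtain ⟨s, hs⟩ : ∃ s : ℕ, s = (max M Q + 1) / 2 := ⟨_, rfl⟩
  have hsM : M ≤ 2 * s := by have := le_max_left M Q; omega
  have hsQ : Q ≤ 2 * s := by have := le_max_right M Q; omega
  have hs2 : 2 * s ≤ M + Q := by
    have : max M Q ≤ M + Q - 1 := max_le (by omega) (by omega)
    omega
  have hs0 : 0 < s := by omega
  obtain ⟨L, hL⟩ : ∃ L : ℕ, L = 2 * s := ⟨_, rfl⟩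
  have hL0 : 0 < L := by omega
  have hL0' : (0 : ℝ) < L := by exact_mod_cast hL0
  obtain ⟨A, hA⟩ : ∃ A : Finset (Σ _ : ℕ, ℕ), A = (Finset.Icc 1 R).sigma
    (fun r => (Finset.range r).filter (fun b => Nat.Coprime b r)) := ⟨_, rfl⟩
  have hmemA : ∀ v ∈ A, (1 ≤ v.1 ∧ v.1 ≤ R) ∧ v.2 < v.1 ∧ Nat.Coprime v.2 v.1 := by
    intro v hv
    rw [hA, Finset.mem_sigma, Finset.mem_Icc, Finset.mem_filter, Finset.mem_range] at hv
    exact hv
  obtain ⟨ψ, hψ⟩ : ∃ ψ : (Σ _ : ℕ, ℕ) → ℕ → ℂ, ψ = fun v k =>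
    Complex.exp (Complex.I * ((2 * Real.pi * ((v.2 : ℝ) / v.1) : ℝ) : ℂ)) ^ k := ⟨_, rfl⟩
  obtain ⟨c, hc⟩ : ∃ c : ℕ → ℂ, c = fun k => if s ≤ k ∧ k < s + M then a (M0 + (k - s)) else 0 :=
    ⟨_, rfl⟩
  obtain ⟨D, hD⟩ : ∃ D : ℝ, D = 2 * (2 * L + (Q : ℝ) ^ 2 / L) := ⟨_, rfl⟩
  have hD0 : 0 ≤ D := by rw [hD]; positivity
  have hDle : D ≤ 8 * (M + (R : ℝ) ^ 2) := by
    have hQR : (R : ℝ) ^ 2 = Q := by rw [hQ]; push_cast; rfl
    have e1 : (Q : ℝ) ^ 2 / L ≤ Q := by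
      rw [div_le_iff₀ hL0', sq]
      have : (Q : ℝ) ≤ L := by rw [hL]; exact_mod_cast hsQ
      exact mul_le_mul_of_nonneg_left this (Nat.cast_nonneg _)
    have e2 : (L : ℝ) ≤ M + Q := by rw [hL]; exact_mod_cast hs2
    have e3 : (0 : ℝ) ≤ M := Nat.cast_nonneg _
    have e4 : (0 : ℝ) ≤ Q := Nat.cast_nonneg _
    rw [hD, hQR]
    linarith
  have hdual := Pool.Agent.Work.Vino.dual A (Finset.range (2 * L)) ψ (lsaW L) c
    (fun h _ => lsa_w_nonneg L h) (fun k _ => by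
      rw [hc]
      simp only
      split_ifs with h
      · right
        rw [hL]
        exact lsa_w_one s k hs0 h.1 (by omega)
      · exact Or.inl rfl) D hD0 (by
      intro v hv
      obtain ⟨κ, hκ⟩ : ∃ κ : (Σ _ : ℕ, ℕ) → ℕ, κ = fun v' =>
        ⌊Int.fract ((v.2 : ℝ) / v.1 - (v'.2 : ℝ) / v'.1) * (Q : ℝ)⌋₊ := ⟨_, rfl⟩
      have hbd : ∀ v' ∈ A, ‖∑ h ∈ Finset.range (2 * L), (lsaW L h : ℂ) *
          (ψ v h * (starRingEnd ℂ) (ψ v' h))‖ ≤ lsaH L Q (κ v') + lsaH L Q (Q - 1 - κ v') := by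
        intro v' _
        have h1 := lsa_kernel_le L Q hL0 hQ0 (Int.fract ((v.2 : ℝ) / v.1 - (v'.2 : ℝ) / v'.1))
          (Int.fract_nonneg _) (Int.fract_lt_one _)
        rw [hκ]
        refine le_trans (le_of_eq ?_) h1
        congr 1
        refine Finset.sum_congr rfl fun h _ => ?_
        congr 1
        rw [hψ]
        simp only
        rw [map_pow (starRingEnd ℂ), ← mul_pow]
        congr 1
        rw [← Complex.exp_conj, ← Complex.exp_add]
        rw [Complex.exp_eq_exp_iff_exists_int]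
        refine ⟨⌊(v.2 : ℝ) / v.1 - (v'.2 : ℝ) / v'.1⌋, ?_⟩
        rw [map_mul (starRingEnd ℂ), Complex.conj_I, Complex.conj_ofReal, Int.fract]
        push_cast
        ring
      have hinj : Set.InjOn κ (A : Set (Σ _ : ℕ, ℕ)) := by
        intro v₁ hv₁ v₂ hv₂ he
        obtain ⟨⟨p1, p2⟩, p3, p4⟩ := hmemA v₁ hv₁
        obtain ⟨⟨q1, q2⟩, q3, q4⟩ := hmemA v₂ hv₂
        rw [hκ] at he
        simp only [hQ] at he
        have := lsa_inj p1 p2 q1 q2 p3 q3 p4 q4 ((v.2 : ℝ) / v.1) he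
        obtain ⟨r₁, b₁⟩ := v₁
        obtain ⟨r₂, b₂⟩ := v₂
        obtain ⟨e1, e2⟩ := this
        simp only at e1 e2
        subst e1 e2
        rfl
      have hrange : A.image κ ⊆ Finset.range Q := by
        intro k hk
        rw [Finset.mem_image] at hk
        obtain ⟨v', _, rfl⟩ := hk
        rw [Finset.mem_range, hκ]
        have hQ' : (0 : ℝ) < Q := by exact_mod_cast hQ0
        have h1 := Int.fract_lt_one ((v.2 : ℝ) / v.1 - (v'.2 : ℝ) / v'.1)
        have h2 := Int.fract_nonneg ((v.2 : ℝ) / v.1 - (v'.2 : ℝ) / v'.1)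
        exact (Nat.floor_lt (by positivity)).2 (by nlinarith)
      calc ∑ v' ∈ A, ‖∑ h ∈ Finset.range (2 * L), (lsaW L h : ℂ) *
            (ψ v h * (starRingEnd ℂ) (ψ v' h))‖
          ≤ ∑ v' ∈ A, (lsaH L Q (κ v') + lsaH L Q (Q - 1 - κ v')) := Finset.sum_le_sum hbd
        _ = ∑ k ∈ A.image κ, (lsaH L Q k + lsaH L Q (Q - 1 - k)) := by
            rw [Finset.sum_image (fun x hx y hy h => hinj hx hy h)]
        _ ≤ ∑ k ∈ Finset.range Q, (lsaH L Q k + lsaH L Q (Q - 1 - k)) :=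
            Finset.sum_le_sum_of_subset_of_nonneg hrange fun k _ _ =>
              add_nonneg (lsa_H_nonneg _ _ _) (lsa_H_nonneg _ _ _)
        _ = 2 * ∑ k ∈ Finset.range Q, lsaH L Q k := by
            rw [Finset.sum_add_distrib, Finset.sum_range_reflect (fun k => lsaH L Q k) Q]
            ring
        _ ≤ D := by
            rw [hD]
            exact mul_le_mul_of_nonneg_left (lsa_H_sum L Q hL0 Q) (by norm_num))
  -- identify both sides
  have hshift : ∀ F : ℕ → ℂ, ∑ k ∈ Finset.range (2 * L), c k * F k =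
      ∑ n ∈ Finset.Ico M0 (M0 + M), a n * F (n - M0 + s) := by
    intro F
    symm
    refine Finset.sum_bij_ne_zero (fun n _ _ => n - M0 + s) ?_ ?_ ?_ ?_
    · intro n hn _
      rw [Finset.mem_Ico] at hn
      rw [Finset.mem_range]
      omega
    · intro n hn _ n' hn' _ h
      rw [Finset.mem_Ico] at hn hn'
      omega
    · intro k hk hne
      rw [hc] at hne
      simp only at hne
      by_cases h : s ≤ k ∧ k < s + M
      · refine ⟨M0 + (k - s), ?_, ?_, ?_⟩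
        · rw [Finset.mem_Ico]; omega
        · rw [if_pos h] at hne
          have : M0 + (k - s) - M0 + s = k := by omega
          rw [this]
          exact hne
        · omega
      · rw [if_neg h, zero_mul] at hne
        exact absurd rfl hne
    · intro n hn _
      rw [Finset.mem_Ico] at hn
      rw [hc]
      simp only
      have h : s ≤ n - M0 + s ∧ n - M0 + s < s + M := by omega
      rw [if_pos h]
      have : M0 + (n - M0 + s - s) = n := by omega
      rw [this]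
  have hnorm : ∑ k ∈ Finset.range (2 * L), ‖c k‖ ^ 2 =
      ∑ n ∈ Finset.Ico M0 (M0 + M), ‖a n‖ ^ 2 := by
    symm
    refine Finset.sum_bij_ne_zero (fun n _ _ => n - M0 + s) ?_ ?_ ?_ ?_
    · intro n hn _
      rw [Finset.mem_Ico] at hn
      rw [Finset.mem_range]
      omega
    · intro n hn _ n' hn' _ h
      rw [Finset.mem_Ico] at hn hn'
      omega
    · intro k hk hne
      rw [hc] at hne
      simp only at hne
      by_cases h : s ≤ k ∧ k < s + M
      · refine ⟨M0 + (k - s), ?_, ?_, ?_⟩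
        · rw [Finset.mem_Ico]; omega
        · rw [if_pos h] at hne
          exact hne
        · omega
      · rw [if_neg h, norm_zero] at hne
        norm_num at hne
    · intro n hn _
      rw [Finset.mem_Ico] at hn
      rw [hc]
      simp only
      have h : s ≤ n - M0 + s ∧ n - M0 + s < s + M := by omega
      rw [if_pos h]
      have : M0 + (n - M0 + s - s) = n := by omega
      rw [this]
  rw [hnorm] at hdual
  have hlhs : ∑ v ∈ A, ‖∑ h ∈ Finset.range (2 * L), c h * ψ v h‖ ^ 2 =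
      ∑ r ∈ Finset.Icc 1 R, ∑ b ∈ (Finset.range r).filter (fun b => Nat.Coprime b r),
      ‖∑ n ∈ Finset.Ico M0 (M0 + M), a n *
        Complex.exp (2 * Real.pi * Complex.I * (b * n / r))‖ ^ 2 := by
    rw [hA, Finset.sum_sigma]
    refine Finset.sum_congr rfl fun r hr => Finset.sum_congr rfl fun b _ => ?_
    rw [hshift]
    congr 1
    have hr0 : (r : ℂ) ≠ 0 := by
      rw [Finset.mem_Icc] at hr
      exact_mod_cast (by omega : r ≠ 0)
    obtain ⟨φ, hφ⟩ : ∃ φ : ℂ, φ = Complex.exp (((2 * Real.pi * ((b : ℝ) / r) *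
      ((s : ℝ) - M0) : ℝ) : ℂ) * Complex.I) := ⟨_, rfl⟩
    have hφ1 : ‖φ‖ = 1 := by rw [hφ, Complex.norm_exp_ofReal_mul_I]
    have e : ∑ n ∈ Finset.Ico M0 (M0 + M), a n * ψ ⟨r, b⟩ (n - M0 + s) =
        φ * ∑ n ∈ Finset.Ico M0 (M0 + M), a n *
        Complex.exp (2 * Real.pi * Complex.I * (b * n / r)) := by
      rw [Finset.mul_sum]
      refine Finset.sum_congr rfl fun n hn => ?_
      rw [Finset.mem_Ico] at hn
      rw [hψ, hφ]
      simp only
      rw [← Complex.exp_nat_mul]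
      have e1 : Complex.exp (((n - M0 + s : ℕ) : ℂ) *
          (Complex.I * ((2 * Real.pi * ((b : ℝ) / r) : ℝ) : ℂ))) =
          Complex.exp (((2 * Real.pi * ((b : ℝ) / r) * ((s : ℝ) - M0) : ℝ) : ℂ) * Complex.I) *
          Complex.exp (2 * Real.pi * Complex.I * (b * n / r)) := by
        rw [← Complex.exp_add]
        congr 1
        rw [Nat.cast_add, Nat.cast_sub hn.1]
        push_cast
        field_simp
        ring
      rw [e1]
      ring
    rw [e, norm_mul, hφ1, one_mul]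
  rw [hlhs] at hdual
  refine hdual.trans (mul_le_mul_of_nonneg_right hDle ?_)
  exact Finset.sum_nonneg fun n _ => by positivity

end BV

end
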