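import Pool.Agent.Work.BV.Defs

/-!
Module TRA (transform of a weight; size M).

`g(t) = psi(e^t)` is smooth and vanishes outside `[0, log 2]`; by the chain rule
`g' = e^t psi'(e^t)`, `g'' = e^{2t} psi'' + e^t psi'`, third derivative
`e^{3t} psi^{(3)} + 3 e^{2t} psi'' + e^t psi'`,
so `|g^{(i)}| ≤ 22 D` for `i ≤ 3`.
TR_smooth, TR_bound: the function `ξ ↦ TR psi (c + iξ) = ∫ g(t) e^{ct} e^{iξt} dt` is up to scaling
(`ξ = -2π w`) the Fourier transform of the compactly supported smooth function `g(t) e^{ct}`; its `j`-th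
derivative is `∫ (it)^j g(t) e^{(c+iξ)t} dt` (differentiation under the integral sign, or
`Real.iteratedDeriv_fourier`, `Real.contDiff_fourier`).  With
`G(t) = (it)^j g(t) e^{ct}`, `|G^{(i)}| ≤ C_j D` on `[0, log 2]` for `i ≤ 3` and `|c| ≤ 2`, three
integrations by parts give `|ξ|^3 ‖∫ G e^{iξt}‖ ≤ C_j D`, and trivially `‖∫ G e^{iξt}‖ ≤ C_j D`; and
`(1+|ξ|)^3 ≤ 8 max(1, |ξ|^3)`.
TR_inv: Fourier inversion for `g(t) e^{ct}` (continuous, integrable, with integrable Fourier transform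
by TR_bound with `j = 0`): `MeasureTheory.Integrable.fourierInv_fourier_eq` /
`Continuous.fourierInv_fourier_eq`, substitution `ξ = -2πw` (the transform of Mathlib is
`∫ e^{-2πivw} f(v) dv`).
TR_int: `∫ (1+|ξ|)^{-3} dξ ≤ 2` and TR_bound.
-/

set_option autoImplicit false

open Finset Filter MeasureTheory Topology
open scoped ContDiff ArithmeticFunction.Moebius ArithmeticFunction.vonMangoldt

noncomputable section

namespace BV

/-- the function behind the transform -/
private def traG (psi : ℝ → ℝ) (c t : ℝ) : ℂ := ((psi (Real.exp t) * Real.exp (c * t) : ℝ) : ℂ)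

private lemma traG_smooth {psi : ℝ → ℝ} {D : ℝ} (h : Bump psi D) (c : ℝ) :
    ContDiff ℝ ∞ (traG psi c) := by
  have h1 : ContDiff ℝ ∞ (fun t : ℝ => psi (Real.exp t) * Real.exp (c * t)) := by
    have := h.smooth
    fun_prop
  exact Complex.ofRealCLM.contDiff.comp h1

private lemma traG_zero {psi : ℝ → ℝ} {D : ℝ} (h : Bump psi D) (c t : ℝ)
    (ht : t ∉ Set.Icc (0:ℝ) (Real.log 2)) : traG psi c t = 0 := by
  have : psi (Real.exp t) = 0 := by
    apply h.zero
    rw [Set.mem_Icc, not_and_or, not_le, not_le] at ht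
    rcases ht with ht | ht
    · left
      have := Real.exp_le_one_iff.2 ht.le
      exact this
    · right
      have := Real.exp_lt_exp.2 ht
      rw [Real.exp_log (by norm_num)] at this
      exact this.le
  simp [traG, this]

private lemma traG_compact {psi : ℝ → ℝ} {D : ℝ} (h : Bump psi D) (c : ℝ) :
    HasCompactSupport (traG psi c) :=
  HasCompactSupport.intro isCompact_Icc (fun x hx => traG_zero h c x hx)

private lemma tra_eq (psi : ℝ → ℝ) (c ξ : ℝ) :
    TR psi (c + ξ * Complex.I) = FourierTransform.fourier (traG psi c) (-(1 / (2 * Real.pi)) * ξ) := by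
  rw [Real.fourier_real_eq_integral_exp_smul]
  unfold TR
  congr 1
  ext t
  unfold traG
  rw [smul_eq_mul]
  push_cast
  have hpi : (Real.pi : ℂ) ≠ 0 := by exact_mod_cast Real.pi_ne_zero
  rw [show (-2 * (Real.pi : ℂ) * t * (-(1 / (2 * Real.pi)) * ξ) * Complex.I) = ξ * t * Complex.I by
    field_simp]
  rw [show ((c : ℂ) + ξ * Complex.I) * t = c * t + ξ * t * Complex.I by ring, Complex.exp_add]
  ring

private lemma traG_int {psi : ℝ → ℝ} {D : ℝ} (h : Bump psi D) (c : ℝ) (n : ℕ) :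
    Integrable (fun x : ℝ => x ^ n • traG psi c x) := by
  have h1 : Continuous (fun x : ℝ => x ^ n • traG psi c x) :=
    (continuous_pow n).smul (traG_smooth h c).continuous
  refine h1.integrable_of_hasCompactSupport (HasCompactSupport.intro (K := Set.Icc (0:ℝ) (Real.log 2))
    isCompact_Icc (fun x hx => ?_))
  rw [traG_zero h c x hx, smul_zero]

private lemma tra_fsmooth {psi : ℝ → ℝ} {D : ℝ} (h : Bump psi D) (c : ℝ) :
    ContDiff ℝ ∞ (FourierTransform.fourier (traG psi c)) := by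
  apply Real.contDiff_fourier
  intro n _
  have := (traG_int h c n).norm
  refine this.congr (Eventually.of_forall fun x => ?_)
  simp

theorem TR_smooth {psi : ℝ → ℝ} {D : ℝ} (h : Bump psi D) (c : ℝ) :
    ContDiff ℝ ∞ (fun ξ : ℝ => TR psi (c + ξ * Complex.I)) := by
  simp only [tra_eq]
  have := tra_fsmooth h c
  exact this.comp (contDiff_const.mul contDiff_id)

/-- bound for three derivatives on the interval -/
private def traNB (M : ℝ) (f : ℝ → ℂ) : Prop :=
  ContDiff ℝ ∞ f ∧ ∀ i ≤ 3, ∀ t ∈ Set.Icc (0:ℝ) (Real.log 2), ‖iteratedFDeriv ℝ i f t‖ ≤ M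

private lemma traNB_nonneg {M : ℝ} {f : ℝ → ℂ} (h : traNB M f) : 0 ≤ M :=
  (norm_nonneg _).trans (h.2 0 (by norm_num) 0
    ⟨le_rfl, Real.log_nonneg (by norm_num)⟩)

private lemma traNB_mul {M N : ℝ} {f g : ℝ → ℂ} (hf : traNB M f) (hg : traNB N g) :
    traNB (8 * M * N) (fun t => f t * g t) := by
  refine ⟨hf.1.mul hg.1, fun i hi t ht => ?_⟩
  have hM := traNB_nonneg hf
  have hN := traNB_nonneg hg
  have h1 := norm_iteratedFDeriv_mul_le (𝕜 := ℝ) (N := ∞) hf.1 hg.1 t (n := i)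
    (by exact_mod_cast le_top)
  refine h1.trans ?_
  calc ∑ k ∈ Finset.range (i + 1), (i.choose k : ℝ) * ‖iteratedFDeriv ℝ k f t‖ *
        ‖iteratedFDeriv ℝ (i - k) g t‖
      ≤ ∑ k ∈ Finset.range (i + 1), (i.choose k : ℝ) * M * N := by
        apply Finset.sum_le_sum
        intro k hk
        have hk' : k ≤ i := by
          have := Finset.mem_range.1 hk
          omega
        have a := hf.2 k (by omega) t ht
        have b := hg.2 (i - k) (by omega) t ht
        have hc : (0:ℝ) ≤ (i.choose k : ℝ) := Nat.cast_nonneg _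
        gcongr
    _ = (2:ℝ) ^ i * M * N := by
        rw [← Finset.sum_mul, ← Finset.sum_mul]
        congr 2
        exact_mod_cast Nat.sum_range_choose i
    _ ≤ 8 * M * N := by
        have : (2:ℝ) ^ i ≤ 2 ^ 3 := pow_le_pow_right₀ (by norm_num) hi
        have h8 : (2:ℝ) ^ 3 = 8 := by norm_num
        rw [h8] at this
        gcongr

private lemma traNB_exists {f : ℝ → ℂ} (hf : ContDiff ℝ ∞ f) : ∃ M : ℝ, 0 ≤ M ∧ traNB M f := by
  have h1 : ∀ i : ℕ, ∃ C : ℝ, ∀ t ∈ Set.Icc (0:ℝ) (Real.log 2), ‖iteratedFDeriv ℝ i f t‖ ≤ C := by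
    intro i
    have hc : Continuous (iteratedFDeriv ℝ i f) :=
      hf.continuous_iteratedFDeriv (by exact_mod_cast le_top)
    exact isCompact_Icc.exists_bound_of_continuousOn hc.continuousOn
  choose C hC using h1
  have hn : ∀ i, 0 ≤ C i := fun i => (norm_nonneg _).trans (hC i 0
    ⟨le_rfl, Real.log_nonneg (by norm_num)⟩)
  refine ⟨∑ i ∈ Finset.range 4, C i, Finset.sum_nonneg fun i _ => hn i, hf, fun i hi t ht => ?_⟩
  refine (hC i t ht).trans ?_
  exact Finset.single_le_sum (f := C) (fun i _ => hn i) (Finset.mem_range.2 (by omega))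

private lemma traNB_psi {psi : ℝ → ℝ} {D : ℝ} (h : Bump psi D) :
    traNB (48 * D) (fun t : ℝ => ((psi (Real.exp t) : ℝ) : ℂ)) := by
  have hs : ContDiff ℝ ∞ (fun t : ℝ => psi (Real.exp t)) := by
    have := h.smooth
    fun_prop
  have hD : 0 ≤ D := (abs_nonneg _).trans (h.nrm 0 (by norm_num) 0)
  refine ⟨Complex.ofRealCLM.contDiff.comp hs, fun i hi t ht => ?_⟩
  have e1 : ‖iteratedFDeriv ℝ i (fun t : ℝ => ((psi (Real.exp t) : ℝ) : ℂ)) t‖ =
      ‖iteratedFDeriv ℝ i (fun t : ℝ => psi (Real.exp t)) t‖ := by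
    exact LinearIsometry.norm_iteratedFDeriv_comp_left Complex.ofRealLI
      (hs.contDiffAt (x := t)) (by exact_mod_cast le_top)
  rw [e1]
  have h2 := norm_iteratedFDeriv_comp_le (𝕜 := ℝ) (N := ∞) (g := psi) (f := Real.exp) (n := i)
    (C := D) (D := 2) h.smooth Real.contDiff_exp (by exact_mod_cast le_top) t
    (fun k hk => by
      rw [norm_iteratedFDeriv_eq_norm_iteratedDeriv, Real.norm_eq_abs]
      exact h.nrm k (by omega) _)
    (fun k hk1 hk => by
      rw [norm_iteratedFDeriv_eq_norm_iteratedDeriv, iteratedDeriv_eq_iterate, Real.iter_deriv_exp,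
        Real.norm_eq_abs, abs_of_pos (Real.exp_pos _)]
      have h3 : Real.exp t ≤ 2 := by
        have := Real.exp_le_exp.2 ht.2
        rwa [Real.exp_log (by norm_num)] at this
      have h4 : (2:ℝ) ^ 1 ≤ 2 ^ k := pow_le_pow_right₀ (by norm_num) hk1
      linarith)
  refine h2.trans ?_
  have h5 : (2:ℝ) ^ i ≤ 8 := by
    have : (2:ℝ) ^ i ≤ 2 ^ 3 := pow_le_pow_right₀ (by norm_num) hi
    linarith
  have h6 : ((Nat.factorial i : ℕ) : ℝ) ≤ 6 := by
    have : Nat.factorial i ≤ Nat.factorial 3 := Nat.factorial_le hi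
    exact_mod_cast this
  calc ((Nat.factorial i : ℕ) : ℝ) * D * 2 ^ i ≤ 6 * D * 8 := by gcongr
    _ = 48 * D := by ring

private lemma traNB_exp {c : ℝ} (hc : |c| ≤ 2) :
    traNB 32 (fun t : ℝ => ((Real.exp (c * t) : ℝ) : ℂ)) := by
  have hs : ContDiff ℝ ∞ (fun t : ℝ => Real.exp (c * t)) := by fun_prop
  refine ⟨Complex.ofRealCLM.contDiff.comp hs, fun i hi t ht => ?_⟩
  have e1 : ‖iteratedFDeriv ℝ i (fun t : ℝ => ((Real.exp (c * t) : ℝ) : ℂ)) t‖ =
      ‖iteratedFDeriv ℝ i (fun t : ℝ => Real.exp (c * t)) t‖ := by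
    exact LinearIsometry.norm_iteratedFDeriv_comp_left Complex.ofRealLI
      (hs.contDiffAt (x := t)) (by exact_mod_cast le_top)
  rw [e1, norm_iteratedFDeriv_eq_norm_iteratedDeriv,
    iteratedDeriv_comp_const_mul (Real.contDiff_exp.of_le (by exact_mod_cast le_top)) c,
    iteratedDeriv_eq_iterate, Real.iter_deriv_exp, norm_mul, norm_pow, Real.norm_eq_abs,
    Real.norm_eq_abs, abs_of_pos (Real.exp_pos _)]
  have h1 : c * t ≤ 2 * Real.log 2 := by
    calc c * t ≤ |c| * t := by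
          apply mul_le_mul_of_nonneg_right (le_abs_self c) ht.1
      _ ≤ 2 * Real.log 2 := by
          apply mul_le_mul hc ht.2 ht.1 (by norm_num)
  have h2 : Real.exp (c * t) ≤ 4 := by
    calc Real.exp (c * t) ≤ Real.exp (2 * Real.log 2) := Real.exp_le_exp.2 h1
      _ = 4 := by
          rw [two_mul, Real.exp_add, Real.exp_log (by norm_num)]
          norm_num
  have h3 : |c| ^ i ≤ 8 := by
    calc |c| ^ i ≤ 2 ^ i := pow_le_pow_left₀ (abs_nonneg _) hc i
      _ ≤ 2 ^ 3 := pow_le_pow_right₀ (by norm_num) hi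
      _ = 8 := by norm_num
  calc |c| ^ i * Real.exp (c * t) ≤ 8 * 4 :=
        mul_le_mul h3 h2 (Real.exp_pos _).le (by norm_num)
    _ = 32 := by norm_num

private lemma tra_decay {H : ℝ → ℂ} {M : ℝ} (hH : traNB M H)
    (h0 : ∀ t, t ∉ Set.Icc (0:ℝ) (Real.log 2) → H t = 0) (ξ : ℝ) :
    ‖FourierTransform.fourier H (-(1 / (2 * Real.pi)) * ξ)‖ ≤ 8 * M / (1 + |ξ|) ^ 3 := by
  have hM := traNB_nonneg hH
  have hcs : HasCompactSupport H := HasCompactSupport.intro isCompact_Icc h0
  have hts : tsupport H ⊆ Set.Icc (0:ℝ) (Real.log 2) := by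
    apply closure_minimal _ isClosed_Icc
    intro t ht
    by_contra hcon
    exact ht (h0 t hcon)
  have hz : ∀ i : ℕ, ∀ t, t ∉ Set.Icc (0:ℝ) (Real.log 2) → iteratedDeriv i H t = 0 := by
    intro i t ht
    have : iteratedFDeriv ℝ i H t = 0 := by
      by_contra hcon
      exact ht (hts (support_iteratedFDeriv_subset (𝕜 := ℝ) i hcon))
    rw [← norm_eq_zero, ← norm_iteratedFDeriv_eq_norm_iteratedDeriv, this, norm_zero]
  have hcont : ∀ i : ℕ, Continuous (iteratedDeriv i H) := fun i =>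
    hH.1.continuous_iteratedDeriv i (by exact_mod_cast le_top)
  have hint : ∀ i : ℕ, Integrable (iteratedDeriv i H) := fun i =>
    (hcont i).integrable_of_hasCompactSupport (HasCompactSupport.intro isCompact_Icc (hz i))
  have hlog : Real.log 2 ≤ 1 := by
    have := Real.log_le_sub_one_of_pos (show (0:ℝ) < 2 by norm_num)
    linarith
  have hI : ∀ i ≤ 3, ∫ t : ℝ, ‖iteratedDeriv i H t‖ ≤ M := by
    intro i hi
    rw [← setIntegral_eq_integral_of_forall_compl_eq_zero (s := Set.Icc (0:ℝ) (Real.log 2))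
      (fun t ht => by rw [hz i t ht, norm_zero])]
    calc ∫ t in Set.Icc (0:ℝ) (Real.log 2), ‖iteratedDeriv i H t‖
        ≤ ∫ t in Set.Icc (0:ℝ) (Real.log 2), M := by
          apply setIntegral_mono_on ((hint i).norm.integrableOn) _ measurableSet_Icc
          · intro t ht
            rw [← norm_iteratedFDeriv_eq_norm_iteratedDeriv]
            exact hH.2 i hi t ht
          · exact integrableOn_const (by simp)
      _ = Real.log 2 * M := by
          rw [setIntegral_const]
          simp [Real.log_nonneg]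
      _ ≤ M := by nlinarith
  have hfb : ∀ i ≤ 3, ∀ w : ℝ, ‖FourierTransform.fourier (iteratedDeriv i H) w‖ ≤ M := by
    intro i hi w
    rw [Real.fourier_real_eq_integral_exp_smul]
    refine (norm_integral_le_integral_norm _).trans ?_
    simp only [norm_smul, Complex.norm_exp_ofReal_mul_I, one_mul]
    exact hI i hi
  have hF := Real.fourier_iteratedDeriv (N := (3 : ℕ∞)) (n := 3)
    (hH.1.of_le (by exact_mod_cast le_top)) (fun n _ => hint n) le_rfl
  have hF' := congrFun hF (-(1 / (2 * Real.pi)) * ξ)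
  have h3 := hfb 3 le_rfl (-(1 / (2 * Real.pi)) * ξ)
  rw [hF', norm_smul, norm_pow, norm_mul, norm_mul, norm_mul, Complex.norm_I, Complex.norm_real,
    Complex.norm_real, Complex.norm_ofNat, Real.norm_eq_abs, Real.norm_eq_abs, abs_mul, abs_neg,
    abs_of_pos Real.pi_pos, abs_of_pos (by positivity : (0:ℝ) < 1 / (2 * Real.pi)), mul_one,
    show (2:ℝ) * Real.pi * (1 / (2 * Real.pi) * |ξ|) = |ξ| by
      have := Real.pi_ne_zero
      field_simp] at h3
  have h0' := hfb 0 (by norm_num) (-(1 / (2 * Real.pi)) * ξ)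
  rw [iteratedDeriv_zero] at h0'
  rw [le_div_iff₀ (by positivity)]
  set F := ‖FourierTransform.fourier H (-(1 / (2 * Real.pi)) * ξ)‖ with hFdef
  have hF0 : 0 ≤ F := norm_nonneg _
  have hx : 0 ≤ |ξ| := abs_nonneg ξ
  have hconv : (1 + |ξ|) ^ 3 ≤ 4 * (1 + |ξ| ^ 3) := by
    nlinarith [mul_nonneg hx (sq_nonneg (|ξ| - 1)), sq_nonneg (|ξ| - 1), mul_nonneg hx hx]
  calc F * (1 + |ξ|) ^ 3 ≤ F * (4 * (1 + |ξ| ^ 3)) := by gcongr
    _ = 4 * F + 4 * (|ξ| ^ 3 * F) := by ring
    _ ≤ 8 * M := by linarith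

theorem TR_bound (j : ℕ) : ∃ C : ℝ, 0 ≤ C ∧ ∀ (psi : ℝ → ℝ) (D : ℝ), Bump psi D →
    ∀ c ξ : ℝ, |c| ≤ 2 →
      ‖iteratedDeriv j (fun ξ : ℝ => TR psi (c + ξ * Complex.I)) ξ‖ ≤ C * D / (1 + |ξ|) ^ 3 := by
  obtain ⟨M, hM0, hM⟩ := traNB_exists (f := fun x : ℝ => (-2 * (Real.pi : ℂ) * Complex.I * x) ^ j)
    (by
      have : ContDiff ℝ ∞ (fun x : ℝ => (x : ℂ)) := Complex.ofRealCLM.contDiff
      exact (contDiff_const.mul this).pow j)
  refine ⟨8 * (8 * M * (8 * 48 * 32)), by positivity, ?_⟩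
  intro psi D h c ξ hc
  have hD : 0 ≤ D := (abs_nonneg _).trans (h.nrm 0 (by norm_num) 0)
  have hG : traNB (8 * (48 * D) * 32) (traG psi c) := by
    have := traNB_mul (traNB_psi h) (traNB_exp hc)
    have e : traG psi c = fun t : ℝ => ((psi (Real.exp t) : ℝ) : ℂ) * ((Real.exp (c * t) : ℝ) : ℂ) := by
      ext t
      unfold traG
      push_cast
      rfl
    rw [e]
    exact this
  have hH := traNB_mul hM hG
  have hdec := tra_decay hH (fun t ht => by rw [traG_zero h c t ht, mul_zero]) ξ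
  have e1 : (fun ξ : ℝ => TR psi (c + ξ * Complex.I)) =
      fun ξ : ℝ => FourierTransform.fourier (traG psi c) (-(1 / (2 * Real.pi)) * ξ) := by
    ext ξ
    exact tra_eq psi c ξ
  rw [e1, iteratedDeriv_comp_const_smul ((tra_fsmooth h c).of_le (by exact_mod_cast le_top))]
  simp only []
  rw [Real.iteratedDeriv_fourier (N := (j : ℕ∞)) (fun n _ => traG_int h c n) le_rfl, norm_smul]
  have ha : ‖(-(1 / (2 * Real.pi)) : ℝ) ^ j‖ ≤ 1 := by
    rw [norm_pow, norm_neg, Real.norm_eq_abs, abs_of_pos (by positivity)]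
    apply pow_le_one₀ (by positivity)
    rw [div_le_one (by positivity)]
    linarith [Real.pi_gt_three]
  simp only [smul_eq_mul]
  calc ‖(-(1 / (2 * Real.pi)) : ℝ) ^ j‖ *
        ‖FourierTransform.fourier (fun x : ℝ => (-2 * (Real.pi : ℂ) * Complex.I * x) ^ j *
          traG psi c x) (-(1 / (2 * Real.pi)) * ξ)‖
      ≤ 1 * (8 * (8 * M * (8 * (48 * D) * 32)) / (1 + |ξ|) ^ 3) := by gcongr
    _ = 8 * (8 * M * (8 * 48 * 32)) * D / (1 + |ξ|) ^ 3 := by ring

private lemma tra_int_two : Integrable (fun ξ : ℝ => 1 / (1 + |ξ|) ^ 2) ∧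
    ∫ ξ : ℝ, 1 / (1 + |ξ|) ^ 2 = 2 := by
  have h1 : Integrable (fun ξ : ℝ => 1 / (1 + |ξ|) ^ 2) := by
    have h0 : Integrable (fun x : ℝ => (1 + ‖x‖) ^ (-(2:ℝ))) :=
      integrable_one_add_norm (r := 2) (by simp)
    refine h0.congr (Eventually.of_forall fun x => ?_)
    simp only [Real.norm_eq_abs]
    rw [Real.rpow_neg (by positivity)]
    norm_num
  refine ⟨h1, ?_⟩
  have h2 := integral_comp_abs (f := fun x : ℝ => 1 / (1 + x) ^ 2)
  rw [h2]
  have h3 : ∫ x in Set.Ioi (0:ℝ), 1 / (1 + x) ^ 2 = 0 - (-(1 / (1 + 0 : ℝ))) := by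
    apply integral_Ioi_of_hasDerivAt_of_tendsto (f := fun x : ℝ => -(1 / (1 + x)))
    · apply ContinuousAt.continuousWithinAt
      have : (1 + (0:ℝ)) ≠ 0 := by norm_num
      fun_prop (disch := assumption)
    · intro x hx
      have hx' : (1 + x) ≠ 0 := by
        have : 0 < x := hx
        positivity
      have h4 : HasDerivAt (fun x : ℝ => 1 + x) 1 x := by
        simpa using (hasDerivAt_id x).const_add 1
      have h5 := (h4.inv hx').neg
      convert h5 using 1
      · ext y; simp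
      · field_simp
    · have := h1.integrableOn (s := Set.Ioi (0:ℝ))
      refine this.congr_fun ?_ measurableSet_Ioi
      intro x hx
      have : 0 < x := hx
      simp [abs_of_pos this]
    · have h6 : Tendsto (fun x : ℝ => 1 + x) atTop atTop :=
        tendsto_atTop_add_const_left _ _ tendsto_id
      have h7 := (tendsto_inv_atTop_zero.comp h6).neg
      simpa [Function.comp_def] using h7
  rw [h3]
  norm_num

theorem TR_int : ∃ C : ℝ, 0 ≤ C ∧ ∀ (psi : ℝ → ℝ) (D : ℝ), Bump psi D → ∀ c : ℝ, |c| ≤ 2 →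
    Integrable (fun ξ : ℝ => TR psi (c + ξ * Complex.I)) ∧
      ∫ ξ : ℝ, ‖TR psi (c + ξ * Complex.I)‖ ≤ C * D := by
  obtain ⟨C, hC, hb⟩ := TR_bound 0
  refine ⟨C * 2, by positivity, ?_⟩
  intro psi D h c hc
  have hD : 0 ≤ D := (abs_nonneg _).trans (h.nrm 0 (by norm_num) 0)
  have h1 : ∀ ξ : ℝ, ‖TR psi (c + ξ * Complex.I)‖ ≤ C * D * (1 / (1 + |ξ|) ^ 2) := by
    intro ξ
    have h2 := hb psi D h c ξ hc
    rw [iteratedDeriv_zero] at h2
    refine h2.trans ?_
    have hx : 0 ≤ |ξ| := abs_nonneg ξ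
    rw [div_eq_mul_one_div]
    have : (1 + |ξ|) ^ 2 ≤ (1 + |ξ|) ^ 3 := pow_le_pow_right₀ (by linarith) (by norm_num)
    gcongr
  have hi := tra_int_two.1.const_mul (C * D)
  have hcont : Continuous (fun ξ : ℝ => TR psi (c + ξ * Complex.I)) := (TR_smooth h c).continuous
  refine ⟨hi.mono' hcont.aestronglyMeasurable (Eventually.of_forall h1), ?_⟩
  calc ∫ ξ : ℝ, ‖TR psi (c + ξ * Complex.I)‖ ≤ ∫ ξ : ℝ, C * D * (1 / (1 + |ξ|) ^ 2) :=
        integral_mono_of_nonneg (Eventually.of_forall fun x => norm_nonneg _) hi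
          (Eventually.of_forall h1)
    _ = C * 2 * D := by
        rw [integral_const_mul, tra_int_two.2]
        ring

theorem TR_inv {psi : ℝ → ℝ} {D : ℝ} (h : Bump psi D) (c t : ℝ) :
    (psi (Real.exp t) : ℂ) = (1 / (2 * Real.pi)) * ∫ ξ : ℝ, TR psi (c + ξ * Complex.I) *
      Complex.exp (-((c + ξ * Complex.I) * t)) := by
  have hpi : (Real.pi : ℝ) ≠ 0 := Real.pi_ne_zero
  have hcont := (traG_smooth h c).continuous
  have hint : Integrable (traG psi c) := by simpa using traG_int h c 0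
  -- the transform is a Schwartz function
  have hFint : Integrable (FourierTransform.fourier (traG psi c)) := by
    obtain ⟨M, hM0, hM⟩ := traNB_exists (traG_smooth h c)
    have hdec := fun ξ => tra_decay hM (fun t ht => traG_zero h c t ht) ξ
    have h1 : Integrable (fun ξ : ℝ => FourierTransform.fourier (traG psi c)
        (-(1 / (2 * Real.pi)) * ξ)) := by
      have hi := tra_int_two.1.const_mul (8 * M)
      refine hi.mono' ?_ (Eventually.of_forall fun ξ => ?_)
      · exact ((tra_fsmooth h c).continuous.comp (continuous_const.mul continuous_id)).aestronglyMeasurable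
      · refine (hdec ξ).trans ?_
        have hx : 0 ≤ |ξ| := abs_nonneg ξ
        rw [div_eq_mul_one_div]
        have : (1 + |ξ|) ^ 2 ≤ (1 + |ξ|) ^ 3 := pow_le_pow_right₀ (by linarith) (by norm_num)
        gcongr
    exact (integrable_comp_mul_left_iff _ (by
      rw [neg_ne_zero]; positivity)).1 h1
  have hinv := Continuous.fourierInv_fourier_eq hcont hint hFint
  have hinv' := congrFun hinv t
  rw [Real.fourierInv_eq'] at hinv'
  have hsub := Measure.integral_comp_mul_left (fun w : ℝ => Complex.exp (2 * Real.pi * (w * t) * Complex.I) *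
    FourierTransform.fourier (traG psi c) w) (-(1 / (2 * Real.pi)))
  have e2 : ∫ w : ℝ, Complex.exp (2 * Real.pi * (w * t) * Complex.I) *
      FourierTransform.fourier (traG psi c) w = traG psi c t := by
    rw [← hinv']
    congr 1
    ext w
    rw [smul_eq_mul]
    congr 2
    simp
    ring
  rw [e2] at hsub
  have e3 : ∀ ξ : ℝ, TR psi (c + ξ * Complex.I) * Complex.exp (-((c + ξ * Complex.I) * t)) =
      Complex.exp (-(c * t)) * (Complex.exp (2 * Real.pi * ((-(1 / (2 * Real.pi)) * ξ : ℝ) * t) *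
        Complex.I) * FourierTransform.fourier (traG psi c) (-(1 / (2 * Real.pi)) * ξ)) := by
    intro ξ
    rw [tra_eq]
    have hpc : (Real.pi : ℂ) ≠ 0 := by exact_mod_cast hpi
    rw [show (2 * (Real.pi : ℂ) * ((-(1 / (2 * Real.pi)) * ξ : ℝ) * t) * Complex.I) =
      -(ξ * t * Complex.I) by push_cast; field_simp]
    rw [show -(((c : ℂ) + ξ * Complex.I) * t) = -(c * t) + -(ξ * t * Complex.I) by ring,
      Complex.exp_add]
    ring
  simp_rw [e3]
  rw [integral_const_mul, hsub]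
  unfold traG
  rw [abs_inv, abs_neg, abs_of_pos (by positivity : (0:ℝ) < 1 / (2 * Real.pi))]
  have hpc : (Real.pi : ℂ) ≠ 0 := by exact_mod_cast hpi
  rw [Complex.real_smul]
  push_cast
  have e4 : Complex.exp (-((c:ℂ) * t)) * Complex.exp (c * t) = 1 := by
    rw [← Complex.exp_add]
    simp
  have e5 : (1 / (2 * (Real.pi : ℂ))) * (Complex.exp (-((c:ℂ) * t)) *
      ((1 / (2 * (Real.pi : ℂ)))⁻¹ * ((psi (Real.exp t) : ℂ) * Complex.exp (c * t)))) =
      (psi (Real.exp t) : ℂ) * (Complex.exp (-((c:ℂ) * t)) * Complex.exp (c * t)) := by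
    field_simp
  rw [e5, e4, mul_one]

end BV

end
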