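import Pool.Agent.Work.BV.LSM
import Pool.Agent.Work.BV.TRA

/-!
Module BIL (smooth bilinear large sieve; size M).

By `TR_inv` with `c = 0` and `t = log (mn/N)`: for `m, n ≥ 1`,
`psi(mn/N) = (1/2π) ∫ TR psi (iξ) N^{iξ} m^{-iξ} n^{-iξ} dξ`, so
`‖∑∑ α_m β_n χ(m) χ(n) psi(mn/N)‖ ≤ (1/2π) ∫ ‖TR psi (iξ)‖ ‖A_ξ(χ)‖ ‖B_ξ(χ)‖ dξ`,
`A_ξ(χ) = ∑ α_m m^{-iξ} χ(m)`, `B_ξ(χ) = ∑ β_n n^{-iξ} χ(n)` (sums over `m, n ≥ 1`; the terms with
`m = 0` or `n = 0` vanish since `psi 0 = 0`: replace `α 0`, `β 0` by 0).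
For fixed `ξ` and `r ∈ (R, 2R]`: `1/φ(r) ≤ R⁻¹ r/φ(r)`; Cauchy (`pSum_mul_le` and Cauchy over `r`) and
`large_sieve_mul` for both factors, with `2R` in place of `R`:
`∑_{R<r≤2R} (1/φ(r)) pSum r (‖A_ξ‖ ‖B_ξ‖) ≤ R⁻¹ (8 (M + 4R²) ‖α‖²)^{1/2} (8 (L + 4R²) ‖β‖²)^{1/2}`.
Integrate against `‖TR psi (iξ)‖` (`TR_int`); finite sums over `r` and `χ` commute with the integral.
-/

set_option autoImplicit false

open Finset Filter MeasureTheory Topology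
open scoped ContDiff ArithmeticFunction.Moebius ArithmeticFunction.vonMangoldt

noncomputable section

namespace BV

/-- the phase `m^{-iξ}` -/
private def bilE (m : ℕ) (ξ : ℝ) : ℂ := Complex.exp (((-(ξ * Real.log m) : ℝ) : ℂ) * Complex.I)

private theorem bil_E_norm (m : ℕ) (ξ : ℝ) : ‖bilE m ξ‖ = 1 := Complex.norm_exp_ofReal_mul_I _

private theorem bil_E_cont (m : ℕ) : Continuous (bilE m) := by
  unfold bilE
  fun_prop

private theorem bil_A_cont (S : Finset ℕ) (a : ℕ → ℂ) :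
    Continuous (fun ξ : ℝ => ∑ m ∈ S, a m * bilE m ξ) :=
  continuous_finsetSum _ fun m _ => continuous_const.mul (bil_E_cont m)

private theorem bil_A_le (S : Finset ℕ) (a : ℕ → ℂ) (ξ : ℝ) :
    ‖∑ m ∈ S, a m * bilE m ξ‖ ≤ ∑ m ∈ S, ‖a m‖ := by
  refine (norm_sum_le _ _).trans (Finset.sum_le_sum fun m _ => ?_)
  rw [norm_mul, bil_E_norm, mul_one]

private theorem bil_repr {psi : ℝ → ℝ} {D : ℝ} (h : Bump psi D) {N : ℕ} (hN : 0 < N)
    (S1 S2 : Finset ℕ) (a b : ℕ → ℂ) (ha : a 0 = 0) (hb : b 0 = 0)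
    (hT : Integrable (fun ξ : ℝ => TR psi (((0 : ℝ) : ℂ) + ξ * Complex.I))) :
    ∑ m ∈ S1, ∑ n ∈ S2, a m * b n * (psi ((m : ℝ) * n / N) : ℂ) =
      (1 / (2 * Real.pi)) * ∫ ξ : ℝ, TR psi (((0 : ℝ) : ℂ) + ξ * Complex.I) *
        (Complex.exp (((ξ * Real.log N : ℝ) : ℂ) * Complex.I) *
          ((∑ m ∈ S1, a m * bilE m ξ) * ∑ n ∈ S2, b n * bilE n ξ)) := by
  have hint : ∀ m n : ℕ, Integrable (fun ξ : ℝ => TR psi (((0 : ℝ) : ℂ) + ξ * Complex.I) *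
      (Complex.exp (((ξ * Real.log N : ℝ) : ℂ) * Complex.I) *
        ((a m * bilE m ξ) * (b n * bilE n ξ)))) := by
    intro m n
    refine hT.mul_bdd (c := ‖a m‖ * ‖b n‖) ?_ ?_
    · refine Continuous.aestronglyMeasurable ?_
      refine Continuous.mul (by fun_prop) ?_
      exact (continuous_const.mul (bil_E_cont m)).mul (continuous_const.mul (bil_E_cont n))
    · refine Filter.Eventually.of_forall fun ξ => le_of_eq ?_
      rw [norm_mul, norm_mul, norm_mul, norm_mul, bil_E_norm, bil_E_norm,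
        Complex.norm_exp_ofReal_mul_I]
      ring
  have h1 : ∀ ξ : ℝ, TR psi (((0 : ℝ) : ℂ) + ξ * Complex.I) *
        (Complex.exp (((ξ * Real.log N : ℝ) : ℂ) * Complex.I) *
          ((∑ m ∈ S1, a m * bilE m ξ) * ∑ n ∈ S2, b n * bilE n ξ)) =
      ∑ m ∈ S1, ∑ n ∈ S2, TR psi (((0 : ℝ) : ℂ) + ξ * Complex.I) *
      (Complex.exp (((ξ * Real.log N : ℝ) : ℂ) * Complex.I) *
        ((a m * bilE m ξ) * (b n * bilE n ξ))) := by
    intro ξ
    rw [Finset.sum_mul_sum, Finset.mul_sum, Finset.mul_sum]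
    refine Finset.sum_congr rfl fun m _ => ?_
    rw [Finset.mul_sum, Finset.mul_sum]
  simp_rw [h1]
  rw [integral_finsetSum _ fun m _ => integrable_finsetSum _ fun n _ => hint m n, Finset.mul_sum]
  refine Finset.sum_congr rfl fun m _ => ?_
  rw [integral_finsetSum _ fun n _ => hint m n, Finset.mul_sum]
  refine Finset.sum_congr rfl fun n _ => ?_
  rcases Nat.eq_zero_or_pos m with hm | hm
  · rw [hm, ha]
    simp
  rcases Nat.eq_zero_or_pos n with hn | hn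
  · rw [hn, hb]
    simp
  have hm' : (0 : ℝ) < m := by exact_mod_cast hm
  have hn' : (0 : ℝ) < n := by exact_mod_cast hn
  have hN' : (0 : ℝ) < N := by exact_mod_cast hN
  have hexp : Real.exp (Real.log ((m : ℝ) * n / N)) = (m : ℝ) * n / N :=
    Real.exp_log (by positivity)
  have h2 := TR_inv h 0 (Real.log ((m : ℝ) * n / N))
  rw [hexp] at h2
  rw [h2]
  have hlog : Real.log ((m : ℝ) * n / N) = Real.log m + Real.log n - Real.log N := by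
    rw [Real.log_div (by positivity) hN'.ne', Real.log_mul hm'.ne' hn'.ne']
  have h3 : ∀ ξ : ℝ, TR psi (((0 : ℝ) : ℂ) + ξ * Complex.I) *
      (Complex.exp (((ξ * Real.log N : ℝ) : ℂ) * Complex.I) *
        ((a m * bilE m ξ) * (b n * bilE n ξ))) =
      (a m * b n) * (TR psi (((0 : ℝ) : ℂ) + ξ * Complex.I) *
        Complex.exp (-((((0 : ℝ) : ℂ) + ξ * Complex.I) * (Real.log ((m : ℝ) * n / N) : ℝ)))) := by
    intro ξ
    have h4 : Complex.exp (-((((0 : ℝ) : ℂ) + ξ * Complex.I) * (Real.log ((m : ℝ) * n / N) : ℝ))) =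
        Complex.exp (((ξ * Real.log N : ℝ) : ℂ) * Complex.I) * (bilE m ξ * bilE n ξ) := by
      unfold bilE
      rw [← Complex.exp_add, ← Complex.exp_add, hlog]
      congr 1
      push_cast
      ring
    rw [h4]
    ring
  simp_rw [h3]
  rw [integral_const_mul]
  ring

private theorem bil_norm {psi : ℝ → ℝ} {D : ℝ} (h : Bump psi D) {N : ℕ} (hN : 0 < N)
    (S1 S2 : Finset ℕ) (a b : ℕ → ℂ) (ha : a 0 = 0) (hb : b 0 = 0)
    (hT : Integrable (fun ξ : ℝ => TR psi (((0 : ℝ) : ℂ) + ξ * Complex.I))) :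
    ‖∑ m ∈ S1, ∑ n ∈ S2, a m * b n * (psi ((m : ℝ) * n / N) : ℂ)‖ ≤
      ∫ ξ : ℝ, ‖TR psi (((0 : ℝ) : ℂ) + ξ * Complex.I)‖ *
        (‖∑ m ∈ S1, a m * bilE m ξ‖ * ‖∑ n ∈ S2, b n * bilE n ξ‖) := by
  rw [bil_repr h hN S1 S2 a b ha hb hT, norm_mul]
  have h1 : ‖(1 / (2 * Real.pi) : ℂ)‖ ≤ 1 := by
    have : (1 / (2 * Real.pi) : ℂ) = ((1 / (2 * Real.pi) : ℝ) : ℂ) := by push_cast; rfl
    rw [this, Complex.norm_real, Real.norm_of_nonneg (by positivity), div_le_one (by positivity)]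
    have := Real.pi_gt_three
    linarith
  have h2 : ‖∫ ξ : ℝ, TR psi (((0 : ℝ) : ℂ) + ξ * Complex.I) *
        (Complex.exp (((ξ * Real.log N : ℝ) : ℂ) * Complex.I) *
          ((∑ m ∈ S1, a m * bilE m ξ) * ∑ n ∈ S2, b n * bilE n ξ))‖ ≤
      ∫ ξ : ℝ, ‖TR psi (((0 : ℝ) : ℂ) + ξ * Complex.I) *
        (Complex.exp (((ξ * Real.log N : ℝ) : ℂ) * Complex.I) *
          ((∑ m ∈ S1, a m * bilE m ξ) * ∑ n ∈ S2, b n * bilE n ξ))‖ :=
    norm_integral_le_integral_norm _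
  have h3 : ∀ ξ : ℝ, ‖TR psi (((0 : ℝ) : ℂ) + ξ * Complex.I) *
        (Complex.exp (((ξ * Real.log N : ℝ) : ℂ) * Complex.I) *
          ((∑ m ∈ S1, a m * bilE m ξ) * ∑ n ∈ S2, b n * bilE n ξ))‖ =
      ‖TR psi (((0 : ℝ) : ℂ) + ξ * Complex.I)‖ *
        (‖∑ m ∈ S1, a m * bilE m ξ‖ * ‖∑ n ∈ S2, b n * bilE n ξ‖) := by
    intro ξ
    rw [norm_mul, norm_mul, norm_mul, Complex.norm_exp_ofReal_mul_I, one_mul]
  simp_rw [h3] at h2
  calc _ ≤ 1 * _ := mul_le_mul h1 h2 (norm_nonneg _) zero_le_one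
    _ = _ := one_mul _

private theorem bil_integrable {psi : ℝ → ℝ}
    (S1 S2 : Finset ℕ) (a b : ℕ → ℂ)
    (hT : Integrable (fun ξ : ℝ => TR psi (((0 : ℝ) : ℂ) + ξ * Complex.I))) :
    Integrable (fun ξ : ℝ => ‖TR psi (((0 : ℝ) : ℂ) + ξ * Complex.I)‖ *
        (‖∑ m ∈ S1, a m * bilE m ξ‖ * ‖∑ n ∈ S2, b n * bilE n ξ‖)) := by
  refine hT.norm.mul_bdd (c := (∑ m ∈ S1, ‖a m‖) * ∑ n ∈ S2, ‖b n‖) ?_ ?_
  · exact ((bil_A_cont S1 a).norm.mul (bil_A_cont S2 b).norm).aestronglyMeasurable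
  · refine Filter.Eventually.of_forall fun ξ => ?_
    rw [Real.norm_of_nonneg (by positivity)]
    exact mul_le_mul (bil_A_le S1 a ξ) (bil_A_le S2 b ξ) (norm_nonneg _)
      (Finset.sum_nonneg fun _ _ => norm_nonneg _)

private theorem bil_pSum_int {r : ℕ} (F : DirichletCharacter ℂ r → ℝ → ℝ)
    (hF : ∀ χ, Integrable (F χ)) :
    Integrable (fun ξ => pSum r (fun χ => F χ ξ)) ∧
      ∫ ξ, pSum r (fun χ => F χ ξ) = pSum r (fun χ => ∫ ξ, F χ ξ) := by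
  classical
  unfold pSum
  by_cases h0 : r = 0
  · simp only [dif_pos h0]
    simp
  · simp only [dif_neg h0]
    exact ⟨integrable_finsetSum _ fun χ _ => hF χ, integral_finsetSum _ fun χ _ => hF χ⟩

/-- the pointwise bound -/
private theorem bil_point (R M0 M L0 L : ℕ) (hR : 0 < R) (a b : ℕ → ℂ) :
    ∑ r ∈ Finset.Ioc R (2 * R), (1 / Nat.totient r : ℝ) * pSum r (fun χ =>
      ‖∑ m ∈ Finset.Ico M0 (M0 + M), a m * χ m‖ * ‖∑ n ∈ Finset.Ico L0 (L0 + L), b n * χ n‖) ≤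
      32 / R * Real.sqrt ((M + (R : ℝ) ^ 2) * (L + (R : ℝ) ^ 2)) *
        Real.sqrt ((∑ m ∈ Finset.Ico M0 (M0 + M), ‖a m‖ ^ 2) *
          ∑ n ∈ Finset.Ico L0 (L0 + L), ‖b n‖ ^ 2) := by
  have hR' : (0 : ℝ) < R := by exact_mod_cast hR
  have hls : ∀ (K0 K : ℕ) (c : ℕ → ℂ), ∑ r ∈ Finset.Ioc R (2 * R), (r / Nat.totient r : ℝ) *
      pSum r (fun χ => ‖∑ n ∈ Finset.Ico K0 (K0 + K), c n * χ n‖ ^ 2) ≤
      32 * (K + (R : ℝ) ^ 2) * ∑ n ∈ Finset.Ico K0 (K0 + K), ‖c n‖ ^ 2 := by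
    intro K0 K c
    have h1 := large_sieve_mul (2 * R) K0 K c
    have h2 : ∑ r ∈ Finset.Ioc R (2 * R), (r / Nat.totient r : ℝ) *
        pSum r (fun χ => ‖∑ n ∈ Finset.Ico K0 (K0 + K), c n * χ n‖ ^ 2) ≤
        ∑ r ∈ Finset.Icc 1 (2 * R), (r / Nat.totient r : ℝ) *
        pSum r (fun χ => ‖∑ n ∈ Finset.Ico K0 (K0 + K), c n * χ n‖ ^ 2) := by
      refine Finset.sum_le_sum_of_subset_of_nonneg ?_ fun r _ _ => ?_
      · intro r hr
        rw [Finset.mem_Ioc] at hr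
        rw [Finset.mem_Icc]
        omega
      · exact mul_nonneg (by positivity) (pSum_nonneg fun χ => by positivity)
    refine h2.trans (h1.trans ?_)
    refine mul_le_mul_of_nonneg_right ?_ (Finset.sum_nonneg fun n _ => by positivity)
    push_cast
    have h3 : (0 : ℝ) ≤ K := Nat.cast_nonneg K
    nlinarith
  have h1 : ∀ r ∈ Finset.Ioc R (2 * R), (1 / Nat.totient r : ℝ) * pSum r (fun χ =>
      ‖∑ m ∈ Finset.Ico M0 (M0 + M), a m * χ m‖ * ‖∑ n ∈ Finset.Ico L0 (L0 + L), b n * χ n‖) ≤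
      1 / R * (Real.sqrt ((r / Nat.totient r : ℝ) * pSum r (fun χ =>
        ‖∑ m ∈ Finset.Ico M0 (M0 + M), a m * χ m‖ ^ 2)) *
        Real.sqrt ((r / Nat.totient r : ℝ) * pSum r (fun χ =>
        ‖∑ n ∈ Finset.Ico L0 (L0 + L), b n * χ n‖ ^ 2))) := by
    intro r hr
    rw [Finset.mem_Ioc] at hr
    have hr0 : 0 < r := by omega
    have hφ : (0 : ℝ) < Nat.totient r := by exact_mod_cast Nat.totient_pos.2 hr0
    have hrR : (R : ℝ) ≤ r := by exact_mod_cast hr.1.le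
    have h2 := pSum_mul_le (r := r) (fun χ => ‖∑ m ∈ Finset.Ico M0 (M0 + M), a m * χ m‖)
      (fun χ => ‖∑ n ∈ Finset.Ico L0 (L0 + L), b n * χ n‖)
    have hq : (0 : ℝ) ≤ r / Nat.totient r := by positivity
    rw [Real.sqrt_mul hq, Real.sqrt_mul hq]
    have h3 : Real.sqrt (r / Nat.totient r : ℝ) * Real.sqrt (r / Nat.totient r : ℝ) =
        r / Nat.totient r := Real.mul_self_sqrt hq
    obtain ⟨P1, hP1⟩ : ∃ P1, P1 = Real.sqrt (pSum r (fun χ =>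
      ‖∑ m ∈ Finset.Ico M0 (M0 + M), a m * χ m‖ ^ 2)) := ⟨_, rfl⟩
    obtain ⟨P2, hP2⟩ : ∃ P2, P2 = Real.sqrt (pSum r (fun χ =>
      ‖∑ n ∈ Finset.Ico L0 (L0 + L), b n * χ n‖ ^ 2)) := ⟨_, rfl⟩
    rw [← hP1, ← hP2] at h2 ⊢
    have hP10 : 0 ≤ P1 := by rw [hP1]; exact Real.sqrt_nonneg _
    have hP20 : 0 ≤ P2 := by rw [hP2]; exact Real.sqrt_nonneg _
    have h4 : 1 / (R : ℝ) * (Real.sqrt (r / Nat.totient r : ℝ) * P1 *
        (Real.sqrt (r / Nat.totient r : ℝ) * P2)) = (1 / R * (r / Nat.totient r)) * (P1 * P2) := by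
      linear_combination (1 / (R : ℝ) * (P1 * P2)) * h3
    rw [h4]
    have h5 : (1 / Nat.totient r : ℝ) ≤ 1 / R * (r / Nat.totient r) := by
      rw [one_div_mul_eq_div, div_div, div_le_div_iff₀ hφ (by positivity)]
      nlinarith
    exact mul_le_mul h5 h2 (pSum_nonneg fun χ => by positivity) (by positivity)
  refine (Finset.sum_le_sum h1).trans ?_
  rw [← Finset.mul_sum]
  have h6 : ∑ r ∈ Finset.Ioc R (2 * R), (Real.sqrt ((r / Nat.totient r : ℝ) * pSum r (fun χ =>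
        ‖∑ m ∈ Finset.Ico M0 (M0 + M), a m * χ m‖ ^ 2)) *
        Real.sqrt ((r / Nat.totient r : ℝ) * pSum r (fun χ =>
        ‖∑ n ∈ Finset.Ico L0 (L0 + L), b n * χ n‖ ^ 2))) ≤
      Real.sqrt (32 * (M + (R : ℝ) ^ 2) * ∑ m ∈ Finset.Ico M0 (M0 + M), ‖a m‖ ^ 2) *
      Real.sqrt (32 * (L + (R : ℝ) ^ 2) * ∑ n ∈ Finset.Ico L0 (L0 + L), ‖b n‖ ^ 2) := by
    refine (Real.sum_mul_le_sqrt_mul_sqrt _ _ _).trans ?_
    have hsq : ∀ (K0 K : ℕ) (c : ℕ → ℂ), ∑ r ∈ Finset.Ioc R (2 * R),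
        (Real.sqrt ((r / Nat.totient r : ℝ) * pSum r (fun χ =>
        ‖∑ n ∈ Finset.Ico K0 (K0 + K), c n * χ n‖ ^ 2))) ^ 2 =
        ∑ r ∈ Finset.Ioc R (2 * R), ((r / Nat.totient r : ℝ) * pSum r (fun χ =>
        ‖∑ n ∈ Finset.Ico K0 (K0 + K), c n * χ n‖ ^ 2)) := by
      intro K0 K c
      refine Finset.sum_congr rfl fun r _ => Real.sq_sqrt ?_
      exact mul_nonneg (by positivity) (pSum_nonneg fun χ => by positivity)
    rw [hsq, hsq]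
    exact mul_le_mul (Real.sqrt_le_sqrt (hls M0 M a)) (Real.sqrt_le_sqrt (hls L0 L b))
      (Real.sqrt_nonneg _) (Real.sqrt_nonneg _)
  refine (mul_le_mul_of_nonneg_left h6 (by positivity)).trans (le_of_eq ?_)
  obtain ⟨SA, hSA⟩ : ∃ SA, SA = ∑ m ∈ Finset.Ico M0 (M0 + M), ‖a m‖ ^ 2 := ⟨_, rfl⟩
  obtain ⟨SB, hSB⟩ : ∃ SB, SB = ∑ n ∈ Finset.Ico L0 (L0 + L), ‖b n‖ ^ 2 := ⟨_, rfl⟩
  rw [← hSA, ← hSB]
  have hSA0 : 0 ≤ SA := by rw [hSA]; exact Finset.sum_nonneg fun n _ => by positivity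
  have hSB0 : 0 ≤ SB := by rw [hSB]; exact Finset.sum_nonneg fun n _ => by positivity
  have e1 : Real.sqrt (32 * (M + (R : ℝ) ^ 2) * SA) * Real.sqrt (32 * (L + (R : ℝ) ^ 2) * SB) =
      32 * (Real.sqrt ((M + (R : ℝ) ^ 2) * (L + (R : ℝ) ^ 2)) * Real.sqrt (SA * SB)) := by
    rw [← Real.sqrt_mul (by positivity), ← Real.sqrt_mul (by positivity)]
    have e2 : 32 * (M + (R : ℝ) ^ 2) * SA * (32 * (L + (R : ℝ) ^ 2) * SB) =
        32 ^ 2 * (((M + (R : ℝ) ^ 2) * (L + (R : ℝ) ^ 2)) * (SA * SB)) := by ring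
    rw [e2, Real.sqrt_mul (by norm_num), Real.sqrt_sq (by norm_num)]
  rw [e1]
  ring

theorem bilinear : ∃ C : ℝ, 0 ≤ C ∧ ∀ (psi : ℝ → ℝ) (D : ℝ), Bump psi D →
    ∀ (N R M0 M L0 L : ℕ), 0 < N → 0 < R → ∀ α β : ℕ → ℝ,
      ∑ r ∈ Finset.Ioc R (2 * R), (1 / Nat.totient r : ℝ) * pSum r (fun χ =>
        ‖∑ m ∈ Finset.Ico M0 (M0 + M), ∑ n ∈ Finset.Ico L0 (L0 + L),
          (α m : ℂ) * β n * (χ m * χ n) * (psi ((m : ℝ) * n / N) : ℂ)‖) ≤
      C * D / R * Real.sqrt ((M + (R : ℝ) ^ 2) * (L + (R : ℝ) ^ 2)) *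
        Real.sqrt ((∑ m ∈ Finset.Ico M0 (M0 + M), α m ^ 2) *
          ∑ n ∈ Finset.Ico L0 (L0 + L), β n ^ 2) := by
  obtain ⟨C, hC, hTR⟩ := TR_int
  refine ⟨32 * C, by positivity, fun psi D h N R M0 M L0 L hN hR α β => ?_⟩
  obtain ⟨hT, hTle⟩ := hTR psi D h 0 (by norm_num)
  have hR' : (0 : ℝ) < R := by exact_mod_cast hR
  have hpsi0 : psi 0 = 0 := h.zero 0 (Or.inl (by norm_num))
  obtain ⟨a, ha⟩ : ∃ a : ℕ → ℂ, a = fun m => if m = 0 then 0 else (α m : ℂ) := ⟨_, rfl⟩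
  obtain ⟨b, hb⟩ : ∃ b : ℕ → ℂ, b = fun m => if m = 0 then 0 else (β m : ℂ) := ⟨_, rfl⟩
  have ha0 : a 0 = 0 := by rw [ha]; simp
  have hb0 : b 0 = 0 := by rw [hb]; simp
  have han : ∀ m, ‖a m‖ ^ 2 ≤ α m ^ 2 := by
    intro m
    rw [ha]
    simp only
    split_ifs with hm
    · rw [norm_zero, zero_pow two_ne_zero]; positivity
    · rw [Complex.norm_real, Real.norm_eq_abs, sq_abs]
  have hbn : ∀ m, ‖b m‖ ^ 2 ≤ β m ^ 2 := by
    intro m
    rw [hb]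
    simp only
    split_ifs with hm
    · rw [norm_zero, zero_pow two_ne_zero]; positivity
    · rw [Complex.norm_real, Real.norm_eq_abs, sq_abs]
  obtain ⟨G, hG⟩ : ∃ G : ℝ, G = 32 / R * Real.sqrt ((M + (R : ℝ) ^ 2) * (L + (R : ℝ) ^ 2)) *
        Real.sqrt ((∑ m ∈ Finset.Ico M0 (M0 + M), α m ^ 2) *
          ∑ n ∈ Finset.Ico L0 (L0 + L), β n ^ 2) := ⟨_, rfl⟩
  have hG0 : 0 ≤ G := by rw [hG]; positivity
  -- pointwise in ξ
  have hpoint : ∀ ξ : ℝ, ∑ r ∈ Finset.Ioc R (2 * R), (1 / Nat.totient r : ℝ) * pSum r (fun χ =>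
      ‖∑ m ∈ Finset.Ico M0 (M0 + M), (a m * χ m) * bilE m ξ‖ *
        ‖∑ n ∈ Finset.Ico L0 (L0 + L), (b n * χ n) * bilE n ξ‖) ≤ G := by
    intro ξ
    have h1 := bil_point R M0 M L0 L hR (fun m => a m * bilE m ξ) (fun n => b n * bilE n ξ)
    have e1 : ∀ (c : ℕ → ℂ) (r m : ℕ) (χ : DirichletCharacter ℂ r),
        (c m * χ m) * bilE m ξ = c m * bilE m ξ * χ m := fun c r m χ => by ring
    simp_rw [e1]
    refine h1.trans ?_
    rw [hG]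
    refine mul_le_mul_of_nonneg_left (Real.sqrt_le_sqrt ?_) (by positivity)
    refine mul_le_mul (Finset.sum_le_sum fun m _ => ?_) (Finset.sum_le_sum fun m _ => ?_)
      (Finset.sum_nonneg fun _ _ => by positivity) (Finset.sum_nonneg fun _ _ => by positivity)
    · rw [norm_mul, bil_E_norm, mul_one]; exact han m
    · rw [norm_mul, bil_E_norm, mul_one]; exact hbn m
  -- the integral representation
  have hrep : ∀ (r : ℕ) (χ : DirichletCharacter ℂ r),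
      ‖∑ m ∈ Finset.Ico M0 (M0 + M), ∑ n ∈ Finset.Ico L0 (L0 + L),
          (α m : ℂ) * β n * (χ m * χ n) * (psi ((m : ℝ) * n / N) : ℂ)‖ ≤
      ∫ ξ : ℝ, ‖TR psi (((0 : ℝ) : ℂ) + ξ * Complex.I)‖ *
        (‖∑ m ∈ Finset.Ico M0 (M0 + M), (a m * χ m) * bilE m ξ‖ *
          ‖∑ n ∈ Finset.Ico L0 (L0 + L), (b n * χ n) * bilE n ξ‖) := by
    intro r χ
    have h1 := bil_norm h hN (Finset.Ico M0 (M0 + M)) (Finset.Ico L0 (L0 + L))
      (fun m => a m * χ m) (fun n => b n * χ n) (by simp only [ha0, zero_mul])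
      (by simp only [hb0, zero_mul]) hT
    refine le_trans (le_of_eq ?_) h1
    congr 1
    refine Finset.sum_congr rfl fun m _ => Finset.sum_congr rfl fun n _ => ?_
    by_cases hm : m = 0
    · simp [hm, hpsi0]
    · by_cases hn : n = 0
      · simp [hn, hpsi0]
      · have e1 : a m = α m := by rw [ha]; simp only [if_neg hm]
        have e2 : b n = β n := by rw [hb]; simp only [if_neg hn]
        rw [e1, e2]
        ring
  have hFint : ∀ (r : ℕ) (χ : DirichletCharacter ℂ r),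
      Integrable (fun ξ : ℝ => ‖TR psi (((0 : ℝ) : ℂ) + ξ * Complex.I)‖ *
        (‖∑ m ∈ Finset.Ico M0 (M0 + M), (a m * χ m) * bilE m ξ‖ *
          ‖∑ n ∈ Finset.Ico L0 (L0 + L), (b n * χ n) * bilE n ξ‖)) := fun r χ =>
    bil_integrable _ _ (fun m => a m * χ m) (fun n => b n * χ n) hT
  calc ∑ r ∈ Finset.Ioc R (2 * R), (1 / Nat.totient r : ℝ) * pSum r (fun χ =>
        ‖∑ m ∈ Finset.Ico M0 (M0 + M), ∑ n ∈ Finset.Ico L0 (L0 + L),
          (α m : ℂ) * β n * (χ m * χ n) * (psi ((m : ℝ) * n / N) : ℂ)‖)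
      ≤ ∑ r ∈ Finset.Ioc R (2 * R), (1 / Nat.totient r : ℝ) * pSum r (fun χ =>
        ∫ ξ : ℝ, ‖TR psi (((0 : ℝ) : ℂ) + ξ * Complex.I)‖ *
        (‖∑ m ∈ Finset.Ico M0 (M0 + M), (a m * χ m) * bilE m ξ‖ *
          ‖∑ n ∈ Finset.Ico L0 (L0 + L), (b n * χ n) * bilE n ξ‖)) := by
        refine Finset.sum_le_sum fun r _ => mul_le_mul_of_nonneg_left ?_ (by positivity)
        exact pSum_mono fun _ χ _ => hrep r χ
    _ = ∑ r ∈ Finset.Ioc R (2 * R), ∫ ξ : ℝ, (1 / Nat.totient r : ℝ) * pSum r (fun χ =>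
        ‖TR psi (((0 : ℝ) : ℂ) + ξ * Complex.I)‖ *
        (‖∑ m ∈ Finset.Ico M0 (M0 + M), (a m * χ m) * bilE m ξ‖ *
          ‖∑ n ∈ Finset.Ico L0 (L0 + L), (b n * χ n) * bilE n ξ‖)) := by
        refine Finset.sum_congr rfl fun r _ => ?_
        rw [integral_const_mul, (bil_pSum_int _ (hFint r)).2]
    _ = ∫ ξ : ℝ, ∑ r ∈ Finset.Ioc R (2 * R), (1 / Nat.totient r : ℝ) * pSum r (fun χ =>
        ‖TR psi (((0 : ℝ) : ℂ) + ξ * Complex.I)‖ *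
        (‖∑ m ∈ Finset.Ico M0 (M0 + M), (a m * χ m) * bilE m ξ‖ *
          ‖∑ n ∈ Finset.Ico L0 (L0 + L), (b n * χ n) * bilE n ξ‖)) := by
        rw [integral_finsetSum]
        exact fun r _ => ((bil_pSum_int _ (hFint r)).1).const_mul _
    _ ≤ ∫ ξ : ℝ, ‖TR psi (((0 : ℝ) : ℂ) + ξ * Complex.I)‖ * G := by
        refine integral_mono ?_ (hT.norm.mul_const G) fun ξ => ?_
        · exact integrable_finsetSum _ fun r _ => ((bil_pSum_int _ (hFint r)).1).const_mul _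
        · have e1 : ∑ r ∈ Finset.Ioc R (2 * R), (1 / Nat.totient r : ℝ) * pSum r (fun χ =>
              ‖TR psi (((0 : ℝ) : ℂ) + ξ * Complex.I)‖ *
              (‖∑ m ∈ Finset.Ico M0 (M0 + M), (a m * χ m) * bilE m ξ‖ *
                ‖∑ n ∈ Finset.Ico L0 (L0 + L), (b n * χ n) * bilE n ξ‖)) =
              ‖TR psi (((0 : ℝ) : ℂ) + ξ * Complex.I)‖ *
              ∑ r ∈ Finset.Ioc R (2 * R), (1 / Nat.totient r : ℝ) * pSum r (fun χ =>
              (‖∑ m ∈ Finset.Ico M0 (M0 + M), (a m * χ m) * bilE m ξ‖ *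
                ‖∑ n ∈ Finset.Ico L0 (L0 + L), (b n * χ n) * bilE n ξ‖)) := by
            rw [Finset.mul_sum]
            refine Finset.sum_congr rfl fun r _ => ?_
            rw [pSum_smul]
            ring
          simp only
          rw [e1]
          exact mul_le_mul_of_nonneg_left (hpoint ξ) (norm_nonneg _)
    _ = (∫ ξ : ℝ, ‖TR psi (((0 : ℝ) : ℂ) + ξ * Complex.I)‖) * G := integral_mul_const _ _
    _ ≤ (C * D) * G := mul_le_mul_of_nonneg_right hTle hG0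
    _ = _ := by
        rw [hG]
        field_simp

end BV

end
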