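import Pool.Agent.Work.BV.Defs

/-!
Module SMF (smooth approximations of the interval `[5/4, 7/4]`).
-/

set_option autoImplicit false

open Finset Filter MeasureTheory Topology
open scoped ContDiff ArithmeticFunction.Moebius ArithmeticFunction.vonMangoldt

noncomputable section

namespace BV

private theorem smf_bound (i : ℕ) : ∃ B : ℝ, ∀ u : ℝ,
    |iteratedDeriv i Real.smoothTransition u| ≤ B := by
  have hc : Continuous (iteratedDeriv i Real.smoothTransition) :=
    ContDiff.continuous_iteratedDeriv' i Real.smoothTransition.contDiff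
  obtain ⟨B, hB⟩ := isCompact_Icc.exists_bound_of_continuousOn (s := Set.Icc (0:ℝ) 1)
    hc.continuousOn
  refine ⟨max B 1, fun u => ?_⟩
  by_cases hu : u ∈ Set.Icc (0:ℝ) 1
  · exact (hB u hu).trans (le_max_left _ _)
  · rcases Nat.eq_zero_or_pos i with rfl | hi
    · rw [iteratedDeriv_zero, abs_of_nonneg (Real.smoothTransition.nonneg u)]
      exact (Real.smoothTransition.le_one u).trans (le_max_right _ _)
    · have hconst : ∃ c : ℝ, Real.smoothTransition =ᶠ[𝓝 u] fun _ => c := by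
        rw [Set.mem_Icc, not_and_or, not_le, not_le] at hu
        rcases hu with hu | hu
        · refine ⟨0, ?_⟩
          filter_upwards [Iio_mem_nhds hu] with v hv
          exact Real.smoothTransition.zero_of_nonpos (le_of_lt hv)
        · refine ⟨1, ?_⟩
          filter_upwards [Ioi_mem_nhds hu] with v hv
          exact Real.smoothTransition.one_of_one_le (le_of_lt hv)
      obtain ⟨c, hc⟩ := hconst
      have h1 : iteratedDeriv i Real.smoothTransition u = 0 := by
        rw [hc.iteratedDeriv_eq i, iteratedDeriv_const]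
        rw [if_neg hi.ne']
      rw [h1, abs_zero]
      exact zero_le_one.trans (le_max_right _ _)

private theorem smf_aff (i : ℕ) (a c : ℝ) (t : ℝ) :
    iteratedDeriv i (fun t => Real.smoothTransition (a * t + c)) t =
      a ^ i * iteratedDeriv i Real.smoothTransition (a * t + c) := by
  have h1 : iteratedDeriv i (fun x => (fun z => Real.smoothTransition (z + c)) (a * x)) =
      fun x => a ^ i * iteratedDeriv i (fun z => Real.smoothTransition (z + c)) (a * x) :=
    iteratedDeriv_comp_const_mul (Real.smoothTransition.contDiff.comp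
      (contDiff_id.add contDiff_const)) a
  have h2 := congrFun h1 t
  simp only at h2
  rw [h2, iteratedDeriv_comp_add_const]

private theorem smf_gen : ∃ C : ℝ, 0 < C ∧ ∀ δ α β : ℝ, 0 < δ → δ ≤ 1 / 20 → 1 ≤ α → β ≤ 2 →
    α + 2 * δ ≤ β → ∃ psi : ℝ → ℝ,
    Bump psi (C / δ ^ 3) ∧ (∀ t, 0 ≤ psi t ∧ psi t ≤ 1) ∧
    (∀ t, t ≤ α ∨ β ≤ t → psi t = 0) ∧ (∀ t, α + δ ≤ t → t ≤ β - δ → psi t = 1) ∧
    (β - α - 2 * δ ≤ ∫ t, psi t) ∧ (∫ t, psi t) ≤ β - α := by
  choose B hB using smf_bound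
  set M := ∑ i ∈ Finset.range 4, |B i| with hM
  have hM0 : 0 ≤ M := Finset.sum_nonneg fun i _ => abs_nonneg _
  have hBM : ∀ i ≤ 3, ∀ u, |iteratedDeriv i Real.smoothTransition u| ≤ M := by
    intro i hi u
    refine (hB i u).trans ((le_abs_self _).trans ?_)
    exact Finset.single_le_sum (f := fun i => |B i|) (fun i _ => abs_nonneg _)
      (Finset.mem_range.2 (by omega))
  refine ⟨8 * M ^ 2 + 1, by positivity, ?_⟩
  intro δ α β hδ hδ1 hα hβ hαβ
  set f : ℝ → ℝ := fun t => Real.smoothTransition (δ⁻¹ * t + (-(α / δ))) with hf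
  set g : ℝ → ℝ := fun t => Real.smoothTransition (-δ⁻¹ * t + β / δ) with hg
  have hfc : ContDiff ℝ ∞ f :=
    Real.smoothTransition.contDiff.comp ((contDiff_const.mul contDiff_id).add contDiff_const)
  have hgc : ContDiff ℝ ∞ g :=
    Real.smoothTransition.contDiff.comp ((contDiff_const.mul contDiff_id).add contDiff_const)
  have hf0 : ∀ t, t ≤ α → f t = 0 := by
    intro t ht
    refine Real.smoothTransition.zero_of_nonpos ?_
    have : δ⁻¹ * t + (-(α / δ)) = (t - α) / δ := by ring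
    rw [this]
    exact div_nonpos_of_nonpos_of_nonneg (by linarith) hδ.le
  have hf1 : ∀ t, α + δ ≤ t → f t = 1 := by
    intro t ht
    refine Real.smoothTransition.one_of_one_le ?_
    have : δ⁻¹ * t + (-(α / δ)) = (t - α) / δ := by ring
    rw [this, le_div_iff₀ hδ]
    linarith
  have hg0 : ∀ t, β ≤ t → g t = 0 := by
    intro t ht
    refine Real.smoothTransition.zero_of_nonpos ?_
    have : -δ⁻¹ * t + β / δ = (β - t) / δ := by ring
    rw [this]
    exact div_nonpos_of_nonpos_of_nonneg (by linarith) hδ.le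
  have hg1 : ∀ t, t ≤ β - δ → g t = 1 := by
    intro t ht
    refine Real.smoothTransition.one_of_one_le ?_
    have : -δ⁻¹ * t + β / δ = (β - t) / δ := by ring
    rw [this, le_div_iff₀ hδ]
    linarith
  have hfn : ∀ t, 0 ≤ f t ∧ f t ≤ 1 := fun t =>
    ⟨Real.smoothTransition.nonneg _, Real.smoothTransition.le_one _⟩
  have hgn : ∀ t, 0 ≤ g t ∧ g t ≤ 1 := fun t =>
    ⟨Real.smoothTransition.nonneg _, Real.smoothTransition.le_one _⟩
  set psi : ℝ → ℝ := fun t => f t * g t with hpsi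
  have hpc : ContDiff ℝ ∞ psi := hfc.mul hgc
  have hp01 : ∀ t, 0 ≤ psi t ∧ psi t ≤ 1 := fun t =>
    ⟨mul_nonneg (hfn t).1 (hgn t).1, mul_le_one₀ (hfn t).2 (hgn t).1 (hgn t).2⟩
  have hp0 : ∀ t, t ≤ α ∨ β ≤ t → psi t = 0 := by
    intro t ht
    rcases ht with ht | ht
    · simp [hpsi, hf0 t ht]
    · simp [hpsi, hg0 t ht]
  have hp1 : ∀ t, α + δ ≤ t → t ≤ β - δ → psi t = 1 := by
    intro t h1 h2
    simp [hpsi, hf1 t h1, hg1 t h2]
  have hint : Integrable psi := by
    refine hpc.continuous.integrable_of_hasCompactSupport ?_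
    refine HasCompactSupport.intro (K := Set.Icc α β) isCompact_Icc ?_
    intro t ht
    rw [Set.mem_Icc, not_and_or, not_le, not_le] at ht
    exact hp0 t (ht.imp le_of_lt le_of_lt)
  refine ⟨psi, ⟨hpc, ?_, ?_⟩, hp01, hp0, hp1, ?_, ?_⟩
  · intro t ht
    exact hp0 t (ht.imp (fun h => h.trans hα) (fun h => hβ.trans h))
  · intro i hi t
    have h1 : iteratedDeriv i psi t = ∑ k ∈ Finset.range (i + 1),
        i.choose k * iteratedDeriv k f t * iteratedDeriv (i - k) g t := by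
      refine iteratedDeriv_fun_mul ?_ ?_
      · exact (hfc.of_le (by exact_mod_cast le_top)).contDiffAt
      · exact (hgc.of_le (by exact_mod_cast le_top)).contDiffAt
    rw [h1]
    have hδi : 1 ≤ δ⁻¹ := by
      rw [one_le_inv₀ hδ]; linarith
    have h2 : ∀ k ∈ Finset.range (i + 1),
        |(i.choose k : ℝ) * iteratedDeriv k f t * iteratedDeriv (i - k) g t| ≤
          i.choose k * (M ^ 2 * δ⁻¹ ^ 3) := by
      intro k hk
      have hk' : k ≤ i := by
        have := Finset.mem_range.1 hk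
        omega
      rw [hf, hg, smf_aff, smf_aff, abs_mul, abs_mul, abs_mul, abs_mul, abs_pow, abs_pow, abs_neg,
        abs_of_nonneg (by positivity : (0:ℝ) ≤ δ⁻¹), Nat.abs_cast]
      have e1 := hBM k (by omega) (δ⁻¹ * t + (-(α / δ)))
      have e2 := hBM (i - k) (by omega) (-δ⁻¹ * t + β / δ)
      have e3 : δ⁻¹ ^ k * δ⁻¹ ^ (i - k) ≤ δ⁻¹ ^ 3 := by
        rw [← pow_add]
        exact pow_le_pow_right₀ hδi (by omega)
      calc (i.choose k : ℝ) * (δ⁻¹ ^ k * |iteratedDeriv k Real.smoothTransition _|) *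
            (δ⁻¹ ^ (i - k) * |iteratedDeriv (i - k) Real.smoothTransition _|)
          ≤ (i.choose k : ℝ) * (δ⁻¹ ^ k * M) * (δ⁻¹ ^ (i - k) * M) := by gcongr
        _ = i.choose k * (M ^ 2 * (δ⁻¹ ^ k * δ⁻¹ ^ (i - k))) := by ring
        _ ≤ i.choose k * (M ^ 2 * δ⁻¹ ^ 3) := by gcongr
    have h3 : ∑ k ∈ Finset.range (i + 1), (i.choose k : ℝ) = 2 ^ i := by
      exact_mod_cast Nat.sum_range_choose i
    calc |∑ k ∈ Finset.range (i + 1), i.choose k * iteratedDeriv k f t * iteratedDeriv (i - k) g t|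
        ≤ ∑ k ∈ Finset.range (i + 1),
          |(i.choose k : ℝ) * iteratedDeriv k f t * iteratedDeriv (i - k) g t| :=
          Finset.abs_sum_le_sum_abs _ _
      _ ≤ ∑ k ∈ Finset.range (i + 1), i.choose k * (M ^ 2 * δ⁻¹ ^ 3) := Finset.sum_le_sum h2
      _ = 2 ^ i * (M ^ 2 * δ⁻¹ ^ 3) := by rw [← Finset.sum_mul, h3]
      _ ≤ 2 ^ 3 * (M ^ 2 * δ⁻¹ ^ 3) := by
          gcongr
          norm_num
      _ ≤ (8 * M ^ 2 + 1) / δ ^ 3 := by
          rw [div_eq_mul_inv, ← inv_pow]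
          have : 0 ≤ δ⁻¹ ^ 3 := by positivity
          nlinarith
  · have h1 : ∫ t in Set.Icc (α + δ) (β - δ), (1:ℝ) ≤ ∫ t, psi t := by
      rw [← integral_indicator measurableSet_Icc]
      refine integral_mono_of_nonneg ?_ hint ?_
      · exact Filter.Eventually.of_forall fun t => Set.indicator_nonneg (fun _ _ => zero_le_one) t
      · refine Filter.Eventually.of_forall fun t => ?_
        by_cases ht : t ∈ Set.Icc (α + δ) (β - δ)
        · rw [Set.indicator_of_mem ht, hp1 t ht.1 ht.2]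
        · rw [Set.indicator_of_notMem ht]
          exact (hp01 t).1
    refine le_trans (le_of_eq ?_) h1
    rw [setIntegral_const, smul_eq_mul, mul_one, Measure.real, Real.volume_Icc,
      ENNReal.toReal_ofReal (by linarith)]
    ring
  · have h1 : ∫ t, psi t ≤ ∫ t in Set.Icc α β, (1:ℝ) := by
      rw [← integral_indicator measurableSet_Icc]
      refine integral_mono_of_nonneg ?_ ?_ ?_
      · exact Filter.Eventually.of_forall fun t => (hp01 t).1
      · rw [integrable_indicator_iff measurableSet_Icc]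
        exact integrableOn_const (by rw [Real.volume_Icc]; exact ENNReal.ofReal_ne_top) 
      · refine Filter.Eventually.of_forall fun t => ?_
        by_cases ht : t ∈ Set.Icc α β
        · rw [Set.indicator_of_mem ht]
          exact (hp01 t).2
        · rw [Set.indicator_of_notMem ht]
          rw [Set.mem_Icc, not_and_or, not_le, not_le] at ht
          exact (hp0 t (ht.imp le_of_lt le_of_lt)).le
    refine h1.trans (le_of_eq ?_)
    rw [setIntegral_const, smul_eq_mul, mul_one, Measure.real, Real.volume_Icc,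
      ENNReal.toReal_ofReal (by linarith)]

theorem bump_above : ∃ C : ℝ, 0 < C ∧ ∀ δ : ℝ, 0 < δ → δ ≤ 1 / 20 → ∃ psi : ℝ → ℝ,
    Bump psi (C / δ ^ 3) ∧ (∀ t, 0 ≤ psi t ∧ psi t ≤ 1) ∧
    (∀ t, 5 / 4 ≤ t → t ≤ 7 / 4 → psi t = 1) ∧
    (1 / 2 ≤ ∫ t, psi t) ∧ (∫ t, psi t) ≤ 1 / 2 + 2 * δ := by
  obtain ⟨C, hC, h⟩ := smf_gen
  refine ⟨C, hC, fun δ hδ hδ1 => ?_⟩
  obtain ⟨psi, h1, h2, h3, h4, h5, h6⟩ := h δ (5 / 4 - δ) (7 / 4 + δ) hδ hδ1 (by linarith)
    (by linarith) (by linarith)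
  exact ⟨psi, h1, h2, fun t ht1 ht2 => h4 t (by linarith) (by linarith), by linarith, by linarith⟩

theorem bump_below : ∃ C : ℝ, 0 < C ∧ ∀ δ : ℝ, 0 < δ → δ ≤ 1 / 20 → ∃ psi : ℝ → ℝ,
    Bump psi (C / δ ^ 3) ∧ (∀ t, 0 ≤ psi t ∧ psi t ≤ 1) ∧
    (∀ t, t ≤ 5 / 4 ∨ 7 / 4 ≤ t → psi t = 0) ∧
    (1 / 2 - 2 * δ ≤ ∫ t, psi t) ∧ (∫ t, psi t) ≤ 1 / 2 := by
  obtain ⟨C, hC, h⟩ := smf_gen
  refine ⟨C, hC, fun δ hδ hδ1 => ?_⟩
  obtain ⟨psi, h1, h2, h3, h4, h5, h6⟩ := h δ (5 / 4) (7 / 4) hδ hδ1 (by norm_num)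
    (by norm_num) (by linarith)
  exact ⟨psi, h1, h2, h3, by linarith, by linarith⟩

end BV

end
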