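import Pool.Agent.Work.BV.BVS
import Pool.Agent.Work.BV.SMF

/-!
Module BLK (the primes in `(5M, 7M]`).
-/

set_option autoImplicit false

open Finset Filter MeasureTheory Topology
open scoped ContDiff ArithmeticFunction.Moebius ArithmeticFunction.vonMangoldt

noncomputable section

namespace BV

private theorem blk_thp {y n : ℕ} (q c : ℕ) (h : y < n) :
    thp y q c = ∑ p ∈ (Finset.range n).filter (fun p => p ≡ c [MOD q]),
      th p * (if p ≤ y then 1 else 0) := by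
  unfold thp
  have h1 : ∑ p ∈ (Finset.Icc 1 y).filter (fun p => p.Prime ∧ p % q = c % q), Real.log p =
      ∑ p ∈ (Finset.Icc 1 y).filter (fun p => p.Prime ∧ p % q = c % q),
        th p * (if p ≤ y then 1 else 0) := by
    refine Finset.sum_congr rfl fun p hp => ?_
    rw [Finset.mem_filter, Finset.mem_Icc] at hp
    rw [if_pos hp.1.2, mul_one, th, if_pos hp.2.1]
  rw [h1]
  refine Finset.sum_subset ?_ ?_
  · intro p hp
    rw [Finset.mem_filter, Finset.mem_Icc] at hp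
    rw [Finset.mem_filter, Finset.mem_range]
    exact ⟨by omega, hp.2.2⟩
  · intro p hp hnp
    rw [Finset.mem_filter, Finset.mem_range] at hp
    rw [Finset.mem_filter, Finset.mem_Icc] at hnp
    by_cases hpr : p.Prime
    · by_cases hy : p ≤ y
      · exact absurd ⟨⟨hpr.one_le, hy⟩, hpr, hp.2⟩ hnp
      · rw [if_neg hy, mul_zero]
    · rw [th, if_neg hpr, zero_mul]

private theorem th_nonneg (p : ℕ) : 0 ≤ th p := by
  unfold th
  split_ifs
  · exact Real.log_natCast_nonneg p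
  · exact le_rfl

private theorem blk_diff {M : ℕ} (hM : 3 ≤ M) (q c : ℕ) :
    thp (7 * M) q c - thp (5 * M) q c =
      ∑ p ∈ (Finset.range (2 * (4 * M))).filter (fun p => p ≡ c [MOD q]),
        th p * (if 5 * M < p ∧ p ≤ 7 * M then 1 else 0) := by
  rw [blk_thp q c (show 7 * M < 2 * (4 * M) by omega),
    blk_thp q c (show 5 * M < 2 * (4 * M) by omega), ← Finset.sum_sub_distrib]
  refine Finset.sum_congr rfl fun p _ => ?_
  rw [← mul_sub]
  congr 1
  by_cases h5 : p ≤ 5 * M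
  · rw [if_pos (show p ≤ 7 * M by omega), if_pos h5, if_neg (by omega)]
    norm_num
  · by_cases h7 : p ≤ 7 * M
    · rw [if_pos h7, if_neg h5, if_pos (by omega)]
      norm_num
    · rw [if_neg h7, if_neg h5, if_neg (by omega)]
      norm_num

theorem block {ε : ℝ} (hε : 0 < ε) (A : ℕ) : ∃ K : ℝ, 0 ≤ K ∧ ∀ M : ℕ, 3 ≤ M → ∀ c : ℕ → ℕ,
    (∀ q, 0 < q → Nat.Coprime (c q) q) →
      ∑ q ∈ Finset.Icc 1 ⌊(M : ℝ) ^ (1 / 2 - ε)⌋₊,
        |thp (7 * M) q (c q) - thp (5 * M) q (c q) - 2 * M / (Nat.totient q : ℝ)| ≤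
          K * M / Real.log M ^ A := by
  obtain ⟨K, hK, hbv⟩ := bv_plain hε (4 * A + 3)
  obtain ⟨C₁, hC₁, hab⟩ := bump_above
  obtain ⟨C₂, hC₂, hbe⟩ := bump_below
  obtain ⟨C₃, hC₃, hti⟩ := totient_inv
  refine ⟨32000 * K * (C₁ + C₂) + C₃, by positivity, ?_⟩
  intro M hM c hc
  have hMR : (3:ℝ) ≤ M := by exact_mod_cast hM
  have hM0 : (0:ℝ) < M := by linarith
  set L := Real.log M with hL
  have hL1 : 1 < L := by
    rw [hL, Real.lt_log_iff_exp_lt hM0]
    have := Real.exp_one_lt_d9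
    linarith
  have hL0 : 0 < L := by linarith
  by_cases hε2 : ε ≤ 1 / 2
  swap
  · have h0 : ⌊(M : ℝ) ^ (1 / 2 - ε)⌋₊ = 0 := by
      rw [Nat.floor_eq_zero]
      exact Real.rpow_lt_one_of_one_lt_of_neg (by linarith) (by linarith)
    rw [h0]
    simp only [Finset.Icc_eq_empty_of_lt zero_lt_one, Finset.sum_empty]
    positivity
  -- the parameter
  have hLA1 : 1 ≤ L ^ (A + 1) := one_le_pow₀ hL1.le
  set δ := 1 / (20 * L ^ (A + 1)) with hδ
  have hδ0 : 0 < δ := by positivity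
  have hδ1 : δ ≤ 1 / 20 := by
    rw [hδ]
    apply one_div_le_one_div_of_le (by norm_num)
    linarith
  obtain ⟨psiP, hP, hP01, hP1, hPi1, hPi2⟩ := hab δ hδ0 hδ1
  obtain ⟨psiM, hQ, hQ01, hQ0, hQi1, hQi2⟩ := hbe δ hδ0 hδ1
  set N := 4 * M with hN
  have hNR : (N:ℝ) = 4 * M := by rw [hN]; push_cast; ring
  have hN0 : (0:ℝ) < N := by rw [hNR]; positivity
  -- one modulus
  have key : ∀ q ∈ Finset.Icc 1 ⌊(M : ℝ) ^ (1 / 2 - ε)⌋₊,
      |thp (7 * M) q (c q) - thp (5 * M) q (c q) - 2 * M / (Nat.totient q : ℝ)| ≤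
      |Eerr psiP N q (c q)| + |Eerr psiM N q (c q)| + 8 * δ * M * (1 / (Nat.totient q : ℝ)) := by
    intro q hq
    have hq1 : 1 ≤ q := (Finset.mem_Icc.1 hq).1
    have hφ : (0:ℝ) < Nat.totient q := by exact_mod_cast Nat.totient_pos.2 hq1
    rw [blk_diff hM]
    set s := (Finset.range (2 * N)).filter (fun p => p ≡ c q [MOD q]) with hs
    have hup : ∑ p ∈ s, th p * (if 5 * M < p ∧ p ≤ 7 * M then 1 else 0) ≤
        ∑ p ∈ s, th p * psiP ((p : ℝ) / N) := by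
      refine Finset.sum_le_sum fun p _ => mul_le_mul_of_nonneg_left ?_ (th_nonneg p)
      split_ifs with h
      · rw [hP1]
        · rw [le_div_iff₀ hN0, hNR]
          have : (5:ℝ) * M < p := by exact_mod_cast h.1
          linarith
        · rw [div_le_iff₀ hN0, hNR]
          have : (p:ℝ) ≤ 7 * M := by exact_mod_cast h.2
          linarith
      · exact (hP01 _).1
    have hlow : ∑ p ∈ s, th p * psiM ((p : ℝ) / N) ≤
        ∑ p ∈ s, th p * (if 5 * M < p ∧ p ≤ 7 * M then 1 else 0) := by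
      refine Finset.sum_le_sum fun p _ => mul_le_mul_of_nonneg_left ?_ (th_nonneg p)
      split_ifs with h
      · exact (hQ01 _).2
      · rw [hQ0]
        rw [not_and_or, not_lt, not_le] at h
        rcases h with h | h
        · left
          rw [div_le_iff₀ hN0, hNR]
          have : (p:ℝ) ≤ 5 * M := by exact_mod_cast h
          linarith
        · right
          rw [le_div_iff₀ hN0, hNR]
          have : (7:ℝ) * M < p := by exact_mod_cast h
          linarith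
    set T := ∑ p ∈ s, th p * (if 5 * M < p ∧ p ≤ 7 * M then (1:ℝ) else 0) with hT
    have e1 : Eerr psiP N q (c q) =
        ∑ p ∈ s, th p * psiP ((p : ℝ) / N) - N / (Nat.totient q : ℝ) * ∫ t, psiP t := rfl
    have e2 : Eerr psiM N q (c q) =
        ∑ p ∈ s, th p * psiM ((p : ℝ) / N) - N / (Nat.totient q : ℝ) * ∫ t, psiM t := rfl
    have f1 : N / (Nat.totient q : ℝ) * ∫ t, psiP t ≤ N / (Nat.totient q : ℝ) * (1 / 2 + 2 * δ) := by
      gcongr
    have f2 : N / (Nat.totient q : ℝ) * (1 / 2 - 2 * δ) ≤ N / (Nat.totient q : ℝ) * ∫ t, psiM t := by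
      gcongr
    have g1 : N / (Nat.totient q : ℝ) * (1 / 2 + 2 * δ) =
        2 * M / (Nat.totient q : ℝ) + 8 * δ * M * (1 / (Nat.totient q : ℝ)) := by
      rw [hNR]; field_simp; ring
    have g2 : N / (Nat.totient q : ℝ) * (1 / 2 - 2 * δ) =
        2 * M / (Nat.totient q : ℝ) - 8 * δ * M * (1 / (Nat.totient q : ℝ)) := by
      rw [hNR]; field_simp; ring
    have a1 := le_abs_self (Eerr psiP N q (c q))
    have a2 := neg_abs_le (Eerr psiM N q (c q))
    have a3 := abs_nonneg (Eerr psiP N q (c q))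
    have a4 := abs_nonneg (Eerr psiM N q (c q))
    rw [abs_le]
    constructor <;> linarith
  -- the sum
  have hsub : Finset.Icc 1 ⌊(M : ℝ) ^ (1 / 2 - ε)⌋₊ ⊆ Finset.Icc 1 ⌊(N : ℝ) ^ (1 / 2 - ε)⌋₊ := by
    refine Finset.Icc_subset_Icc_right (Nat.floor_le_floor ?_)
    refine Real.rpow_le_rpow hM0.le ?_ (by linarith)
    rw [hNR]; linarith
  have hLN : L ≤ Real.log N := by
    rw [hL]
    refine Real.log_le_log hM0 ?_
    rw [hNR]; linarith
  have hD : ∀ C : ℝ, 0 < C → K * (C / δ ^ 3) * N / Real.log N ^ (4 * A + 3) ≤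
      32000 * K * C * (M / L ^ A) := by
    intro C hC
    have h1 : C / δ ^ 3 = 8000 * C * (L ^ (A + 1)) ^ 3 := by
      rw [hδ]
      field_simp
      ring
    have h2 : L ^ (4 * A + 3) ≤ Real.log N ^ (4 * A + 3) := by gcongr
    calc K * (C / δ ^ 3) * N / Real.log N ^ (4 * A + 3)
        ≤ K * (C / δ ^ 3) * N / L ^ (4 * A + 3) := by gcongr
      _ = 32000 * K * C * (M / L ^ A) := by
          rw [h1, hNR, ← pow_mul, show 4 * A + 3 = (A + 1) * 3 + A by ring, pow_add]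
          field_simp
          ring
  have hPs := hbv psiP _ hP N (by omega) c hc
  have hQs := hbv psiM _ hQ N (by omega) c hc
  have hPs' : ∑ q ∈ Finset.Icc 1 ⌊(M : ℝ) ^ (1 / 2 - ε)⌋₊, |Eerr psiP N q (c q)| ≤
      32000 * K * C₁ * (M / L ^ A) :=
    (Finset.sum_le_sum_of_subset_of_nonneg hsub fun _ _ _ => abs_nonneg _).trans
      (hPs.trans (hD C₁ hC₁))
  have hQs' : ∑ q ∈ Finset.Icc 1 ⌊(M : ℝ) ^ (1 / 2 - ε)⌋₊, |Eerr psiM N q (c q)| ≤
      32000 * K * C₂ * (M / L ^ A) :=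
    (Finset.sum_le_sum_of_subset_of_nonneg hsub fun _ _ _ => abs_nonneg _).trans
      (hQs.trans (hD C₂ hC₂))
  have hts : ∑ q ∈ Finset.Icc 1 ⌊(M : ℝ) ^ (1 / 2 - ε)⌋₊, (1 / (Nat.totient q : ℝ)) ≤
      C₃ * (2 * L) := by
    have hsub2 : Finset.Icc 1 ⌊(M : ℝ) ^ (1 / 2 - ε)⌋₊ ⊆ Finset.Icc 1 M := by
      refine Finset.Icc_subset_Icc_right ?_
      have h1 : (M : ℝ) ^ (1 / 2 - ε) ≤ M := by
        calc (M : ℝ) ^ (1 / 2 - ε) ≤ (M : ℝ) ^ (1 : ℝ) :=
              Real.rpow_le_rpow_of_exponent_le (by linarith) (by linarith)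
          _ = M := Real.rpow_one _
      calc ⌊(M : ℝ) ^ (1 / 2 - ε)⌋₊ ≤ ⌊(M:ℝ)⌋₊ := Nat.floor_le_floor h1
        _ = M := Nat.floor_natCast M
    calc ∑ q ∈ Finset.Icc 1 ⌊(M : ℝ) ^ (1 / 2 - ε)⌋₊, (1 / (Nat.totient q : ℝ))
        ≤ ∑ q ∈ Finset.Icc 1 M, (1 / (Nat.totient q : ℝ)) :=
          Finset.sum_le_sum_of_subset_of_nonneg hsub2 fun _ _ _ => by positivity
      _ ≤ C₃ * (1 + L) := hti M (by omega)
      _ ≤ C₃ * (2 * L) := by gcongr; linarith
  have hts2 : 8 * δ * M * (C₃ * (2 * L)) ≤ C₃ * (M / L ^ A) := by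
    have : 8 * δ * M * (C₃ * (2 * L)) = 16 / 20 * (C₃ * (M / L ^ A)) := by
      rw [hδ, pow_succ]
      field_simp
      ring
    rw [this]
    have : 0 ≤ C₃ * (M / L ^ A) := by positivity
    linarith
  calc ∑ q ∈ Finset.Icc 1 ⌊(M : ℝ) ^ (1 / 2 - ε)⌋₊,
        |thp (7 * M) q (c q) - thp (5 * M) q (c q) - 2 * M / (Nat.totient q : ℝ)|
      ≤ ∑ q ∈ Finset.Icc 1 ⌊(M : ℝ) ^ (1 / 2 - ε)⌋₊,
        (|Eerr psiP N q (c q)| + |Eerr psiM N q (c q)| + 8 * δ * M * (1 / (Nat.totient q : ℝ))) :=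
        Finset.sum_le_sum key
    _ = ∑ q ∈ Finset.Icc 1 ⌊(M : ℝ) ^ (1 / 2 - ε)⌋₊, |Eerr psiP N q (c q)| +
        ∑ q ∈ Finset.Icc 1 ⌊(M : ℝ) ^ (1 / 2 - ε)⌋₊, |Eerr psiM N q (c q)| +
        8 * δ * M * ∑ q ∈ Finset.Icc 1 ⌊(M : ℝ) ^ (1 / 2 - ε)⌋₊, (1 / (Nat.totient q : ℝ)) := by
        rw [Finset.sum_add_distrib, Finset.sum_add_distrib, Finset.mul_sum]
    _ ≤ 32000 * K * C₁ * (M / L ^ A) + 32000 * K * C₂ * (M / L ^ A) +
        8 * δ * M * (C₃ * (2 * L)) := by gcongr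
    _ ≤ 32000 * K * C₁ * (M / L ^ A) + 32000 * K * C₂ * (M / L ^ A) + C₃ * (M / L ^ A) := by
        linarith
    _ = (32000 * K * (C₁ + C₂) + C₃) * M / L ^ A := by ring

end BV

end
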