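import Mathlib

/-!
Module DIVS (elementary divisor sums; Mathlib only; size M).

tau_sq: `τ(m)² = ∑_{d|m} ∑_{e|m} 1`, so `∑_{m≤M} τ(m)² = ∑_{d,e ≤ M} #{m ≤ M : lcm(d,e) | m} ≤
M ∑_{d,e ≤ M} 1/lcm(d,e)`, and with `g = gcd(d,e)`, `d = g d'`, `e = g e'`: `1/lcm = 1/(g d' e')`, so the
sum is `≤ (∑_{n ≤ M} 1/n)³ ≤ (1 + log M)³`.
lam_sum: Chebyshev (`Chebyshev.psi_le_const_mul_self`).
lam_sq: `∑_{n ≤ y} Λ(n)² ≤ log y ∑ Λ(n)`.
totient_inv: `m/φ(m) = ∑_{d|m} μ²(d)/φ(d)`, so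
`∑_{m≤M} 1/φ(m) = ∑_m (1/m) ∑_{d|m} μ²(d)/φ(d) ≤ ∑_d μ²(d)/(dφ(d)) (1 + log M)` and
`∑_d μ²(d)/(d φ(d)) < ∞` (for instance `φ(d) ≥ sqrt(d/2)`).
totient_inv_mul: `q = r m`, `φ(rm) ≥ φ(r) φ(m)`.
omega_sum: by induction on `C`: `C^{ω(q)} ≤` number of ways to write `q` as a product of `C` factors, so
`∑_{q ≤ Q} C^{ω(q)}/q ≤ (∑_{n ≤ Q} 1/n)^C ≤ (1 + log Q)^C`.
-/

set_option autoImplicit false

open Finset Filter MeasureTheory Topology
open scoped ContDiff ArithmeticFunction.Moebius ArithmeticFunction.vonMangoldt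

noncomputable section

namespace BV

private theorem divs_swap (M : ℕ) (F : ℕ → ℕ → ℝ) :
    ∑ m ∈ Finset.Icc 1 M, ∑ x ∈ m.divisorsAntidiagonal, F x.1 x.2 =
      ∑ d ∈ Finset.Icc 1 M, ∑ k ∈ Finset.Icc 1 (M / d), F d k := by
  rw [Finset.sum_sigma', Finset.sum_sigma']
  refine Finset.sum_bij' (fun x _ => ⟨x.2.1, x.2.2⟩) (fun x _ => ⟨x.1 * x.2, (x.1, x.2)⟩)
    ?_ ?_ ?_ ?_ ?_
  · rintro ⟨m, x⟩ hx
    simp only [Finset.mem_sigma, Finset.mem_Icc, Nat.mem_divisorsAntidiagonal] at hx ⊢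
    obtain ⟨⟨h1, h2⟩, h3, h4⟩ := hx
    have hx1 : 0 < x.1 := Nat.pos_of_ne_zero fun h => by rw [h, zero_mul] at h3; omega
    have hx2 : 0 < x.2 := Nat.pos_of_ne_zero fun h => by rw [h, mul_zero] at h3; omega
    refine ⟨⟨hx1, ?_⟩, hx2, ?_⟩
    · have := Nat.le_mul_of_pos_right x.1 hx2
      omega
    · rw [Nat.le_div_iff_mul_le hx1, mul_comm]
      omega
  · rintro ⟨d, k⟩ hx
    simp only [Finset.mem_sigma, Finset.mem_Icc, Nat.mem_divisorsAntidiagonal] at hx ⊢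
    obtain ⟨⟨h1, h2⟩, h3, h4⟩ := hx
    have h5 : 0 < d * k := Nat.mul_pos h1 h3
    rw [Nat.le_div_iff_mul_le h1, mul_comm] at h4
    exact ⟨⟨h5, h4⟩, trivial, h5.ne'⟩
  · rintro ⟨m, x⟩ hx
    simp only [Finset.mem_sigma, Finset.mem_Icc, Nat.mem_divisorsAntidiagonal] at hx
    obtain ⟨⟨h1, h2⟩, h3, h4⟩ := hx
    subst h3
    rfl
  · rintro ⟨d, k⟩ _
    rfl
  · rintro ⟨m, x⟩ _
    rfl

private theorem divs_harm (n : ℕ) : ∑ k ∈ Finset.Icc 1 n, (1 / (k : ℝ)) ≤ 1 + Real.log n := by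
  have := harmonic_le_one_add_log n
  rw [harmonic_eq_sum_Icc] at this
  push_cast at this
  refine le_trans (le_of_eq ?_) this
  refine Finset.sum_congr rfl fun k _ => ?_
  rw [one_div]

private theorem divs_log_nonneg (n : ℕ) : 0 ≤ Real.log (n : ℝ) := Real.log_natCast_nonneg n

private theorem divs_log_le {m n : ℕ} (h : m ≤ n) : Real.log (m : ℝ) ≤ Real.log (n : ℝ) := by
  rcases Nat.eq_zero_or_pos m with h0 | h0
  · rw [h0, Nat.cast_zero, Real.log_zero]
    exact divs_log_nonneg n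
  · exact Real.log_le_log (by exact_mod_cast h0) (by exact_mod_cast h)

private theorem divs_card (m : ℕ) :
    (m.divisors.card : ℝ) = ∑ x ∈ m.divisorsAntidiagonal, (1 : ℝ) := by
  rw [Finset.sum_const, nsmul_eq_mul, mul_one, ← Nat.map_div_right_divisors, Finset.card_map]

private theorem divs_tau (M : ℕ) :
    ∑ m ∈ Finset.Icc 1 M, (m.divisors.card : ℝ) ≤ M * (1 + Real.log M) := by
  simp_rw [divs_card]
  rw [divs_swap M (fun _ _ => 1)]
  have h1 : ∀ d ∈ Finset.Icc 1 M, ∑ k ∈ Finset.Icc 1 (M / d), (1 : ℝ) ≤ M * (1 / (d : ℝ)) := by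
    intro d _
    rw [Finset.sum_const, nsmul_eq_mul, mul_one, Nat.card_Icc, Nat.add_sub_cancel, mul_one_div]
    exact Nat.cast_div_le
  refine (Finset.sum_le_sum h1).trans ?_
  rw [← Finset.mul_sum]
  exact mul_le_mul_of_nonneg_left (divs_harm M) (Nat.cast_nonneg M)

private theorem divs_tau_div (M : ℕ) :
    ∑ m ∈ Finset.Icc 1 M, (m.divisors.card : ℝ) / m ≤ (1 + Real.log M) ^ 2 := by
  have h0 : ∀ m ∈ Finset.Icc 1 M, (m.divisors.card : ℝ) / m =
      ∑ x ∈ m.divisorsAntidiagonal, 1 / (x.1 : ℝ) * (1 / (x.2 : ℝ)) := by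
    intro m _
    rw [divs_card, Finset.sum_div]
    refine Finset.sum_congr rfl fun x hx => ?_
    rw [Nat.mem_divisorsAntidiagonal] at hx
    rw [← hx.1]
    push_cast
    rw [one_div_mul_one_div]
  rw [Finset.sum_congr rfl h0, divs_swap M (fun a b => 1 / (a : ℝ) * (1 / (b : ℝ)))]
  have hlog := divs_log_nonneg M
  have h1 : ∀ d ∈ Finset.Icc 1 M, ∑ k ∈ Finset.Icc 1 (M / d), 1 / (d : ℝ) * (1 / (k : ℝ)) ≤
      1 / (d : ℝ) * (1 + Real.log M) := by
    intro d _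
    rw [← Finset.mul_sum]
    refine mul_le_mul_of_nonneg_left ((divs_harm _).trans ?_) (by positivity)
    have := divs_log_le (Nat.div_le_self M d)
    linarith
  refine (Finset.sum_le_sum h1).trans ?_
  rw [← Finset.sum_mul, sq]
  exact mul_le_mul_of_nonneg_right (divs_harm M) (by linarith)

private theorem divs_submul (a b : ℕ) :
    ((a * b).divisors.card : ℝ) ≤ (a.divisors.card : ℝ) * (b.divisors.card : ℝ) := by
  rw [Nat.divisors_mul]
  exact_mod_cast Finset.card_mul_le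

theorem tau_sq (M : ℕ) (hM : 0 < M) :
    ∑ m ∈ Finset.Icc 1 M, ((m.divisors.card : ℝ)) ^ 2 ≤ M * (1 + Real.log M) ^ 3 := by
  have hlog := divs_log_nonneg M
  have h0 : ∀ m ∈ Finset.Icc 1 M, ((m.divisors.card : ℝ)) ^ 2 ≤
      ∑ x ∈ m.divisorsAntidiagonal, (x.1.divisors.card : ℝ) * (x.2.divisors.card : ℝ) := by
    intro m _
    rw [sq]
    conv_lhs => rw [divs_card, Finset.sum_mul]
    refine Finset.sum_le_sum fun x hx => ?_
    rw [Nat.mem_divisorsAntidiagonal] at hx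
    rw [one_mul, ← hx.1, ← divs_card]
    exact divs_submul _ _
  refine (Finset.sum_le_sum h0).trans ?_
  rw [divs_swap M (fun a b => (a.divisors.card : ℝ) * (b.divisors.card : ℝ))]
  have h1 : ∀ d ∈ Finset.Icc 1 M, ∑ k ∈ Finset.Icc 1 (M / d),
      (d.divisors.card : ℝ) * (k.divisors.card : ℝ) ≤
      (M * (1 + Real.log M)) * ((d.divisors.card : ℝ) / d) := by
    intro d hd
    rw [← Finset.mul_sum]
    have h2 := divs_tau (M / d)
    have h3 : ((M / d : ℕ) : ℝ) ≤ M / d := Nat.cast_div_le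
    have h4 := divs_log_le (Nat.div_le_self M d)
    have h5 := divs_log_nonneg (M / d)
    have h6 : (0 : ℝ) ≤ M / d := by positivity
    calc (d.divisors.card : ℝ) * ∑ k ∈ Finset.Icc 1 (M / d), (k.divisors.card : ℝ)
        ≤ (d.divisors.card : ℝ) * (M / d * (1 + Real.log M)) := by
          refine mul_le_mul_of_nonneg_left (h2.trans ?_) (Nat.cast_nonneg _)
          exact mul_le_mul h3 (by linarith) (by linarith) h6
      _ = _ := by ring
  refine (Finset.sum_le_sum h1).trans ?_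
  rw [← Finset.mul_sum]
  calc (M : ℝ) * (1 + Real.log M) * ∑ d ∈ Finset.Icc 1 M, (d.divisors.card : ℝ) / d
      ≤ M * (1 + Real.log M) * (1 + Real.log M) ^ 2 :=
        mul_le_mul_of_nonneg_left (divs_tau_div M) (by positivity)
    _ = _ := by ring

theorem lam_sum : ∃ C : ℝ, 0 ≤ C ∧ ∀ y : ℕ, ∑ n ∈ Finset.Icc 1 y, Λ n ≤ C * y := by
  refine ⟨Real.log 4 + 4, ?_, fun y => ?_⟩
  · have := Real.log_nonneg (by norm_num : (1 : ℝ) ≤ 4)
    linarith
  · have h1 := Chebyshev.psi_le_const_mul_self (x := (y : ℝ)) (Nat.cast_nonneg y)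
    refine le_trans (le_of_eq ?_) h1
    rw [Chebyshev.psi_eq_sum_Icc, Nat.floor_natCast]
    refine Finset.sum_subset ?_ ?_
    · intro n hn
      rw [Finset.mem_Icc] at hn ⊢
      omega
    · intro n hn hn'
      rw [Finset.mem_Icc] at hn hn'
      have : n = 0 := by omega
      rw [this]
      simp

theorem lam_sq : ∃ C : ℝ, 0 ≤ C ∧ ∀ y : ℕ, 0 < y →
    ∑ n ∈ Finset.Icc 1 y, Λ n ^ 2 ≤ C * y * (1 + Real.log y) := by
  obtain ⟨C, hC, h⟩ := lam_sum
  refine ⟨C, hC, fun y hy => ?_⟩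
  have hlog := divs_log_nonneg y
  calc ∑ n ∈ Finset.Icc 1 y, Λ n ^ 2 ≤ ∑ n ∈ Finset.Icc 1 y, Λ n * Real.log y := by
        refine Finset.sum_le_sum fun n hn => ?_
        rw [sq]
        refine mul_le_mul_of_nonneg_left ?_ ArithmeticFunction.vonMangoldt_nonneg
        exact ArithmeticFunction.vonMangoldt_le_log.trans (divs_log_le (Finset.mem_Icc.1 hn).2)
    _ = (∑ n ∈ Finset.Icc 1 y, Λ n) * Real.log y := (Finset.sum_mul _ _ _).symm
    _ ≤ (C * y) * Real.log y := mul_le_mul_of_nonneg_right (h y) hlog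
    _ ≤ C * y * (1 + Real.log y) := by
        have : 0 ≤ C * y := by positivity
        nlinarith

/-- sums over sets of prime divisors -/
private theorem divs_powerset (m : ℕ) (hm : 0 < m) (f : ℕ → ℝ) (hf : ∀ d, 0 ≤ f d) :
    ∑ T ∈ m.primeFactors.powerset, f (∏ p ∈ T, p) ≤ ∑ x ∈ m.divisorsAntidiagonal, f x.1 := by
  have hprime : ∀ T ∈ m.primeFactors.powerset, ∀ p ∈ T, p.Prime := fun T hT p hp =>
    Nat.prime_of_mem_primeFactors (Finset.mem_powerset.1 hT hp)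
  have hinj : Set.InjOn (fun T : Finset ℕ => ∏ p ∈ T, p) (m.primeFactors.powerset : Set (Finset ℕ)) := by
    intro T hT T' hT' h
    have h1 := Nat.primeFactors_prod (hprime T hT)
    have h2 := Nat.primeFactors_prod (hprime T' hT')
    have h3 : ∏ p ∈ T, p = ∏ p ∈ T', p := h
    rw [← h1, ← h2, h3]
  have h1 : ∑ x ∈ m.divisorsAntidiagonal, f x.1 = ∑ d ∈ m.divisors, f d := by
    rw [Nat.sum_divisorsAntidiagonal (fun d _ => f d)]
  rw [h1]
  calc ∑ T ∈ m.primeFactors.powerset, f (∏ p ∈ T, p)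
      = ∑ d ∈ m.primeFactors.powerset.image (fun T => ∏ p ∈ T, p), f d := by
        rw [Finset.sum_image hinj]
    _ ≤ ∑ d ∈ m.divisors, f d := by
        refine Finset.sum_le_sum_of_subset_of_nonneg ?_ fun d _ _ => hf d
        intro d hd
        rw [Finset.mem_image] at hd
        obtain ⟨T, hT, rfl⟩ := hd
        rw [Nat.mem_divisors]
        refine ⟨?_, hm.ne'⟩
        exact (Finset.prod_dvd_prod_of_subset _ _ _ (Finset.mem_powerset.1 hT)).trans
          (Nat.prod_primeFactors_dvd m)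

private theorem divs_omega (C m : ℕ) (hm : 0 < m) :
    ((C + 1 : ℕ) : ℝ) ^ m.primeFactors.card ≤
      ∑ x ∈ m.divisorsAntidiagonal, (C : ℝ) ^ x.1.primeFactors.card := by
  have h1 : ((C + 1 : ℕ) : ℝ) ^ m.primeFactors.card =
      ∑ T ∈ m.primeFactors.powerset, (C : ℝ) ^ (∏ p ∈ T, p).primeFactors.card := by
    have h2 : ∏ p ∈ m.primeFactors, (1 + (C : ℝ)) = ((C + 1 : ℕ) : ℝ) ^ m.primeFactors.card := by
      rw [Finset.prod_const]
      push_cast
      rw [add_comm]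
    rw [← h2, Finset.prod_one_add]
    refine Finset.sum_congr rfl fun T hT => ?_
    rw [Finset.prod_const, Nat.primeFactors_prod fun p hp =>
      Nat.prime_of_mem_primeFactors (Finset.mem_powerset.1 hT hp)]
  rw [h1]
  exact divs_powerset m hm (fun d => (C : ℝ) ^ d.primeFactors.card) fun d => by positivity

theorem omega_sum (C Q : ℕ) (hQ : 0 < Q) :
    ∑ q ∈ Finset.Icc 1 Q, (C : ℝ) ^ q.primeFactors.card / q ≤ (1 + Real.log Q) ^ C := by
  have hlog := divs_log_nonneg Q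
  induction C with
  | zero =>
    rw [pow_zero]
    have h1 : ∑ q ∈ Finset.Icc 1 Q, ((0 : ℕ) : ℝ) ^ q.primeFactors.card / q =
        ∑ q ∈ Finset.Icc 1 Q, if q = 1 then (1 : ℝ) else 0 := by
      refine Finset.sum_congr rfl fun q hq => ?_
      rw [Finset.mem_Icc] at hq
      by_cases h : q = 1
      · rw [if_pos h, h]; simp
      · rw [if_neg h]
        have h2 : q.primeFactors.card ≠ 0 := by
          rw [Finset.card_ne_zero]
          exact Nat.nonempty_primeFactors.2 (by omega)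
        rw [Nat.cast_zero, zero_pow h2, zero_div]
    rw [h1, Finset.sum_ite_eq' (Finset.Icc 1 Q) 1 (fun _ => (1 : ℝ))]
    split_ifs <;> norm_num
  | succ C ih =>
    have h0 : ∀ q ∈ Finset.Icc 1 Q, ((C + 1 : ℕ) : ℝ) ^ q.primeFactors.card / q ≤
        ∑ x ∈ q.divisorsAntidiagonal, (C : ℝ) ^ x.1.primeFactors.card / x.1 * (1 / (x.2 : ℝ)) := by
      intro q hq
      have hq0 : 0 < q := (Finset.mem_Icc.1 hq).1
      refine (div_le_div_of_nonneg_right (divs_omega C q hq0) (Nat.cast_nonneg q)).trans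
        (le_of_eq ?_)
      rw [Finset.sum_div]
      refine Finset.sum_congr rfl fun x hx => ?_
      rw [Nat.mem_divisorsAntidiagonal] at hx
      rw [← hx.1]
      push_cast
      rw [mul_one_div, div_div]
    refine (Finset.sum_le_sum h0).trans ?_
    rw [divs_swap Q (fun a b => (C : ℝ) ^ a.primeFactors.card / a * (1 / (b : ℝ)))]
    have h1 : ∀ d ∈ Finset.Icc 1 Q, ∑ k ∈ Finset.Icc 1 (Q / d),
        (C : ℝ) ^ d.primeFactors.card / d * (1 / (k : ℝ)) ≤
        (C : ℝ) ^ d.primeFactors.card / d * (1 + Real.log Q) := by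
      intro d _
      rw [← Finset.mul_sum]
      refine mul_le_mul_of_nonneg_left ((divs_harm _).trans ?_) (by positivity)
      have := divs_log_le (Nat.div_le_self Q d)
      linarith
    refine (Finset.sum_le_sum h1).trans ?_
    rw [← Finset.sum_mul, pow_succ]
    exact mul_le_mul_of_nonneg_right ih (by linarith)

private theorem divs_two (m : ℕ) (hm : 0 < m) :
    (2 : ℝ) ^ m.primeFactors.card ≤ (m.divisors.card : ℝ) := by
  have h := divs_omega 1 m hm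
  simp only [Nat.cast_one, one_pow] at h
  rw [divs_card]
  norm_num at h ⊢
  exact_mod_cast h

private theorem divs_phi (m : ℕ) (hm : 0 < m) :
    (m : ℝ) / Nat.totient m ≤ ∑ x ∈ m.divisorsAntidiagonal, (x.1.divisors.card : ℝ) / x.1 := by
  have hm' : (0 : ℝ) < m := by exact_mod_cast hm
  have hφ : (Nat.totient m : ℝ) = m * ∏ p ∈ m.primeFactors, (1 - ((p : ℝ))⁻¹) := by
    have := Nat.totient_eq_mul_prod_factors m
    have h2 : (((Nat.totient m : ℚ)) : ℝ) = ((m * ∏ p ∈ m.primeFactors, (1 - (p : ℚ)⁻¹) : ℚ) : ℝ) := by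
      rw [this]
    push_cast at h2
    exact h2
  have hp : ∀ p ∈ m.primeFactors, (0 : ℝ) < 1 - (p : ℝ)⁻¹ ∧ (1 - (p : ℝ)⁻¹)⁻¹ ≤ 1 + 2 / p := by
    intro p hp
    have h2 : (2 : ℝ) ≤ p := by exact_mod_cast (Nat.prime_of_mem_primeFactors hp).two_le
    have h3 : (p : ℝ)⁻¹ ≤ 1 / 2 := by
      rw [inv_eq_one_div]
      exact one_div_le_one_div_of_le (by norm_num) h2
    have h4 : (0 : ℝ) < 1 - (p : ℝ)⁻¹ := by linarith
    refine ⟨h4, ?_⟩
    rw [inv_le_comm₀ h4 (by positivity), ← one_div, div_le_iff₀ (by positivity)]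
    have h5 : (0 : ℝ) < p := by linarith
    have h6 : (1 - (p : ℝ)⁻¹) * (1 + 2 / p) - 1 = (p - 2) / p ^ 2 := by field_simp; ring
    have h7 : 0 ≤ ((p : ℝ) - 2) / p ^ 2 := div_nonneg (by linarith) (by positivity)
    linarith
  have h1 : (m : ℝ) / Nat.totient m = ∏ p ∈ m.primeFactors, (1 - ((p : ℝ))⁻¹)⁻¹ := by
    rw [hφ, Finset.prod_inv_distrib, div_mul_eq_div_div, div_self hm'.ne', one_div]
  rw [h1]
  have h2 : ∏ p ∈ m.primeFactors, (1 - ((p : ℝ))⁻¹)⁻¹ ≤ ∏ p ∈ m.primeFactors, (1 + 2 / (p : ℝ)) :=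
    Finset.prod_le_prod (fun p h => inv_nonneg.2 (hp p h).1.le) fun p h => (hp p h).2
  refine h2.trans ?_
  rw [Finset.prod_one_add]
  have h3 : ∑ T ∈ m.primeFactors.powerset, ∏ p ∈ T, 2 / (p : ℝ) ≤
      ∑ T ∈ m.primeFactors.powerset, ((∏ p ∈ T, p).divisors.card : ℝ) / ((∏ p ∈ T, p : ℕ) : ℝ) := by
    refine Finset.sum_le_sum fun T hT => ?_
    have hTp : ∀ p ∈ T, p.Prime := fun p hp =>
      Nat.prime_of_mem_primeFactors (Finset.mem_powerset.1 hT hp)
    rw [Finset.prod_div_distrib, Finset.prod_const, Nat.cast_prod]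
    refine div_le_div_of_nonneg_right ?_ (Finset.prod_nonneg fun p _ => Nat.cast_nonneg p)
    have h4 := divs_two (∏ p ∈ T, p) (Finset.prod_pos fun p hp => (hTp p hp).pos)
    rwa [Nat.primeFactors_prod hTp] at h4
  refine h3.trans ?_
  exact divs_powerset m hm (fun d => (d.divisors.card : ℝ) / d) fun d => by positivity

private theorem divs_sq (n : ℕ) : ∑ k ∈ Finset.Icc 1 n, (1 / (k : ℝ) ^ 2) ≤ 2 := by
  have h := sum_Ioo_inv_sq_le (α := ℝ) 0 (n + 1)
  have e : Finset.Ioo 0 (n + 1) = Finset.Icc 1 n := by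
    ext i
    rw [Finset.mem_Ioo, Finset.mem_Icc]
    omega
  rw [e] at h
  norm_num at h
  refine le_trans (le_of_eq ?_) h
  refine Finset.sum_congr rfl fun k _ => ?_
  rw [one_div]

private theorem divs_tau_sq_div (M : ℕ) :
    ∑ m ∈ Finset.Icc 1 M, (m.divisors.card : ℝ) / (m : ℝ) ^ 2 ≤ 4 := by
  have h0 : ∀ m ∈ Finset.Icc 1 M, (m.divisors.card : ℝ) / (m : ℝ) ^ 2 =
      ∑ x ∈ m.divisorsAntidiagonal, 1 / (x.1 : ℝ) ^ 2 * (1 / (x.2 : ℝ) ^ 2) := by
    intro m _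
    rw [divs_card, Finset.sum_div]
    refine Finset.sum_congr rfl fun x hx => ?_
    rw [Nat.mem_divisorsAntidiagonal] at hx
    rw [← hx.1]
    push_cast
    rw [one_div_mul_one_div, mul_pow]
  rw [Finset.sum_congr rfl h0, divs_swap M (fun a b => 1 / (a : ℝ) ^ 2 * (1 / (b : ℝ) ^ 2))]
  have h1 : ∀ d ∈ Finset.Icc 1 M, ∑ k ∈ Finset.Icc 1 (M / d), 1 / (d : ℝ) ^ 2 * (1 / (k : ℝ) ^ 2) ≤
      1 / (d : ℝ) ^ 2 * 2 := by
    intro d _
    rw [← Finset.mul_sum]
    exact mul_le_mul_of_nonneg_left (divs_sq _) (by positivity)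
  refine (Finset.sum_le_sum h1).trans ?_
  rw [← Finset.sum_mul]
  have := divs_sq M
  linarith

theorem totient_inv : ∃ C : ℝ, 0 ≤ C ∧ ∀ M : ℕ, 0 < M →
    ∑ m ∈ Finset.Icc 1 M, (1 / Nat.totient m : ℝ) ≤ C * (1 + Real.log M) := by
  refine ⟨4, by norm_num, fun M _ => ?_⟩
  have hlog := divs_log_nonneg M
  have h0 : ∀ m ∈ Finset.Icc 1 M, (1 / Nat.totient m : ℝ) ≤
      ∑ x ∈ m.divisorsAntidiagonal, (x.1.divisors.card : ℝ) / (x.1 : ℝ) ^ 2 * (1 / (x.2 : ℝ)) := by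
    intro m hm
    have hm0 : 0 < m := (Finset.mem_Icc.1 hm).1
    have hm' : (0 : ℝ) < m := by exact_mod_cast hm0
    have h1 := div_le_div_of_nonneg_right (divs_phi m hm0) hm'.le
    have h2 : (m : ℝ) / Nat.totient m / m = 1 / Nat.totient m := by
      field_simp
    rw [h2] at h1
    refine h1.trans (le_of_eq ?_)
    rw [Finset.sum_div]
    refine Finset.sum_congr rfl fun x hx => ?_
    rw [Nat.mem_divisorsAntidiagonal] at hx
    have hx1 : (x.1 : ℝ) ≠ 0 := by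
      have : x.1 ≠ 0 := fun h => by rw [h, zero_mul] at hx; exact hx.2 hx.1.symm
      exact_mod_cast this
    have hx2 : (x.2 : ℝ) ≠ 0 := by
      have : x.2 ≠ 0 := fun h => by rw [h, mul_zero] at hx; exact hx.2 hx.1.symm
      exact_mod_cast this
    rw [← hx.1]
    push_cast
    field_simp
  refine (Finset.sum_le_sum h0).trans ?_
  rw [divs_swap M (fun a b => (a.divisors.card : ℝ) / (a : ℝ) ^ 2 * (1 / (b : ℝ)))]
  have h1 : ∀ d ∈ Finset.Icc 1 M, ∑ k ∈ Finset.Icc 1 (M / d),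
      (d.divisors.card : ℝ) / (d : ℝ) ^ 2 * (1 / (k : ℝ)) ≤
      (d.divisors.card : ℝ) / (d : ℝ) ^ 2 * (1 + Real.log M) := by
    intro d _
    rw [← Finset.mul_sum]
    refine mul_le_mul_of_nonneg_left ((divs_harm _).trans ?_) (by positivity)
    have := divs_log_le (Nat.div_le_self M d)
    linarith
  refine (Finset.sum_le_sum h1).trans ?_
  rw [← Finset.sum_mul]
  exact mul_le_mul_of_nonneg_right (divs_tau_sq_div M) (by linarith)

theorem totient_inv_mul : ∃ C : ℝ, 0 ≤ C ∧ ∀ r Q : ℕ, 0 < r → r ≤ Q →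
    ∑ q ∈ (Finset.Icc 1 Q).filter (fun q => r ∣ q), (1 / Nat.totient q : ℝ) ≤
      C * (1 + Real.log Q) / Nat.totient r := by
  obtain ⟨C, hC, h⟩ := totient_inv
  refine ⟨C, hC, fun r Q hr hrQ => ?_⟩
  have hφr : (0 : ℝ) < Nat.totient r := by exact_mod_cast Nat.totient_pos.2 hr
  have h1 : ∑ q ∈ (Finset.Icc 1 Q).filter (fun q => r ∣ q), (1 / Nat.totient q : ℝ) =
      ∑ m ∈ Finset.Icc 1 (Q / r), (1 / Nat.totient (r * m) : ℝ) := by
    symm
    refine Finset.sum_bij (fun m _ => r * m) ?_ ?_ ?_ ?_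
    · intro m hm
      rw [Finset.mem_Icc, Nat.le_div_iff_mul_le hr, mul_comm m r] at hm
      rw [Finset.mem_filter, Finset.mem_Icc]
      exact ⟨⟨Nat.mul_pos hr hm.1, hm.2⟩, dvd_mul_right r m⟩
    · intro m _ m' _ hmm
      exact Nat.eq_of_mul_eq_mul_left hr hmm
    · intro q hq
      rw [Finset.mem_filter, Finset.mem_Icc] at hq
      obtain ⟨⟨h2, h3⟩, k, rfl⟩ := hq
      refine ⟨k, ?_, rfl⟩
      rw [Finset.mem_Icc, Nat.le_div_iff_mul_le hr, mul_comm k r]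
      exact ⟨Nat.pos_of_ne_zero fun h0 => by rw [h0, mul_zero] at h2; omega, h3⟩
    · intro m _
      rfl
  rw [h1]
  have h2 : ∀ m ∈ Finset.Icc 1 (Q / r), (1 / Nat.totient (r * m) : ℝ) ≤
      1 / Nat.totient r * (1 / Nat.totient m) := by
    intro m hm
    have hφm : (0 : ℝ) < Nat.totient m := by
      exact_mod_cast Nat.totient_pos.2 (Finset.mem_Icc.1 hm).1
    rw [one_div_mul_one_div]
    refine one_div_le_one_div_of_le (by positivity) ?_
    exact_mod_cast Nat.totient_super_multiplicative r m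
  refine (Finset.sum_le_sum h2).trans ?_
  rw [← Finset.mul_sum]
  have hQr : 0 < Q / r := Nat.div_pos hrQ hr
  have h3 := h (Q / r) hQr
  have h4 := divs_log_le (Nat.div_le_self Q r)
  calc 1 / (Nat.totient r : ℝ) * ∑ m ∈ Finset.Icc 1 (Q / r), (1 / Nat.totient m : ℝ)
      ≤ 1 / (Nat.totient r : ℝ) * (C * (1 + Real.log Q)) := by
        refine mul_le_mul_of_nonneg_left (h3.trans ?_) (by positivity)
        exact mul_le_mul_of_nonneg_left (by linarith) hC
    _ = _ := by ring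

end BV

end
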