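import Pool.Agent.Work.BV.Defs

/-!
Module LT0 (from the von Mangoldt function to the primes; size S).

The difference is at most `D ∑_{n < 2N} (Λ n - th n) ≤ D (ψ(2N) - θ(2N)) ≤ 2 D √(2N) log (2N)`
(`Chebyshev.psi_sub_theta_le`; `Λ n ≥ th n ≥ 0`).
-/

set_option autoImplicit false

open Finset Filter MeasureTheory Topology
open scoped ContDiff ArithmeticFunction.Moebius ArithmeticFunction.vonMangoldt

noncomputable section

namespace BV

private lemma lt0_th (n : ℕ) : 0 ≤ Λ n - th n ∧ ‖(Λ n : ℂ) - (th n : ℂ)‖ = Λ n - th n := by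
  have h : 0 ≤ Λ n - th n := by
    unfold th
    split_ifs with hp
    · rw [ArithmeticFunction.vonMangoldt_apply_prime hp, sub_self]
    · rw [sub_zero]; exact ArithmeticFunction.vonMangoldt_nonneg
  refine ⟨h, ?_⟩
  rw [← Complex.ofReal_sub, Complex.norm_real, Real.norm_of_nonneg h]

private lemma lt0_sum (M : ℕ) : ∑ n ∈ Finset.range M, (Λ n - th n) ≤
    Chebyshev.psi M - Chebyshev.theta M := by
  have h1 : ∑ n ∈ Finset.range M, (Λ n - th n) ≤ ∑ n ∈ Finset.Icc 0 M, (Λ n - th n) := by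
    apply Finset.sum_le_sum_of_subset_of_nonneg
    · intro n hn
      rw [Finset.mem_range] at hn
      rw [Finset.mem_Icc]
      omega
    · intro n _ _
      exact (lt0_th n).1
  refine h1.trans (le_of_eq ?_)
  rw [Finset.sum_sub_distrib, Chebyshev.psi_eq_sum_Icc, Chebyshev.theta_eq_sum_Icc]
  rw [Nat.floor_natCast, Finset.sum_filter]
  rfl

theorem la_th : ∃ C : ℝ, 0 ≤ C ∧ ∀ (psi : ℝ → ℝ) (D : ℝ), Bump psi D →
    ∀ N : ℕ, 3 ≤ N → ∀ f : ℕ → ℂ, (∀ n, ‖f n‖ ≤ 1) →
      ‖(∑ n ∈ Finset.range (2 * N), f n * (Λ n : ℂ) * (psi ((n : ℝ) / N) : ℂ)) -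
        ∑ n ∈ Finset.range (2 * N), f n * (th n : ℂ) * (psi ((n : ℝ) / N) : ℂ)‖ ≤
        C * D * Real.sqrt N * Real.log N := by
  refine ⟨8, by norm_num, fun psi D hpsi N hN f hf => ?_⟩
  have hD : ∀ t, |psi t| ≤ D := fun t => by
    have := hpsi.nrm 0 (by norm_num) t
    rwa [iteratedDeriv_zero] at this
  have hD0 : 0 ≤ D := (abs_nonneg _).trans (hD 0)
  rw [← Finset.sum_sub_distrib]
  have h1 : ‖∑ n ∈ Finset.range (2 * N), (f n * (Λ n : ℂ) * (psi ((n : ℝ) / N) : ℂ) -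
      f n * (th n : ℂ) * (psi ((n : ℝ) / N) : ℂ))‖ ≤
      D * ∑ n ∈ Finset.range (2 * N), (Λ n - th n) := by
    rw [Finset.mul_sum]
    refine norm_sum_le_of_le _ fun n _ => ?_
    have e : f n * (Λ n : ℂ) * (psi ((n : ℝ) / N) : ℂ) - f n * (th n : ℂ) * (psi ((n : ℝ) / N) : ℂ)
        = (psi ((n : ℝ) / N) : ℂ) * (f n * ((Λ n : ℂ) - (th n : ℂ))) := by ring
    rw [e, norm_mul, norm_mul, (lt0_th n).2, Complex.norm_real]
    apply mul_le_mul (hD _) _ (by have := (lt0_th n).1; positivity) hD0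
    calc ‖f n‖ * (Λ n - th n) ≤ 1 * (Λ n - th n) :=
          mul_le_mul_of_nonneg_right (hf n) (lt0_th n).1
      _ = Λ n - th n := one_mul _
  have hN1 : (3 : ℝ) ≤ N := by exact_mod_cast hN
  have h2 := lt0_sum (2 * N)
  have h3 := Chebyshev.psi_sub_theta_le (x := ((2 * N : ℕ) : ℝ)) (by push_cast; linarith)
  have h4 : Real.sqrt ((2 * N : ℕ) : ℝ) ≤ 2 * Real.sqrt N := by
    rw [Real.sqrt_le_left (by positivity)]
    rw [mul_pow, Real.sq_sqrt (by positivity)]
    push_cast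
    linarith
  have h5 : Real.log ((2 * N : ℕ) : ℝ) ≤ 2 * Real.log N := by
    push_cast
    rw [Real.log_mul (by norm_num) (by positivity)]
    have : Real.log 2 ≤ Real.log N := Real.log_le_log (by norm_num) (by linarith)
    linarith
  have hlog0 : 0 ≤ Real.log ((2 * N : ℕ) : ℝ) := Real.log_nonneg (by push_cast; linarith)
  calc _ ≤ D * ∑ n ∈ Finset.range (2 * N), (Λ n - th n) := h1
    _ ≤ D * (2 * (2 * Real.sqrt N) * (2 * Real.log N)) := by
        apply mul_le_mul_of_nonneg_left _ hD0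
        refine h2.trans (h3.trans ?_)
        apply mul_le_mul _ h5 hlog0 (by positivity)
        linarith
    _ = 8 * D * Real.sqrt N * Real.log N := by ring

end BV

end
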