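import Pool.Agent.Work.BV.Defs

/-!
Module ORT (primes in a residue class and primitive characters; size M-L).

For `(c, q) = 1`: `∑_{p ≡ c} th(p) psi(p/N) = (1/φ(q)) ∑_{χ mod q} χ̄(c) thC χ psi N` (orthogonality,
`DirichletCharacter.sum_char_inv_mul_char_eq`; the primes dividing `q` have `χ(p) = 0`; when the
class condition `p ≡ c [MOD q]` holds, `p` is coprime to `q`).
The trivial character gives `∑_{p ∤ q} th(p) psi(p/N)`, which differs from the sum over all `p` by at
most `D ∑_{p | q} log p ≤ D log q`.  A nontrivial `χ` mod `q` is induced by the primitive character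
`χ*` (`χ.primitiveCharacter`) mod `r = χ.conductor`, `r | q`, `r > 1`, and `χ(n) = χ*(n)` for
`(n,q) = 1`, so `‖thC χ - thC χ*‖ ≤ D ∑_{p | q} log p ≤ D log q`.  Distinct `χ` with the same conductor
have distinct `χ*`, so `∑_{χ ≠ 1} ‖thC χ*‖ ≤ ∑_{r | q, r ≠ 1} pSum r (‖thC ·‖)`.
-/

set_option autoImplicit false

open Finset Filter MeasureTheory Topology
open scoped ContDiff ArithmeticFunction.Moebius ArithmeticFunction.vonMangoldt

noncomputable section

namespace BV

private theorem ort_psi_le {psi : ℝ → ℝ} {D : ℝ} (h : Bump psi D) (t : ℝ) : |psi t| ≤ D := by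
  have := h.nrm 0 (by norm_num) t
  simpa using this

private theorem ort_D_nonneg {psi : ℝ → ℝ} {D : ℝ} (h : Bump psi D) : 0 ≤ D :=
  (abs_nonneg _).trans (ort_psi_le h 0)

private theorem ort_log (q : ℕ) (hq : 0 < q) : ∑ p ∈ q.primeFactors, Real.log p ≤ Real.log q := by
  have h1 : ∑ p ∈ q.primeFactors, Real.log p = Real.log ((∏ p ∈ q.primeFactors, p : ℕ) : ℝ) := by
    rw [Nat.cast_prod, Real.log_prod]
    intro p hp
    exact_mod_cast (Nat.prime_of_mem_primeFactors hp).ne_zero
  rw [h1]
  have h2 := Nat.prod_primeFactors_dvd q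
  have h3 := Nat.le_of_dvd hq h2
  have h4 : 0 < ∏ p ∈ q.primeFactors, p := Nat.pos_of_dvd_of_pos h2 hq
  exact Real.log_le_log (by exact_mod_cast h4) (by exact_mod_cast h3)

/-- a sum over the primes dividing `q` -/
private theorem ort_small {D : ℝ} (hD : 0 ≤ D) (q : ℕ) (hq : 0 < q) (N : ℕ) (g : ℕ → ℂ)
    (hg : ∀ p, ‖g p‖ ≤ D * Real.log p) (hg0 : ∀ p, ¬ (p.Prime ∧ p ∣ q) → g p = 0) :
    ‖∑ p ∈ Finset.range (2 * N), g p‖ ≤ D * Real.log q := by
  classical
  calc ‖∑ p ∈ Finset.range (2 * N), g p‖ ≤ ∑ p ∈ Finset.range (2 * N), ‖g p‖ := norm_sum_le _ _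
    _ ≤ ∑ p ∈ Finset.range (2 * N), if p ∈ q.primeFactors then D * Real.log p else 0 := by
        refine Finset.sum_le_sum fun p _ => ?_
        by_cases hp : p.Prime ∧ p ∣ q
        · rw [if_pos (Nat.mem_primeFactors.2 ⟨hp.1, hp.2, hq.ne'⟩)]
          exact hg p
        · rw [hg0 p hp, norm_zero]
          split_ifs with h
          · exact absurd ⟨Nat.prime_of_mem_primeFactors h, Nat.dvd_of_mem_primeFactors h⟩ hp
          · exact le_rfl
    _ ≤ ∑ p ∈ q.primeFactors, D * Real.log p := by
        rw [← Finset.sum_filter]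
        refine Finset.sum_le_sum_of_subset_of_nonneg ?_ fun p hp _ => ?_
        · intro p hp
          exact (Finset.mem_filter.1 hp).2
        · have : (1 : ℝ) ≤ p := by
            exact_mod_cast (Nat.prime_of_mem_primeFactors hp).one_lt.le
          exact mul_nonneg hD (Real.log_nonneg this)
    _ = D * ∑ p ∈ q.primeFactors, Real.log p := (Finset.mul_sum _ _ _).symm
    _ ≤ D * Real.log q := mul_le_mul_of_nonneg_left (ort_log q hq) hD

private theorem ort_th_nonneg (p : ℕ) : 0 ≤ th p := by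
  unfold th
  split_ifs with h
  · exact Real.log_nonneg (by exact_mod_cast h.one_lt.le)
  · exact le_rfl

private theorem ort_th_le (p : ℕ) : th p ≤ Real.log p := by
  unfold th
  split_ifs with h
  · exact le_rfl
  · exact Real.log_natCast_nonneg p

private theorem ort_change {psi : ℝ → ℝ} {D : ℝ} (h : Bump psi D) {r q : ℕ} (hq : 0 < q)
    (hr : r ∣ q) (ψ : DirichletCharacter ℂ r) (N : ℕ) :
    ‖thC (DirichletCharacter.changeLevel hr ψ) psi N‖ ≤ ‖thC ψ psi N‖ + D * Real.log q := by
  have hD := ort_D_nonneg h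
  have h1 : thC (DirichletCharacter.changeLevel hr ψ) psi N = thC ψ psi N +
      ∑ p ∈ Finset.range (2 * N), (DirichletCharacter.changeLevel hr ψ (p : ZMod q) - ψ (p : ZMod r)) *
        (th p : ℂ) * (psi ((p : ℝ) / N) : ℂ) := by
    unfold thC
    rw [← Finset.sum_add_distrib]
    refine Finset.sum_congr rfl fun p _ => ?_
    ring
  rw [h1]
  refine (norm_add_le _ _).trans (add_le_add_right ?_ _)
  refine ort_small hD q hq N _ (fun p => ?_) (fun p hp => ?_)
  · by_cases hp : p.Prime
    · by_cases hpq : p ∣ q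
      · have h2 : DirichletCharacter.changeLevel hr ψ (p : ZMod q) = 0 := by
          refine MulChar.map_nonunit _ ?_
          rw [ZMod.isUnit_iff_coprime]
          intro hc
          exact hp.one_lt.ne' (hc.eq_one_of_dvd hpq)
        rw [h2, zero_sub, norm_mul, norm_mul, norm_neg, Complex.norm_real, Complex.norm_real,
          Real.norm_of_nonneg (ort_th_nonneg p), Real.norm_eq_abs]
        have a1 := DirichletCharacter.norm_le_one ψ (p : ZMod r)
        have a2 := ort_th_le p
        have a3 := ort_psi_le h ((p : ℝ) / N)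
        have a4 := ort_th_nonneg p
        calc ‖ψ (p : ZMod r)‖ * th p * |psi ((p : ℝ) / N)| ≤ 1 * Real.log p * D := by
              gcongr
          _ = D * Real.log p := by ring
      · have hcop : IsCoprime ((p : ℤ)) (q : ℤ) := by
          rw [Nat.isCoprime_iff_coprime]
          exact (Nat.Prime.coprime_iff_not_dvd hp).2 hpq
        have h2 := DirichletCharacter.changeLevel_eq_cast_of_dvd' ψ hr hcop
        rw [Int.cast_natCast, Int.cast_natCast] at h2
        rw [h2, sub_self, zero_mul, zero_mul, norm_zero]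
        exact mul_nonneg hD (Real.log_natCast_nonneg p)
    · have h2 : th p = 0 := by unfold th; rw [if_neg hp]
      rw [h2, Complex.ofReal_zero, mul_zero, zero_mul, norm_zero]
      exact mul_nonneg hD (Real.log_natCast_nonneg p)
  · by_cases hp1 : p.Prime
    · have hpq : ¬ p ∣ q := fun h => hp ⟨hp1, h⟩
      have hcop : IsCoprime ((p : ℤ)) (q : ℤ) := by
        rw [Nat.isCoprime_iff_coprime]
        exact (Nat.Prime.coprime_iff_not_dvd hp1).2 hpq
      have h2 := DirichletCharacter.changeLevel_eq_cast_of_dvd' ψ hr hcop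
      rw [Int.cast_natCast, Int.cast_natCast] at h2
      rw [h2, sub_self, zero_mul, zero_mul]
    · have h2 : th p = 0 := by unfold th; rw [if_neg hp1]
      rw [h2, Complex.ofReal_zero, mul_zero, zero_mul]

private theorem ort_one {psi : ℝ → ℝ} {D : ℝ} (h : Bump psi D) {q : ℕ} (hq : 0 < q) (N : ℕ) :
    ‖thC (1 : DirichletCharacter ℂ q) psi N -
      ((∑ p ∈ Finset.range (2 * N), th p * psi ((p : ℝ) / N) : ℝ) : ℂ)‖ ≤ D * Real.log q := by
  have hD := ort_D_nonneg h
  have h1 : thC (1 : DirichletCharacter ℂ q) psi N -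
      ((∑ p ∈ Finset.range (2 * N), th p * psi ((p : ℝ) / N) : ℝ) : ℂ) =
      ∑ p ∈ Finset.range (2 * N), ((1 : DirichletCharacter ℂ q) (p : ZMod q) - 1) *
        (th p : ℂ) * (psi ((p : ℝ) / N) : ℂ) := by
    unfold thC
    rw [Complex.ofReal_sum, ← Finset.sum_sub_distrib]
    refine Finset.sum_congr rfl fun p _ => ?_
    push_cast
    ring
  rw [h1]
  have hval : ∀ p : ℕ, p.Prime → ¬ p ∣ q → (1 : DirichletCharacter ℂ q) (p : ZMod q) = 1 := by
    intro p hp hpq
    refine MulChar.one_apply ?_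
    rw [ZMod.isUnit_iff_coprime]
    exact (Nat.Prime.coprime_iff_not_dvd hp).2 hpq
  refine ort_small hD q hq N _ (fun p => ?_) (fun p hp => ?_)
  · by_cases hp : p.Prime
    · by_cases hpq : p ∣ q
      · have h2 : (1 : DirichletCharacter ℂ q) (p : ZMod q) = 0 := by
          refine MulChar.map_nonunit _ ?_
          rw [ZMod.isUnit_iff_coprime]
          intro hc
          exact hp.one_lt.ne' (hc.eq_one_of_dvd hpq)
        rw [h2, zero_sub, norm_mul, norm_mul, norm_neg, norm_one, Complex.norm_real,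
          Complex.norm_real, Real.norm_of_nonneg (ort_th_nonneg p), Real.norm_eq_abs]
        have a2 := ort_th_le p
        have a3 := ort_psi_le h ((p : ℝ) / N)
        have a4 := ort_th_nonneg p
        calc 1 * th p * |psi ((p : ℝ) / N)| ≤ 1 * Real.log p * D := by
              gcongr
          _ = D * Real.log p := by ring
      · rw [hval p hp hpq, sub_self, zero_mul, zero_mul, norm_zero]
        exact mul_nonneg hD (Real.log_natCast_nonneg p)
    · have h2 : th p = 0 := by unfold th; rw [if_neg hp]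
      rw [h2, Complex.ofReal_zero, mul_zero, zero_mul, norm_zero]
      exact mul_nonneg hD (Real.log_natCast_nonneg p)
  · by_cases hp1 : p.Prime
    · have hpq : ¬ p ∣ q := fun h => hp ⟨hp1, h⟩
      rw [hval p hp1 hpq, sub_self, zero_mul, zero_mul]
    · have h2 : th p = 0 := by unfold th; rw [if_neg hp1]
      rw [h2, Complex.ofReal_zero, mul_zero, zero_mul]

/-- the sum over the nontrivial characters -/
private theorem ort_sum {psi : ℝ → ℝ} {D : ℝ} (h : Bump psi D) {q : ℕ} [NeZero q] (N : ℕ) :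
    ∑ χ ∈ (Finset.univ : Finset (DirichletCharacter ℂ q)).filter (fun χ => χ ≠ 1),
      (‖thC χ psi N‖ - D * Real.log q) ≤
      ∑ r ∈ q.divisors.erase 1, pSum r (fun χ => ‖thC χ psi N‖) := by
  classical
  have hq : 0 < q := NeZero.pos q
  have hmaps : ∀ χ ∈ (Finset.univ : Finset (DirichletCharacter ℂ q)).filter (fun χ => χ ≠ 1),
      χ.conductor ∈ q.divisors.erase 1 := by
    intro χ hχ
    rw [Finset.mem_filter] at hχ
    rw [Finset.mem_erase, Nat.mem_divisors]
    exact ⟨fun h1 => hχ.2 (DirichletCharacter.eq_one_iff_conductor_eq_one.2 h1),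
      χ.conductor_dvd_level, hq.ne'⟩
  rw [← Finset.sum_fiberwise_of_maps_to hmaps]
  refine Finset.sum_le_sum fun r hr => ?_
  rw [Finset.mem_erase, Nat.mem_divisors] at hr
  obtain ⟨hr1, hrq, -⟩ := hr
  have hr0 : r ≠ 0 := by
    intro h0
    rw [h0] at hrq
    exact hq.ne' (Nat.eq_zero_of_zero_dvd hrq)
  have hne : NeZero r := ⟨hr0⟩
  have hset : ((Finset.univ : Finset (DirichletCharacter ℂ q)).filter (fun χ => χ ≠ 1)).filter
      (fun χ => χ.conductor = r) = ((Finset.univ : Finset (DirichletCharacter ℂ r)).filter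
        (fun χ => χ.IsPrimitive)).image (DirichletCharacter.changeLevel hrq) := by
    ext χ
    simp only [Finset.mem_filter, Finset.mem_univ, true_and, Finset.mem_image]
    constructor
    · rintro ⟨-, h2⟩
      have h3 : χ.FactorsThrough r := h2 ▸ χ.factorsThrough_conductor
      obtain ⟨h4, ψ, hψ⟩ := h3
      refine ⟨ψ, ?_, hψ.symm⟩
      have h5 : χ.conductor = ψ.conductor := by
        rw [hψ, DirichletCharacter.conductor_changeLevel]
      exact h5.symm.trans h2
    · rintro ⟨ψ, hψ, rfl⟩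
      have h2 : (DirichletCharacter.changeLevel hrq ψ).conductor = r := by
        rw [DirichletCharacter.conductor_changeLevel]
        exact hψ
      refine ⟨fun h3 => hr1 ?_, h2⟩
      rw [← h2, DirichletCharacter.eq_one_iff_conductor_eq_one.1 h3]
  rw [hset, Finset.sum_image fun x _ y _ hxy => DirichletCharacter.changeLevel_injective hrq hxy]
  unfold pSum
  rw [dif_neg hr0]
  refine le_trans (Finset.sum_le_sum fun ψ _ => ?_) (le_of_eq rfl)
  have := ort_change h hq hrq ψ N
  linarith

theorem Eerr_le : ∃ C : ℝ, 0 ≤ C ∧ ∀ (psi : ℝ → ℝ) (D : ℝ), Bump psi D →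
    ∀ N q c : ℕ, 0 < N → 0 < q → Nat.Coprime c q →
      |Eerr psi N q c| ≤ (1 / Nat.totient q : ℝ) *
        (|(∑ p ∈ Finset.range (2 * N), th p * psi ((p : ℝ) / N)) - N * ∫ t, psi t| +
          ∑ r ∈ q.divisors.erase 1, pSum r (fun χ => ‖thC χ psi N‖)) +
        C * D * Real.log (2 * q) := by
  classical
  refine ⟨2, by norm_num, fun psi D h N q c hN hq hc => ?_⟩
  have hne : NeZero q := ⟨hq.ne'⟩
  have hD := ort_D_nonneg h
  have hφ : (0 : ℝ) < Nat.totient q := by exact_mod_cast Nat.totient_pos.2 hq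
  have hφ1 : (1 : ℝ) ≤ Nat.totient q := by exact_mod_cast Nat.totient_pos.2 hq
  have hcu : IsUnit (c : ZMod q) := (ZMod.isUnit_iff_coprime c q).2 hc
  -- orthogonality
  have h1 : ((Nat.totient q * ∑ p ∈ (Finset.range (2 * N)).filter (fun p => p ≡ c [MOD q]),
      th p * psi ((p : ℝ) / N) : ℝ) : ℂ) =
      ∑ χ : DirichletCharacter ℂ q, χ (c : ZMod q)⁻¹ * thC χ psi N := by
    have h2 : ∀ p : ℕ, ∑ χ : DirichletCharacter ℂ q, χ (c : ZMod q)⁻¹ * (χ (p : ZMod q) *
        (th p : ℂ) * (psi ((p : ℝ) / N) : ℂ)) =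
        if p ≡ c [MOD q] then (Nat.totient q : ℂ) * ((th p : ℂ) * (psi ((p : ℝ) / N) : ℂ)) else 0 := by
      intro p
      have h3 := DirichletCharacter.sum_char_inv_mul_char_eq ℂ hcu (p : ZMod q)
      have h4 : ∑ χ : DirichletCharacter ℂ q, χ (c : ZMod q)⁻¹ * (χ (p : ZMod q) *
        (th p : ℂ) * (psi ((p : ℝ) / N) : ℂ)) =
        (∑ χ : DirichletCharacter ℂ q, χ (c : ZMod q)⁻¹ * χ (p : ZMod q)) *
          ((th p : ℂ) * (psi ((p : ℝ) / N) : ℂ)) := by
        rw [Finset.sum_mul]
        refine Finset.sum_congr rfl fun χ _ => ?_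
        ring
      rw [h4, h3]
      have h5 : ((c : ZMod q) = (p : ZMod q)) ↔ p ≡ c [MOD q] := by
        rw [eq_comm, ZMod.natCast_eq_natCast_iff]
      by_cases h6 : p ≡ c [MOD q]
      · rw [if_pos (h5.2 h6), if_pos h6]
      · rw [if_neg (fun h7 => h6 (h5.1 h7)), if_neg h6, zero_mul]
    calc ((Nat.totient q * ∑ p ∈ (Finset.range (2 * N)).filter (fun p => p ≡ c [MOD q]),
        th p * psi ((p : ℝ) / N) : ℝ) : ℂ)
        = ∑ p ∈ Finset.range (2 * N), if p ≡ c [MOD q] then
            (Nat.totient q : ℂ) * ((th p : ℂ) * (psi ((p : ℝ) / N) : ℂ)) else 0 := by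
          rw [← Finset.sum_filter, ← Finset.mul_sum]
          push_cast
          rfl
      _ = ∑ p ∈ Finset.range (2 * N), ∑ χ : DirichletCharacter ℂ q, χ (c : ZMod q)⁻¹ *
            (χ (p : ZMod q) * (th p : ℂ) * (psi ((p : ℝ) / N) : ℂ)) :=
          Finset.sum_congr rfl fun p _ => (h2 p).symm
      _ = ∑ χ : DirichletCharacter ℂ q, ∑ p ∈ Finset.range (2 * N), χ (c : ZMod q)⁻¹ *
            (χ (p : ZMod q) * (th p : ℂ) * (psi ((p : ℝ) / N) : ℂ)) := Finset.sum_comm
      _ = _ := by
          refine Finset.sum_congr rfl fun χ _ => ?_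
          rw [thC, Finset.mul_sum]
  obtain ⟨S0, hS0⟩ : ∃ S0 : ℝ, S0 = ∑ p ∈ Finset.range (2 * N), th p * psi ((p : ℝ) / N) := ⟨_, rfl⟩
  obtain ⟨J, hJ⟩ : ∃ J : ℝ, J = N * ∫ t, psi t := ⟨_, rfl⟩
  have hone := ort_one h hq N
  rw [← hS0] at hone
  have hsum := ort_sum h (q := q) N
  rw [← hS0, ← hJ]
  obtain ⟨P, hP⟩ : ∃ P : ℝ, P = ∑ r ∈ q.divisors.erase 1, pSum r (fun χ => ‖thC χ psi N‖) := ⟨_, rfl⟩
  rw [← hP] at hsum ⊢
  have hinv1 : (1 : DirichletCharacter ℂ q) (c : ZMod q)⁻¹ = 1 := by
    refine MulChar.one_apply ?_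
    rw [← hcu.unit_spec, ZMod.inv_coe_unit]
    exact Units.isUnit _
  have h2 : ((Nat.totient q * Eerr psi N q c : ℝ) : ℂ) =
      (((S0 - J : ℝ) : ℂ) + (thC (1 : DirichletCharacter ℂ q) psi N - (S0 : ℂ))) +
        ∑ χ ∈ (Finset.univ : Finset (DirichletCharacter ℂ q)).filter (fun χ => χ ≠ 1),
          χ (c : ZMod q)⁻¹ * thC χ psi N := by
    have h3 : ∑ χ : DirichletCharacter ℂ q, χ (c : ZMod q)⁻¹ * thC χ psi N =
        thC (1 : DirichletCharacter ℂ q) psi N +
        ∑ χ ∈ (Finset.univ : Finset (DirichletCharacter ℂ q)).filter (fun χ => χ ≠ 1),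
          χ (c : ZMod q)⁻¹ * thC χ psi N := by
      rw [← Finset.sum_filter_add_sum_filter_not (Finset.univ : Finset (DirichletCharacter ℂ q))
        (fun χ => χ = 1)]
      congr 1
      rw [Finset.filter_eq' Finset.univ (1 : DirichletCharacter ℂ q), if_pos (Finset.mem_univ _),
        Finset.sum_singleton, hinv1, one_mul]
    rw [h3] at h1
    have h4 : (Nat.totient q : ℝ) * Eerr psi N q c = Nat.totient q *
        (∑ p ∈ (Finset.range (2 * N)).filter (fun p => p ≡ c [MOD q]),
          th p * psi ((p : ℝ) / N)) - J := by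
      rw [Eerr, hJ]
      field_simp
    rw [h4, Complex.ofReal_sub, h1]
    push_cast
    ring
  have h3 : (Nat.totient q : ℝ) * |Eerr psi N q c| ≤
      |S0 - J| + D * Real.log q + (P + Nat.totient q * (D * Real.log q)) := by
    have h4 : (Nat.totient q : ℝ) * |Eerr psi N q c| = ‖((Nat.totient q * Eerr psi N q c : ℝ) : ℂ)‖ := by
      rw [Complex.norm_real, Real.norm_eq_abs, abs_mul, abs_of_pos hφ]
    rw [h4, h2]
    refine (norm_add_le _ _).trans (add_le_add ((norm_add_le _ _).trans (add_le_add ?_ hone)) ?_)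
    · rw [Complex.norm_real, Real.norm_eq_abs]
    · calc ‖∑ χ ∈ (Finset.univ : Finset (DirichletCharacter ℂ q)).filter (fun χ => χ ≠ 1),
            χ (c : ZMod q)⁻¹ * thC χ psi N‖
          ≤ ∑ χ ∈ (Finset.univ : Finset (DirichletCharacter ℂ q)).filter (fun χ => χ ≠ 1),
            ((‖thC χ psi N‖ - D * Real.log q) + D * Real.log q) := by
            refine (norm_sum_le _ _).trans (Finset.sum_le_sum fun χ _ => ?_)
            rw [norm_mul, sub_add_cancel]
            have := DirichletCharacter.norm_le_one χ (c : ZMod q)⁻¹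
            calc _ ≤ 1 * ‖thC χ psi N‖ := mul_le_mul_of_nonneg_right this (norm_nonneg _)
              _ = _ := one_mul _
        _ ≤ P + Nat.totient q * (D * Real.log q) := by
            rw [Finset.sum_add_distrib]
            refine add_le_add hsum ?_
            rw [Finset.sum_const, nsmul_eq_mul]
            refine mul_le_mul_of_nonneg_right ?_ (mul_nonneg hD (Real.log_natCast_nonneg q))
            have h5 := DirichletCharacter.card_eq_totient_of_hasEnoughRootsOfUnity ℂ q
            rw [← h5, Nat.card_eq_fintype_card, ← Finset.card_univ]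
            exact_mod_cast Finset.card_le_card (Finset.filter_subset _ _)
  have hlog : Real.log q ≤ Real.log (2 * q) := by
    refine Real.log_le_log (by exact_mod_cast hq) ?_
    have : (0 : ℝ) ≤ q := Nat.cast_nonneg q
    linarith
  have hlog0 : 0 ≤ D * Real.log q := mul_nonneg hD (Real.log_natCast_nonneg q)
  have hlogD : D * Real.log q ≤ D * Real.log (2 * q) := mul_le_mul_of_nonneg_left hlog hD
  rw [one_div, ← div_eq_inv_mul]
  have h5 : |Eerr psi N q c| ≤ (|S0 - J| + D * Real.log q +
      (P + Nat.totient q * (D * Real.log q))) / Nat.totient q := by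
    rw [le_div_iff₀ hφ]
    linarith
  refine h5.trans ?_
  have h6 : (|S0 - J| + D * Real.log q + (P + Nat.totient q * (D * Real.log q))) / Nat.totient q =
      (|S0 - J| + P) / Nat.totient q + (D * Real.log q) / Nat.totient q + D * Real.log q := by
    field_simp
    ring
  rw [h6]
  have h7 : (D * Real.log q) / Nat.totient q ≤ D * Real.log q := div_le_self hlog0 hφ1
  linarith

end BV

end
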