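import Pool.Agent.Work.BV.Defs

/-!
Module INS (smooth weights summed over all integers; size S).

`psi(n/N) - ∫_n^{n+1} psi(u/N) du` is at most `sup |psi'| / N ≤ D / N` in absolute value; sum over
`0 ≤ n < 2N` gives the error `2 D`; `∫_0^{2N} psi(u/N) du = N ∫ psi` since `psi = 0` outside `[1, 2]`.
-/

set_option autoImplicit false

open Finset Filter MeasureTheory Topology
open scoped ContDiff ArithmeticFunction.Moebius ArithmeticFunction.vonMangoldt

noncomputable section

namespace BV

theorem int_sum {psi : ℝ → ℝ} {D : ℝ} (h : Bump psi D) {N : ℕ} (hN : 0 < N) :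
    |(∑ n ∈ Finset.range (2 * N), psi ((n : ℝ) / N)) - N * ∫ t, psi t| ≤ 2 * D := by
  have hN0 : (0 : ℝ) < N := by exact_mod_cast hN
  have hdiff : Differentiable ℝ psi := h.smooth.differentiable (by simp)
  have hcont : Continuous psi := hdiff.continuous
  have hlip : ∀ a b, |psi b - psi a| ≤ D * |b - a| := by
    intro a b
    have := Convex.norm_image_sub_le_of_norm_deriv_le (f := psi) (C := D) (s := Set.univ)
      (x := a) (y := b) (fun x _ => hdiff x) (fun x _ => ?_) convex_univ trivial trivial
    · simpa [Real.norm_eq_abs] using this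
    · have h1 := h.nrm 1 (by norm_num) x
      rw [iteratedDeriv_one] at h1
      exact h1
  have hD : 0 ≤ D := (abs_nonneg _).trans (h.nrm 0 (by norm_num) 0)
  have hg : Continuous (fun u : ℝ => psi (u / N)) := hcont.comp (continuous_id.div_const _)
  have hint : (N : ℝ) * ∫ t, psi t =
      ∑ n ∈ Finset.range (2 * N), ∫ u in (n : ℝ)..((n + 1 : ℕ) : ℝ), psi (u / N) := by
    rw [intervalIntegral.sum_integral_adjacent_intervals (a := fun n : ℕ => (n : ℝ))
      (fun k _ => hg.intervalIntegrable _ _)]
    rw [intervalIntegral.integral_comp_div psi hN0.ne']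
    have e1 : ((0 : ℕ) : ℝ) / N = 0 := by simp
    have e2 : ((2 * N : ℕ) : ℝ) / N = 2 := by push_cast; field_simp
    rw [e1, e2, smul_eq_mul]
    congr 1
    symm
    apply intervalIntegral.integral_eq_integral_of_support_subset
    intro t ht
    rw [Function.mem_support] at ht
    constructor
    · by_contra hcon
      exact ht (h.zero t (Or.inl (by linarith)))
    · by_contra hcon
      exact ht (h.zero t (Or.inr (by linarith)))
  rw [hint, ← Finset.sum_sub_distrib]
  have hpiece : ∀ n ∈ Finset.range (2 * N),
      |psi ((n : ℝ) / N) - ∫ u in (n : ℝ)..((n + 1 : ℕ) : ℝ), psi (u / N)| ≤ D / N := by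
    intro n _
    have e1 : psi ((n : ℝ) / N) = ∫ _u in (n : ℝ)..((n + 1 : ℕ) : ℝ), psi ((n : ℝ) / N) := by
      rw [intervalIntegral.integral_const]
      push_cast
      simp
    rw [e1, ← intervalIntegral.integral_sub (by simp) (hg.intervalIntegrable _ _)]
    have h2 := intervalIntegral.norm_integral_le_of_norm_le_const (a := (n : ℝ))
      (b := ((n + 1 : ℕ) : ℝ)) (C := D / N)
      (f := fun u => psi ((n : ℝ) / N) - psi (u / N)) (fun u hu => ?_)
    · have e2 : |((n + 1 : ℕ) : ℝ) - (n : ℝ)| = 1 := by push_cast; simp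
      rw [e2, mul_one] at h2
      exact h2
    · rw [Set.uIoc_of_le (by push_cast; linarith)] at hu
      rw [Real.norm_eq_abs]
      refine (hlip _ _).trans ?_
      rw [div_eq_mul_one_div D]
      apply mul_le_mul_of_nonneg_left _ hD
      rw [← sub_div, abs_div, abs_of_pos hN0]
      apply div_le_div_of_nonneg_right _ hN0.le
      have hu2 := hu.2
      push_cast at hu2
      rw [abs_le]
      constructor <;> linarith [hu.1]
  refine (Finset.abs_sum_le_sum_abs _ _).trans ((Finset.sum_le_sum hpiece).trans ?_)
  rw [Finset.sum_const, Finset.card_range, nsmul_eq_mul]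
  push_cast
  apply le_of_eq
  field_simp

end BV

end
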