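import Pool.Agent.Work.BV.ZENT
import Pool.Agent.Work.BV.Defs

/-!
Module ZCOM (the prime number theorem near `s = 1`; size M).

With `Z` from zeta_entire put `h(s) = 1 + (s-1) Z(s)` (entire, `= (s-1) ζ(s)` for `s ≠ 1`, `h 1 = 1`) and
`F(s) = - h'(s)/h(s) - Z(s)`.  On the compact set `K = {1 ≤ Re s ≤ 2, |Im s| ≤ 1}` we have `h ≠ 0`
(`riemannZeta_ne_zero_of_one_le_re`), so `F` is analytic on a neighbourhood of `K` and every
`iteratedDeriv j F` is continuous, hence bounded, on `K`.  For `Re s > 1`: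
`LSeries (Λ - 1) s = -ζ'/ζ(s) - ζ(s) = F(s)` (`ArithmeticFunction.LSeries_vonMangoldt_eq_deriv_riemannZeta_div`,
`LSeries_one_eq_riemannZeta`-type lemma, `ζ'/ζ = h'/h - 1/(s-1)`), and
`LSeries ((Λ-1) log^j) s = (-1)^j iteratedDeriv j F s` (`LSeries_iteratedDeriv`; `F` and the series agree on
the open half plane).
-/

set_option autoImplicit false

open Finset Filter MeasureTheory Topology
open scoped ContDiff ArithmeticFunction.Moebius ArithmeticFunction.vonMangoldt

noncomputable section

namespace BV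

private theorem zcom_logMul (f : ℕ → ℂ) (j : ℕ) :
    LSeries.logMul^[j] f = fun n => f n * ((Real.log n : ℂ)) ^ j := by
  induction j with
  | zero =>
    funext n
    simp
  | succ j ih =>
    rw [Function.iterate_succ', Function.comp, ih]
    funext n
    rw [LSeries.logMul, ← Complex.natCast_log, pow_succ]
    ring

private theorem zcom_summ {s : ℂ} (hs : 1 < s.re) :
    LSeriesSummable (fun n => (Λ n : ℂ) - 1) s := by
  have h := (ArithmeticFunction.LSeriesSummable_vonMangoldt hs).sub (LSeriesSummable_one_iff.2 hs)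
  exact h

private theorem zcom_absc {s : ℂ} (hs : 1 < s.re) :
    LSeries.abscissaOfAbsConv (fun n => (Λ n : ℂ) - 1) < s.re := by
  have h1 : LSeries.abscissaOfAbsConv (fun n => (Λ n : ℂ) - 1) ≤ 1 := by
    have := LSeries.abscissaOfAbsConv_le_of_forall_lt_LSeriesSummable
      (f := fun n => (Λ n : ℂ) - 1) (x := 1)
      (fun y hy => zcom_summ (by simpa using hy))
    exact_mod_cast this
  exact lt_of_le_of_lt h1 (by exact_mod_cast hs)

theorem zcom (j : ℕ) : ∃ C : ℝ, 0 < C ∧ ∀ s : ℂ, 1 < s.re → s.re ≤ 2 → |s.im| ≤ 1 →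
    ‖LSeries (fun n => ((Λ n : ℂ) - 1) * ((Real.log n : ℂ)) ^ j) s‖ ≤ C := by
  obtain ⟨Z, hZ, hZeta⟩ := zeta_entire
  set h : ℂ → ℂ := fun s => 1 + (s - 1) * Z s with hh
  have hhd : Differentiable ℂ h := by
    rw [hh]
    exact (differentiable_const _).add ((differentiable_id.sub (differentiable_const _)).mul hZ)
  have hne : ∀ s : ℂ, 1 ≤ s.re → h s ≠ 0 := by
    intro s hs
    by_cases h1 : s = 1
    · rw [hh, h1]
      simp
    · have h2 : s - 1 ≠ 0 := sub_ne_zero.2 h1
      have h3 : h s = (s - 1) * riemannZeta s := by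
        rw [hh, hZeta s h1]
        field_simp
        ring
      rw [h3]
      exact mul_ne_zero h2 (riemannZeta_ne_zero_of_one_le_re hs)
  set U : Set ℂ := {s | h s ≠ 0} with hU
  have hUo : IsOpen U := isOpen_ne_fun hhd.continuous continuous_const
  set F : ℂ → ℂ := fun s => - deriv h s / h s - Z s with hF
  have hFa : AnalyticOnNhd ℂ F U := by
    apply DifferentiableOn.analyticOnNhd _ hUo
    intro s hs
    have h1 : DifferentiableAt ℂ (deriv h) s :=
      ((hhd.differentiableOn (s := Set.univ)).analyticOnNhd isOpen_univ).deriv s (Set.mem_univ _)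
        |>.differentiableAt
    exact ((h1.neg.div (hhd s) hs).sub (hZ s)).differentiableWithinAt
  have hFj : ContinuousOn (iteratedDeriv j F) U := (hFa.iterated_deriv j |>.continuousOn).congr
    (fun s _ => by rw [iteratedDeriv_eq_iterate])
  set K : Set ℂ := (Set.Icc (1 : ℝ) 2) ×ℂ (Set.Icc (-1 : ℝ) 1) with hK
  have hKc : IsCompact K := isCompact_Icc.reProdIm isCompact_Icc
  have hKU : K ⊆ U := by
    intro s hs
    exact hne s hs.1.1
  obtain ⟨C, hC⟩ := hKc.exists_bound_of_continuousOn (hFj.mono hKU)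
  refine ⟨max C 1, by positivity, ?_⟩
  intro s hs1 hs2 hs3
  have hLF : ∀ w : ℂ, 1 < w.re → LSeries (fun n => (Λ n : ℂ) - 1) w = F w := by
    intro w hw
    have hw1 : w ≠ 1 := fun e => by
      rw [e] at hw
      simp at hw
    have e1 : LSeries (fun n => (Λ n : ℂ) - 1) w
        = LSeries (fun n => (Λ n : ℂ)) w - LSeries 1 w :=
      LSeries_sub (ArithmeticFunction.LSeriesSummable_vonMangoldt hw)
        (LSeriesSummable_one_iff.2 hw)
    rw [e1, ArithmeticFunction.LSeries_vonMangoldt_eq_deriv_riemannZeta_div hw,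
      LSeries_one_eq_riemannZeta hw]
    have hw2 : w - 1 ≠ 0 := sub_ne_zero.2 hw1
    have hev : riemannZeta =ᶠ[𝓝 w] fun s => h s / (s - 1) := by
      filter_upwards [isOpen_ne.mem_nhds hw1] with s hs
      have h2 : s - 1 ≠ 0 := sub_ne_zero.2 hs
      rw [hZeta s hs, hh]
      field_simp
      ring
    have hd : deriv riemannZeta w = (deriv h w * (w - 1) - h w) / (w - 1) ^ 2 := by
      rw [hev.deriv_eq]
      have h5 : HasDerivAt (fun s : ℂ => s - 1) 1 w := (hasDerivAt_id w).sub_const 1
      have h6 := ((hhd w).hasDerivAt.div h5 hw2).deriv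
      rw [mul_one] at h6
      exact h6
    have hz : riemannZeta w = h w / (w - 1) := hev.eq_of_nhds
    have hz2 : riemannZeta w = Z w + 1 / (w - 1) := hZeta w hw1
    have hhw : h w ≠ 0 := hne w hw.le
    rw [hd]
    have e3 : -((deriv h w * (w - 1) - h w) / (w - 1) ^ 2) / riemannZeta w
        = - deriv h w / h w + 1 / (w - 1) := by
      rw [hz]
      field_simp
      ring
    rw [e3, hz2, hF]
    ring
  have hev : LSeries (fun n => (Λ n : ℂ) - 1) =ᶠ[𝓝 s] F := by
    filter_upwards [(isOpen_lt continuous_const Complex.continuous_re).mem_nhds hs1] with w hw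
    exact hLF w hw
  have hit : iteratedDeriv j (LSeries (fun n => (Λ n : ℂ) - 1)) s = iteratedDeriv j F s :=
    hev.iteratedDeriv_eq j
  have h7 := LSeries_iteratedDeriv (f := fun n => (Λ n : ℂ) - 1) j (zcom_absc hs1)
  rw [zcom_logMul, hit] at h7
  have h8 : ‖LSeries (fun n => ((Λ n : ℂ) - 1) * ((Real.log n : ℂ)) ^ j) s‖
      = ‖iteratedDeriv j F s‖ := by
    rw [h7, norm_mul, norm_pow, norm_neg, norm_one, one_pow, one_mul]
  rw [h8]
  refine (hC s ?_).trans (le_max_left _ _)
  rw [abs_le] at hs3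
  exact ⟨⟨hs1.le, hs2⟩, hs3⟩

end BV

end
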