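import Pool.Agent.Work.BV.Defs

/-!
Module REC (logarithmic derivatives; size S-M).

rec_id: `χ log = (χ Λ) ∗ χ` (Dirichlet convolution, `Λ ∗ 1 = log`, `χ` completely multiplicative), and
`(log n)^j = ∑_i C(j,i) (log a)^i (log b)^{j-i}` for `n = ab`, so
`χ log^{j+1} = ∑_i C(j,i) (χ Λ log^i) ∗ (χ log^{j-i})`; all series converge absolutely for `Re s > 1`
(`LSeries_convolution'` / `LSeries.convolution`; coefficients are `O(n^δ)`).
rec_bound: strong induction: `Z_i D_0 = D_{i+1} - ∑_{k<i} C(i,k) Z_k D_{i-k}`, so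
`‖Z_i‖ ≤ E (Y^{i+2} + ∑_{k<i} C(i,k) C_k (E Y²)^{k+1} Y^{i-k+1})` and
`E (E Y²)^{k+1} Y^{i-k+1} = E^{k+2} Y^{i+k+3} ≤ (E Y²)^{i+1}` for `k < i`.
-/

set_option autoImplicit false

open Finset Filter MeasureTheory Topology
open scoped ContDiff ArithmeticFunction.Moebius ArithmeticFunction.vonMangoldt

noncomputable section

namespace BV

open LSeries in
private theorem REC_logpow (f : ℕ → ℂ) (m : ℕ) :
    LSeries.logMul^[m] f = fun n : ℕ => (Complex.log n) ^ m * f n := by
  induction m with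
  | zero =>
    funext n
    simp
  | succ m ih =>
    rw [Function.iterate_succ_apply', ih]
    funext n
    change Complex.log n * ((Complex.log n) ^ m * f n) = _
    rw [pow_succ]
    ring

private theorem REC_summable {f : ℕ → ℂ} (hf : ∀ y : ℝ, 1 < y → LSeriesSummable f y) (j : ℕ)
    {s : ℂ} (hs : 1 < s.re) :
    LSeriesSummable (fun n => f n * ((Real.log n : ℂ)) ^ j) s := by
  have h1 : LSeries.abscissaOfAbsConv f ≤ (1 : ℝ) :=
    LSeries.abscissaOfAbsConv_le_of_forall_lt_LSeriesSummable hf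
  have h2 : LSeries.abscissaOfAbsConv (LSeries.logMul^[j] f) ≤ (1 : ℝ) := by
    rw [LSeries.absicssaOfAbsConv_logPowMul]
    exact h1
  have h3 : LSeriesSummable (LSeries.logMul^[j] f) s := by
    apply LSeriesSummable_of_abscissaOfAbsConv_lt_re
    refine lt_of_le_of_lt h2 ?_
    exact_mod_cast hs
  rw [REC_logpow] at h3
  have h4 : (fun n : ℕ => f n * ((Real.log n : ℂ)) ^ j) = fun n : ℕ => (Complex.log n) ^ j * f n := by
    funext n
    rw [Complex.natCast_log, mul_comm]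
  rw [h4]
  exact h3

private theorem REC_D_summable {r : ℕ} (χ : DirichletCharacter ℂ r) (j : ℕ) {s : ℂ}
    (hs : 1 < s.re) : LSeriesSummable (fun n => χ n * ((Real.log n : ℂ)) ^ j) s := by
  refine REC_summable (f := fun n => χ n) (fun y hy => ?_) j hs
  exact DirichletCharacter.LSeriesSummable_of_one_lt_re χ (by simpa using hy)

private theorem REC_Z_summable {r : ℕ} (χ : DirichletCharacter ℂ r) (j : ℕ) {s : ℂ}
    (hs : 1 < s.re) :
    LSeriesSummable (fun n => χ n * (Λ n : ℂ) * ((Real.log n : ℂ)) ^ j) s := by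
  refine REC_summable (f := fun n => χ n * (Λ n : ℂ)) (fun y hy => ?_) j hs
  exact DirichletCharacter.LSeriesSummable_twist_vonMangoldt χ (by simpa using hy)

private theorem REC_coeff {r : ℕ} (χ : DirichletCharacter ℂ r) (j : ℕ) (n : ℕ) :
    ∑ i ∈ Finset.range (j + 1), (j.choose i : ℂ) *
      ∑ p ∈ n.divisorsAntidiagonal, (χ p.1 * (Λ p.1 : ℂ) * ((Real.log p.1 : ℂ)) ^ i) *
        (χ p.2 * ((Real.log p.2 : ℂ)) ^ (j - i)) = χ n * ((Real.log n : ℂ)) ^ (j + 1) := by
  rcases Nat.eq_zero_or_pos n with hn | hn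
  · subst hn
    simp
  have h1 : ∀ p ∈ n.divisorsAntidiagonal,
      ∑ i ∈ Finset.range (j + 1), (j.choose i : ℂ) *
        ((χ p.1 * (Λ p.1 : ℂ) * ((Real.log p.1 : ℂ)) ^ i) *
          (χ p.2 * ((Real.log p.2 : ℂ)) ^ (j - i))) =
      (χ n * ((Real.log n : ℂ)) ^ j) * (Λ p.1 : ℂ) := by
    intro p hp
    obtain ⟨hp1, hp2⟩ := Nat.mem_divisorsAntidiagonal.1 hp
    have ha : p.1 ≠ 0 := by
      rintro h
      rw [h, zero_mul] at hp1
      exact hp2 hp1.symm
    have hb : p.2 ≠ 0 := by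
      rintro h
      rw [h, mul_zero] at hp1
      exact hp2 hp1.symm
    have h2 : Real.log n = Real.log p.1 + Real.log p.2 := by
      rw [← hp1, Nat.cast_mul, Real.log_mul (by exact_mod_cast ha) (by exact_mod_cast hb)]
    have h3 : χ n = χ p.1 * χ p.2 := by
      rw [← hp1, Nat.cast_mul, map_mul]
    rw [h2, h3, Complex.ofReal_add, add_pow, Finset.mul_sum, Finset.sum_mul]
    refine Finset.sum_congr rfl (fun i _ => ?_)
    ring
  have h4 : ∑ i ∈ Finset.range (j + 1), (j.choose i : ℂ) *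
      ∑ p ∈ n.divisorsAntidiagonal, (χ p.1 * (Λ p.1 : ℂ) * ((Real.log p.1 : ℂ)) ^ i) *
        (χ p.2 * ((Real.log p.2 : ℂ)) ^ (j - i)) =
      ∑ p ∈ n.divisorsAntidiagonal, (χ n * ((Real.log n : ℂ)) ^ j) * (Λ p.1 : ℂ) := by
    simp only [Finset.mul_sum]
    rw [Finset.sum_comm]
    exact Finset.sum_congr rfl h1
  rw [h4, ← Finset.mul_sum]
  have h5 : ∑ p ∈ n.divisorsAntidiagonal, (Λ p.1 : ℂ) = (Real.log n : ℂ) := by
    rw [Nat.sum_divisorsAntidiagonal (fun a _ => (Λ a : ℂ)), ← Complex.ofReal_sum,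
      ArithmeticFunction.vonMangoldt_sum]
  rw [h5, pow_succ]
  ring

theorem rec_id {r : ℕ} (χ : DirichletCharacter ℂ r) (j : ℕ) {s : ℂ} (hs : 1 < s.re) :
    Dc χ (j + 1) s = ∑ i ∈ Finset.range (j + 1), (j.choose i : ℂ) * Zc χ i s * Dc χ (j - i) s := by
  have hD := fun i : ℕ => REC_D_summable χ (j - i) hs
  have hZ := fun i : ℕ => REC_Z_summable χ i hs
  have hconv := fun i : ℕ => LSeries_convolution' (hZ i) (hD i)
  have hcs : ∀ i : ℕ, LSeriesSummable (LSeries.convolution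
      (fun n => χ n * (Λ n : ℂ) * ((Real.log n : ℂ)) ^ i)
      (fun n => χ n * ((Real.log n : ℂ)) ^ (j - i))) s := fun i =>
    (hZ i).convolution (hD i)
  unfold Dc Zc
  have h1 : (fun n : ℕ => χ n * ((Real.log n : ℂ)) ^ (j + 1)) =
      ∑ i ∈ Finset.range (j + 1), (j.choose i : ℂ) • LSeries.convolution
        (fun n => χ n * (Λ n : ℂ) * ((Real.log n : ℂ)) ^ i)
        (fun n => χ n * ((Real.log n : ℂ)) ^ (j - i)) := by
    funext n
    rw [Finset.sum_apply, ← REC_coeff χ j n]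
    refine Finset.sum_congr rfl (fun i _ => ?_)
    rw [Pi.smul_apply, smul_eq_mul, LSeries.convolution_def]
  rw [h1, LSeries_sum (fun i _ => (hcs i).smul (j.choose i : ℂ))]
  refine Finset.sum_congr rfl (fun i _ => ?_)
  rw [LSeries_smul, hconv i, mul_assoc]

theorem rec_bound (j : ℕ) : ∃ C : ℝ, 0 < C ∧ ∀ (D Z : ℕ → ℂ) (E Y : ℝ), 1 ≤ E → 1 ≤ Y →
    1 / E ≤ ‖D 0‖ → (∀ i ≤ j + 1, ‖D i‖ ≤ Y ^ (i + 1)) →
    (∀ i ≤ j, D (i + 1) = ∑ k ∈ Finset.range (i + 1), (i.choose k : ℂ) * Z k * D (i - k)) →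
    ‖Z j‖ ≤ C * (E * Y ^ 2) ^ (j + 1) := by
  induction j using Nat.strong_induction_on with
  | _ j ih =>
    choose! C hC0 hC using ih
    refine ⟨1 + ∑ k ∈ Finset.range j, (j.choose k : ℝ) * C k, ?_, ?_⟩
    · have h1 : 0 ≤ ∑ k ∈ Finset.range j, (j.choose k : ℝ) * C k :=
        Finset.sum_nonneg (fun k hk => mul_nonneg (Nat.cast_nonneg _)
          (hC0 k (Finset.mem_range.1 hk)).le)
      linarith
    · intro D Z E Y hE hY hD0 hD hrec
      have hE0 : 0 < E := by linarith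
      have hY0 : 0 < Y := by linarith
      have hW : 1 ≤ E * Y ^ 2 := by nlinarith [one_le_pow₀ hY (n := 2)]
      have hZk : ∀ k < j, ‖Z k‖ ≤ C k * (E * Y ^ 2) ^ (k + 1) := fun k hk =>
        hC k hk D Z E Y hE hY hD0 (fun i hi => hD i (by omega)) (fun i hi => hrec i (by omega))
      have h1 := hrec j le_rfl
      rw [Finset.sum_range_succ, Nat.choose_self, Nat.cast_one, one_mul, Nat.sub_self] at h1
      have h2 : Z j * D 0 = D (j + 1) -
          ∑ k ∈ Finset.range j, (j.choose k : ℂ) * Z k * D (j - k) := by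
        rw [h1]
        ring
      have h3 : ‖Z j‖ * ‖D 0‖ ≤ Y ^ (j + 2) +
          ∑ k ∈ Finset.range j, (j.choose k : ℝ) * (C k * (E * Y ^ 2) ^ (k + 1)) *
            Y ^ (j - k + 1) := by
        rw [← norm_mul, h2]
        refine (norm_sub_le _ _).trans (add_le_add (hD (j + 1) le_rfl) ?_)
        refine (norm_sum_le _ _).trans (Finset.sum_le_sum (fun k hk => ?_))
        have hk' := Finset.mem_range.1 hk
        rw [norm_mul, norm_mul, Complex.norm_natCast]
        have h4 := hZk k hk'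
        have h5 := hD (j - k) (by omega)
        have h6 : 0 ≤ C k * (E * Y ^ 2) ^ (k + 1) := (norm_nonneg _).trans h4
        gcongr
      have h4 : ‖Z j‖ ≤ E * (Y ^ (j + 2) +
          ∑ k ∈ Finset.range j, (j.choose k : ℝ) * (C k * (E * Y ^ 2) ^ (k + 1)) *
            Y ^ (j - k + 1)) := by
        have h5 : ‖Z j‖ * (1 / E) ≤ ‖Z j‖ * ‖D 0‖ :=
          mul_le_mul_of_nonneg_left hD0 (norm_nonneg _)
        have h6 : ‖Z j‖ = E * (‖Z j‖ * (1 / E)) := by
          field_simp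
        rw [h6]
        exact mul_le_mul_of_nonneg_left (h5.trans h3) hE0.le
      refine h4.trans ?_
      rw [mul_add, add_mul, one_mul]
      refine add_le_add ?_ ?_
      · -- E * Y^(j+2) ≤ (E Y²)^(j+1)
        rw [mul_pow, ← pow_mul]
        have h5 : E ≤ E ^ (j + 1) := le_self_pow₀ hE (by omega)
        have h6 : Y ^ (j + 2) ≤ Y ^ (2 * (j + 1)) := pow_le_pow_right₀ hY (by omega)
        exact mul_le_mul h5 h6 (by positivity) (by positivity)
      · rw [Finset.mul_sum, Finset.sum_mul]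
        refine Finset.sum_le_sum (fun k hk => ?_)
        have hk' := Finset.mem_range.1 hk
        have hCk := (hC0 k hk').le
        have h5 : E * Y ^ (j - k + 1) ≤ (E * Y ^ 2) ^ (j - k) := by
          rw [mul_pow, ← pow_mul]
          have h6 : E ≤ E ^ (j - k) := le_self_pow₀ hE (by omega)
          have h7 : Y ^ (j - k + 1) ≤ Y ^ (2 * (j - k)) := pow_le_pow_right₀ hY (by omega)
          exact mul_le_mul h6 h7 (by positivity) (by positivity)
        have h6 : (E * Y ^ 2) ^ (j + 1) = (E * Y ^ 2) ^ (k + 1) * (E * Y ^ 2) ^ (j - k) := by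
          rw [← pow_add]
          congr 1
          omega
        calc E * ((j.choose k : ℝ) * (C k * (E * Y ^ 2) ^ (k + 1)) * Y ^ (j - k + 1))
            = ((j.choose k : ℝ) * C k * (E * Y ^ 2) ^ (k + 1)) * (E * Y ^ (j - k + 1)) := by ring
          _ ≤ ((j.choose k : ℝ) * C k * (E * Y ^ 2) ^ (k + 1)) * (E * Y ^ 2) ^ (j - k) :=
              mul_le_mul_of_nonneg_left h5 (by positivity)
          _ = (j.choose k : ℝ) * C k * (E * Y ^ 2) ^ (j + 1) := by rw [h6]; ring

end BV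

end
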