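import Pool.Agent.Work.BV.LLB
import Pool.Agent.Work.BV.REC

/-!
Module ZLAR (the prime number theorem for `|Im s| ≥ 1`; size S-M).

`LSeries ((Λ-1) log^j) = Zc 1 j - Dc 1 j` (character 1 modulo 1).  `rec_bound` with
`E = max 1 (c⁻¹ ℓ^8)` (llb_zeta), `Y = C ℓ` (luz), `ℓ = ell 1 t = log(|t|+3)`; powers of `ℓ` are
`≤ C (1 + |t|)`.
-/

set_option autoImplicit false

open Finset Filter MeasureTheory Topology
open scoped ContDiff ArithmeticFunction.Moebius ArithmeticFunction.vonMangoldt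

noncomputable section

namespace BV

private theorem zlar_logMul (f : ℕ → ℂ) (j : ℕ) :
    LSeries.logMul^[j] f = fun n => f n * ((Real.log n : ℂ)) ^ j := by
  induction j with
  | zero =>
    funext n
    simp
  | succ j ih =>
    rw [Function.iterate_succ', Function.comp, ih]
    funext n
    rw [LSeries.logMul, ← Complex.natCast_log, pow_succ]
    ring

private theorem zlar_summ {f : ℕ → ℂ} (hf : ∀ s : ℂ, 1 < s.re → LSeriesSummable f s) (j : ℕ)
    {s : ℂ} (hs : 1 < s.re) : LSeriesSummable (fun n => f n * ((Real.log n : ℂ)) ^ j) s := by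
  rw [← zlar_logMul f j]
  apply LSeriesSummable_of_abscissaOfAbsConv_lt_re
  rw [LSeries.absicssaOfAbsConv_logPowMul]
  have h1 : LSeries.abscissaOfAbsConv f ≤ 1 := by
    have := LSeries.abscissaOfAbsConv_le_of_forall_lt_LSeriesSummable (f := f) (x := 1)
      (fun y hy => hf _ (by simpa using hy))
    exact_mod_cast this
  exact lt_of_le_of_lt h1 (by exact_mod_cast hs)

private theorem zlar_pow_log (m : ℕ) : ∃ C : ℝ, 0 < C ∧ ∀ t : ℝ, ell 1 t ^ m ≤ C * (1 + |t|) := by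
  rcases Nat.eq_zero_or_pos m with rfl | hm
  · refine ⟨1, one_pos, fun t => ?_⟩
    have := abs_nonneg t
    rw [pow_zero]
    linarith
  · refine ⟨3 * (m : ℝ) ^ m, by positivity, fun t => ?_⟩
    have ht := abs_nonneg t
    have hm' : (0 : ℝ) < m := by exact_mod_cast hm
    have h0 : (1 : ℝ) ≤ |t| + 3 := by linarith
    have h1 := Real.log_le_rpow_div (x := |t| + 3) (ε := 1 / m) (by positivity) (by positivity)
    have h2 := pow_le_pow_left₀ (Real.log_nonneg h0) h1 m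
    unfold ell
    rw [Nat.cast_one, one_mul]
    refine h2.trans ?_
    rw [div_pow, ← Real.rpow_natCast ((|t| + 3) ^ (1 / (m : ℝ))) m, ← Real.rpow_mul (by positivity)]
    have h3 : 1 / (m : ℝ) * m = 1 := by
      field_simp
    rw [h3, Real.rpow_one, one_div_pow, div_div_eq_mul_div, div_one]
    have h4 : (0 : ℝ) < (m : ℝ) ^ m := by positivity
    nlinarith

theorem zlar (j : ℕ) : ∃ C : ℝ, 0 < C ∧ ∀ s : ℂ, 1 < s.re → s.re ≤ 2 → 1 ≤ |s.im| →
    ‖LSeries (fun n => ((Λ n : ℂ) - 1) * ((Real.log n : ℂ)) ^ j) s‖ ≤ C * (1 + |s.im|) := by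
  obtain ⟨C1, hC1, h1⟩ := rec_bound j
  obtain ⟨c, hc, h2⟩ := llb_zeta
  choose Cl hCl h3 using luz
  set Cm : ℝ := 1 + ∑ i ∈ Finset.range (j + 2), Cl i with hCm
  have hCm1 : 1 ≤ Cm := by
    have : 0 ≤ ∑ i ∈ Finset.range (j + 2), Cl i := Finset.sum_nonneg fun i _ => (hCl i).le
    linarith
  have hCi : ∀ i ≤ j + 1, Cl i ≤ Cm := by
    intro i hi
    have := Finset.single_le_sum (f := Cl) (s := Finset.range (j + 2)) (fun i _ => (hCl i).le)
      (Finset.mem_range.2 (by omega : i < j + 2))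
    linarith
  obtain ⟨C4, hC4, h4⟩ := zlar_pow_log (10 * (j + 1))
  obtain ⟨C5, hC5, h5⟩ := zlar_pow_log (j + 1)
  have hCm0 : 0 < Cm := by linarith
  have hClj : 0 < Cl j := hCl j
  refine ⟨C1 * ((1 + c⁻¹) * Cm ^ 2) ^ (j + 1) * C4 + Cl j * C5, by positivity, ?_⟩
  intro s hs1 hs2 hs3
  have him : 0 ≤ |s.im| := abs_nonneg _
  have hell : 1 ≤ ell 1 s.im := by
    unfold ell
    rw [Nat.cast_one, one_mul, Real.le_log_iff_exp_le (by linarith)]
    have := Real.exp_one_lt_d9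
    linarith
  have hχ : ∀ n : ℕ, (1 : DirichletCharacter ℂ 1) (n : ZMod 1) = 1 := fun n => by
    simp [Subsingleton.eq_one (α := ZMod 1)]
  -- bound for Zc
  set E : ℝ := (1 + c⁻¹) * ell 1 s.im ^ 8 with hE
  have hell8 : 1 ≤ ell 1 s.im ^ 8 := one_le_pow₀ hell
  have hci : 0 < c⁻¹ := inv_pos.2 hc
  have hE1 : 1 ≤ E := by nlinarith
  have hE0 : 1 / E ≤ ‖Dc (1 : DirichletCharacter ℂ 1) 0 s‖ := by
    refine le_trans ?_ (h2 s hs1 hs2 hs3)
    rw [div_le_div_iff₀ (by linarith) (by positivity), one_mul, hE]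
    have : c * ((1 + c⁻¹) * ell 1 s.im ^ 8) = (c + 1) * ell 1 s.im ^ 8 := by
      field_simp
    rw [this]
    nlinarith
  have hY1 : 1 ≤ Cm * ell 1 s.im := by nlinarith
  have hZ := h1 (fun i => Dc (1 : DirichletCharacter ℂ 1) i s)
    (fun i => Zc (1 : DirichletCharacter ℂ 1) i s) E (Cm * ell 1 s.im) hE1 hY1 hE0
    (fun i hi => by
      refine (h3 i s hs1 hs2 hs3).trans ?_
      rw [mul_pow]
      refine mul_le_mul_of_nonneg_right ?_ (by positivity)
      exact (hCi i hi).trans (le_self_pow₀ hCm1 (by omega)))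
    (fun i _ => rec_id (1 : DirichletCharacter ℂ 1) i hs1)
  have hZ' : ‖Zc (1 : DirichletCharacter ℂ 1) j s‖
      ≤ C1 * ((1 + c⁻¹) * Cm ^ 2) ^ (j + 1) * C4 * (1 + |s.im|) := by
    refine hZ.trans ?_
    have e : E * (Cm * ell 1 s.im) ^ 2 = ((1 + c⁻¹) * Cm ^ 2) * ell 1 s.im ^ 10 := by
      rw [hE]
      ring
    rw [e, mul_pow, ← pow_mul]
    calc C1 * (((1 + c⁻¹) * Cm ^ 2) ^ (j + 1) * ell 1 s.im ^ (10 * (j + 1)))
        = C1 * ((1 + c⁻¹) * Cm ^ 2) ^ (j + 1) * ell 1 s.im ^ (10 * (j + 1)) := by ring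
      _ ≤ C1 * ((1 + c⁻¹) * Cm ^ 2) ^ (j + 1) * (C4 * (1 + |s.im|)) :=
          mul_le_mul_of_nonneg_left (h4 s.im) (by positivity)
      _ = _ := by ring
  have hD' : ‖Dc (1 : DirichletCharacter ℂ 1) j s‖ ≤ Cl j * C5 * (1 + |s.im|) := by
    refine (h3 j s hs1 hs2 hs3).trans ?_
    calc Cl j * ell 1 s.im ^ (j + 1) ≤ Cl j * (C5 * (1 + |s.im|)) :=
          mul_le_mul_of_nonneg_left (h5 s.im) (hCl j).le
      _ = _ := by ring
  -- the decomposition
  have hdec : LSeries (fun n => ((Λ n : ℂ) - 1) * ((Real.log n : ℂ)) ^ j) s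
      = Zc (1 : DirichletCharacter ℂ 1) j s - Dc (1 : DirichletCharacter ℂ 1) j s := by
    have f1 : LSeriesSummable (fun n => (Λ n : ℂ) * ((Real.log n : ℂ)) ^ j) s :=
      zlar_summ (f := fun n => (Λ n : ℂ))
        (fun s hs => ArithmeticFunction.LSeriesSummable_vonMangoldt hs) j hs1
    have f2 : LSeriesSummable (fun n => (1 : ℕ → ℂ) n * ((Real.log n : ℂ)) ^ j) s :=
      zlar_summ (f := (1 : ℕ → ℂ)) (fun s hs => LSeriesSummable_one_iff.2 hs) j hs1
    have f3 := LSeries_sub f1 f2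
    have f4 : (fun n : ℕ => ((Λ n : ℂ) - 1) * ((Real.log n : ℂ)) ^ j)
        = (fun n => (Λ n : ℂ) * ((Real.log n : ℂ)) ^ j) -
          fun n => (1 : ℕ → ℂ) n * ((Real.log n : ℂ)) ^ j := by
      funext n
      simp only [Pi.sub_apply, Pi.one_apply]
      ring
    rw [f4, f3]
    unfold Zc Dc
    simp only [hχ, one_mul, Pi.one_apply]
  rw [hdec]
  calc _ ≤ ‖Zc (1 : DirichletCharacter ℂ 1) j s‖ + ‖Dc (1 : DirichletCharacter ℂ 1) j s‖ :=
        norm_sub_le _ _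
    _ ≤ C1 * ((1 + c⁻¹) * Cm ^ 2) ^ (j + 1) * C4 * (1 + |s.im|)
        + Cl j * C5 * (1 + |s.im|) := add_le_add hZ' hD'
    _ = _ := by ring

end BV

end
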