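import Pool.Agent.Work.BV.SSUM
import Pool.Agent.Work.BV.INS
import Pool.Agent.Work.BV.ZCOM
import Pool.Agent.Work.BV.ZLAR
import Pool.Agent.Work.BV.LT0

/-!
Module PNTS (prime number theorem with a smooth weight; size S-M).

`smooth_sum` with `f n = Λ n - 1` (`‖f n‖ ≤ 1 + log n`) and zcom, zlar for `j ≤ A`:
`‖∑ (Λ n - 1) psi(n/N)‖ ≤ C D N/(log N)^A`; int_sum for `∑ psi(n/N)`; la_th with `f = 1`;
`D ≤ C D N/(log N)^A` and `√N log N ≤ C N/(log N)^A`.
-/

set_option autoImplicit false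

open Finset Filter MeasureTheory Topology
open scoped ContDiff ArithmeticFunction.Moebius ArithmeticFunction.vonMangoldt

noncomputable section

namespace BV

private theorem pnts_log_pow (k : ℕ) : ∃ C : ℝ, 0 < C ∧ ∀ N : ℕ, 1 ≤ N →
    Real.log N ^ k ≤ C * Real.sqrt N := by
  rcases Nat.eq_zero_or_pos k with rfl | hk
  · refine ⟨1, one_pos, fun N hN => ?_⟩
    rw [pow_zero, one_mul]
    rw [show (1 : ℝ) = Real.sqrt 1 by simp]
    exact Real.sqrt_le_sqrt (by exact_mod_cast hN)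
  · refine ⟨(2 * k) ^ k, by positivity, fun N hN => ?_⟩
    have hN' : (1 : ℝ) ≤ N := by exact_mod_cast hN
    have hk' : (0 : ℝ) < k := by exact_mod_cast hk
    have h1 := Real.log_le_rpow_div (x := (N : ℝ)) (ε := 1 / (2 * k)) (by positivity)
      (by positivity)
    have h2 := pow_le_pow_left₀ (Real.log_nonneg hN') h1 k
    refine h2.trans (le_of_eq ?_)
    rw [div_pow, ← Real.rpow_natCast ((N : ℝ) ^ (1 / (2 * (k : ℝ)))) k, ← Real.rpow_mul (by positivity),
      Real.sqrt_eq_rpow]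
    have h3 : 1 / (2 * (k : ℝ)) * k = 1 / 2 := by
      field_simp
    rw [h3, one_div_pow, div_div_eq_mul_div, div_one, mul_comm]

private theorem pnts_one_le_log {N : ℕ} (hN : 3 ≤ N) : 1 ≤ Real.log N := by
  have h3 : (3 : ℝ) ≤ N := by exact_mod_cast hN
  rw [Real.le_log_iff_exp_le (by linarith)]
  have := Real.exp_one_lt_d9
  linarith

private theorem pnts_sqrt_le (A : ℕ) : ∃ C : ℝ, 0 < C ∧ ∀ N : ℕ, 3 ≤ N →
    Real.sqrt N * Real.log N ≤ C * N / Real.log N ^ A := by
  obtain ⟨C, hC, h⟩ := pnts_log_pow (A + 1)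
  refine ⟨C, hC, fun N hN => ?_⟩
  have h1 := h N (by omega)
  have hl := pnts_one_le_log hN
  have hp : 0 < Real.log N ^ A := by positivity
  rw [le_div_iff₀ hp]
  have hs : Real.sqrt N * Real.sqrt N = N := Real.mul_self_sqrt (Nat.cast_nonneg _)
  calc Real.sqrt N * Real.log N * Real.log N ^ A = Real.sqrt N * Real.log N ^ (A + 1) := by ring
    _ ≤ Real.sqrt N * (C * Real.sqrt N) := mul_le_mul_of_nonneg_left h1 (Real.sqrt_nonneg _)
    _ = C * (Real.sqrt N * Real.sqrt N) := by ring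
    _ = C * N := by rw [hs]

theorem pnt_smooth (A : ℕ) : ∃ K : ℝ, 0 ≤ K ∧ ∀ (psi : ℝ → ℝ) (D : ℝ), Bump psi D →
    ∀ N : ℕ, 3 ≤ N →
      |(∑ p ∈ Finset.range (2 * N), th p * psi ((p : ℝ) / N)) - N * ∫ t, psi t| ≤
        K * D * N / Real.log N ^ A := by
  obtain ⟨C1, hC1, h1⟩ := smooth_sum A
  choose Ca hCa ha using zcom
  choose Cb hCb hb using zlar
  obtain ⟨C2, hC2, h2⟩ := la_th
  obtain ⟨C3, hC3, h3⟩ := pnts_sqrt_le A
  set Cm : ℝ := ∑ j ∈ Finset.range (A + 1), (Ca j + Cb j) with hCm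
  have hpos : ∀ j, 0 ≤ Ca j + Cb j := fun j => by
    have := hCa j
    have := hCb j
    linarith
  have hCm0 : 0 ≤ Cm := Finset.sum_nonneg fun j _ => hpos j
  refine ⟨C1 * Cm + 2 * C3 + C2 * C3, by positivity, ?_⟩
  intro psi D hB N hN
  have hD : 0 ≤ D := (abs_nonneg _).trans (hB.nrm 0 (by norm_num) 0)
  have hl := pnts_one_le_log hN
  have hl0 : 0 < Real.log N := by linarith
  have hpA : 0 < Real.log N ^ A := by positivity
  have hN0 : (0 : ℝ) ≤ N := Nat.cast_nonneg _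
  have ha' := h1 psi D hB (fun n => (Λ n : ℂ) - 1) Cm (by
      intro n
      have h5 : ‖(Λ n : ℂ)‖ ≤ Real.log n := by
        rw [Complex.norm_real, Real.norm_of_nonneg ArithmeticFunction.vonMangoldt_nonneg]
        exact ArithmeticFunction.vonMangoldt_le_log
      have h6 : 0 ≤ Real.log n := Real.log_natCast_nonneg n
      calc ‖(Λ n : ℂ) - 1‖ ≤ ‖(Λ n : ℂ)‖ + ‖(1 : ℂ)‖ := norm_sub_le _ _
        _ ≤ Real.log n + 1 := by
            rw [norm_one]
            linarith
        _ ≤ 2 * (1 + Real.log n) := by linarith)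
    (by
      intro j hjA s hs1 hs2
      have hsum : Ca j + Cb j ≤ Cm :=
        Finset.single_le_sum (f := fun j => Ca j + Cb j) (fun i _ => hpos i)
          (Finset.mem_range.2 (by omega))
      have h7 : 0 ≤ |s.im| := abs_nonneg _
      rcases le_total |s.im| 1 with h8 | h8
      · refine (ha j s hs1 hs2 h8).trans ?_
        have := hCb j
        nlinarith
      · refine (hb j s hs1 hs2 h8).trans ?_
        have := hCa j
        exact mul_le_mul_of_nonneg_right (by linarith) (by linarith))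
    N hN
  have hb2 := h2 psi D hB N hN (fun _ => 1) (fun n => by simp)
  have hi := int_sum hB (N := N) (by omega)
  -- real forms
  have e1 : ‖∑ n ∈ Finset.range (2 * N), ((Λ n : ℂ) - 1) * (psi ((n : ℝ) / N) : ℂ)‖
      = |∑ n ∈ Finset.range (2 * N), (Λ n - 1) * psi ((n : ℝ) / N)| := by
    rw [← Real.norm_eq_abs, ← Complex.norm_real]
    congr 1
    push_cast
    rfl
  have e2 : ‖(∑ n ∈ Finset.range (2 * N), (1 : ℂ) * (Λ n : ℂ) * (psi ((n : ℝ) / N) : ℂ)) -
        ∑ n ∈ Finset.range (2 * N), (1 : ℂ) * (th n : ℂ) * (psi ((n : ℝ) / N) : ℂ)‖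
      = |(∑ n ∈ Finset.range (2 * N), Λ n * psi ((n : ℝ) / N)) -
        ∑ n ∈ Finset.range (2 * N), th n * psi ((n : ℝ) / N)| := by
    rw [← Real.norm_eq_abs, ← Complex.norm_real]
    congr 1
    push_cast
    simp only [one_mul]
  rw [e1] at ha'
  rw [e2] at hb2
  have e3 : ∑ n ∈ Finset.range (2 * N), (Λ n - 1) * psi ((n : ℝ) / N)
      = (∑ n ∈ Finset.range (2 * N), Λ n * psi ((n : ℝ) / N))
        - ∑ n ∈ Finset.range (2 * N), psi ((n : ℝ) / N) := by
    rw [← Finset.sum_sub_distrib]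
    exact Finset.sum_congr rfl fun n _ => by ring
  rw [e3] at ha'
  have hc : C2 * D * Real.sqrt N * Real.log N ≤ C2 * C3 * (D * N / Real.log N ^ A) := by
    have h7 := mul_le_mul_of_nonneg_left (h3 N hN) (mul_nonneg hC2 hD)
    calc C2 * D * Real.sqrt N * Real.log N = C2 * D * (Real.sqrt N * Real.log N) := by ring
      _ ≤ C2 * D * (C3 * N / Real.log N ^ A) := h7
      _ = _ := by ring
  have hd : 2 * D ≤ 2 * C3 * (D * N / Real.log N ^ A) := by
    have hs1 : 1 ≤ Real.sqrt N * Real.log N := by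
      have : 1 ≤ Real.sqrt N := by
        rw [show (1 : ℝ) = Real.sqrt 1 by simp]
        exact Real.sqrt_le_sqrt (by exact_mod_cast (by omega : 1 ≤ N))
      nlinarith
    have h7 := mul_le_mul_of_nonneg_left (hs1.trans (h3 N hN)) hD
    calc 2 * D = 2 * (D * 1) := by ring
      _ ≤ 2 * (D * (C3 * N / Real.log N ^ A)) := by linarith
      _ = _ := by ring
  have ha'' : |(∑ n ∈ Finset.range (2 * N), Λ n * psi ((n : ℝ) / N))
        - ∑ n ∈ Finset.range (2 * N), psi ((n : ℝ) / N)| ≤ C1 * Cm * (D * N / Real.log N ^ A) := by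
    refine ha'.trans (le_of_eq ?_)
    ring
  have t := abs_le.1 ha''
  have u := abs_le.1 hb2
  have v := abs_le.1 hi
  have hfin : C1 * Cm * (D * N / Real.log N ^ A) + 2 * C3 * (D * N / Real.log N ^ A)
      + C2 * C3 * (D * N / Real.log N ^ A)
      = (C1 * Cm + 2 * C3 + C2 * C3) * D * N / Real.log N ^ A := by ring
  rw [abs_le]
  constructor
  · linarith [t.1, u.2, v.1]
  · linarith [t.2, u.1, v.2]

end BV

end
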