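import Pool.Agent.Work.BV.LALL
import Pool.Agent.Work.BV.REC

/-!
Module LOGD (derivatives of the logarithmic derivative; size S-M).

`rec_bound` with `D i = Dc χ i s`, `Z i = Zc χ i s`, `E = max 1 (c⁻¹ r^{ε'} log(|t|+3)^8)` (lall with
`ε' = ε/(4(j+1))`) and `Y = C' ell r t ≥ 1` (lub for `i ≤ j+1`, `C' ≥ 1` the maximum of the constants).  Then
`(E Y²)^{j+1} ≤ C r^{ε/4} (ell r t)^{2(j+1)} log(|t|+3)^{8(j+1)}`, and
`ell r t ≤ (1 + log r) log(|t|+3)`, powers of `log r` are `≤ C r^{ε/4}`, powers of `log(|t|+3)` are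
`≤ C (1+|t|)`.
-/

set_option autoImplicit false

open Finset Filter MeasureTheory Topology
open scoped ContDiff ArithmeticFunction.Moebius ArithmeticFunction.vonMangoldt

noncomputable section

namespace BV

private theorem LOGD_log_ge (t : ℝ) : 1 ≤ Real.log (|t| + 3) := by
  rw [Real.le_log_iff_exp_le (by positivity)]
  have h1 := Real.exp_one_lt_d9
  have h2 := abs_nonneg t
  linarith

private theorem LOGD_ell_le (r : ℕ) (hr : 1 ≤ r) (t : ℝ) :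
    ell r t ≤ (1 + Real.log r) * Real.log (|t| + 3) := by
  have h1 := LOGD_log_ge t
  have h2 : 0 ≤ Real.log (r : ℝ) := Real.log_natCast_nonneg r
  unfold ell
  have hr0 : (r : ℝ) ≠ 0 := by
    have : r ≠ 0 := by omega
    exact_mod_cast this
  rw [Real.log_mul hr0 (by positivity)]
  nlinarith

private theorem LOGD_ell_ge (r : ℕ) (hr : 1 ≤ r) (t : ℝ) : 1 ≤ ell r t := by
  have h1 := LOGD_log_ge t
  have h2 : 0 ≤ Real.log (r : ℝ) := Real.log_natCast_nonneg r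
  unfold ell
  have hr0 : (r : ℝ) ≠ 0 := by
    have : r ≠ 0 := by omega
    exact_mod_cast this
  rw [Real.log_mul hr0 (by positivity)]
  linarith

/-- powers of logarithms -/
private theorem LOGD_pow_log (m : ℕ) (hm : 1 ≤ m) {δ : ℝ} (hδ : 0 < δ) :
    ∃ C : ℝ, 0 < C ∧ ∀ x : ℝ, 1 ≤ x → (1 + Real.log x) ^ m ≤ C * x ^ δ := by
  have hm0 : (0 : ℝ) < m := by exact_mod_cast hm
  have hd : 0 < δ / m := by positivity
  refine ⟨(1 + 1 / (δ / m)) ^ m, by positivity, fun x hx => ?_⟩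
  have hx0 : 0 ≤ x := by linarith
  have h1 : Real.log x ≤ x ^ (δ / m) / (δ / m) := Real.log_le_rpow_div hx0 hd
  have h2 : 1 ≤ x ^ (δ / m) := Real.one_le_rpow hx hd.le
  have h3 : 0 ≤ Real.log x := Real.log_nonneg hx
  have h4 : 1 + Real.log x ≤ (1 + 1 / (δ / m)) * x ^ (δ / m) := by
    have h5 : (1 + 1 / (δ / m)) * x ^ (δ / m) = x ^ (δ / m) + x ^ (δ / m) / (δ / m) := by
      ring
    rw [h5]
    linarith
  calc (1 + Real.log x) ^ m ≤ ((1 + 1 / (δ / m)) * x ^ (δ / m)) ^ m :=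
        pow_le_pow_left₀ (by linarith) h4 m
    _ = (1 + 1 / (δ / m)) ^ m * x ^ δ := by
        rw [mul_pow, ← Real.rpow_natCast (x ^ (δ / m)), ← Real.rpow_mul hx0]
        congr 2
        field_simp

private theorem LOGD_pow (a b x y : ℝ) (n : ℕ) :
    (a * b * (x ^ 2 * y ^ 10)) ^ n = a ^ n * b ^ n * (x ^ (2 * n) * y ^ (10 * n)) := by
  rw [mul_pow, mul_pow, mul_pow (x ^ 2), ← pow_mul, ← pow_mul]

theorem logd (j : ℕ) {ε : ℝ} (hε : 0 < ε) : ∃ C : ℝ, 0 < C ∧ ∀ (r : ℕ) [NeZero r]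
    (χ : DirichletCharacter ℂ r), χ.IsPrimitive → 1 < r → ∀ s : ℂ, 1 < s.re → s.re ≤ 2 →
      ‖Zc χ j s‖ ≤ C * (r : ℝ) ^ ε * (1 + |s.im|) := by
  have hj0 : (0 : ℝ) < (j : ℝ) + 1 := by positivity
  have hε' : 0 < ε / (2 * ((j : ℝ) + 1)) := by positivity
  obtain ⟨c, hc0, hc⟩ := lall hε'
  have hl := fun i : ℕ => lub i
  choose Cl hCl0 hCl using hl
  obtain ⟨CR, hCR0, hCR⟩ := rec_bound j
  obtain ⟨C1, hC10, hC1⟩ := LOGD_pow_log (2 * (j + 1)) (by omega) (δ := ε / 2) (by positivity)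
  obtain ⟨C2, hC20, hC2⟩ := LOGD_pow_log (10 * (j + 1)) (by omega) (δ := 1) one_pos
  -- the constant for `Y`
  set C' : ℝ := 1 + ∑ i ∈ Finset.range (j + 2), Cl i with hC'
  have hC'1 : 1 ≤ C' := by
    have : 0 ≤ ∑ i ∈ Finset.range (j + 2), Cl i := Finset.sum_nonneg (fun i _ => (hCl0 i).le)
    linarith
  have hC'i : ∀ i ≤ j + 1, Cl i ≤ C' := by
    intro i hi
    have h1 : Cl i ≤ ∑ i ∈ Finset.range (j + 2), Cl i :=
      Finset.single_le_sum (f := Cl) (fun i _ => (hCl0 i).le) (Finset.mem_range.2 (by omega))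
    linarith
  refine ⟨CR * (((1 + c⁻¹) * C' ^ 2) ^ (j + 1) * C1 * C2 * 3), by positivity, ?_⟩
  intro r _ χ hχ hr s hs1 hs2
  have hr1 : 1 ≤ r := hr.le
  have hr1' : (1 : ℝ) ≤ r := by exact_mod_cast hr1
  have hr0' : (0 : ℝ) ≤ r := by linarith
  have hχ1 : χ ≠ 1 := by
    intro h
    have h1 := (DirichletCharacter.isPrimitive_def χ).1 hχ
    rw [h, DirichletCharacter.conductor_one] at h1
    omega
  set L : ℝ := Real.log (|s.im| + 3) with hL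
  have hL1 : 1 ≤ L := LOGD_log_ge s.im
  have hLr0 : 0 ≤ Real.log (r : ℝ) := Real.log_natCast_nonneg r
  set R : ℝ := (r : ℝ) ^ (ε / (2 * ((j : ℝ) + 1))) with hR
  have hR1 : 1 ≤ R := Real.one_le_rpow hr1' hε'.le
  set E : ℝ := (1 + c⁻¹) * R * L ^ 8 with hE
  have hcinv : 0 < c⁻¹ := inv_pos.2 hc0
  have hL8 : 1 ≤ L ^ 8 := one_le_pow₀ hL1
  have hE1 : 1 ≤ E := by
    have h1 : 1 ≤ (1 + c⁻¹) * R := by nlinarith
    nlinarith
  set Y : ℝ := C' * ell r s.im with hY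
  have hell := LOGD_ell_ge r hr1 s.im
  have hY1 : 1 ≤ Y := by nlinarith
  have h0 : 1 / E ≤ ‖Dc χ 0 s‖ := by
    refine le_trans ?_ (hc r χ hχ hr s hs1 hs2)
    rw [Real.rpow_neg hr0']
    rw [div_le_div_iff₀ (by positivity) (by positivity)]
    have h1 : c * ((r : ℝ) ^ (ε / (2 * ((j : ℝ) + 1))))⁻¹ * E = (c + 1) * L ^ 8 := by
      rw [hE, ← hR]
      field_simp
    rw [h1]
    nlinarith
  have hDi : ∀ i ≤ j + 1, ‖Dc χ i s‖ ≤ Y ^ (i + 1) := by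
    intro i hi
    refine (hCl i r χ hχ1 s hs1 hs2).trans ?_
    rw [hY, mul_pow]
    refine mul_le_mul_of_nonneg_right ?_ (by positivity)
    exact (hC'i i hi).trans (le_self_pow₀ hC'1 (by omega))
  have h2 := hCR (fun i => Dc χ i s) (fun i => Zc χ i s) E Y hE1 hY1 h0 hDi
    (fun i _ => rec_id χ i hs1)
  refine h2.trans ?_
  rw [mul_assoc CR, mul_assoc CR]
  refine mul_le_mul_of_nonneg_left ?_ hCR0.le
  -- the bound of `(E Y²)^(j+1)`
  have h3 : Y ^ 2 ≤ C' ^ 2 * ((1 + Real.log r) ^ 2 * L ^ 2) := by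
    rw [hY, mul_pow, ← mul_pow (1 + Real.log (r : ℝ))]
    refine mul_le_mul_of_nonneg_left ?_ (by positivity)
    exact pow_le_pow_left₀ (by linarith) (LOGD_ell_le r hr1 s.im) 2
  have h4 : E * Y ^ 2 ≤ ((1 + c⁻¹) * C' ^ 2) * R * ((1 + Real.log r) ^ 2 * L ^ 10) := by
    calc E * Y ^ 2 ≤ E * (C' ^ 2 * ((1 + Real.log r) ^ 2 * L ^ 2)) :=
          mul_le_mul_of_nonneg_left h3 (by linarith)
      _ = ((1 + c⁻¹) * C' ^ 2) * R * ((1 + Real.log r) ^ 2 * L ^ 10) := by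
          rw [hE]
          ring
  have h5 : R ^ (j + 1) = (r : ℝ) ^ (ε / 2) := by
    rw [hR, ← Real.rpow_natCast, ← Real.rpow_mul hr0']
    congr 1
    push_cast
    field_simp
  have h6 : (1 + Real.log r) ^ (2 * (j + 1)) ≤ C1 * (r : ℝ) ^ (ε / 2) := hC1 r hr1'
  have h7 : L ^ (10 * (j + 1)) ≤ C2 * (3 * (1 + |s.im|)) := by
    have h8 : (1 : ℝ) ≤ |s.im| + 3 := by
      have := abs_nonneg s.im
      linarith
    have h9 := hC2 (|s.im| + 3) h8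
    rw [Real.rpow_one] at h9
    have h10 : L ^ (10 * (j + 1)) ≤ (1 + L) ^ (10 * (j + 1)) :=
      pow_le_pow_left₀ (by linarith) (by linarith) _
    refine h10.trans (h9.trans (mul_le_mul_of_nonneg_left ?_ hC20.le))
    have := abs_nonneg s.im
    linarith
  have h8 : (r : ℝ) ^ (ε / 2) * (r : ℝ) ^ (ε / 2) = (r : ℝ) ^ ε := by
    rw [← Real.rpow_add (by linarith)]
    congr 1
    ring
  calc (E * Y ^ 2) ^ (j + 1)
      ≤ (((1 + c⁻¹) * C' ^ 2) * R * ((1 + Real.log r) ^ 2 * L ^ 10)) ^ (j + 1) :=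
        pow_le_pow_left₀ (by positivity) h4 _
    _ = ((1 + c⁻¹) * C' ^ 2) ^ (j + 1) * R ^ (j + 1) *
          ((1 + Real.log r) ^ (2 * (j + 1)) * L ^ (10 * (j + 1))) := LOGD_pow _ _ _ _ _
    _ ≤ ((1 + c⁻¹) * C' ^ 2) ^ (j + 1) * R ^ (j + 1) *
          ((C1 * (r : ℝ) ^ (ε / 2)) * (C2 * (3 * (1 + |s.im|)))) := by
        refine mul_le_mul_of_nonneg_left ?_ (by positivity)
        exact mul_le_mul h6 h7 (by positivity) (by positivity)
    _ = ((1 + c⁻¹) * C' ^ 2) ^ (j + 1) * C1 * C2 * 3 *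
          (((r : ℝ) ^ (ε / 2) * (r : ℝ) ^ (ε / 2)) * (1 + |s.im|)) := by
        rw [h5]
        ring
    _ = ((1 + c⁻¹) * C' ^ 2) ^ (j + 1) * C1 * C2 * 3 * (r : ℝ) ^ ε * (1 + |s.im|) := by
        rw [h8, ← mul_assoc]

end BV

end
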