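import Pool.Agent.Work.BV.SSUM
import Pool.Agent.Work.BV.LOGD
import Pool.Agent.Work.BV.LT0

/-!
Module SW (Siegel-Walfisz with a smooth weight; size S-M).

`smooth_sum` with `A + 1` in place of `A`, `f n = χ n Λ n` (`Λ n ≤ log n`), `K = C r^ε` from `logd`
(`j ≤ A + 1`, maximum of the constants), `ε = 1/(B+1)`: `r^ε ≤ log N`.  So
`‖laC χ psi N‖ ≤ C D N / (log N)^A`; then `la_th` (`√N log N ≤ C N/(log N)^A`).
-/

set_option autoImplicit false

open Finset Filter MeasureTheory Topology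
open scoped ContDiff ArithmeticFunction.Moebius ArithmeticFunction.vonMangoldt

noncomputable section

namespace BV

theorem sw_log_pow (k : ℕ) : ∃ C : ℝ, 0 < C ∧ ∀ N : ℕ, 1 ≤ N →
    Real.log N ^ k ≤ C * Real.sqrt N := by
  rcases Nat.eq_zero_or_pos k with rfl | hk
  · refine ⟨1, one_pos, fun N hN => ?_⟩
    rw [pow_zero, one_mul]
    rw [show (1 : ℝ) = Real.sqrt 1 by simp]
    exact Real.sqrt_le_sqrt (by exact_mod_cast hN)
  · refine ⟨(2 * k) ^ k, by positivity, fun N hN => ?_⟩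
    have hN' : (1 : ℝ) ≤ N := by exact_mod_cast hN
    have hk' : (0 : ℝ) < k := by exact_mod_cast hk
    have h1 := Real.log_le_rpow_div (x := (N : ℝ)) (ε := 1 / (2 * k)) (by positivity)
      (by positivity)
    have h2 := pow_le_pow_left₀ (Real.log_nonneg hN') h1 k
    refine h2.trans (le_of_eq ?_)
    rw [div_pow, ← Real.rpow_natCast ((N : ℝ) ^ (1 / (2 * (k : ℝ)))) k, ← Real.rpow_mul (by positivity),
      Real.sqrt_eq_rpow]
    have h3 : 1 / (2 * (k : ℝ)) * k = 1 / 2 := by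
      field_simp
    rw [h3, one_div_pow, div_div_eq_mul_div, div_one, mul_comm]

theorem sw_one_le_log {N : ℕ} (hN : 3 ≤ N) : 1 ≤ Real.log N := by
  have h3 : (3 : ℝ) ≤ N := by exact_mod_cast hN
  rw [Real.le_log_iff_exp_le (by linarith)]
  have := Real.exp_one_lt_d9
  linarith

theorem sw_D_nonneg {psi : ℝ → ℝ} {D : ℝ} (h : Bump psi D) : 0 ≤ D :=
  (abs_nonneg _).trans (h.nrm 0 (by norm_num) 0)

/-- the error in passing from prime powers to primes is negligible -/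
theorem sw_sqrt_le (A : ℕ) : ∃ C : ℝ, 0 < C ∧ ∀ N : ℕ, 3 ≤ N →
    Real.sqrt N * Real.log N ≤ C * N / Real.log N ^ A := by
  obtain ⟨C, hC, h⟩ := sw_log_pow (A + 1)
  refine ⟨C, hC, fun N hN => ?_⟩
  have h1 := h N (by omega)
  have hl := sw_one_le_log hN
  have hp : 0 < Real.log N ^ A := by positivity
  rw [le_div_iff₀ hp]
  have hs : Real.sqrt N * Real.sqrt N = N := Real.mul_self_sqrt (Nat.cast_nonneg _)
  calc Real.sqrt N * Real.log N * Real.log N ^ A = Real.sqrt N * Real.log N ^ (A + 1) := by ring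
    _ ≤ Real.sqrt N * (C * Real.sqrt N) := mul_le_mul_of_nonneg_left h1 (Real.sqrt_nonneg _)
    _ = C * (Real.sqrt N * Real.sqrt N) := by ring
    _ = C * N := by rw [hs]

theorem sw (A B : ℕ) : ∃ K : ℝ, 0 ≤ K ∧ ∀ (psi : ℝ → ℝ) (D : ℝ), Bump psi D →
    ∀ N : ℕ, 3 ≤ N → ∀ (r : ℕ) [NeZero r], 1 < r → (r : ℝ) ≤ Real.log N ^ B →
      ∀ χ : DirichletCharacter ℂ r, χ.IsPrimitive → ‖thC χ psi N‖ ≤ K * D * N / Real.log N ^ A := by
  obtain ⟨C1, hC1, h1⟩ := smooth_sum (A + 1)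
  have hε : (0 : ℝ) < 1 / (B + 1) := by positivity
  choose Cj hCj hj using fun j : ℕ => logd j hε
  obtain ⟨C2, hC2, h2⟩ := la_th
  obtain ⟨C3, hC3, h3⟩ := sw_sqrt_le A
  set Cm : ℝ := ∑ j ∈ Finset.range (A + 2), Cj j with hCm
  have hCm0 : 0 ≤ Cm := Finset.sum_nonneg fun j _ => (hCj j).le
  refine ⟨C1 * Cm + C2 * C3, by positivity, ?_⟩
  intro psi D hb N hN r _ hr hrB χ hχ
  have hD := sw_D_nonneg hb
  have hl := sw_one_le_log hN
  have hl0 : 0 < Real.log N := by linarith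
  have hr0 : (0 : ℝ) ≤ r := Nat.cast_nonneg _
  have hr1 : (r : ℝ) ^ ((1 : ℝ) / (B + 1)) ≤ Real.log N := by
    calc (r : ℝ) ^ ((1 : ℝ) / (B + 1)) ≤ (Real.log N ^ B) ^ ((1 : ℝ) / (B + 1)) :=
          Real.rpow_le_rpow hr0 hrB hε.le
      _ = Real.log N ^ ((B : ℝ) / (B + 1)) := by
          rw [← Real.rpow_natCast (Real.log N) B, ← Real.rpow_mul hl0.le]
          congr 1
          ring
      _ ≤ Real.log N ^ (1 : ℝ) := by
          apply Real.rpow_le_rpow_of_exponent_le hl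
          rw [div_le_one (by positivity)]
          linarith
      _ = Real.log N := Real.rpow_one _
  have ha := h1 psi D hb (fun n => χ n * (Λ n : ℂ)) (Cm * Real.log N) (by
      intro n
      rw [norm_mul]
      have h4 : ‖χ (n : ZMod r)‖ ≤ 1 := χ.norm_le_one _
      have h5 : ‖(Λ n : ℂ)‖ ≤ Real.log n := by
        rw [Complex.norm_real, Real.norm_of_nonneg ArithmeticFunction.vonMangoldt_nonneg]
        exact ArithmeticFunction.vonMangoldt_le_log
      have h6 : 0 ≤ Real.log n := Real.log_natCast_nonneg n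
      calc ‖χ (n : ZMod r)‖ * ‖(Λ n : ℂ)‖ ≤ 1 * Real.log n :=
            mul_le_mul h4 h5 (norm_nonneg _) zero_le_one
        _ ≤ 2 * (1 + Real.log n) := by linarith)
    (by
      intro j hjA s hs1 hs2
      refine (hj j r χ hχ hr s hs1 hs2).trans ?_
      refine mul_le_mul_of_nonneg_right ?_ (by positivity)
      refine mul_le_mul ?_ hr1 (by positivity) hCm0
      exact Finset.single_le_sum (f := Cj) (fun i _ => (hCj i).le) (Finset.mem_range.2 (by omega)))
    N hN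
  have hb2 := h2 psi D hb N hN (fun n => χ (n : ZMod r)) (fun n => χ.norm_le_one _)
  have ha' : ‖∑ n ∈ Finset.range (2 * N), χ (n : ZMod r) * (Λ n : ℂ) * (psi ((n : ℝ) / N) : ℂ)‖
      ≤ C1 * Cm * (D * N / Real.log N ^ A) := by
    refine ha.trans (le_of_eq ?_)
    rw [pow_succ]
    field_simp
  have hc : C2 * D * Real.sqrt N * Real.log N ≤ C2 * C3 * (D * N / Real.log N ^ A) := by
    have h7 := mul_le_mul_of_nonneg_left (h3 N hN) (mul_nonneg hC2 hD)
    calc C2 * D * Real.sqrt N * Real.log N = C2 * D * (Real.sqrt N * Real.log N) := by ring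
      _ ≤ C2 * D * (C3 * N / Real.log N ^ A) := h7
      _ = _ := by ring
  have hth : thC χ psi N = ∑ n ∈ Finset.range (2 * N), χ (n : ZMod r) * (th n : ℂ) *
      (psi ((n : ℝ) / N) : ℂ) := rfl
  rw [hth]
  have h8 := norm_sub_norm_le (∑ n ∈ Finset.range (2 * N), χ (n : ZMod r) * (th n : ℂ) *
      (psi ((n : ℝ) / N) : ℂ)) (∑ n ∈ Finset.range (2 * N), χ (n : ZMod r) * (Λ n : ℂ) *
      (psi ((n : ℝ) / N) : ℂ))
  rw [norm_sub_rev] at h8
  calc _ ≤ C1 * Cm * (D * N / Real.log N ^ A) + C2 * C3 * (D * N / Real.log N ^ A) := by linarith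
    _ = _ := by ring

end BV

end
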