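import Pool.Agent.Work.BV.MED
import Pool.Agent.Work.BV.LT0
import Pool.Agent.Work.BV.ORT
import Pool.Agent.Work.BV.SW
import Pool.Agent.Work.BV.PNTS
import Pool.Agent.Work.BV.DIVS

/-!
Module BVS (Bombieri-Vinogradov with a smooth weight; size M).

Let `Q = ⌊N^{1/2-ε}⌋` (if `Q = 0` nothing to prove; so `Q ≤ N^{1/2}`).  Sum `Eerr_le` over `q ≤ Q`.
 * `∑_{q ≤ Q} 1/φ(q) ≤ C log N` (`totient_inv`) times `pnt_smooth` for `A + 1`.
 * `∑_q (1/φ(q)) ∑_{r | q, r > 1} pSum r ≤ C log N ∑_{1 < r ≤ Q} (1/φ(r)) pSum r (‖thC‖)`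
   (exchange the sums, `totient_inv_mul`).  Let `B` be from `large_cond` for `A + 1`.  For
   `1 < r ≤ (log N)^B`: `sw` with `A' = A + B + 1` and `pSum_const` (in total
   `(log N)^B K D N/(log N)^{A+B+1}`).  For `r > ⌊(log N)^B⌋`: `thC = laC +` error `≤ C D √N log N`
   (`la_th`; in total `≤ C D Q √N log N`, `pSum_mono`, `pSum_add`, `pSum_const`) and `large_cond`.
 * `∑_q C D log 2q ≤ C D Q log N`.
-/

set_option autoImplicit false

open Finset Filter MeasureTheory Topology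
open scoped ContDiff ArithmeticFunction.Moebius ArithmeticFunction.vonMangoldt

noncomputable section

namespace BV

private theorem bvs_log_pow {δ : ℝ} (hδ : 0 < δ) (k : ℕ) : ∃ C : ℝ, 0 < C ∧ ∀ N : ℕ, 1 ≤ N →
    Real.log N ^ k ≤ C * (N : ℝ) ^ δ := by
  rcases Nat.eq_zero_or_pos k with rfl | hk
  · refine ⟨1, one_pos, fun N hN => ?_⟩
    rw [pow_zero, one_mul]
    exact Real.one_le_rpow (by exact_mod_cast hN) hδ.le
  · have hk' : (0 : ℝ) < k := by exact_mod_cast hk
    refine ⟨(k / δ) ^ k, by positivity, fun N hN => ?_⟩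
    have hN' : (1 : ℝ) ≤ N := by exact_mod_cast hN
    have h1 := Real.log_le_rpow_div (x := (N : ℝ)) (ε := δ / k) (by positivity)
      (by positivity)
    have h2 := pow_le_pow_left₀ (Real.log_nonneg hN') h1 k
    refine h2.trans (le_of_eq ?_)
    rw [div_pow, ← Real.rpow_natCast ((N : ℝ) ^ (δ / (k : ℝ))) k, ← Real.rpow_mul (by positivity)]
    have h3 : δ / (k : ℝ) * k = δ := by
      field_simp
    rw [h3, div_pow, div_pow, div_div_eq_mul_div]
    ring

/-- the small moduli and the large moduli -/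
private theorem bvs_cond {ε : ℝ} (hε : 0 < ε) (A : ℕ) : ∃ K : ℝ, 0 ≤ K ∧ ∀ (psi : ℝ → ℝ) (D : ℝ),
    Bump psi D → ∀ N : ℕ, 3 ≤ N →
      ∑ r ∈ Finset.Icc 2 ⌊(N : ℝ) ^ (1 / 2 - ε)⌋₊,
        (1 / Nat.totient r : ℝ) * pSum r (fun χ => ‖thC χ psi N‖) ≤
        K * D * N / Real.log N ^ (A + 1) +
          K * D * (⌊(N : ℝ) ^ (1 / 2 - ε)⌋₊ : ℝ) * Real.sqrt N * Real.log N := by
  obtain ⟨B, Kl, hKl, hl⟩ := large_cond hε (A + 1)
  obtain ⟨Ks, hKs, hs⟩ := sw (A + B + 1) B
  obtain ⟨Cl, hCl, hla⟩ := la_th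
  refine ⟨Ks + Kl + Cl, by positivity, ?_⟩
  intro psi D hb N hN
  have hD := sw_D_nonneg hb
  have hL := sw_one_le_log hN
  have hL0 : 0 < Real.log N := by linarith
  have hN0 : (0 : ℝ) ≤ N := Nat.cast_nonneg _
  set Q : ℕ := ⌊(N : ℝ) ^ (1 / 2 - ε)⌋₊ with hQ
  set R0 : ℕ := ⌊Real.log N ^ B⌋₊ with hR0
  have hR0le : (R0 : ℝ) ≤ Real.log N ^ B := Nat.floor_le (by positivity)
  rw [← Finset.sum_filter_add_sum_filter_not (Finset.Icc 2 Q) (fun r => r ≤ R0)]
  -- small moduli
  have hsmall : ∑ r ∈ (Finset.Icc 2 Q).filter (fun r => r ≤ R0),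
      (1 / Nat.totient r : ℝ) * pSum r (fun χ => ‖thC χ psi N‖) ≤
        Ks * D * N / Real.log N ^ (A + 1) := by
    have hterm : ∀ r ∈ (Finset.Icc 2 Q).filter (fun r => r ≤ R0),
        (1 / Nat.totient r : ℝ) * pSum r (fun χ => ‖thC χ psi N‖) ≤
          Ks * D * N / Real.log N ^ (A + B + 1) := by
      intro r hr
      obtain ⟨hr1, hr2⟩ := Finset.mem_filter.1 hr
      have hr3 := (Finset.mem_Icc.1 hr1).1
      have hφ : (0 : ℝ) < Nat.totient r := by
        exact_mod_cast Nat.totient_pos.2 (by omega)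
      have hc0 : 0 ≤ Ks * D * N / Real.log N ^ (A + B + 1) := by positivity
      have h1 : pSum r (fun χ => ‖thC χ psi N‖) ≤
          pSum r (fun _ => Ks * D * N / Real.log N ^ (A + B + 1)) := by
        apply pSum_mono
        intro h0 χ hχ
        have : NeZero r := ⟨h0⟩
        refine hs psi D hb N hN r (by omega) ?_ χ hχ
        exact (by exact_mod_cast hr2 : (r : ℝ) ≤ R0).trans hR0le
      have h2 := h1.trans (pSum_const r _ hc0)
      calc (1 / Nat.totient r : ℝ) * pSum r (fun χ => ‖thC χ psi N‖)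
          ≤ (1 / Nat.totient r : ℝ) *
            (Nat.totient r * (Ks * D * N / Real.log N ^ (A + B + 1))) :=
            mul_le_mul_of_nonneg_left h2 (by positivity)
        _ = Ks * D * N / Real.log N ^ (A + B + 1) := by
            field_simp
    refine (Finset.sum_le_sum hterm).trans ?_
    rw [Finset.sum_const, nsmul_eq_mul]
    have hcard : (((Finset.Icc 2 Q).filter (fun r => r ≤ R0)).card : ℝ) ≤ Real.log N ^ B := by
      refine le_trans ?_ hR0le
      have : ((Finset.Icc 2 Q).filter (fun r => r ≤ R0)).card ≤ (Finset.Icc 1 R0).card := by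
        apply Finset.card_le_card
        intro r hr
        obtain ⟨hr1, hr2⟩ := Finset.mem_filter.1 hr
        have := (Finset.mem_Icc.1 hr1).1
        exact Finset.mem_Icc.2 ⟨by omega, hr2⟩
      rw [Nat.card_Icc] at this
      exact_mod_cast (by omega : ((Finset.Icc 2 Q).filter (fun r => r ≤ R0)).card ≤ R0)
    calc (((Finset.Icc 2 Q).filter (fun r => r ≤ R0)).card : ℝ) *
          (Ks * D * N / Real.log N ^ (A + B + 1))
        ≤ Real.log N ^ B * (Ks * D * N / Real.log N ^ (A + B + 1)) :=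
          mul_le_mul_of_nonneg_right hcard (by positivity)
      _ = Ks * D * N / Real.log N ^ (A + 1) := by
          rw [show A + B + 1 = B + (A + 1) by ring, pow_add]
          field_simp
  -- large moduli
  have hlarge : ∑ r ∈ (Finset.Icc 2 Q).filter (fun r => ¬ r ≤ R0),
      (1 / Nat.totient r : ℝ) * pSum r (fun χ => ‖thC χ psi N‖) ≤
        Kl * D * N / Real.log N ^ (A + 1) + Cl * D * Q * Real.sqrt N * Real.log N := by
    have hterm : ∀ r ∈ (Finset.Icc 2 Q).filter (fun r => ¬ r ≤ R0),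
        (1 / Nat.totient r : ℝ) * pSum r (fun χ => ‖thC χ psi N‖) ≤
          (1 / Nat.totient r : ℝ) * pSum r (fun χ => ‖laC χ psi N‖) +
            Cl * D * Real.sqrt N * Real.log N := by
      intro r hr
      obtain ⟨hr1, hr2⟩ := Finset.mem_filter.1 hr
      have hr3 := (Finset.mem_Icc.1 hr1).1
      have hφ : (0 : ℝ) < Nat.totient r := by
        exact_mod_cast Nat.totient_pos.2 (by omega)
      have hc0 : 0 ≤ Cl * D * Real.sqrt N * Real.log N := by positivity
      have h1 : pSum r (fun χ => ‖thC χ psi N‖) ≤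
          pSum r (fun χ => ‖laC χ psi N‖ + Cl * D * Real.sqrt N * Real.log N) := by
        apply pSum_mono
        intro h0 χ hχ
        have h2 := hla psi D hb N hN (fun n => χ (n : ZMod r)) (fun n => χ.norm_le_one _)
        have h3 := norm_sub_norm_le (∑ n ∈ Finset.range (2 * N), χ (n : ZMod r) * (th n : ℂ) *
          (psi ((n : ℝ) / N) : ℂ)) (∑ n ∈ Finset.range (2 * N), χ (n : ZMod r) * (Λ n : ℂ) *
          (psi ((n : ℝ) / N) : ℂ))
        rw [norm_sub_rev] at h3
        have h4 : thC χ psi N = ∑ n ∈ Finset.range (2 * N), χ (n : ZMod r) * (th n : ℂ) *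
          (psi ((n : ℝ) / N) : ℂ) := rfl
        have h5 : laC χ psi N = ∑ n ∈ Finset.range (2 * N), χ (n : ZMod r) * (Λ n : ℂ) *
          (psi ((n : ℝ) / N) : ℂ) := rfl
        rw [h4, h5]
        linarith
      rw [pSum_add] at h1
      have h6 := h1.trans (add_le_add (le_refl _) (pSum_const r _ hc0))
      calc (1 / Nat.totient r : ℝ) * pSum r (fun χ => ‖thC χ psi N‖)
          ≤ (1 / Nat.totient r : ℝ) * (pSum r (fun χ => ‖laC χ psi N‖) +
            Nat.totient r * (Cl * D * Real.sqrt N * Real.log N)) :=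
            mul_le_mul_of_nonneg_left h6 (by positivity)
        _ = _ := by
            field_simp
    refine (Finset.sum_le_sum hterm).trans ?_
    rw [Finset.sum_add_distrib]
    refine add_le_add ?_ ?_
    · refine le_trans ?_ (hl psi D hb N hN)
      apply Finset.sum_le_sum_of_subset_of_nonneg
      · intro r hr
        obtain ⟨hr1, hr2⟩ := Finset.mem_filter.1 hr
        exact Finset.mem_Ioc.2 ⟨not_le.1 hr2, (Finset.mem_Icc.1 hr1).2⟩
      · intro r _ _
        exact mul_nonneg (by positivity) (pSum_nonneg fun χ => norm_nonneg _)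
    · rw [Finset.sum_const, nsmul_eq_mul]
      have hcard : (((Finset.Icc 2 Q).filter (fun r => ¬ r ≤ R0)).card : ℝ) ≤ Q := by
        have : ((Finset.Icc 2 Q).filter (fun r => ¬ r ≤ R0)).card ≤ (Finset.Icc 1 Q).card := by
          apply Finset.card_le_card
          intro r hr
          have h1 := Finset.mem_Icc.1 (Finset.mem_filter.1 hr).1
          exact Finset.mem_Icc.2 ⟨by omega, h1.2⟩
        rw [Nat.card_Icc] at this
        exact_mod_cast (by omega : ((Finset.Icc 2 Q).filter (fun r => ¬ r ≤ R0)).card ≤ Q)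
      calc (((Finset.Icc 2 Q).filter (fun r => ¬ r ≤ R0)).card : ℝ) *
            (Cl * D * Real.sqrt N * Real.log N)
          ≤ Q * (Cl * D * Real.sqrt N * Real.log N) :=
            mul_le_mul_of_nonneg_right hcard (by positivity)
        _ = _ := by ring
  have hx : 0 ≤ D * N / Real.log N ^ (A + 1) := by positivity
  have hy : 0 ≤ D * Q * Real.sqrt N * Real.log N := by positivity
  calc _ ≤ Ks * D * N / Real.log N ^ (A + 1) +
        (Kl * D * N / Real.log N ^ (A + 1) + Cl * D * Q * Real.sqrt N * Real.log N) :=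
        add_le_add hsmall hlarge
    _ = (Ks + Kl) * (D * N / Real.log N ^ (A + 1)) + Cl * (D * Q * Real.sqrt N * Real.log N) := by
        ring
    _ ≤ (Ks + Kl + Cl) * (D * N / Real.log N ^ (A + 1)) +
        (Ks + Kl + Cl) * (D * Q * Real.sqrt N * Real.log N) :=
        add_le_add (mul_le_mul_of_nonneg_right (by linarith) hx)
          (mul_le_mul_of_nonneg_right (by linarith) hy)
    _ = _ := by ring

/-- exchange of the sums over the moduli and the conductors -/
private theorem bvs_swap : ∃ C : ℝ, 0 ≤ C ∧ ∀ (Q : ℕ) (S : ℕ → ℝ), (∀ r, 0 ≤ S r) →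
    ∑ q ∈ Finset.Icc 1 Q, (1 / Nat.totient q : ℝ) * ∑ r ∈ q.divisors.erase 1, S r ≤
      C * (1 + Real.log Q) * ∑ r ∈ Finset.Icc 2 Q, (1 / Nat.totient r : ℝ) * S r := by
  obtain ⟨C, hC, h⟩ := totient_inv_mul
  refine ⟨C, hC, fun Q S hS => ?_⟩
  have e1 : ∀ q ∈ Finset.Icc 1 Q, (1 / Nat.totient q : ℝ) * ∑ r ∈ q.divisors.erase 1, S r
      = ∑ r ∈ Finset.Icc 2 Q, if r ∣ q then (1 / Nat.totient q : ℝ) * S r else 0 := by
    intro q hq
    obtain ⟨hq1, hq2⟩ := Finset.mem_Icc.1 hq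
    rw [← Finset.sum_filter, Finset.mul_sum]
    refine Finset.sum_congr ?_ fun _ _ => rfl
    ext r
    simp only [Finset.mem_erase, Nat.mem_divisors, Finset.mem_filter, Finset.mem_Icc]
    constructor
    · rintro ⟨h1, h2, h3⟩
      have := Nat.pos_of_dvd_of_pos h2 (by omega)
      have := Nat.le_of_dvd (by omega) h2
      exact ⟨by omega, h2⟩
    · rintro ⟨h1, h2⟩
      exact ⟨by omega, h2, by omega⟩
  rw [Finset.sum_congr rfl e1, Finset.sum_comm, Finset.mul_sum]
  refine Finset.sum_le_sum fun r hr => ?_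
  obtain ⟨hr1, hr2⟩ := Finset.mem_Icc.1 hr
  rw [← Finset.sum_filter, ← Finset.sum_mul]
  have h1 := h r Q (by omega) hr2
  calc (∑ q ∈ (Finset.Icc 1 Q).filter (fun q => r ∣ q), (1 / Nat.totient q : ℝ)) * S r
      ≤ (C * (1 + Real.log Q) / Nat.totient r) * S r := mul_le_mul_of_nonneg_right h1 (hS r)
    _ = _ := by ring

theorem bv_plain {ε : ℝ} (hε : 0 < ε) (A : ℕ) : ∃ K : ℝ, 0 ≤ K ∧ ∀ (psi : ℝ → ℝ) (D : ℝ),
    Bump psi D → ∀ N : ℕ, 3 ≤ N → ∀ c : ℕ → ℕ, (∀ q, 0 < q → Nat.Coprime (c q) q) →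
      ∑ q ∈ Finset.Icc 1 ⌊(N : ℝ) ^ (1 / 2 - ε)⌋₊, |Eerr psi N q (c q)| ≤
        K * D * N / Real.log N ^ A := by
  obtain ⟨C0, hC0, hE⟩ := Eerr_le
  obtain ⟨Ct, hCt, hT⟩ := totient_inv
  obtain ⟨Cm, hCm, hM⟩ := bvs_swap
  obtain ⟨Kp, hKp, hP⟩ := pnt_smooth (A + 1)
  obtain ⟨Kc, hKc, hcond⟩ := bvs_cond hε A
  obtain ⟨C4, hC4, h4⟩ := bvs_log_pow hε (A + 2)
  refine ⟨2 * Kp * Ct + 2 * Cm * Kc + 2 * Cm * Kc * C4 + 2 * C0 * C4, by positivity, ?_⟩
  intro psi D hb N hN c hc
  have hD := sw_D_nonneg hb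
  have hL := sw_one_le_log hN
  have hL0 : 0 < Real.log N := by linarith
  have hN0 : (0 : ℝ) < N := by exact_mod_cast (by omega : 0 < N)
  have hN1 : (1 : ℝ) ≤ N := by exact_mod_cast (by omega : 1 ≤ N)
  set Q : ℕ := ⌊(N : ℝ) ^ (1 / 2 - ε)⌋₊ with hQ
  have hX : 0 ≤ D * N / Real.log N ^ A := by positivity
  rcases Nat.eq_zero_or_pos Q with hQ0 | hQ0
  · rw [hQ0]
    simp only [Finset.Icc_eq_empty_of_lt (by norm_num : (0 : ℕ) < 1), Finset.sum_empty]
    positivity
  have hQle : (Q : ℝ) ≤ (N : ℝ) ^ (1 / 2 - ε) := Nat.floor_le (by positivity)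
  have hQN : (Q : ℝ) ≤ N := by
    refine hQle.trans ?_
    calc (N : ℝ) ^ (1 / 2 - ε) ≤ (N : ℝ) ^ (1 : ℝ) :=
          Real.rpow_le_rpow_of_exponent_le hN1 (by linarith)
      _ = N := Real.rpow_one _
  have hQ1 : (1 : ℝ) ≤ Q := by exact_mod_cast hQ0
  have hlogQ : Real.log Q ≤ Real.log N := Real.log_le_log (by linarith) hQN
  have hlogQ0 : 0 ≤ Real.log Q := Real.log_nonneg hQ1
  have h2L : 1 + Real.log Q ≤ 2 * Real.log N := by linarith
  -- the negligible quantity
  have hneg : (Q : ℝ) * Real.sqrt N * Real.log N ^ 2 ≤ C4 * (N / Real.log N ^ A) := by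
    have hp : 0 < Real.log N ^ A := by positivity
    rw [← mul_div_assoc, le_div_iff₀ hp]
    have h5 := h4 N (by omega)
    calc (Q : ℝ) * Real.sqrt N * Real.log N ^ 2 * Real.log N ^ A
        = Q * Real.sqrt N * Real.log N ^ (A + 2) := by ring
      _ ≤ (N : ℝ) ^ (1 / 2 - ε) * Real.sqrt N * (C4 * (N : ℝ) ^ ε) := by
          refine mul_le_mul (mul_le_mul_of_nonneg_right hQle (Real.sqrt_nonneg _)) h5
            (by positivity) (by positivity)
      _ = C4 * ((N : ℝ) ^ (1 / 2 - ε) * (N : ℝ) ^ (1 / 2 : ℝ) * (N : ℝ) ^ ε) := by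
          rw [Real.sqrt_eq_rpow]
          ring
      _ = C4 * N := by
          rw [← Real.rpow_add hN0, ← Real.rpow_add hN0]
          have : (1 / 2 - ε + 1 / 2 + ε : ℝ) = 1 := by ring
          rw [this, Real.rpow_one]
  set P : ℝ := |(∑ p ∈ Finset.range (2 * N), th p * psi ((p : ℝ) / N)) - N * ∫ t, psi t| with hPdef
  have hP0 : 0 ≤ P := abs_nonneg _
  have hPle : P ≤ Kp * D * N / Real.log N ^ (A + 1) := hP psi D hb N hN
  set S : ℕ → ℝ := fun r => pSum r (fun χ => ‖thC χ psi N‖) with hS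
  have hS0 : ∀ r, 0 ≤ S r := fun r => pSum_nonneg fun χ => norm_nonneg _
  have hsum : ∑ q ∈ Finset.Icc 1 Q, |Eerr psi N q (c q)| ≤
      P * ∑ q ∈ Finset.Icc 1 Q, (1 / Nat.totient q : ℝ) +
      (∑ q ∈ Finset.Icc 1 Q, (1 / Nat.totient q : ℝ) * ∑ r ∈ q.divisors.erase 1, S r) +
      ∑ q ∈ Finset.Icc 1 Q, C0 * D * Real.log (2 * q) := by
    rw [Finset.mul_sum, ← Finset.sum_add_distrib, ← Finset.sum_add_distrib]
    refine Finset.sum_le_sum fun q hq => ?_
    have hq1 := (Finset.mem_Icc.1 hq).1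
    have h6 := hE psi D hb N q (c q) (by omega) (by omega) (hc q (by omega))
    refine h6.trans (le_of_eq ?_)
    rw [hPdef, hS]
    ring
  have t1 : P * ∑ q ∈ Finset.Icc 1 Q, (1 / Nat.totient q : ℝ) ≤
      2 * Kp * Ct * (D * N / Real.log N ^ A) := by
    have h7 := hT Q hQ0
    calc P * ∑ q ∈ Finset.Icc 1 Q, (1 / Nat.totient q : ℝ)
        ≤ (Kp * D * N / Real.log N ^ (A + 1)) * (Ct * (2 * Real.log N)) := by
          refine mul_le_mul hPle (h7.trans (mul_le_mul_of_nonneg_left h2L hCt))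
            (Finset.sum_nonneg fun _ _ => by positivity) (by positivity)
      _ = _ := by
          rw [pow_succ]
          field_simp
  have t2 : ∑ q ∈ Finset.Icc 1 Q, (1 / Nat.totient q : ℝ) * ∑ r ∈ q.divisors.erase 1, S r ≤
      2 * Cm * Kc * (D * N / Real.log N ^ A) + 2 * Cm * Kc * C4 * (D * N / Real.log N ^ A) := by
    have h8 := hM Q S hS0
    have h9 := hcond psi D hb N hN
    have h10 : 0 ≤ ∑ r ∈ Finset.Icc 2 Q, (1 / Nat.totient r : ℝ) * S r :=
      Finset.sum_nonneg fun r _ => mul_nonneg (by positivity) (hS0 r)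
    calc ∑ q ∈ Finset.Icc 1 Q, (1 / Nat.totient q : ℝ) * ∑ r ∈ q.divisors.erase 1, S r
        ≤ Cm * (1 + Real.log Q) * ∑ r ∈ Finset.Icc 2 Q, (1 / Nat.totient r : ℝ) * S r := h8
      _ ≤ Cm * (2 * Real.log N) * (Kc * D * N / Real.log N ^ (A + 1) +
            Kc * D * Q * Real.sqrt N * Real.log N) := by
          refine mul_le_mul (mul_le_mul_of_nonneg_left h2L hCm) h9 h10 (by positivity)
      _ = 2 * Cm * Kc * (D * N / Real.log N ^ A) +
            2 * Cm * Kc * D * (Q * Real.sqrt N * Real.log N ^ 2) := by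
          rw [pow_succ]
          field_simp
      _ ≤ 2 * Cm * Kc * (D * N / Real.log N ^ A) +
            2 * Cm * Kc * D * (C4 * (N / Real.log N ^ A)) := by
          have := mul_le_mul_of_nonneg_left hneg (by positivity : 0 ≤ 2 * Cm * Kc * D)
          linarith
      _ = _ := by ring
  have t3 : ∑ q ∈ Finset.Icc 1 Q, C0 * D * Real.log (2 * q) ≤
      2 * C0 * C4 * (D * N / Real.log N ^ A) := by
    have h11 : ∀ q ∈ Finset.Icc 1 Q, C0 * D * Real.log (2 * q) ≤ C0 * D * (2 * Real.log N) := by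
      intro q hq
      obtain ⟨hq1, hq2⟩ := Finset.mem_Icc.1 hq
      have hq1' : (1 : ℝ) ≤ q := by exact_mod_cast hq1
      have hq2' : (q : ℝ) ≤ Q := by exact_mod_cast hq2
      refine mul_le_mul_of_nonneg_left ?_ (by positivity)
      rw [Real.log_mul (by norm_num) (by linarith)]
      have h12 : Real.log q ≤ Real.log N := Real.log_le_log (by linarith) (by linarith)
      have h13 := Real.log_two_lt_d9
      linarith
    refine (Finset.sum_le_sum h11).trans ?_
    rw [Finset.sum_const, nsmul_eq_mul, Nat.card_Icc, Nat.add_sub_cancel]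
    have h14 : 1 ≤ Real.sqrt N * Real.log N := by
      have : 1 ≤ Real.sqrt N := by
        rw [show (1 : ℝ) = Real.sqrt 1 by simp]
        exact Real.sqrt_le_sqrt hN1
      nlinarith
    have h15 : (Q : ℝ) * Real.log N ≤ Q * Real.sqrt N * Real.log N ^ 2 := by
      have h16 : (Q : ℝ) * Real.log N * 1 ≤ Q * Real.log N * (Real.sqrt N * Real.log N) :=
        mul_le_mul_of_nonneg_left h14 (by positivity)
      calc (Q : ℝ) * Real.log N = Q * Real.log N * 1 := by ring
        _ ≤ _ := h16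
        _ = _ := by ring
    calc (Q : ℝ) * (C0 * D * (2 * Real.log N)) = 2 * C0 * D * (Q * Real.log N) := by ring
      _ ≤ 2 * C0 * D * (C4 * (N / Real.log N ^ A)) :=
          mul_le_mul_of_nonneg_left (h15.trans hneg) (by positivity)
      _ = _ := by ring
  calc _ ≤ 2 * Kp * Ct * (D * N / Real.log N ^ A) +
        (2 * Cm * Kc * (D * N / Real.log N ^ A) + 2 * Cm * Kc * C4 * (D * N / Real.log N ^ A)) +
        2 * C0 * C4 * (D * N / Real.log N ^ A) := by linarith
    _ = _ := by ring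

end BV

end
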