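import Mathlib

/-!
Module COEF (nonnegative coefficients; Mathlib only; size S-M).

All four factors are multiplicative (`ArithmeticFunction.IsMultiplicative`), so is the product; it is enough
to show that the value at every prime power `p^k` is nonnegative
(`ArithmeticFunction.IsMultiplicative.multiplicative_factorization`, for `n ≠ 0`; at `0` the value is 0).
With `x = f p`, `y = g p` in `{-1, 0, 1}` the value at `p^k` is
`∑_{a+b+c+d=k} x^b y^c (xy)^d`, the coefficient of `X^k` in `1/((1-X)(1-xX)(1-yX)(1-xyX))`.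
If `x = 0`: `∑_{c ≤ k} y^c ≥ 0`.  If `y = 0`: `∑_{b ≤ k} x^b ≥ 0`.  If `x = y = 1`: a number of tuples.
Otherwise exactly two of the four numbers `1, x, y, xy` are `1` and two are `-1`, so the function
`k ↦` value is the convolution `h ∗ h`, where `h(k) = ∑_{a+b=k} (-1)^b` is `1` for even `k` and `0` for
odd `k`.
-/

set_option autoImplicit false

open Finset Filter MeasureTheory Topology
open scoped ContDiff ArithmeticFunction.Moebius ArithmeticFunction.vonMangoldt

noncomputable section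

namespace BV

private lemma co_pow (f : ArithmeticFunction ℝ) (hf1 : f 1 = 1)
    (hf : ∀ m n, f (m * n) = f m * f n) (p k : ℕ) : f (p ^ k) = f p ^ k := by
  induction k with
  | zero => rw [pow_zero, pow_zero, hf1]
  | succ k ih => rw [pow_succ, hf, ih, pow_succ]

private lemma co_B (f : ArithmeticFunction ℝ) (hf1 : f 1 = 1)
    (hf : ∀ m n, f (m * n) = f m * f n) {p : ℕ} (hp : p.Prime) (k : ℕ) :
    ((ArithmeticFunction.zeta : ArithmeticFunction ℝ) * f) (p ^ k) =
      ∑ i ∈ Finset.range (k + 1), f p ^ i := by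
  rw [ArithmeticFunction.coe_zeta_mul_apply, Nat.sum_divisors_prime_pow hp]
  exact Finset.sum_congr rfl fun i _ => co_pow f hf1 hf p i

private lemma co_geom (x : ℝ) (hx : x = -1 ∨ x = 0 ∨ x = 1) (k : ℕ) :
    0 ≤ ∑ i ∈ Finset.range (k + 1), x ^ i := by
  rcases hx with rfl | rfl | rfl
  · induction k using Nat.twoStepInduction with
    | zero => simp
    | one => simp [Finset.sum_range_succ]
    | more k ih1 _ =>
      rw [Finset.sum_range_succ, Finset.sum_range_succ]
      have : (-1 : ℝ) ^ (k + 1 + 1) = -(-1) ^ (k + 1) := by ring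
      rw [this]
      linarith
  · exact Finset.sum_nonneg fun i _ => by positivity
  · exact Finset.sum_nonneg fun i _ => by positivity

private lemma co_geom_odd (k : ℕ) (hk : Odd k) :
    ∑ i ∈ Finset.range (k + 1), (-1 : ℝ) ^ i = 0 := by
  obtain ⟨m, rfl⟩ := hk
  induction m with
  | zero => simp [Finset.sum_range_succ]
  | succ m ih =>
    have e : 2 * (m + 1) + 1 + 1 = (2 * m + 1 + 1) + 1 + 1 := by ring
    rw [e, Finset.sum_range_succ, Finset.sum_range_succ, ih]
    ring

/-- the convolution regrouped -/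
private lemma co_group (f g : ArithmeticFunction ℝ)
    (hg : ∀ m n, g (m * n) = g m * g n) (n : ℕ) :
    ((ArithmeticFunction.zeta : ArithmeticFunction ℝ) * f * g * (f.pmul g)) n =
      ∑ x ∈ n.divisorsAntidiagonal,
        ((ArithmeticFunction.zeta : ArithmeticFunction ℝ) * f) x.1 *
          (g x.2 * ((ArithmeticFunction.zeta : ArithmeticFunction ℝ) * f) x.2) := by
  rw [mul_assoc ((ArithmeticFunction.zeta : ArithmeticFunction ℝ) * f) g, ArithmeticFunction.mul_apply]
  apply Finset.sum_congr rfl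
  intro x _
  congr 1
  rw [mul_comm g, ArithmeticFunction.mul_apply, ArithmeticFunction.coe_zeta_mul_apply,
    Finset.mul_sum, ← Nat.sum_divisorsAntidiagonal (f := fun i _ => g x.2 * f i)]
  apply Finset.sum_congr rfl
  intro y hy
  rw [ArithmeticFunction.pmul_apply, ← (Nat.mem_divisorsAntidiagonal.1 hy).1, hg]
  ring

private lemma co_prime_pow (f g : ArithmeticFunction ℝ) (hf1 : f 1 = 1) (hg1 : g 1 = 1)
    (hf : ∀ m n, f (m * n) = f m * f n) (hg : ∀ m n, g (m * n) = g m * g n)
    {p : ℕ} (hp : p.Prime)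
    (hfp : f p = -1 ∨ f p = 0 ∨ f p = 1)
    (hgp : (g p = 0 ∨ g p = 1) ∨ (g p = -1 ∧ f p = -1)) (k : ℕ) :
    0 ≤ ((ArithmeticFunction.zeta : ArithmeticFunction ℝ) * f * g * (f.pmul g)) (p ^ k) := by
  rw [co_group f g hg]
  apply Finset.sum_nonneg
  intro x hx
  have hd := (Nat.mem_divisorsAntidiagonal.1 hx).1
  obtain ⟨i, _, hi⟩ := (Nat.dvd_prime_pow hp).1 (Dvd.intro _ hd)
  obtain ⟨j, _, hj⟩ := (Nat.dvd_prime_pow hp).1 (Dvd.intro_left _ hd)
  rw [hi, hj, co_B f hf1 hf hp, co_B f hf1 hf hp, co_pow g hg1 hg]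
  apply mul_nonneg (co_geom _ hfp i)
  rcases hgp with h | ⟨h1, h2⟩
  · apply mul_nonneg _ (co_geom _ hfp j)
    rcases h with h | h <;> rw [h] <;> positivity
  · rw [h1, h2]
    rcases Nat.even_or_odd j with hj | hj
    · rw [hj.neg_one_pow, one_mul]
      exact co_geom _ (Or.inl rfl) j
    · rw [co_geom_odd j hj, mul_zero]

private lemma co_prime_pow' (f g : ArithmeticFunction ℝ) (hf1 : f 1 = 1) (hg1 : g 1 = 1)
    (hf : ∀ m n, f (m * n) = f m * f n) (hg : ∀ m n, g (m * n) = g m * g n)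
    {p : ℕ} (hp : p.Prime)
    (hfp : f p = -1 ∨ f p = 0 ∨ f p = 1) (hgp : g p = -1 ∨ g p = 0 ∨ g p = 1) (k : ℕ) :
    0 ≤ ((ArithmeticFunction.zeta : ArithmeticFunction ℝ) * f * g * (f.pmul g)) (p ^ k) := by
  by_cases hc : (g p = 0 ∨ g p = 1) ∨ (g p = -1 ∧ f p = -1)
  · exact co_prime_pow f g hf1 hg1 hf hg hp hfp hc k
  · have hc' : (f p = 0 ∨ f p = 1) := by
      rcases hgp with h | h | h
      · rcases hfp with h' | h' | h'
        · exact absurd (Or.inr ⟨h, h'⟩) hc
        · exact Or.inl h'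
        · exact Or.inr h'
      · exact absurd (Or.inl (Or.inl h)) hc
      · exact absurd (Or.inl (Or.inr h)) hc
    have e : (ArithmeticFunction.zeta : ArithmeticFunction ℝ) * f * g * (f.pmul g) =
        (ArithmeticFunction.zeta : ArithmeticFunction ℝ) * g * f * (g.pmul f) := by
      rw [ArithmeticFunction.pmul_comm f g]
      ring
    rw [e]
    exact co_prime_pow g f hg1 hf1 hg hf hp hgp (Or.inl hc') k

theorem coef_nonneg (f g : ArithmeticFunction ℝ) (hf1 : f 1 = 1) (hg1 : g 1 = 1)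
    (hf : ∀ m n, f (m * n) = f m * f n) (hg : ∀ m n, g (m * n) = g m * g n)
    (hf3 : ∀ n, f n = -1 ∨ f n = 0 ∨ f n = 1) (hg3 : ∀ n, g n = -1 ∨ g n = 0 ∨ g n = 1) (n : ℕ) :
    0 ≤ ((ArithmeticFunction.zeta : ArithmeticFunction ℝ) * f * g * (f.pmul g)) n := by
  rcases Nat.eq_zero_or_pos n with rfl | hn
  · rw [ArithmeticFunction.map_zero]
  have hfm : f.IsMultiplicative := ⟨hf1, fun _ => hf _ _⟩
  have hgm : g.IsMultiplicative := ⟨hg1, fun _ => hg _ _⟩
  have hzm : ((ArithmeticFunction.zeta : ArithmeticFunction ℝ)).IsMultiplicative :=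
    ArithmeticFunction.isMultiplicative_zeta.natCast
  have hF : ((ArithmeticFunction.zeta : ArithmeticFunction ℝ) * f * g *
      (f.pmul g)).IsMultiplicative :=
    ((hzm.mul hfm).mul hgm).mul (hfm.pmul hgm)
  rw [ArithmeticFunction.IsMultiplicative.multiplicative_factorization _ hF hn.ne']
  apply Finset.prod_nonneg
  intro p hp
  have hpp : p.Prime := Nat.prime_of_mem_primeFactors (by
    rwa [← Nat.support_factorization])
  exact co_prime_pow' f g hf1 hg1 hf hg hpp (hf3 p) (hg3 p) _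

end BV

end
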