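import Mathlib

/-!
Module ESTA (Estermann's inequality, abstract form; Mathlib only; size M).

`b_m = (1/m!) ∑_n a_n n^{-2} (log n)^m ≥ 0`, `b_0 ≥ a_1 ≥ 1`.  These are (up to the sign `(-1)^m`) the
Taylor coefficients of `LSeries a` at `2` (`LSeries_iteratedDeriv`), and `lam/(s-1) = ∑ lam (2-s)^m`.
So `F(s) = ∑_m (b_m - lam) (2-s)^m` for all `s` (`F` is entire: its Taylor series at `2` converges to it,
`Complex.hasSum_taylorSeries_of_entire` or Cauchy power series on a ball), and Cauchy's estimate on the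
circle `|s-2| = 3/2` gives `|b_m - lam| ≤ M (2/3)^m`.  For `7/8 < β < 1`: `1 < 2 - β < 9/8`, so for every `J`:
`F(β) ≥ ∑_{m<J} (b_m - lam)(2-β)^m - ∑_{m≥J} M (3/4)^m ≥ 1 - lam ((2-β)^J - 1)/(1-β) - 4 M (3/4)^J`,
that is `F(β) - lam/(1-β) ≥ 1 - 4 M (3/4)^J - lam (2-β)^J/(1-β)`.  Take the least `J` with
`8 M (3/4)^J ≤ 1`; `J ≤ 1 + log(8M)/log(4/3) ≤ 1 + (7/2) log (8M)` and
`(2-β)^J ≤ e^{(1-β)J} ≤ e^{(1/8)(1 + (7/2) log 8)} M^{(7/2)(1-β)} ≤ 3 M^{4(1-β)}`.
(The number `F(β)` has real part given by the same series, all its coefficients are real.)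
-/

set_option autoImplicit false

open Finset Filter MeasureTheory Topology
open scoped ContDiff ArithmeticFunction.Moebius ArithmeticFunction.vonMangoldt

noncomputable section

namespace BV

private lemma ea_deriv (a : ℕ → ℝ) (F : ℂ → ℂ) (lam : ℝ)
    (hsum : ∀ s : ℂ, 1 < s.re → LSeriesSummable (fun n => (a n : ℂ)) s)
    (hF : ∀ s : ℂ, 1 < s.re → LSeries (fun n => (a n : ℂ)) s = F s + lam / (s - 1)) (m : ℕ) :
    ∀ s : ℂ, 1 < s.re → iteratedDeriv m F s =
      (-1) ^ m * (LSeries (LSeries.logMul^[m] (fun n => (a n : ℂ))) s -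
        lam * (m.factorial : ℂ) * ((s - 1) ^ (m + 1))⁻¹) := by
  have habs : LSeries.abscissaOfAbsConv (fun n => (a n : ℂ)) ≤ (1 : ℝ) := by
    apply LSeries.abscissaOfAbsConv_le_of_forall_lt_LSeriesSummable
    intro y hy
    exact hsum y (by simpa using hy)
  induction m with
  | zero =>
    intro s hs
    rw [iteratedDeriv_zero, pow_zero, one_mul, Function.iterate_zero, id_eq, hF s hs]
    simp only [Nat.factorial_zero, Nat.cast_one, mul_one, zero_add, pow_one]
    rw [div_eq_mul_inv]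
    ring
  | succ m ih =>
    intro s hs
    have hopen : IsOpen {s : ℂ | 1 < s.re} := isOpen_lt continuous_const Complex.continuous_re
    have hev : iteratedDeriv m F =ᶠ[𝓝 s] fun s =>
        (-1) ^ m * (LSeries (LSeries.logMul^[m] (fun n => (a n : ℂ))) s -
        lam * (m.factorial : ℂ) * ((s - 1) ^ (m + 1))⁻¹) := by
      filter_upwards [hopen.mem_nhds hs] with z hz
      exact ih z hz
    have hs1 : s - 1 ≠ 0 := by
      intro h
      have h2 := congrArg Complex.re h
      simp at h2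
      have hs' : 1 < s.re := hs
      linarith
    rw [iteratedDeriv_succ, hev.deriv_eq]
    have hL : HasDerivAt (LSeries (LSeries.logMul^[m] (fun n => (a n : ℂ))))
        (-LSeries (LSeries.logMul (LSeries.logMul^[m] (fun n => (a n : ℂ)))) s) s := by
      apply LSeries_hasDerivAt
      rw [LSeries.absicssaOfAbsConv_logPowMul]
      refine lt_of_le_of_lt habs ?_
      exact_mod_cast hs
    have hG : HasDerivAt (fun s : ℂ => ((s - 1) ^ (m + 1))⁻¹)
        (-(((m + 1 : ℕ) : ℂ) * (s - 1) ^ m * 1) / ((s - 1) ^ (m + 1)) ^ 2) s := by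
      have h1 : HasDerivAt (fun s : ℂ => (s - 1) ^ (m + 1))
          (((m + 1 : ℕ) : ℂ) * (s - 1) ^ m * 1) s :=
        ((hasDerivAt_id s).sub_const 1).pow (m + 1)
      exact h1.inv (pow_ne_zero _ hs1)
    have hH := (hL.sub (hG.const_mul ((lam : ℂ) * (m.factorial : ℂ)))).const_mul ((-1 : ℂ) ^ m)
    have hH2 : HasDerivAt (fun s : ℂ => (-1) ^ m *
        (LSeries (LSeries.logMul^[m] (fun n => (a n : ℂ))) s -
        lam * (m.factorial : ℂ) * ((s - 1) ^ (m + 1))⁻¹)) _ s := hH
    rw [hH2.deriv, Function.iterate_succ_apply', Nat.factorial_succ]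
    have e1 : ((s - 1) ^ (m + 1)) ^ 2 = (s - 1) ^ m * (s - 1) ^ (m + 1 + 1) := by ring
    rw [e1]
    have e2 : (s - 1) ^ m ≠ 0 := pow_ne_zero _ hs1
    have e3 : (s - 1) ^ (m + 1 + 1) ≠ 0 := pow_ne_zero _ hs1
    push_cast
    field_simp
    ring

private lemma ea_nonneg (f : ℕ → ℝ) (hf : ∀ n, 0 ≤ f n) :
    0 ≤ (LSeries (fun n => (f n : ℂ)) 2).re := by
  have h : LSeries (fun n => (f n : ℂ)) 2 =
      ((∑' n : ℕ, if n = 0 then 0 else f n / (n : ℝ) ^ 2 : ℝ) : ℂ) := by
    unfold LSeries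
    rw [Complex.ofReal_tsum]
    congr 1
    ext n
    unfold LSeries.term
    split_ifs with h
    · simp
    · push_cast
      congr 1
      exact_mod_cast Complex.cpow_natCast (n : ℂ) 2
  rw [h, Complex.ofReal_re]
  apply tsum_nonneg
  intro n
  split_ifs
  · exact le_refl _
  · exact div_nonneg (hf n) (by positivity)

private lemma ea_log (a : ℕ → ℝ) (ha : ∀ n, 0 ≤ a n) (m : ℕ) :
    ∃ f : ℕ → ℝ, (∀ n, 0 ≤ f n) ∧
      LSeries.logMul^[m] (fun n => (a n : ℂ)) = fun n => (f n : ℂ) := by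
  induction m with
  | zero => exact ⟨a, ha, rfl⟩
  | succ m ih =>
    obtain ⟨f, hf, hf2⟩ := ih
    refine ⟨fun n => Real.log n * f n, fun n => ?_, ?_⟩
    · rcases Nat.eq_zero_or_pos n with h | h
      · rw [h]; simp
      · exact mul_nonneg (Real.log_nonneg (by exact_mod_cast h)) (hf n)
    · rw [Function.iterate_succ_apply', hf2]
      ext n
      unfold LSeries.logMul
      rw [← Complex.natCast_log]
      push_cast
      rfl

private lemma ea_one (a : ℕ → ℝ) (ha : ∀ n, 0 ≤ a n) (h1 : 1 ≤ a 1)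
    (hs : LSeriesSummable (fun n => (a n : ℂ)) 2) :
    1 ≤ (LSeries (fun n => (a n : ℂ)) 2).re := by
  have hterm : ∀ n, LSeries.term (fun n => (a n : ℂ)) 2 n =
      ((if n = 0 then 0 else a n / (n : ℝ) ^ 2 : ℝ) : ℂ) := by
    intro n
    unfold LSeries.term
    split_ifs with h
    · simp
    · push_cast
      congr 1
      exact_mod_cast Complex.cpow_natCast (n : ℂ) 2
  have h : LSeries (fun n => (a n : ℂ)) 2 =
      ((∑' n : ℕ, if n = 0 then 0 else a n / (n : ℝ) ^ 2 : ℝ) : ℂ) := by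
    unfold LSeries
    rw [Complex.ofReal_tsum]
    congr 1
    ext n
    exact hterm n
  have hsum : Summable (fun n : ℕ => if n = 0 then 0 else a n / (n : ℝ) ^ 2) := by
    have h2 : Summable (fun n => LSeries.term (fun n => (a n : ℂ)) 2 n) := hs
    simp only [hterm] at h2
    exact Complex.summable_ofReal.1 h2
  rw [h, Complex.ofReal_re]
  have h3 := hsum.le_tsum 1 (fun n _ => by
    split_ifs
    · exact le_refl _
    · exact div_nonneg (ha n) (by positivity))
  refine le_trans ?_ h3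
  simpa using h1

theorem est_abs : ∃ C : ℝ, 0 < C ∧ ∀ (a : ℕ → ℝ) (F : ℂ → ℂ) (lam M : ℝ), (∀ n, 0 ≤ a n) →
    1 ≤ a 1 → 0 ≤ lam → 1 ≤ M → Differentiable ℂ F →
    (∀ s : ℂ, 1 < s.re → LSeriesSummable (fun n => (a n : ℂ)) s) →
    (∀ s : ℂ, 1 < s.re → LSeries (fun n => (a n : ℂ)) s = F s + lam / (s - 1)) →
    (∀ s : ℂ, ‖s - 2‖ = 3 / 2 → ‖F s‖ ≤ M) →
    ∀ β : ℝ, 7 / 8 < β → β < 1 →
      1 / 2 - C * lam / (1 - β) * M ^ (4 * (1 - β)) ≤ (F (β : ℂ)).re - lam / (1 - β) := by
  refine ⟨Real.exp (4 * Real.log 8 + 1), Real.exp_pos _, ?_⟩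
  intro a F lam M ha ha1 hlam hM hdiff hsum hF hbound β hβ hβ1
  have h1β : 0 < 1 - β := by linarith
  have h2β : 1 < 2 - β := by linarith
  -- Taylor coefficients
  set T : ℕ → ℂ := fun n => ((n.factorial : ℂ))⁻¹ • ((β : ℂ) - 2) ^ n • iteratedDeriv n F 2 with hT
  have hTsum : HasSum T (F β) := Complex.hasSum_taylorSeries_of_entire hdiff 2 (β : ℂ)
  set t : ℕ → ℝ := fun n => (T n).re with ht
  have htsum : HasSum t (F β).re := Complex.hasSum_re hTsum
  have hfac : ∀ n : ℕ, (0 : ℝ) < (n.factorial : ℝ) := fun n => by exact_mod_cast n.factorial_pos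
  -- formula for the real part
  have hTm : ∀ m : ℕ, t m = (2 - β) ^ m *
      ((LSeries (LSeries.logMul^[m] (fun n => (a n : ℂ))) 2).re / (m.factorial : ℝ) - lam) := by
    intro m
    have h1 := ea_deriv a F lam hsum hF m 2 (by norm_num)
    have e1 : T m = (((2 - β) ^ m : ℝ) : ℂ) *
        ((((m.factorial : ℝ))⁻¹ : ℝ) * LSeries (LSeries.logMul^[m] (fun n => (a n : ℂ))) 2 -
          (lam : ℂ)) := by
      simp only [hT, smul_eq_mul]
      rw [h1]
      have e2 : ((2 : ℂ) - 1) = 1 := by norm_num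
      rw [e2, one_pow, inv_one, mul_one]
      have e3 : ((β : ℂ) - 2) ^ m = (-1) ^ m * (((2 - β) ^ m : ℝ) : ℂ) := by
        push_cast
        rw [← mul_pow]
        congr 1
        ring
      rw [e3]
      have e4 : ((-1 : ℂ)) ^ m * (-1) ^ m = 1 := by
        rw [← mul_pow]; norm_num
      have e5 : (m.factorial : ℂ) ≠ 0 := by exact_mod_cast m.factorial_ne_zero
      push_cast
      field_simp
      linear_combination ((2 - (β : ℂ)) ^ m * (LSeries (LSeries.logMul^[m] (fun n => (a n : ℂ))) 2 -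
        (lam : ℂ) * (m.factorial : ℂ))) * e4
    simp only [ht]
    rw [e1, Complex.re_ofReal_mul, Complex.sub_re, Complex.re_ofReal_mul, Complex.ofReal_re]
    congr 1
    rw [div_eq_inv_mul]
  -- lower bounds
  have hlow1 : ∀ m, -(lam * (2 - β) ^ m) ≤ t m := by
    intro m
    rw [hTm m]
    obtain ⟨f, hf, hf2⟩ := ea_log a ha m
    rw [hf2]
    have h1 := ea_nonneg f hf
    have h2 : 0 ≤ (LSeries (fun n => (f n : ℂ)) 2).re / (m.factorial : ℝ) :=
      div_nonneg h1 (hfac m).le
    have h3 : 0 < (2 - β) ^ m := by positivity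
    nlinarith
  have hlow0 : 1 - lam ≤ t 0 := by
    rw [hTm 0]
    have h1 := ea_one a ha ha1 (hsum 2 (by norm_num))
    simp only [pow_zero, one_mul, Function.iterate_zero, id_eq, Nat.factorial_zero, Nat.cast_one,
      div_one]
    linarith
  have hlow2 : ∀ m, -(M * (3 / 4) ^ m) ≤ t m := by
    intro m
    have h1 : ‖iteratedDeriv m F 2‖ ≤ m.factorial * M / (3 / 2) ^ m := by
      apply Complex.norm_iteratedDeriv_le_of_forall_mem_sphere_norm_le m (by norm_num)
        hdiff.diffContOnCl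
      intro z hz
      apply hbound
      rw [mem_sphere_iff_norm] at hz
      exact hz
    have h2 : ‖T m‖ ≤ M * (3 / 4) ^ m := by
      simp only [hT, smul_eq_mul]
      rw [norm_mul, norm_mul, norm_inv, norm_pow, Complex.norm_natCast]
      have e1 : ‖(β : ℂ) - 2‖ = 2 - β := by
        have : (β : ℂ) - 2 = ((β - 2 : ℝ) : ℂ) := by push_cast; rfl
        rw [this, Complex.norm_real, Real.norm_eq_abs, abs_of_neg (by linarith)]
        ring
      rw [e1]
      have e2 : (2 - β) ^ m ≤ (9 / 8) ^ m := pow_le_pow_left₀ (by linarith) (by linarith) m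
      calc ((m.factorial : ℝ))⁻¹ * ((2 - β) ^ m * ‖iteratedDeriv m F 2‖)
          ≤ ((m.factorial : ℝ))⁻¹ * ((9 / 8) ^ m * (m.factorial * M / (3 / 2) ^ m)) := by
            apply mul_le_mul_of_nonneg_left _ (inv_nonneg.2 (hfac m).le)
            exact mul_le_mul e2 h1 (norm_nonneg _) (by positivity)
        _ = M * ((9 / 8) ^ m / (3 / 2) ^ m) := by
            have := (hfac m).ne'
            field_simp
        _ = M * (3 / 4) ^ m := by
            rw [← div_pow]; norm_num
    have h3 := Complex.abs_re_le_norm (T m)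
    have h4 := neg_abs_le (T m).re
    simp only [ht]
    linarith
  -- choice of J
  set J : ℕ := ⌈4 * Real.log (8 * M)⌉₊ with hJ
  have hlogpos : 0 < Real.log (8 * M) := Real.log_pos (by linarith)
  have hJpos : 0 < J := by
    rw [hJ, Nat.ceil_pos]
    linarith
  have hJge : 4 * Real.log (8 * M) ≤ J := Nat.le_ceil _
  have hJle : (J : ℝ) ≤ 4 * Real.log (8 * M) + 1 := (Nat.ceil_lt_add_one (by positivity)).le
  have hpow : M * (3 / 4) ^ J ≤ 1 / 8 := by
    have h1 : Real.log (3 / 4) ≤ -(1 / 4) := by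
      have := Real.log_le_sub_one_of_pos (show (0 : ℝ) < 3 / 4 by norm_num)
      linarith
    have h2 : ((3 / 4 : ℝ)) ^ J ≤ Real.exp (-Real.log (8 * M)) := by
      have e1 : ((3 / 4 : ℝ)) ^ J = Real.exp (J * Real.log (3 / 4)) := by
        rw [mul_comm, Real.exp_mul, Real.exp_log (by norm_num), Real.rpow_natCast]
      rw [e1]
      apply Real.exp_le_exp.2
      have : (J : ℝ) * Real.log (3 / 4) ≤ J * (-(1 / 4)) :=
        mul_le_mul_of_nonneg_left h1 (Nat.cast_nonneg J)
      linarith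
    rw [Real.exp_neg, Real.exp_log (by linarith)] at h2
    calc M * (3 / 4) ^ J ≤ M * (8 * M)⁻¹ := mul_le_mul_of_nonneg_left h2 (by linarith)
      _ = 1 / 8 := by field_simp
  -- sum
  have hsplit : (F β).re = ∑ m ∈ Finset.range J, t m + ∑' m, t (m + J) := by
    rw [← htsum.tsum_eq, htsum.summable.sum_add_tsum_nat_add]
  have htail : -(4 * (M * (3 / 4) ^ J)) ≤ ∑' m, t (m + J) := by
    have hg : HasSum (fun m : ℕ => -(M * (3 / 4) ^ (m + J))) (-(4 * (M * (3 / 4) ^ J))) := by
      have h1 := (hasSum_geometric_of_lt_one (show (0 : ℝ) ≤ 3 / 4 by norm_num)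
        (by norm_num)).mul_left (-(M * (3 / 4) ^ J))
      have e1 : -(M * (3 / 4) ^ J) * (1 - 3 / 4)⁻¹ = -(4 * (M * (3 / 4) ^ J)) := by
        norm_num; ring
      rw [e1] at h1
      refine h1.congr_fun ?_
      intro m
      rw [pow_add]; ring
    rw [← hg.tsum_eq]
    apply Summable.tsum_le_tsum (fun m => hlow2 (m + J)) hg.summable
    exact (summable_nat_add_iff J).2 htsum.summable
  have hhead : 1 - lam * (((2 - β) ^ J - 1) / (1 - β)) ≤ ∑ m ∈ Finset.range J, t m := by
    have hgeom : ∑ m ∈ Finset.range J, (2 - β) ^ m = ((2 - β) ^ J - 1) / (1 - β) := by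
      rw [geom_sum_eq (by linarith)]
      congr 1
      ring
    obtain ⟨K, hK⟩ : ∃ K, J = K + 1 := ⟨J - 1, by omega⟩
    rw [← hgeom, hK, Finset.sum_range_succ', Finset.sum_range_succ', mul_add, pow_zero]
    have h1 : -(lam * ∑ m ∈ Finset.range K, (2 - β) ^ (m + 1)) ≤
        ∑ m ∈ Finset.range K, t (m + 1) := by
      rw [Finset.mul_sum, ← Finset.sum_neg_distrib]
      exact Finset.sum_le_sum fun m _ => hlow1 (m + 1)
    linarith
  -- the power (2 - β)^J
  have hfin : (2 - β) ^ J ≤ Real.exp (4 * Real.log 8 + 1) * M ^ (4 * (1 - β)) := by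
    have e1 : (2 - β) ^ J = Real.exp (J * Real.log (2 - β)) := by
      rw [mul_comm, Real.exp_mul, Real.exp_log (by linarith), Real.rpow_natCast]
    rw [e1, Real.rpow_def_of_pos (by linarith), ← Real.exp_add]
    apply Real.exp_le_exp.2
    have h1 : Real.log (2 - β) ≤ 1 - β := by
      have := Real.log_le_sub_one_of_pos (show (0 : ℝ) < 2 - β by linarith)
      linarith
    have h2 : 0 ≤ Real.log (2 - β) := Real.log_nonneg h2β.le
    have h3 : Real.log (8 * M) = Real.log 8 + Real.log M :=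
      Real.log_mul (by norm_num) (by linarith)
    have h8 : 0 ≤ Real.log 8 := Real.log_nonneg (by norm_num)
    have hMlog : 0 ≤ Real.log M := Real.log_nonneg hM
    calc (J : ℝ) * Real.log (2 - β) ≤ J * (1 - β) :=
          mul_le_mul_of_nonneg_left h1 (Nat.cast_nonneg J)
      _ ≤ (4 * Real.log (8 * M) + 1) * (1 - β) := mul_le_mul_of_nonneg_right hJle h1β.le
      _ = (4 * Real.log 8 + 1) * (1 - β) + Real.log M * (4 * (1 - β)) := by rw [h3]; ring
      _ ≤ (4 * Real.log 8 + 1) * 1 + Real.log M * (4 * (1 - β)) := by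
          have : (4 * Real.log 8 + 1) * (1 - β) ≤ (4 * Real.log 8 + 1) * 1 :=
            mul_le_mul_of_nonneg_left (by linarith) (by linarith)
          linarith
      _ = _ := by ring
  have hlamβ : 0 ≤ lam / (1 - β) := div_nonneg hlam h1β.le
  have hkey : lam * (((2 - β) ^ J - 1) / (1 - β)) + lam / (1 - β) =
      lam / (1 - β) * (2 - β) ^ J := by
    field_simp
    ring
  have hkey2 : lam / (1 - β) * (2 - β) ^ J ≤
      Real.exp (4 * Real.log 8 + 1) * lam / (1 - β) * M ^ (4 * (1 - β)) := by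
    calc lam / (1 - β) * (2 - β) ^ J ≤
          lam / (1 - β) * (Real.exp (4 * Real.log 8 + 1) * M ^ (4 * (1 - β))) :=
          mul_le_mul_of_nonneg_left hfin hlamβ
      _ = _ := by ring
  linarith

end BV

end
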