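import Mathlib

/-!
Module LINT (L-functions for `Re s > 0`; Mathlib only; size M).

Let `χ ≠ 1` mod `r`, `S(u) = ∑_{1 ≤ n ≤ u} χ(n)`; `|S(u)| ≤ r` because the sum over a full period is 0.
For `Re s > 1`: `LSeries χ s = s ∫_1^∞ S(u) u^{-s-1} du` (`LSeries_eq_mul_integral`).  The right side is
analytic for `Re s > 0` (differentiation under the integral, or write the integral as
`∑_n S(n) (n^{-s} - (n+1)^{-s})/s`, a locally uniformly convergent series of analytic functions:
`differentiableOn_tsum_of_summable_norm`), `DirichletCharacter.LFunction χ` is entire for `χ ≠ 1`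
(`DirichletCharacter.differentiable_LFunction`), both agree for `Re s > 1`
(`DirichletCharacter.LFunction_eq_LSeries`), so they agree for `Re s > 0` (identity theorem on the
convex open set `{Re s > 0}`).  L_norm_le: the integral is at most `r / Re s`.
L_real: if `χ² = 1` the values `χ(n)` are real (`0, 1, -1`), so for real `σ > 0` the right side is real.
L_pos_right: for `σ > 1`: `L(σ, χ) ≠ 0` (Euler product; `DirichletCharacter.LSeries_ne_zero_of_one_lt_re`), real,
continuous in `σ` and `→ 1` as `σ → ∞` (`|L(σ,χ) - 1| ≤ ζ(σ) - 1`); at `σ = 1` use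
`DirichletCharacter.LFunction_apply_one_ne_zero`; intermediate value theorem.
-/

set_option autoImplicit false

open Finset Filter MeasureTheory Topology
open scoped ContDiff ArithmeticFunction.Moebius ArithmeticFunction.vonMangoldt

noncomputable section

namespace BV

/-- character sums -/
private def LINT_S {r : ℕ} (χ : DirichletCharacter ℂ r) (n : ℕ) : ℂ :=
  ∑ k ∈ Finset.Icc 1 n, χ k

private theorem LINT_period {r : ℕ} [NeZero r] {χ : DirichletCharacter ℂ r} (hχ : χ ≠ 1) (m : ℕ) :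
    ∑ k ∈ Finset.range r, χ ((m + k : ℕ) : ZMod r) = 0 := by
  have h1 : ∑ a : ZMod r, χ a = 0 := MulChar.sum_eq_zero_of_ne_one hχ
  rw [← h1]
  refine Finset.sum_nbij' (fun k : ℕ => ((m + k : ℕ) : ZMod r))
    (fun a : ZMod r => (a - (m : ZMod r)).val) ?_ ?_ ?_ ?_ ?_
  · intro k _
    exact Finset.mem_univ _
  · intro a _
    exact Finset.mem_range.2 (ZMod.val_lt _)
  · intro k hk
    change (((m + k : ℕ) : ZMod r) - (m : ZMod r)).val = k
    rw [Nat.cast_add, add_sub_cancel_left]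
    exact ZMod.val_natCast_of_lt (Finset.mem_range.1 hk)
  · intro a _
    change (((m + (a - (m : ZMod r)).val : ℕ)) : ZMod r) = a
    rw [Nat.cast_add, ZMod.natCast_zmod_val, add_sub_cancel]
  · intro k _
    rfl

private theorem LINT_S_le {r : ℕ} [NeZero r] {χ : DirichletCharacter ℂ r} (hχ : χ ≠ 1) (n : ℕ) :
    ‖LINT_S χ n‖ ≤ r := by
  have hr : 0 < r := Nat.pos_of_ne_zero (NeZero.ne r)
  have key : ∀ q m : ℕ, ∑ k ∈ Finset.range (r * q + m), χ ((1 + k : ℕ) : ZMod r) =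
      ∑ k ∈ Finset.range m, χ ((1 + (r * q + k) : ℕ) : ZMod r) := by
    intro q m
    rw [Finset.sum_range_add]
    have h1 : ∑ k ∈ Finset.range (r * q), χ ((1 + k : ℕ) : ZMod r) = 0 := by
      induction q with
      | zero => simp
      | succ q ih =>
        rw [Nat.mul_succ, Finset.sum_range_add, ih, zero_add]
        have h2 := LINT_period hχ (1 + r * q)
        rw [← h2]
        refine Finset.sum_congr rfl (fun k _ => ?_)
        rw [add_assoc]
    rw [h1, zero_add]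
  have h2 : LINT_S χ n = ∑ k ∈ Finset.range n, χ ((1 + k : ℕ) : ZMod r) := by
    unfold LINT_S
    rw [← Finset.Ico_add_one_right_eq_Icc, Finset.sum_Ico_eq_sum_range]
    rfl
  rw [h2, ← Nat.div_add_mod n r, key]
  refine (norm_sum_le _ _).trans ?_
  have h3 : ∀ k ∈ Finset.range (n % r), ‖χ ((1 + (r * (n / r) + k) : ℕ) : ZMod r)‖ ≤ 1 :=
    fun k _ => DirichletCharacter.norm_le_one χ _
  refine (Finset.sum_le_card_nsmul _ _ 1 h3).trans ?_
  rw [Finset.card_range, nsmul_eq_mul, mul_one]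
  exact_mod_cast (Nat.mod_lt n hr).le

/-- the function under the Mellin transform -/
private def LINT_f {r : ℕ} (χ : DirichletCharacter ℂ r) : ℝ → ℂ :=
  Set.indicator (Set.Ioi 1) (fun t => LINT_S χ ⌊t⌋₊)

private theorem LINT_f_norm {r : ℕ} [NeZero r] {χ : DirichletCharacter ℂ r} (hχ : χ ≠ 1) (t : ℝ) :
    ‖LINT_f χ t‖ ≤ r := by
  unfold LINT_f
  refine (norm_indicator_le_norm_self _ _).trans ?_
  exact LINT_S_le hχ _

private theorem LINT_f_meas {r : ℕ} (χ : DirichletCharacter ℂ r) : Measurable (LINT_f χ) := by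
  unfold LINT_f
  refine Measurable.indicator ?_ measurableSet_Ioi
  exact (Measurable.of_discrete (f := LINT_S χ)).comp Nat.measurable_floor

private theorem LINT_f_loc {r : ℕ} [NeZero r] {χ : DirichletCharacter ℂ r} (hχ : χ ≠ 1) :
    LocallyIntegrable (LINT_f χ) := by
  refine MeasureTheory.LocallyIntegrable.mono (locallyIntegrable_const (r : ℝ))
    (LINT_f_meas χ).aestronglyMeasurable ?_
  refine Filter.Eventually.of_forall (fun t => ?_)
  rw [Real.norm_of_nonneg (Nat.cast_nonneg r)]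
  exact LINT_f_norm hχ t

private theorem LINT_bigO_top {r : ℕ} [NeZero r] {χ : DirichletCharacter ℂ r} (hχ : χ ≠ 1) :
    LINT_f χ =O[atTop] fun x : ℝ => x ^ (-(0 : ℝ)) := by
  refine Asymptotics.IsBigO.of_bound (r : ℝ) (Filter.Eventually.of_forall (fun t => ?_))
  rw [neg_zero, Real.rpow_zero, norm_one, mul_one]
  exact LINT_f_norm hχ t

private theorem LINT_bigO_zero {r : ℕ} (χ : DirichletCharacter ℂ r) (b : ℝ) :
    LINT_f χ =O[𝓝[>] (0 : ℝ)] fun x : ℝ => x ^ (-b) := by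
  have h1 : LINT_f χ =ᶠ[𝓝[>] (0 : ℝ)] fun _ => (0 : ℂ) := by
    have h2 : Set.Iio (1 : ℝ) ∈ 𝓝[>] (0 : ℝ) :=
      mem_nhdsWithin_of_mem_nhds (Iio_mem_nhds one_pos)
    filter_upwards [h2] with t ht
    unfold LINT_f
    rw [Set.indicator_of_notMem]
    intro h3
    exact absurd (Set.mem_Ioi.1 h3) (not_lt.2 (le_of_lt ht))
  exact h1.trans_isBigO (Asymptotics.isBigO_zero _ _)

private def LINT_G {r : ℕ} (χ : DirichletCharacter ℂ r) (s : ℂ) : ℂ := s * mellin (LINT_f χ) (-s)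

private theorem LINT_G_diff {r : ℕ} [NeZero r] {χ : DirichletCharacter ℂ r} (hχ : χ ≠ 1) {s : ℂ}
    (hs : 0 < s.re) : DifferentiableAt ℂ (LINT_G χ) s := by
  have h1 : DifferentiableAt ℂ (mellin (LINT_f χ)) (-s) := by
    refine mellin_differentiableAt_of_isBigO_rpow (a := 0) (b := (-s).re - 1)
      ((LINT_f_loc hχ).locallyIntegrableOn _) (LINT_bigO_top hχ) ?_ (LINT_bigO_zero χ _) ?_
    · rw [Complex.neg_re]
      linarith
    · linarith
  unfold LINT_G
  refine differentiableAt_id.mul ?_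
  exact h1.comp s differentiableAt_id.neg

private theorem LINT_G_eq {r : ℕ} (χ : DirichletCharacter ℂ r) (s : ℂ) :
    LINT_G χ s = s * ∫ t in Set.Ioi (1 : ℝ), LINT_S χ ⌊t⌋₊ * (t : ℂ) ^ (-(s + 1)) := by
  unfold LINT_G mellin
  congr 1
  have h1 : ∀ t : ℝ, (t : ℂ) ^ (-s - 1) • LINT_f χ t =
      Set.indicator (Set.Ioi 1) (fun t : ℝ => LINT_S χ ⌊t⌋₊ * (t : ℂ) ^ (-(s + 1))) t := by
    intro t
    unfold LINT_f
    by_cases ht : t ∈ Set.Ioi (1 : ℝ)
    · rw [Set.indicator_of_mem ht, Set.indicator_of_mem ht, smul_eq_mul, mul_comm]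
      congr 2
      ring
    · rw [Set.indicator_of_notMem ht, Set.indicator_of_notMem ht, smul_zero]
  simp only [h1]
  rw [setIntegral_indicator measurableSet_Ioi]
  congr 2
  ext t
  simp only [Set.mem_inter_iff, Set.mem_Ioi]
  exact ⟨fun h => h.2, fun h => ⟨by linarith, h⟩⟩

private theorem LINT_eq_one_lt {r : ℕ} [NeZero r] {χ : DirichletCharacter ℂ r} (hχ : χ ≠ 1) {s : ℂ}
    (hs : 1 < s.re) : DirichletCharacter.LFunction χ s = LINT_G χ s := by
  rw [DirichletCharacter.LFunction_eq_LSeries χ hs, LINT_G_eq]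
  refine LSeries_eq_mul_integral (fun n => χ n) le_rfl (by linarith)
    (DirichletCharacter.LSeriesSummable_of_one_lt_re χ hs) ?_
  refine Asymptotics.IsBigO.of_bound (r : ℝ) (Filter.Eventually.of_forall (fun n => ?_))
  rw [Real.rpow_zero, norm_one, mul_one]
  exact LINT_S_le hχ n

private theorem LINT_eq {r : ℕ} [NeZero r] {χ : DirichletCharacter ℂ r} (hχ : χ ≠ 1) {s : ℂ}
    (hs : 0 < s.re) : DirichletCharacter.LFunction χ s = LINT_G χ s := by
  have hopen : IsOpen {z : ℂ | 0 < z.re} := isOpen_lt continuous_const Complex.continuous_re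
  have h1 : AnalyticOnNhd ℂ (DirichletCharacter.LFunction χ) {z : ℂ | 0 < z.re} :=
    (DirichletCharacter.differentiable_LFunction hχ).differentiableOn.analyticOnNhd hopen
  have h2 : AnalyticOnNhd ℂ (LINT_G χ) {z : ℂ | 0 < z.re} := by
    refine DifferentiableOn.analyticOnNhd ?_ hopen
    intro z hz
    exact (LINT_G_diff hχ hz).differentiableWithinAt
  have h3 : IsPreconnected {z : ℂ | 0 < z.re} := (convex_halfSpace_re_gt 0).isPreconnected
  have h4 : (2 : ℂ) ∈ {z : ℂ | 0 < z.re} := by simp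
  have h5 : DirichletCharacter.LFunction χ =ᶠ[𝓝 (2 : ℂ)] LINT_G χ := by
    have h6 : {z : ℂ | 1 < z.re} ∈ 𝓝 (2 : ℂ) :=
      (isOpen_lt continuous_const Complex.continuous_re).mem_nhds (by simp)
    filter_upwards [h6] with z hz
    exact LINT_eq_one_lt hχ hz
  exact h1.eqOn_of_preconnected_of_eventuallyEq h2 h3 h4 h5 hs

theorem L_norm_le {r : ℕ} [NeZero r] {χ : DirichletCharacter ℂ r} (hχ : χ ≠ 1) {s : ℂ}
    (hs : 0 < s.re) : ‖DirichletCharacter.LFunction χ s‖ ≤ r * ‖s‖ / s.re := by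
  rw [LINT_eq hχ hs, LINT_G_eq, norm_mul]
  have h1 : ‖∫ t in Set.Ioi (1 : ℝ), LINT_S χ ⌊t⌋₊ * (t : ℂ) ^ (-(s + 1))‖ ≤
      ∫ t in Set.Ioi (1 : ℝ), (r : ℝ) * t ^ (-s.re - 1) := by
    refine norm_integral_le_of_norm_le ?_ ?_
    · refine Integrable.const_mul ?_ _
      exact integrableOn_Ioi_rpow_of_lt (by linarith) one_pos
    · refine (ae_restrict_iff' measurableSet_Ioi).2 (Filter.Eventually.of_forall (fun t ht => ?_))
      have ht0 : (0 : ℝ) < t := lt_trans one_pos ht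
      rw [norm_mul, Complex.norm_cpow_eq_rpow_re_of_pos ht0]
      have h2 : (-(s + 1)).re = -s.re - 1 := by
        simp
        ring
      rw [h2]
      exact mul_le_mul_of_nonneg_right (LINT_S_le hχ _) (Real.rpow_nonneg ht0.le _)
  have h2 : ∫ t in Set.Ioi (1 : ℝ), (r : ℝ) * t ^ (-s.re - 1) = r / s.re := by
    rw [integral_const_mul, integral_Ioi_rpow_of_lt (by linarith) one_pos, Real.one_rpow]
    have h3 : (-s.re - 1 + 1) = -s.re := by ring
    rw [h3]
    field_simp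
  rw [h2] at h1
  calc ‖s‖ * ‖∫ t in Set.Ioi (1 : ℝ), LINT_S χ ⌊t⌋₊ * (t : ℂ) ^ (-(s + 1))‖
      ≤ ‖s‖ * (r / s.re) := mul_le_mul_of_nonneg_left h1 (norm_nonneg _)
    _ = r * ‖s‖ / s.re := by ring

private theorem LINT_val_real {r : ℕ} {χ : DirichletCharacter ℂ r} (h2 : χ ^ 2 = 1) (a : ZMod r) :
    (χ a).im = 0 := by
  by_cases ha : IsUnit a
  · have h3 : (χ a) ^ 2 = 1 := by
      have h4 : (χ ^ 2) a = (1 : DirichletCharacter ℂ r) a := by rw [h2]
      rw [MulChar.pow_apply' χ two_ne_zero, MulChar.one_apply ha] at h4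
      exact h4
    rw [pow_two] at h3
    rcases mul_self_eq_one_iff.1 h3 with h5 | h5
    · rw [h5, Complex.one_im]
    · rw [h5, Complex.neg_im, Complex.one_im, neg_zero]
  · rw [MulChar.map_nonunit χ ha, Complex.zero_im]

theorem L_real {r : ℕ} [NeZero r] {χ : DirichletCharacter ℂ r} (hχ : χ ≠ 1) (h2 : χ ^ 2 = 1)
    {σ : ℝ} (hσ : 0 < σ) : (DirichletCharacter.LFunction χ (σ : ℂ)).im = 0 := by
  rw [LINT_eq hχ (by simpa using hσ), LINT_G_eq]
  have hS : ∀ n, LINT_S χ n = ((LINT_S χ n).re : ℂ) := by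
    intro n
    apply Complex.ext
    · rw [Complex.ofReal_re]
    · rw [Complex.ofReal_im]
      unfold LINT_S
      rw [Complex.im_sum]
      exact Finset.sum_eq_zero (fun k _ => LINT_val_real h2 _)
  have key : ∀ t ∈ Set.Ioi (1 : ℝ), LINT_S χ ⌊t⌋₊ * (t : ℂ) ^ (-((σ : ℂ) + 1)) =
      (((LINT_S χ ⌊t⌋₊).re * t ^ (-(σ + 1)) : ℝ) : ℂ) := by
    intro t ht
    have ht0 : (0 : ℝ) ≤ t := (lt_trans one_pos ht).le
    rw [Complex.ofReal_mul, ← hS, Complex.ofReal_cpow ht0]
    push_cast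
    rfl
  have h3 : ∫ t in Set.Ioi (1 : ℝ), LINT_S χ ⌊t⌋₊ * (t : ℂ) ^ (-((σ : ℂ) + 1)) =
      ((∫ t in Set.Ioi (1 : ℝ), (LINT_S χ ⌊t⌋₊).re * t ^ (-(σ + 1)) : ℝ) : ℂ) := by
    rw [setIntegral_congr_fun measurableSet_Ioi key]
    exact integral_ofReal (𝕜 := ℂ)
  rw [h3, ← Complex.ofReal_mul, Complex.ofReal_im]

theorem L_pos_right {r : ℕ} [NeZero r] {χ : DirichletCharacter ℂ r} (hχ : χ ≠ 1) (h2 : χ ^ 2 = 1)
    {σ : ℝ} (hσ : 1 ≤ σ) : 0 < (DirichletCharacter.LFunction χ (σ : ℂ)).re := by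
  set g : ℝ → ℝ := fun x => (DirichletCharacter.LFunction χ (x : ℂ)).re with hg
  have hgc : Continuous g := Complex.continuous_re.comp
    ((DirichletCharacter.differentiable_LFunction hχ).continuous.comp Complex.continuous_ofReal)
  have hne : ∀ x : ℝ, 1 ≤ x → g x ≠ 0 := by
    intro x hx h0
    have h3 : DirichletCharacter.LFunction χ (x : ℂ) ≠ 0 :=
      DirichletCharacter.LFunction_ne_zero_of_one_le_re χ (Or.inl hχ) (by simpa using hx)
    apply h3
    apply Complex.ext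
    · exact h0
    · exact L_real hχ h2 (by linarith)
  by_contra hcon
  have hle : g σ ≤ 0 := not_lt.1 hcon
  have hlim : Tendsto (fun x : ℝ => LSeries (fun n => χ n) (x : ℂ)) atTop (𝓝 (χ (1 : ℕ))) := by
    refine LSeries.tendsto_atTop ?_
    refine lt_of_le_of_lt (LSeriesSummable.abscissaOfAbsConv_le
      (DirichletCharacter.LSeriesSummable_of_one_lt_re χ (s := 2) (by simp))) ?_
    exact EReal.coe_lt_top _
  have hlim2 : Tendsto g atTop (𝓝 1) := by
    have h3 : Tendsto (fun x : ℝ => (LSeries (fun n => χ n) (x : ℂ)).re) atTop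
        (𝓝 (χ (1 : ℕ)).re) := (Complex.continuous_re.tendsto _).comp hlim
    have h4 : (χ (1 : ℕ)).re = 1 := by simp
    rw [h4] at h3
    refine h3.congr' ?_
    filter_upwards [eventually_gt_atTop (1 : ℝ)] with x hx
    simp only [hg]
    rw [DirichletCharacter.LFunction_eq_LSeries χ (by simpa using hx)]
  obtain ⟨x, hx1, hx2⟩ := ((hlim2.eventually (lt_mem_nhds (show (0 : ℝ) < 1 by norm_num))).and
    (eventually_ge_atTop σ)).exists
  obtain ⟨y, hy1, hy2⟩ := intermediate_value_Icc hx2 hgc.continuousOn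
    (show (0 : ℝ) ∈ Set.Icc (g σ) (g x) from ⟨hle, hx1.le⟩)
  exact hne y (hσ.trans hy1.1) hy2

end BV

end
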