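import Pool.Agent.Work.BV.ZENT
import Pool.Agent.Work.BV.LINT
import Pool.Agent.Work.BV.COEF
import Pool.Agent.Work.BV.ESTA

/-!
Module EST (Estermann's inequality for two real characters; size M).

`P(s) = L(s,χ₁) L(s,χ₂) L(s,χ₃)` is entire; `lam = P(1)` is a positive real number (L_real, L_pos_right;
`χ₃² = 1` follows from `hχ3`).  With `Z` from `zeta_entire` and `dslope P 1` (entire:
`Differentiable` of `dslope`, `(P(s) - P(1))/(s-1)` off 1) put `F = Z P + dslope P 1`; then for `s ≠ 1`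
`ζ(s) P(s) = F(s) + lam/(s-1)`.  For `Re s > 1` this is the Dirichlet series of `a = ζ ∗ χ₁ ∗ χ₂ ∗ χ₁χ₂`
(`LSeries_convolution`, `LSeries_mul`-type lemmas, or products of arithmetic functions), which is
real and nonnegative by `coef_nonneg` with `f n = (χ₁ n).re`, `g n = (χ₂ n).re` (a quadratic
character has values in `{-1, 0, 1}`) and `a 1 = 1`.
On the circle `|s-2| = 3/2`: `‖s‖ ≤ 7/2`, `Re s ≥ 1/2`, `|s-1| ≥ 1/2`; L_norm_le:
`‖P(s)‖ ≤ 343 (r₁r₂)²`, `‖P(1)‖ ≤ (r₁r₂)²`, `‖Z‖ ≤ C` (compactness), so `‖F‖ ≤ M = C' (r₁r₂)²`.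
`est_abs` gives the claim: `M^{4(1-β)} ≤ C'' (r₁r₂)^{8(1-β)}`, and `F(β) - lam/(1-β) = ζ(β) P(β)`.
-/

set_option autoImplicit false

open Finset Filter MeasureTheory Topology
open scoped ContDiff ArithmeticFunction.Moebius ArithmeticFunction.vonMangoldt

noncomputable section

namespace BV

/-- a quadratic character has values in `{-1, 0, 1}` -/
theorem EST_values {r : ℕ} (χ : DirichletCharacter ℂ r) (h2 : χ ^ 2 = 1) (x : ZMod r) :
    χ x = 0 ∨ χ x = 1 ∨ χ x = -1 := by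
  by_cases hx : IsUnit x
  · right
    have h1 : (χ x) ^ 2 = 1 := by
      rw [← MulChar.pow_apply' χ two_ne_zero x, h2, MulChar.one_apply hx]
    have h3 : (χ x - 1) * (χ x + 1) = 0 := by linear_combination h1
    rcases mul_eq_zero.1 h3 with h | h
    · left; exact sub_eq_zero.1 h
    · right; exact eq_neg_of_add_eq_zero_left h
  · left
    exact MulChar.map_nonunit χ hx

theorem EST_real {r : ℕ} (χ : DirichletCharacter ℂ r) (h2 : χ ^ 2 = 1) (x : ZMod r) :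
    χ x = (((χ x).re : ℝ) : ℂ) := by
  rcases EST_values χ h2 x with h | h | h <;> rw [h] <;> simp

/-- a real character as a real arithmetic function -/
def EST_af {r : ℕ} (χ : DirichletCharacter ℂ r) : ArithmeticFunction ℝ :=
  ⟨fun n => if n = 0 then 0 else (χ (n : ZMod r)).re, by simp⟩

theorem EST_af_apply {r : ℕ} (χ : DirichletCharacter ℂ r) {n : ℕ} (hn : n ≠ 0) :
    EST_af χ n = (χ (n : ZMod r)).re := by
  show (if n = 0 then 0 else (χ (n : ZMod r)).re) = _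
  rw [if_neg hn]

theorem EST_af_one {r : ℕ} (χ : DirichletCharacter ℂ r) : EST_af χ 1 = 1 := by
  rw [EST_af_apply χ one_ne_zero]
  simp

theorem EST_af_mul {r : ℕ} (χ : DirichletCharacter ℂ r) (h2 : χ ^ 2 = 1) (m n : ℕ) :
    EST_af χ (m * n) = EST_af χ m * EST_af χ n := by
  rcases Nat.eq_zero_or_pos m with rfl | hm
  · simp
  rcases Nat.eq_zero_or_pos n with rfl | hn
  · simp
  rw [EST_af_apply χ (by positivity), EST_af_apply χ hm.ne', EST_af_apply χ hn.ne']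
  push_cast
  rw [map_mul, EST_real χ h2 (m : ZMod r), EST_real χ h2 (n : ZMod r), ← Complex.ofReal_mul]
  simp

theorem EST_af_values {r : ℕ} (χ : DirichletCharacter ℂ r) (h2 : χ ^ 2 = 1) (n : ℕ) :
    EST_af χ n = -1 ∨ EST_af χ n = 0 ∨ EST_af χ n = 1 := by
  rcases Nat.eq_zero_or_pos n with rfl | hn
  · simp
  rw [EST_af_apply χ hn.ne']
  rcases EST_values χ h2 (n : ZMod r) with h | h | h <;> rw [h] <;> simp

/-- real arithmetic functions as complex ones -/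
private def es_C (f : ArithmeticFunction ℝ) : ArithmeticFunction ℂ :=
  ⟨fun n => (f n : ℂ), by simp⟩

private lemma es_C_mul (f g : ArithmeticFunction ℝ) : es_C (f * g) = es_C f * es_C g := by
  ext n
  rw [ArithmeticFunction.mul_apply]
  show (((f * g) n : ℝ) : ℂ) = _
  rw [ArithmeticFunction.mul_apply]
  push_cast
  rfl

private lemma es_af_L {r : ℕ} [NeZero r] (χ : DirichletCharacter ℂ r) (h2 : χ ^ 2 = 1) {s : ℂ}
    (hs : 1 < s.re) : LSeriesSummable (fun n => es_C (EST_af χ) n) s ∧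
      LSeries (fun n => es_C (EST_af χ) n) s = DirichletCharacter.LFunction χ s := by
  have hcongr : ∀ {n : ℕ}, n ≠ 0 → (χ (n : ZMod r)) = es_C (EST_af χ) n := by
    intro n hn
    show _ = ((EST_af χ n : ℝ) : ℂ)
    rw [EST_af_apply χ hn]
    exact EST_real χ h2 _
  constructor
  · exact (LSeriesSummable_congr s hcongr).1 (DirichletCharacter.LSeriesSummable_of_one_lt_re χ hs)
  · rw [← LSeries_congr hcongr, DirichletCharacter.LFunction_eq_LSeries χ hs]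

/-- the product series -/
private lemma es_prod {r₁ r₂ : ℕ} [NeZero r₁] [NeZero r₂]
    (χ₁ : DirichletCharacter ℂ r₁) (χ₂ : DirichletCharacter ℂ r₂)
    (χ₃ : DirichletCharacter ℂ (r₁ * r₂)) (h1 : χ₁ ^ 2 = 1) (h2 : χ₂ ^ 2 = 1) (h3 : χ₃ ^ 2 = 1)
    (h : ∀ n : ℕ, χ₃ n = χ₁ n * χ₂ n) {s : ℂ} (hs : 1 < s.re) :
    LSeriesSummable (fun n => ((((ArithmeticFunction.zeta : ArithmeticFunction ℝ) * EST_af χ₁ *
      EST_af χ₂ * ((EST_af χ₁).pmul (EST_af χ₂))) n : ℝ) : ℂ)) s ∧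
    LSeries (fun n => ((((ArithmeticFunction.zeta : ArithmeticFunction ℝ) * EST_af χ₁ *
      EST_af χ₂ * ((EST_af χ₁).pmul (EST_af χ₂))) n : ℝ) : ℂ)) s =
      riemannZeta s * (DirichletCharacter.LFunction χ₁ s * DirichletCharacter.LFunction χ₂ s *
        DirichletCharacter.LFunction χ₃ s) := by
  have hpm : (EST_af χ₁).pmul (EST_af χ₂) = EST_af χ₃ := by
    ext n
    rcases Nat.eq_zero_or_pos n with rfl | hn
    · simp
    rw [ArithmeticFunction.pmul_apply, EST_af_apply χ₁ hn.ne', EST_af_apply χ₂ hn.ne',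
      EST_af_apply χ₃ hn.ne', h n, EST_real χ₁ h1 (n : ZMod r₁), EST_real χ₂ h2 (n : ZMod r₂),
      ← Complex.ofReal_mul]
    simp
  rw [hpm]
  have e : (fun n => ((((ArithmeticFunction.zeta : ArithmeticFunction ℝ) * EST_af χ₁ *
      EST_af χ₂ * EST_af χ₃) n : ℝ) : ℂ)) = fun n => (es_C (ArithmeticFunction.zeta :
        ArithmeticFunction ℝ) * es_C (EST_af χ₁) * es_C (EST_af χ₂) * es_C (EST_af χ₃)) n := by
    rw [← es_C_mul, ← es_C_mul, ← es_C_mul]
    rfl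
  rw [e]
  have hz : ∀ {n : ℕ}, n ≠ 0 → (1 : ℕ → ℂ) n =
      es_C (ArithmeticFunction.zeta : ArithmeticFunction ℝ) n := by
    intro n hn
    show (1 : ℂ) = ((((ArithmeticFunction.zeta : ArithmeticFunction ℝ) n : ℝ)) : ℂ)
    rw [ArithmeticFunction.natCoe_apply, ArithmeticFunction.zeta_apply_ne hn]
    simp
  have hz1 : LSeriesSummable (fun n => es_C (ArithmeticFunction.zeta : ArithmeticFunction ℝ) n) s :=
    (LSeriesSummable_congr s hz).1 (LSeriesSummable_one_iff.2 hs)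
  have hz2 : LSeries (fun n => es_C (ArithmeticFunction.zeta : ArithmeticFunction ℝ) n) s =
      riemannZeta s := by
    rw [← LSeries_congr hz, LSeries_one_eq_riemannZeta hs]
  obtain ⟨a1, a2⟩ := es_af_L χ₁ h1 hs
  obtain ⟨b1, b2⟩ := es_af_L χ₂ h2 hs
  obtain ⟨c1, c2⟩ := es_af_L χ₃ h3 hs
  have s1 := ArithmeticFunction.LSeriesSummable_mul hz1 a1
  have s2 := ArithmeticFunction.LSeriesSummable_mul s1 b1
  have s3 := ArithmeticFunction.LSeriesSummable_mul s2 c1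
  refine ⟨s3, ?_⟩
  rw [ArithmeticFunction.LSeries_mul' s2 c1, ArithmeticFunction.LSeries_mul' s1 b1,
    ArithmeticFunction.LSeries_mul' hz1 a1, hz2, a2, b2, c2]
  ring

theorem EST_sq {r₁ r₂ : ℕ} [NeZero r₁] [NeZero r₂]
    (χ₁ : DirichletCharacter ℂ r₁) (χ₂ : DirichletCharacter ℂ r₂)
    (χ₃ : DirichletCharacter ℂ (r₁ * r₂)) (h1 : χ₁ ^ 2 = 1) (h2 : χ₂ ^ 2 = 1)
    (h : ∀ n : ℕ, χ₃ n = χ₁ n * χ₂ n) : χ₃ ^ 2 = 1 := by
  ext u
  have hu : ((u : ZMod (r₁ * r₂)).val : ZMod (r₁ * r₂)) = u := ZMod.natCast_zmod_val _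
  rw [MulChar.pow_apply_coe, MulChar.one_apply_coe, ← hu, h, mul_pow]
  have hunit : IsUnit (((u : ZMod (r₁ * r₂)).val : ℕ) : ZMod (r₁ * r₂)) := by
    rw [hu]; exact u.isUnit
  have hcop := (ZMod.isUnit_iff_coprime _ _).1 hunit
  have hu1 : IsUnit (((u : ZMod (r₁ * r₂)).val : ℕ) : ZMod r₁) :=
    (ZMod.isUnit_iff_coprime _ _).2 (Nat.Coprime.coprime_dvd_right (Dvd.intro _ rfl) hcop)
  have hu2 : IsUnit (((u : ZMod (r₁ * r₂)).val : ℕ) : ZMod r₂) :=
    (ZMod.isUnit_iff_coprime _ _).2 (Nat.Coprime.coprime_dvd_right (Dvd.intro_left _ rfl) hcop)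
  rw [← MulChar.pow_apply' χ₁ two_ne_zero, ← MulChar.pow_apply' χ₂ two_ne_zero, h1, h2,
    MulChar.one_apply hu1, MulChar.one_apply hu2, mul_one]

open DirichletCharacter in
theorem estermann : ∃ C : ℝ, 0 < C ∧ ∀ (r₁ r₂ : ℕ) [NeZero r₁] [NeZero r₂]
    (χ₁ : DirichletCharacter ℂ r₁) (χ₂ : DirichletCharacter ℂ r₂)
    (χ₃ : DirichletCharacter ℂ (r₁ * r₂)), χ₁ ≠ 1 → χ₂ ≠ 1 → χ₃ ≠ 1 → χ₁ ^ 2 = 1 → χ₂ ^ 2 = 1 →
    (∀ n : ℕ, χ₃ n = χ₁ n * χ₂ n) → ∀ β : ℝ, 7 / 8 < β → β < 1 →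
      1 / 2 - C * ‖LFunction χ₁ 1 * LFunction χ₂ 1 * LFunction χ₃ 1‖ / (1 - β) *
          ((r₁ * r₂ : ℕ) : ℝ) ^ (8 * (1 - β)) ≤
        (riemannZeta (β : ℂ) * (LFunction χ₁ (β : ℂ) * LFunction χ₂ (β : ℂ) *
          LFunction χ₃ (β : ℂ))).re := by
  obtain ⟨Z, hZd, hZ⟩ := zeta_entire
  obtain ⟨C0, hC0, hest⟩ := est_abs
  -- bound of Z on the circle
  obtain ⟨CZ, hCZ⟩ := (isCompact_sphere (2 : ℂ) (3 / 2)).exists_bound_of_continuousOn
    hZd.continuous.continuousOn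
  have hCZ0 : 0 ≤ CZ := by
    have h2 : (2 + (3 / 2 : ℝ) : ℂ) ∈ Metric.sphere (2 : ℂ) (3 / 2) := by
      rw [mem_sphere_iff_norm]
      simp
    exact (norm_nonneg _).trans (hCZ _ h2)
  set C' : ℝ := 343 * CZ + 688 with hC'
  have hC'1 : 1 ≤ C' := by rw [hC']; linarith
  refine ⟨C0 * C' ^ 4, by positivity, ?_⟩
  intro r₁ r₂ _ _ χ₁ χ₂ χ₃ n1 n2 n3 h1 h2 h β hβ hβ1
  have h3 : χ₃ ^ 2 = 1 := EST_sq χ₁ χ₂ χ₃ h1 h2 h
  set P : ℂ → ℂ := fun s => LFunction χ₁ s * LFunction χ₂ s * LFunction χ₃ s with hP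
  have hPd : Differentiable ℂ P :=
    ((differentiable_LFunction n1).mul (differentiable_LFunction n2)).mul
      (differentiable_LFunction n3)
  have hPd1 : Differentiable ℂ (dslope P 1) := by
    rw [← differentiableOn_univ, Complex.differentiableOn_dslope Filter.univ_mem]
    exact hPd.differentiableOn
  -- P 1 is a positive real number
  have hP1 : P 1 = ((‖P 1‖ : ℝ) : ℂ) := by
    have key : ∀ {r : ℕ} [NeZero r] {χ : DirichletCharacter ℂ r} (hχ : χ ≠ 1) (h2 : χ ^ 2 = 1),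
        LFunction χ 1 = (((LFunction χ 1).re : ℝ) : ℂ) ∧ 0 < (LFunction χ 1).re := by
      intro r _ χ hχ h2
      have e1 := L_real hχ h2 one_pos
      have e2 := L_pos_right hχ h2 (le_refl 1)
      rw [Complex.ofReal_one] at e1 e2
      refine ⟨?_, e2⟩
      apply Complex.ext
      · simp
      · simp [e1]
    obtain ⟨a1, a2⟩ := key n1 h1
    obtain ⟨b1, b2⟩ := key n2 h2
    obtain ⟨c1, c2⟩ := key n3 h3
    simp only [hP]
    rw [a1, b1, c1, ← Complex.ofReal_mul, ← Complex.ofReal_mul, Complex.norm_real,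
      Real.norm_of_nonneg (by positivity)]
  set F : ℂ → ℂ := fun s => Z s * P s + dslope P 1 s with hF
  have hFd : Differentiable ℂ F := (hZd.mul hPd).add hPd1
  have hFeq : ∀ s : ℂ, s ≠ 1 → riemannZeta s * P s = F s + (‖P 1‖ : ℝ) / (s - 1) := by
    intro s hs
    have hs1 : s - 1 ≠ 0 := sub_ne_zero.2 hs
    simp only [hF]
    rw [dslope_of_ne _ hs, slope_def_module, hZ s hs, ← hP1, smul_eq_mul]
    field_simp
    ring
  -- norm bounds
  have hR1 : (1 : ℝ) ≤ r₁ := by exact_mod_cast Nat.one_le_iff_ne_zero.2 (NeZero.ne r₁)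
  have hR2 : (1 : ℝ) ≤ r₂ := by exact_mod_cast Nat.one_le_iff_ne_zero.2 (NeZero.ne r₂)
  set R : ℝ := ((r₁ * r₂ : ℕ) : ℝ) with hR
  have hRR : R = (r₁ : ℝ) * r₂ := by rw [hR]; push_cast; rfl
  have hRge1 : 1 ≤ R := by rw [hRR]; nlinarith
  have hPone : ‖P 1‖ ≤ R ^ 2 := by
    have a1 := L_norm_le n1 (s := 1) (by simp)
    have b1 := L_norm_le n2 (s := 1) (by simp)
    have c1 := L_norm_le n3 (s := 1) (by simp)
    simp only [norm_one, mul_one, Complex.one_re, div_one] at a1 b1 c1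
    simp only [hP]
    rw [norm_mul, norm_mul]
    calc ‖LFunction χ₁ 1‖ * ‖LFunction χ₂ 1‖ * ‖LFunction χ₃ 1‖ ≤ (r₁ : ℝ) * r₂ * R := by
          gcongr
      _ = R ^ 2 := by rw [hRR]; ring
  have hPs : ∀ s : ℂ, ‖s - 2‖ = 3 / 2 → ‖P s‖ ≤ 343 * R ^ 2 := by
    intro s hs
    have hre : |s.re - 2| ≤ 3 / 2 := by
      have := Complex.abs_re_le_norm (s - 2)
      rw [hs] at this
      simpa using this
    have hre1 : 1 / 2 ≤ s.re := by
      have := (abs_le.1 hre).1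
      linarith
    have hns : ‖s‖ ≤ 7 / 2 := by
      calc ‖s‖ = ‖(s - 2) + 2‖ := by ring_nf
        _ ≤ ‖s - 2‖ + ‖(2 : ℂ)‖ := norm_add_le _ _
        _ = 7 / 2 := by rw [hs]; norm_num
    have key : ∀ (q : ℝ), 0 ≤ q → q * ‖s‖ / s.re ≤ 7 * q := by
      intro q hq
      rw [div_le_iff₀ (by linarith)]
      nlinarith [mul_le_mul_of_nonneg_left hns hq, mul_le_mul_of_nonneg_left hre1 hq]
    have a1 := (L_norm_le n1 (s := s) (by linarith)).trans (key _ (by positivity))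
    have b1 := (L_norm_le n2 (s := s) (by linarith)).trans (key _ (by positivity))
    have c1 := (L_norm_le n3 (s := s) (by linarith)).trans (key _ (by positivity))
    simp only [hP]
    rw [norm_mul, norm_mul]
    calc ‖LFunction χ₁ s‖ * ‖LFunction χ₂ s‖ * ‖LFunction χ₃ s‖ ≤
          (7 * (r₁ : ℝ)) * (7 * r₂) * (7 * R) := by
          gcongr
      _ = 343 * R ^ 2 := by rw [hRR]; ring
  have hFbound : ∀ s : ℂ, ‖s - 2‖ = 3 / 2 → ‖F s‖ ≤ C' * R ^ 2 := by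
    intro s hs
    have hs1 : s ≠ 1 := by
      rintro rfl
      norm_num at hs
    have hs2 : 1 / 2 ≤ ‖s - 1‖ := by
      have h4 : ‖s - 2‖ ≤ ‖s - 1‖ + 1 := by
        calc ‖s - 2‖ = ‖(s - 1) - 1‖ := by ring_nf
          _ ≤ ‖s - 1‖ + ‖(1 : ℂ)‖ := norm_sub_le _ _
          _ = ‖s - 1‖ + 1 := by rw [norm_one]
      linarith
    have hds : ‖dslope P 1 s‖ ≤ 688 * R ^ 2 := by
      rw [dslope_of_ne _ hs1, slope_def_module, norm_smul, norm_inv]
      have h5 : ‖s - 1‖⁻¹ ≤ 2 := by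
        rw [inv_le_comm₀ (by linarith) (by norm_num)]
        linarith
      have h6 : ‖P s - P 1‖ ≤ 344 * R ^ 2 := by
        calc ‖P s - P 1‖ ≤ ‖P s‖ + ‖P 1‖ := norm_sub_le _ _
          _ ≤ 343 * R ^ 2 + R ^ 2 := add_le_add (hPs s hs) hPone
          _ = 344 * R ^ 2 := by ring
      calc ‖s - 1‖⁻¹ * ‖P s - P 1‖ ≤ 2 * (344 * R ^ 2) :=
            mul_le_mul h5 h6 (norm_nonneg _) (by norm_num)
        _ = 688 * R ^ 2 := by ring
    simp only [hF]
    calc ‖Z s * P s + dslope P 1 s‖ ≤ ‖Z s‖ * ‖P s‖ + ‖dslope P 1 s‖ := by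
          rw [← norm_mul]; exact norm_add_le _ _
      _ ≤ CZ * (343 * R ^ 2) + 688 * R ^ 2 := by
          apply add_le_add _ hds
          apply mul_le_mul (hCZ s (by rw [mem_sphere_iff_norm]; exact hs)) (hPs s hs)
            (norm_nonneg _) hCZ0
      _ = C' * R ^ 2 := by rw [hC']; ring
  have hR2 : 1 ≤ R ^ 2 := by nlinarith
  have hmain := hest (fun n => ((ArithmeticFunction.zeta : ArithmeticFunction ℝ) * EST_af χ₁ *
      EST_af χ₂ * ((EST_af χ₁).pmul (EST_af χ₂))) n) F ‖P 1‖ (C' * R ^ 2)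
    (fun n => coef_nonneg _ _ (EST_af_one χ₁) (EST_af_one χ₂) (EST_af_mul χ₁ h1)
      (EST_af_mul χ₂ h2) (EST_af_values χ₁ h1) (EST_af_values χ₂ h2) n)
    (by
      apply le_of_eq
      symm
      simp [ArithmeticFunction.mul_apply, EST_af_one])
    (norm_nonneg _) (by nlinarith) hFd
    (fun s hs => (es_prod χ₁ χ₂ χ₃ h1 h2 h3 h hs).1)
    (fun s hs => by
      rw [(es_prod χ₁ χ₂ χ₃ h1 h2 h3 h hs).2]
      apply hFeq
      rintro rfl
      simp at hs)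
    hFbound β hβ hβ1
  have hβne : (β : ℂ) ≠ 1 := by
    intro hcon
    have : β = 1 := by exact_mod_cast hcon
    linarith
  have hre : (riemannZeta (β : ℂ) * P (β : ℂ)).re = (F (β : ℂ)).re - ‖P 1‖ / (1 - β) := by
    rw [hFeq _ hβne, Complex.add_re]
    have : ((‖P 1‖ : ℝ) : ℂ) / ((β : ℂ) - 1) = ((‖P 1‖ / (β - 1) : ℝ) : ℂ) := by
      push_cast; rfl
    rw [this, Complex.ofReal_re]
    have h5 : β - 1 ≠ 0 := by linarith
    have h6 : 1 - β ≠ 0 := by linarith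
    have h7 : ‖P 1‖ / (β - 1) = -(‖P 1‖ / (1 - β)) := by
      rw [← neg_sub 1 β, div_neg]
    rw [h7]
    ring
  show 1 / 2 - C0 * C' ^ 4 * ‖P 1‖ / (1 - β) * R ^ (8 * (1 - β)) ≤
    (riemannZeta (β : ℂ) * P (β : ℂ)).re
  rw [hre]
  refine le_trans ?_ hmain
  have h1β : 0 < 1 - β := by linarith
  have hpow : (C' * R ^ 2) ^ (4 * (1 - β)) ≤ C' ^ 4 * R ^ (8 * (1 - β)) := by
    rw [Real.mul_rpow (by linarith) (by positivity)]
    have e1 : C' ^ (4 * (1 - β)) ≤ C' ^ 4 := by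
      rw [← Real.rpow_natCast C' 4]
      apply Real.rpow_le_rpow_of_exponent_le hC'1
      push_cast
      linarith
    have e2 : (R ^ 2) ^ (4 * (1 - β)) = R ^ (8 * (1 - β)) := by
      rw [← Real.rpow_natCast R 2, ← Real.rpow_mul (by linarith)]
      congr 1
      push_cast
      ring
    rw [e2]
    exact mul_le_mul_of_nonneg_right e1 (by positivity)
  have h8 : C0 * ‖P 1‖ / (1 - β) * (C' * R ^ 2) ^ (4 * (1 - β)) ≤
      C0 * C' ^ 4 * ‖P 1‖ / (1 - β) * R ^ (8 * (1 - β)) := by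
    calc C0 * ‖P 1‖ / (1 - β) * (C' * R ^ 2) ^ (4 * (1 - β)) ≤
          C0 * ‖P 1‖ / (1 - β) * (C' ^ 4 * R ^ (8 * (1 - β))) := by
          apply mul_le_mul_of_nonneg_left hpow
          positivity
      _ = _ := by ring
  linarith

end BV

end
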