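import Pool.Agent.Work.BV.Defs

/-!
Module IBP (oscillatory integrals; Mathlib only; size S-M).

All derivatives `Φ^{(j)}`, `j ≤ A`, are continuous with `‖Φ^{(j)}(ξ)‖ ≤ K (1+|ξ|)^{-2}`, so they are
integrable and tend to 0.  So (for `X ≠ 0`) integration by parts `A` times
(`integral_mul_deriv_eq_deriv_mul`-type lemma on the whole line, or `Real.fourier_iteratedDeriv`:
the Fourier transform of `Φ^{(A)}` at `w = -X/(2π)` is `(2πiw)^A` times that of `Φ`):
`|X|^A ‖∫ Φ(ξ) e^{iξX} dξ‖ ≤ ∫ ‖Φ^{(A)}‖ ≤ 4 K`  (`∫ (1+|ξ|)^{-2} dξ = 2`).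
-/

set_option autoImplicit false

open Finset Filter MeasureTheory Topology
open scoped ContDiff ArithmeticFunction.Moebius ArithmeticFunction.vonMangoldt

noncomputable section

namespace BV

/-- the integral of `(1+|ξ|)^{-2}` over the line -/
theorem ibp_int_two : Integrable (fun ξ : ℝ => 1 / (1 + |ξ|) ^ 2) ∧
    ∫ ξ : ℝ, 1 / (1 + |ξ|) ^ 2 = 2 := by
  have h1 : Integrable (fun ξ : ℝ => 1 / (1 + |ξ|) ^ 2) := by
    have h0 : Integrable (fun x : ℝ => (1 + ‖x‖) ^ (-(2:ℝ))) :=
      integrable_one_add_norm (r := 2) (by simp)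
    refine h0.congr (Eventually.of_forall fun x => ?_)
    simp only [Real.norm_eq_abs]
    rw [Real.rpow_neg (by positivity)]
    norm_num
  refine ⟨h1, ?_⟩
  have h2 := integral_comp_abs (f := fun x : ℝ => 1 / (1 + x) ^ 2)
  rw [h2]
  have h3 : ∫ x in Set.Ioi (0:ℝ), 1 / (1 + x) ^ 2 = 0 - (-(1 / (1 + 0 : ℝ))) := by
    apply integral_Ioi_of_hasDerivAt_of_tendsto (f := fun x : ℝ => -(1 / (1 + x)))
    · apply ContinuousAt.continuousWithinAt
      have : (1 + (0:ℝ)) ≠ 0 := by norm_num
      fun_prop (disch := assumption)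
    · intro x hx
      have hx' : (1 + x) ≠ 0 := by
        have : 0 < x := hx
        positivity
      have h4 : HasDerivAt (fun x : ℝ => 1 + x) 1 x := by
        simpa using (hasDerivAt_id x).const_add 1
      have h5 := (h4.inv hx').neg
      convert h5 using 1
      · ext y; simp
      · field_simp
    · have := h1.integrableOn (s := Set.Ioi (0:ℝ))
      refine this.congr_fun ?_ measurableSet_Ioi
      intro x hx
      have : 0 < x := hx
      simp [abs_of_pos this]
    · have h6 : Tendsto (fun x : ℝ => 1 + x) atTop atTop :=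
        tendsto_atTop_add_const_left _ _ tendsto_id
      have h7 := (tendsto_inv_atTop_zero.comp h6).neg
      simpa [Function.comp_def] using h7
  rw [h3]
  norm_num

theorem osc_bound (A : ℕ) {Φ : ℝ → ℂ} (hΦ : ContDiff ℝ A Φ) {K : ℝ}
    (hK : ∀ j ≤ A, ∀ ξ : ℝ, ‖iteratedDeriv j Φ ξ‖ ≤ K / (1 + |ξ|) ^ 2) {X : ℝ} (hX : 0 < X) :
    ‖∫ ξ : ℝ, Φ ξ * Complex.exp (ξ * X * Complex.I)‖ ≤ 4 * K / X ^ A := by
  have hK0 : 0 ≤ K := by
    have h := (norm_nonneg _).trans (hK 0 (Nat.zero_le _) 0)
    simpa using h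
  have hb : Integrable (fun ξ : ℝ => K / (1 + |ξ|) ^ 2) := by
    have := ibp_int_two.1.const_mul K
    refine this.congr (Eventually.of_forall fun x => ?_)
    simp only []
    ring
  have hint : ∀ n : ℕ, (n : ℕ∞) ≤ (A : ℕ∞) → Integrable (iteratedDeriv n Φ) := by
    intro n hn
    have hn' : n ≤ A := by exact_mod_cast hn
    refine Integrable.mono' hb ?_ (Eventually.of_forall fun x => hK n hn' x)
    have : Continuous (iteratedDeriv n Φ) :=
      hΦ.continuous_iteratedDeriv n (by exact_mod_cast hn')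
    exact this.aestronglyMeasurable
  set w : ℝ := -X / (2 * Real.pi) with hw
  have hpi : (Real.pi : ℝ) ≠ 0 := Real.pi_ne_zero
  have hF : ∫ ξ : ℝ, Φ ξ * Complex.exp (ξ * X * Complex.I) = FourierTransform.fourier Φ w := by
    rw [Real.fourier_real_eq_integral_exp_smul]
    congr 1
    ext v
    rw [smul_eq_mul, mul_comm]
    congr 2
    rw [hw]
    push_cast
    have : (Real.pi : ℂ) ≠ 0 := by exact_mod_cast hpi
    field_simp
  have hG := Real.fourier_iteratedDeriv (N := (A : ℕ∞)) (n := A) (by exact_mod_cast hΦ) hint le_rfl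
  have hG' := congrFun hG w
  have hn1 : ‖FourierTransform.fourier (iteratedDeriv A Φ) w‖ ≤ 2 * K := by
    rw [Real.fourier_real_eq_integral_exp_smul]
    calc ‖∫ v : ℝ, Complex.exp (↑(-2 * Real.pi * v * w) * Complex.I) • iteratedDeriv A Φ v‖
        ≤ ∫ v : ℝ, ‖Complex.exp (↑(-2 * Real.pi * v * w) * Complex.I) • iteratedDeriv A Φ v‖ :=
          norm_integral_le_integral_norm _
      _ ≤ ∫ v : ℝ, K / (1 + |v|) ^ 2 := by
          apply integral_mono_of_nonneg (Eventually.of_forall fun x => norm_nonneg _) hb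
          refine Eventually.of_forall fun x => ?_
          simp only [norm_smul, Complex.norm_exp_ofReal_mul_I, one_mul]
          exact hK A le_rfl x
      _ = K * 2 := by
          rw [← ibp_int_two.2, ← integral_const_mul]
          congr 1
          ext v
          ring
      _ = 2 * K := by ring
  have hnorm : ‖FourierTransform.fourier (iteratedDeriv A Φ) w‖ =
      X ^ A * ‖FourierTransform.fourier Φ w‖ := by
    rw [hG']
    simp only [norm_smul, norm_pow, norm_mul, Complex.norm_I, Complex.norm_real, Real.norm_eq_abs,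
      Complex.norm_ofNat, mul_one]
    congr 2
    rw [hw, abs_of_pos Real.pi_pos, abs_div, abs_neg, abs_of_pos hX,
      abs_of_pos (by positivity : (0:ℝ) < 2 * Real.pi)]
    field_simp
  rw [hF, le_div_iff₀ (pow_pos hX A)]
  nlinarith [hn1, hnorm, hK0]

end BV

end
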