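import Pool.Agent.Work.BV.LUA

/-!
Module LUB (upper bounds for derivatives of L-functions to the right of 1; size M).

Let `s = σ + it`, `1 < σ ≤ 2`, `ℓ = ell r t = log (r (|t|+3)) ≥ 1`, `y = r (|t| + 3) = e^ℓ`.  As `χ ≠ 1`, `r ≥ 3`.
Terms `n ≤ y`: at most `∑_{n ≤ y} (log n)^j / n ≤ ℓ^j (1 + ℓ) ≤ 2 ℓ^{j+1}`.
Terms `n > y`: `S(n) = ∑_{k ≤ n} χ(k)` satisfies `|S| ≤ r`; summation by parts with
`f(u) = (log u)^j u^{-s}`, `|f'(u)| ≤ (|s| + j) (log u)^j u^{-2}` for `u ≥ e`: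
`|∑_{y<n≤M} χ(n) f(n)| ≤ r (|f(M)| + |f(⌈y⌉)| + ∫_y^∞ |f'|) ≤ C_j r (|s| + j + 1) ℓ^j / y ≤ C'_j ℓ^j`
(`∫_y^∞ (log u)^j u^{-2} du ≤ C_j (log y)^j / y` for `y ≥ e`).
L_one_le: let `s → 1+` in lub with `j = 0` (`DirichletCharacter.LFunction_eq_LSeries`, continuity of the
L-function: `DirichletCharacter.differentiable_LFunction`).
-/

set_option autoImplicit false

open Finset Filter MeasureTheory Topology
open scoped ContDiff ArithmeticFunction.Moebius ArithmeticFunction.vonMangoldt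

noncomputable section

namespace BV

private theorem lub_aux (j : ℕ) : ∃ C : ℝ, 1 ≤ C ∧ ∀ (r : ℕ) [NeZero r] (a : ZMod r → ℂ),
    ∑ x, a x = 0 → (∀ x, ‖a x‖ ≤ 1) → ∀ s : ℂ, 1 < s.re → s.re ≤ 2 → ∀ m M : ℕ,
    (r : ℝ) * (|s.im| + 3) ≤ m → m ≤ M →
    ‖∑ n ∈ Finset.Ico m M, a (n : ZMod r) * luf j s n‖ ≤ C * ell r s.im ^ j := by
  obtain ⟨C, hC1, hC⟩ := lua_log j
  refine ⟨C * (4 * j + 5), by nlinarith [(Nat.cast_nonneg j : (0 : ℝ) ≤ j)], ?_⟩
  intro r _ a h0 hb s hs1 hs2 m M hm hmM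
  have hr : 1 ≤ r := Nat.pos_of_ne_zero (NeZero.ne r)
  obtain ⟨hl, hy3⟩ := lua_y r hr s.im
  have hr0 : (0 : ℝ) < r := by exact_mod_cast hr
  set y : ℝ := (r : ℝ) * (|s.im| + 3) with hy
  have hly : ell r s.im = Real.log y := rfl
  rw [hly] at hl ⊢
  have hy1 : 1 ≤ y := by linarith
  have hns : ‖s‖ ≤ 2 + |s.im| := by
    have := Complex.norm_le_abs_re_add_abs_im s
    rw [abs_of_pos (by linarith : 0 < s.re)] at this
    linarith
  have h1 := lua_parts_le (fun n => a (n : ZMod r)) (fun n => luf j s n) m M hmM r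
    (fun n => lua_period a h0 hb m n)
  have h2 := luf_val_le j C hC s hs1.le y hl hy1 hC1 M (hm.trans (by exact_mod_cast hmM))
  have h3 := luf_var_le j C hC1 s y hl hy1 m M hm
    (fun n => luf j s n - luf j s ((n + 1 : ℕ) : ℝ)) (fun n hn =>
      luf_diff_le j C hC1 hC s hs1.le y hl hy1 n hn)
  refine h1.trans ?_
  have hj : (0 : ℝ) ≤ j := Nat.cast_nonneg j
  have ht := abs_nonneg s.im
  have h4 : (r : ℝ) * (‖luf j s M‖ + ∑ n ∈ Finset.Ico m M, ‖luf j s n - luf j s ((n + 1 : ℕ) : ℝ)‖) ≤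
      r * (C * Real.log y ^ j / y + 4 * (j + (2 + |s.im|)) * C * Real.log y ^ j / y) := by
    refine mul_le_mul_of_nonneg_left (add_le_add h2 (h3.trans ?_)) hr0.le
    gcongr
  refine h4.trans ?_
  have h5 : (r : ℝ) * (C * Real.log y ^ j / y + 4 * (j + (2 + |s.im|)) * C * Real.log y ^ j / y) =
      C * Real.log y ^ j * ((1 + 4 * (j + (2 + |s.im|))) / (|s.im| + 3)) := by
    rw [hy]
    field_simp
  rw [h5]
  have h6 : (1 + 4 * (j + (2 + |s.im|))) / (|s.im| + 3) ≤ 4 * j + 5 := by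
    rw [div_le_iff₀ (by positivity)]
    nlinarith
  calc C * Real.log y ^ j * ((1 + 4 * (j + (2 + |s.im|))) / (|s.im| + 3))
      ≤ C * Real.log y ^ j * (4 * j + 5) := mul_le_mul_of_nonneg_left h6 (by positivity)
    _ = _ := by ring

theorem lub (j : ℕ) : ∃ C : ℝ, 0 < C ∧ ∀ (r : ℕ) [NeZero r] (χ : DirichletCharacter ℂ r), χ ≠ 1 →
    ∀ s : ℂ, 1 < s.re → s.re ≤ 2 → ‖Dc χ j s‖ ≤ C * ell r s.im ^ (j + 1) := by
  obtain ⟨C, hC1, hC⟩ := lub_aux j
  refine ⟨2 + C, by linarith, ?_⟩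
  intro r _ χ hχ s hs1 hs2
  have hr : 1 ≤ r := Nat.pos_of_ne_zero (NeZero.ne r)
  obtain ⟨hl, hy3⟩ := lua_y r hr s.im
  have hy0 : 0 ≤ (r : ℝ) * (|s.im| + 3) := by linarith
  unfold Dc
  refine lua_lim _ s _ (⌊(r : ℝ) * (|s.im| + 3)⌋₊ + 1) (fun _ => 0) tendsto_const_nhds
    (by positivity) ?_
  intro M hM
  rw [sub_zero, lua_range]
  set m := ⌊(r : ℝ) * (|s.im| + 3)⌋₊ + 1 with hm
  have hm1 : (r : ℝ) * (|s.im| + 3) ≤ m := by
    rw [hm]
    push_cast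
    exact (Nat.lt_floor_add_one _).le
  have hm2 : (m : ℝ) - 1 ≤ (r : ℝ) * (|s.im| + 3) := by
    rw [hm]
    push_cast
    have := Nat.floor_le hy0
    linarith
  rw [← Finset.sum_Ico_consecutive _ (by omega : 1 ≤ m) hM]
  refine (norm_add_le _ _).trans ?_
  have h1 := luf_head_le j s hs1.le ((r : ℝ) * (|s.im| + 3)) hl (fun n => χ n)
    (fun n => χ.norm_le_one _) m hm2
  have h2 := hC r (fun x => χ x) (MulChar.sum_eq_zero_of_ne_one hχ) (fun x => χ.norm_le_one _) s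
    hs1 hs2 m M hm1 hM
  have h3 : C * ell r s.im ^ j ≤ C * ell r s.im ^ (j + 1) :=
    mul_le_mul_of_nonneg_left (pow_le_pow_right₀ hl (Nat.le_succ j)) (by linarith)
  have h4 : 2 * Real.log ((r : ℝ) * (|s.im| + 3)) ^ (j + 1) = 2 * ell r s.im ^ (j + 1) := rfl
  rw [h4] at h1
  linarith

theorem L_one_le : ∃ C : ℝ, 0 < C ∧ ∀ (r : ℕ) [NeZero r] (χ : DirichletCharacter ℂ r), χ ≠ 1 →
    ‖DirichletCharacter.LFunction χ 1‖ ≤ C * ell r 0 := by
  obtain ⟨C, hC0, hC⟩ := lub 0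
  refine ⟨C, hC0, ?_⟩
  intro r _ χ hχ
  have hcont : Tendsto (fun x : ℝ => ‖DirichletCharacter.LFunction χ (1 + (x : ℂ))‖)
      (𝓝[>] 0) (𝓝 ‖DirichletCharacter.LFunction χ 1‖) := by
    have h1 : Continuous fun x : ℝ => ‖DirichletCharacter.LFunction χ (1 + (x : ℂ))‖ :=
      ((DirichletCharacter.differentiable_LFunction hχ).continuous.comp
        (continuous_const.add Complex.continuous_ofReal)).norm
    have h2 := h1.tendsto 0
    simp only [Complex.ofReal_zero, add_zero] at h2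
    exact h2.mono_left nhdsWithin_le_nhds
  refine le_of_tendsto hcont ?_
  have h3 : ∀ᶠ x : ℝ in 𝓝[>] 0, x ∈ Set.Ioo (0 : ℝ) 1 :=
    Ioo_mem_nhdsGT one_pos
  filter_upwards [h3] with x hx
  have h4 := hC r χ hχ (1 + (x : ℂ)) (by
    simp only [Complex.add_re, Complex.one_re, Complex.ofReal_re]
    linarith [hx.1]) (by
    simp only [Complex.add_re, Complex.one_re, Complex.ofReal_re]
    linarith [hx.2])
  rw [DirichletCharacter.LFunction_eq_LSeries χ (by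
    simp only [Complex.add_re, Complex.one_re, Complex.ofReal_re]
    linarith [hx.1])]
  unfold Dc at h4
  simp only [pow_zero, mul_one, zero_add, pow_one, Complex.add_im, Complex.one_im,
    Complex.ofReal_im] at h4
  exact h4

end BV

end
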