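import Pool.Agent.Work.BV.EST
import Pool.Agent.Work.BV.LUB

/-!
Module SIE (Siegel's theorem; size M-L).

Let `η = min(ε/16, 1/8)`.
Case A: there are `r₁`, a real character `χ₁ ≠ 1` mod `r₁` (`χ₁² = 1`, primitive or not) and
`β₁ ∈ (1-η, 1)` with `L(β₁, χ₁) = 0`.  Fix them.
Case B: no such character exists.  Take `χ₁` = the nontrivial character mod 4 (`ZMod.χ₄` composed with
`ℤ → ℂ`) and `β₁ ∈ (1-η, 1)` so close to 1 that `ζ(β₁) < 0` (`zeta_entire`: `ζ(β) = Z(β) - 1/(1-β)`; the value is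
real, or use the real part).  In this case `L(β₁, χ) > 0` for EVERY real `χ ≠ 1`: it is real (L_real),
has no zero on `(1-η, 1)`, is continuous and positive at `1` (L_pos_right).
Let `χ₂ = χ` primitive real mod `r₂ = r`, `χ ≠ 1`.
If `r₂ ≤ r₁`: there are finitely many such characters and `L(1,χ) ≠ 0`
(`DirichletCharacter.LFunction_apply_one_ne_zero`): take the minimum.
If `r₂ > r₁`: `χ₃ = changeLevel χ₁ * changeLevel χ₂` mod `r₁r₂` satisfies `χ₃ n = χ₁ n χ₂ n` for all `n`;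
`χ₃ ≠ 1`: otherwise `changeLevel χ₂ = changeLevel χ₁` (as `χ₁² = 1`), which factors through `r₁`, so the
conductor of `χ₂` is at most `r₁ < r₂`, contradicting primitivity
(`DirichletCharacter.changeLevel`, `FactorsThrough`, conductor API).
In both cases `Re ζ(β₁)L(β₁,χ₁)L(β₁,χ₂)L(β₁,χ₃) ≤ 0` (in case B all L-values are positive reals), so
`estermann` gives `lam = ‖L(1,χ₁)L(1,χ₂)L(1,χ₃)‖ ≥ ((1-β₁)/(2C)) (r₁r₂)^{-8(1-β₁)} ≥ c (r₁r₂)^{-ε/2}`.
By L_one_le: `lam ≤ C² ell(r₁,0) ell(r₁r₂,0) ‖L(1,χ₂)‖`, so `‖L(1,χ)‖ ≥ c' r^{-ε/2}/log(3 r₁ r) ≥ c'' r^{-ε}`.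
-/

set_option autoImplicit false

open Finset Filter MeasureTheory Topology
open scoped ContDiff ArithmeticFunction.Moebius ArithmeticFunction.vonMangoldt

noncomputable section

namespace BV

open DirichletCharacter

/-- the product character -/
private lemma si_chi {r₁ r₂ : ℕ} [NeZero r₁] [NeZero r₂]
    (χ₁ : DirichletCharacter ℂ r₁) (χ₂ : DirichletCharacter ℂ r₂) (n : ℕ) :
    (changeLevel (Nat.dvd_mul_right r₁ r₂) χ₁ * changeLevel (Nat.dvd_mul_left r₂ r₁) χ₂)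
      (n : ZMod (r₁ * r₂)) = χ₁ n * χ₂ n := by
  rw [MulChar.mul_apply]
  by_cases h : IsUnit ((n : ℕ) : ZMod (r₁ * r₂))
  · have key : ∀ {r : ℕ} (χ : DirichletCharacter ℂ r) (hd : r ∣ r₁ * r₂),
        changeLevel hd χ (n : ZMod (r₁ * r₂)) = χ n := by
      intro r χ hd
      have h1 := changeLevel_eq_cast_of_dvd χ hd h.unit
      rw [h.unit_spec, ZMod.cast_natCast hd] at h1
      exact h1
    rw [key χ₁, key χ₂]
  · have h0 : ¬ (IsUnit ((n : ℕ) : ZMod r₁) ∧ IsUnit ((n : ℕ) : ZMod r₂)) := by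
      rintro ⟨h1, h2⟩
      apply h
      rw [ZMod.isUnit_iff_coprime] at h1 h2 ⊢
      exact Nat.Coprime.mul_right h1 h2
    rw [MulChar.map_nonunit _ h, zero_mul]
    rcases not_and_or.1 h0 with h1 | h1
    · rw [MulChar.map_nonunit _ h1, zero_mul]
    · rw [MulChar.map_nonunit _ h1, mul_zero]

private lemma si_chi_ne {r₁ r₂ : ℕ} [NeZero r₁] [NeZero r₂]
    (χ₁ : DirichletCharacter ℂ r₁) (χ₂ : DirichletCharacter ℂ r₂) (hp : χ₂.IsPrimitive)
    (hlt : r₁ < r₂) :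
    changeLevel (Nat.dvd_mul_right r₁ r₂) χ₁ * changeLevel (Nat.dvd_mul_left r₂ r₁) χ₂ ≠ 1 := by
  intro h
  have h1 : changeLevel (Nat.dvd_mul_left r₂ r₁) χ₂ =
      changeLevel (Nat.dvd_mul_right r₁ r₂) χ₁⁻¹ := by
    rw [map_inv]
    exact eq_inv_of_mul_eq_one_right h
  have h2 := congrArg DirichletCharacter.conductor h1
  rw [conductor_changeLevel, conductor_changeLevel] at h2
  have h3 : χ₂.conductor = r₂ := hp
  have h4 : (χ₁⁻¹).conductor ≤ r₁ :=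
    Nat.le_of_dvd (Nat.pos_of_ne_zero (NeZero.ne r₁)) (conductor_dvd_level _)
  omega

/-- finitely many moduli -/
private lemma si_fin (N : ℕ) : ∃ c : ℝ, 0 < c ∧ ∀ (r : ℕ) [NeZero r], r ≤ N →
    ∀ χ : DirichletCharacter ℂ r, χ ≠ 1 → c ≤ ‖LFunction χ 1‖ := by
  have hone : ∀ r : ℕ, ∃ c : ℝ, 0 < c ∧ ∀ [NeZero r],
      ∀ χ : DirichletCharacter ℂ r, χ ≠ 1 → c ≤ ‖LFunction χ 1‖ := by
    intro r
    rcases Nat.eq_zero_or_pos r with rfl | hr
    · refine ⟨1, one_pos, ?_⟩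
      intro h
      exact absurd rfl h.out
    · have : NeZero r := ⟨hr.ne'⟩
      classical
      let S : Finset (DirichletCharacter ℂ r) := Finset.univ.filter (fun χ => χ ≠ 1)
      rcases S.eq_empty_or_nonempty with hS | hS
      · refine ⟨1, one_pos, fun [_] χ hχ => ?_⟩
        have : χ ∈ S := Finset.mem_filter.2 ⟨Finset.mem_univ _, hχ⟩
        rw [hS] at this
        simp at this
      · obtain ⟨χ₀, hχ₀, hmin⟩ := S.exists_min_image (fun χ => ‖LFunction χ 1‖) hS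
        refine ⟨‖LFunction χ₀ 1‖, ?_, fun [_] χ hχ => ?_⟩
        · rw [norm_pos_iff]
          exact LFunction_apply_one_ne_zero (Finset.mem_filter.1 hχ₀).2
        · exact hmin χ (Finset.mem_filter.2 ⟨Finset.mem_univ _, hχ⟩)
  induction N with
  | zero =>
    refine ⟨1, one_pos, fun r _ hr => ?_⟩
    exact absurd (Nat.le_zero.1 hr) (NeZero.ne r)
  | succ N ih =>
    obtain ⟨c, hc, hc2⟩ := ih
    obtain ⟨c', hc', hc2'⟩ := hone (N + 1)
    refine ⟨min c c', lt_min hc hc', fun r _ hr χ hχ => ?_⟩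
    rcases Nat.lt_or_ge r (N + 1) with h | h
    · exact (min_le_left _ _).trans (hc2 r (by omega) χ hχ)
    · have : r = N + 1 := le_antisymm hr h
      subst this
      exact (min_le_right _ _).trans (hc2' χ hχ)

/-- the main step -/
private lemma si_main {ε : ℝ} (hε : 0 < ε) (r₁ : ℕ) [NeZero r₁] (χ₁ : DirichletCharacter ℂ r₁)
    (n1 : χ₁ ≠ 1) (h1 : χ₁ ^ 2 = 1) (β : ℝ) (hβ : 7 / 8 < β) (hβ1 : β < 1)
    (hβε : 8 * (1 - β) ≤ ε / 2)
    (hneg : ∀ (r₂ : ℕ) [NeZero r₂] (χ₂ : DirichletCharacter ℂ r₂)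
      (χ₃ : DirichletCharacter ℂ (r₁ * r₂)), χ₂ ≠ 1 → χ₃ ≠ 1 → χ₂ ^ 2 = 1 → χ₃ ^ 2 = 1 →
      (∀ n : ℕ, χ₃ n = χ₁ n * χ₂ n) →
      (riemannZeta (β : ℂ) * (LFunction χ₁ (β : ℂ) * LFunction χ₂ (β : ℂ) *
          LFunction χ₃ (β : ℂ))).re ≤ 0) :
    ∃ c : ℝ, 0 < c ∧ ∀ (r : ℕ) [NeZero r]
    (χ : DirichletCharacter ℂ r), χ.IsPrimitive → χ ≠ 1 → χ ^ 2 = 1 →
      c * (r : ℝ) ^ (-ε) ≤ ‖LFunction χ 1‖ := by
  obtain ⟨C, hC, hest⟩ := estermann
  obtain ⟨C2, hC2, hLone⟩ := L_one_le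
  obtain ⟨c0, hc0, hfin⟩ := si_fin r₁
  have hR1 : (1 : ℝ) ≤ r₁ := by exact_mod_cast Nat.one_le_iff_ne_zero.2 (NeZero.ne r₁)
  have hK1 : 0 < ‖LFunction χ₁ 1‖ := norm_pos_iff.2 (LFunction_apply_one_ne_zero n1)
  have h1β : 0 < 1 - β := by linarith
  -- the constant
  set c1 : ℝ := (1 - β) / (2 * C * ‖LFunction χ₁ 1‖ * C2) * (ε / 2) *
    ((3 : ℝ) ^ (-(ε / 2)) * (r₁ : ℝ) ^ (-ε)) with hc1
  have hc1pos : 0 < c1 := by
    rw [hc1]
    have : 0 < (r₁ : ℝ) ^ (-ε) := Real.rpow_pos_of_pos (by linarith) _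
    positivity
  refine ⟨min c0 c1, lt_min hc0 hc1pos, ?_⟩
  intro r _ χ hprim hχ hχ2
  have hr1 : (1 : ℝ) ≤ r := by exact_mod_cast Nat.one_le_iff_ne_zero.2 (NeZero.ne r)
  rcases Nat.lt_or_ge r₁ r with hlt | hge
  · -- the main case
    set χ₃ := changeLevel (Nat.dvd_mul_right r₁ r) χ₁ * changeLevel (Nat.dvd_mul_left r r₁) χ
      with hχ₃
    have n3 : χ₃ ≠ 1 := si_chi_ne χ₁ χ hprim hlt
    have hmul : ∀ n : ℕ, χ₃ n = χ₁ n * χ n := si_chi χ₁ χ
    have h3 : χ₃ ^ 2 = 1 := EST_sq χ₁ χ χ₃ h1 hχ2 hmul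
    have hA := hest r₁ r χ₁ χ χ₃ n1 hχ n3 h1 hχ2 hmul β hβ hβ1
    have hB := hneg r χ χ₃ hχ n3 hχ2 h3 hmul
    set R : ℝ := ((r₁ * r : ℕ) : ℝ) with hR
    have hRR : R = (r₁ : ℝ) * r := by rw [hR]; push_cast; rfl
    have hRge : 1 ≤ R := by rw [hRR]; nlinarith
    rw [norm_mul, norm_mul] at hA
    set K1 := ‖LFunction χ₁ 1‖
    set K2 := ‖LFunction χ 1‖
    set K3 := ‖LFunction χ₃ 1‖
    have hK2 : 0 ≤ K2 := norm_nonneg _
    have hK3 : 0 ≤ K3 := norm_nonneg _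
    have hpow1 : R ^ (8 * (1 - β)) ≤ R ^ (ε / 2) := Real.rpow_le_rpow_of_exponent_le hRge hβε
    have hRpos : 0 < R := by linarith
    have hRe : 0 < R ^ (ε / 2) := Real.rpow_pos_of_pos hRpos _
    have hD : 1 / 2 ≤ C * (K1 * K2 * K3) / (1 - β) * R ^ (ε / 2) := by
      have h5 : C * (K1 * K2 * K3) / (1 - β) * R ^ (8 * (1 - β)) ≤
          C * (K1 * K2 * K3) / (1 - β) * R ^ (ε / 2) :=
        mul_le_mul_of_nonneg_left hpow1 (by positivity)
      linarith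
    have hK3le : K3 ≤ C2 * ((3 * R) ^ (ε / 2) / (ε / 2)) := by
      refine (hLone (r₁ * r) χ₃ n3).trans ?_
      apply mul_le_mul_of_nonneg_left _ hC2.le
      unfold ell
      rw [abs_zero, zero_add, mul_comm]
      exact Real.log_le_rpow_div (by positivity) (by positivity)
    have h3R : (3 * R) ^ (ε / 2) = 3 ^ (ε / 2) * R ^ (ε / 2) :=
      Real.mul_rpow (by norm_num) hRpos.le
    have hRR2 : R ^ (ε / 2) * R ^ (ε / 2) = (r₁ : ℝ) ^ ε * (r : ℝ) ^ ε := by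
      rw [← Real.rpow_add hRpos, add_halves, hRR, Real.mul_rpow (by linarith) (by linarith)]
    -- combine
    have hE : 1 / 2 ≤ C * (K1 * K2 * (C2 * (3 ^ (ε / 2) * R ^ (ε / 2) / (ε / 2)))) / (1 - β) *
        R ^ (ε / 2) := by
      refine hD.trans ?_
      rw [h3R] at hK3le
      apply mul_le_mul_of_nonneg_right _ hRe.le
      apply div_le_div_of_nonneg_right _ h1β.le
      apply mul_le_mul_of_nonneg_left _ hC.le
      apply mul_le_mul_of_nonneg_left hK3le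
      positivity
    have e3 : (0 : ℝ) < 3 ^ (ε / 2) := Real.rpow_pos_of_pos (by norm_num) _
    have e1 : (0 : ℝ) < (r₁ : ℝ) ^ ε := Real.rpow_pos_of_pos (by linarith) _
    have e2 : (0 : ℝ) < (r : ℝ) ^ ε := Real.rpow_pos_of_pos (by linarith) _
    have hF : C * (K1 * K2 * (C2 * (3 ^ (ε / 2) * R ^ (ε / 2) / (ε / 2)))) / (1 - β) *
        R ^ (ε / 2) = K2 * (C * K1 * C2 * 3 ^ (ε / 2) * ((r₁ : ℝ) ^ ε * (r : ℝ) ^ ε) /
          ((ε / 2) * (1 - β))) := by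
      rw [← hRR2]
      field_simp
    rw [hF] at hE
    have hG : c1 * (r : ℝ) ^ (-ε) = (1 / 2) * ((ε / 2) * (1 - β)) /
        (C * K1 * C2 * 3 ^ (ε / 2) * ((r₁ : ℝ) ^ ε * (r : ℝ) ^ ε)) := by
      rw [hc1, Real.rpow_neg (by linarith), Real.rpow_neg (by norm_num), Real.rpow_neg (by linarith)]
      field_simp
    refine (mul_le_mul_of_nonneg_right (min_le_right c0 c1)
      (Real.rpow_nonneg (by linarith) _)).trans ?_
    rw [hG, div_le_iff₀ (by positivity)]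
    have hH : K2 * (C * K1 * C2 * 3 ^ (ε / 2) * ((r₁ : ℝ) ^ ε * (r : ℝ) ^ ε)) =
        K2 * (C * K1 * C2 * 3 ^ (ε / 2) * ((r₁ : ℝ) ^ ε * (r : ℝ) ^ ε) /
          ((ε / 2) * (1 - β))) * ((ε / 2) * (1 - β)) := by
      field_simp
    rw [hH]
    exact mul_le_mul_of_nonneg_right hE (by positivity)
  · have h5 := hfin r hge χ hχ
    have h6 : (r : ℝ) ^ (-ε) ≤ 1 := Real.rpow_le_one_of_one_le_of_nonpos hr1 (by linarith)
    calc min c0 c1 * (r : ℝ) ^ (-ε) ≤ c0 * 1 :=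
          mul_le_mul (min_le_left _ _) h6 (Real.rpow_nonneg (by linarith) _) hc0.le
      _ = c0 := mul_one _
      _ ≤ _ := h5

theorem siegel {ε : ℝ} (hε : 0 < ε) : ∃ c : ℝ, 0 < c ∧ ∀ (r : ℕ) [NeZero r]
    (χ : DirichletCharacter ℂ r), χ.IsPrimitive → χ ≠ 1 → χ ^ 2 = 1 →
      c * (r : ℝ) ^ (-ε) ≤ ‖DirichletCharacter.LFunction χ 1‖ := by
  set η : ℝ := min (ε / 16) (1 / 8) with hη
  have hη0 : 0 < η := lt_min (by positivity) (by norm_num)
  have hη1 : η ≤ ε / 16 := min_le_left _ _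
  have hη2 : η ≤ 1 / 8 := min_le_right _ _
  by_cases hA : ∃ (r₁ : ℕ) (_ : NeZero r₁) (χ₁ : DirichletCharacter ℂ r₁) (β : ℝ),
      χ₁ ≠ 1 ∧ χ₁ ^ 2 = 1 ∧ 1 - η < β ∧ β < 1 ∧ LFunction χ₁ (β : ℂ) = 0
  · obtain ⟨r₁, _, χ₁, β, n1, h1, hβ, hβ1, hzero⟩ := hA
    refine si_main hε r₁ χ₁ n1 h1 β (by linarith) hβ1 (by linarith) ?_
    intro r₂ _ χ₂ χ₃ _ _ _ _ _
    rw [hzero]
    simp
  · -- no zeros
    by_cases hB : ∃ (r₁ : ℕ) (_ : NeZero r₁) (χ₁ : DirichletCharacter ℂ r₁), χ₁ ≠ 1 ∧ χ₁ ^ 2 = 1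
    · obtain ⟨r₁, _, χ₁, n1, h1⟩ := hB
      -- positivity of the real L-functions
      have hpos : ∀ (r : ℕ) [NeZero r] (χ : DirichletCharacter ℂ r), χ ≠ 1 → χ ^ 2 = 1 →
          ∀ β : ℝ, 1 - η < β → β < 1 → 0 < (LFunction χ (β : ℂ)).re ∧
            (LFunction χ (β : ℂ)).im = 0 := by
        intro r _ χ hχ h2 β hβ hβ1
        have him : ∀ σ : ℝ, 0 < σ → (LFunction χ (σ : ℂ)).im = 0 := fun σ hσ => L_real hχ h2 hσ
        refine ⟨?_, him β (by linarith)⟩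
        by_contra hcon
        push Not at hcon
        have hcont : Continuous (fun σ : ℝ => (LFunction χ (σ : ℂ)).re) :=
          Complex.continuous_re.comp
            ((differentiable_LFunction hχ).continuous.comp Complex.continuous_ofReal)
        have h1pos : 0 < (LFunction χ ((1 : ℝ) : ℂ)).re := L_pos_right hχ h2 (le_refl 1)
        have hivt := intermediate_value_Icc hβ1.le (hcont.continuousOn (s := Set.Icc β 1))
        obtain ⟨σ, hσ, hσ0⟩ := hivt ⟨hcon, h1pos.le⟩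
        have hσ1 : σ ≠ 1 := by
          rintro rfl
          simp only at hσ0
          rw [hσ0] at h1pos
          exact lt_irrefl _ h1pos
        have hσlt : σ < 1 := lt_of_le_of_ne hσ.2 hσ1
        apply hA
        refine ⟨r, inferInstance, χ, σ, hχ, h2, by linarith [hσ.1], hσlt, ?_⟩
        apply Complex.ext
        · simpa using hσ0
        · simpa using him σ (by linarith [hσ.1])
      -- choice of the point
      obtain ⟨Z, hZd, hZ⟩ := zeta_entire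
      obtain ⟨K, hK⟩ := (isCompact_Icc (a := (0 : ℝ)) (b := 1)).exists_bound_of_continuousOn
        ((hZd.continuous.comp Complex.continuous_ofReal).continuousOn (s := Set.Icc (0 : ℝ) 1))
      have hK0 : 0 ≤ K := (norm_nonneg _).trans (hK 1 ⟨zero_le_one, le_refl 1⟩)
      set δ : ℝ := min (η / 2) (1 / (K + 1)) with hδ
      have hδ0 : 0 < δ := lt_min (by positivity) (by positivity)
      have hδ1 : δ ≤ η / 2 := min_le_left _ _
      have hδ2 : δ ≤ 1 / (K + 1) := min_le_right _ _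
      set β : ℝ := 1 - δ with hβdef
      have hζ : (riemannZeta (β : ℂ)).re ≤ 0 := by
        have hne : (β : ℂ) ≠ 1 := by
          intro hcon
          have : β = 1 := by exact_mod_cast hcon
          linarith
        rw [hZ _ hne, Complex.add_re]
        have e1 : (1 : ℂ) / ((β : ℂ) - 1) = ((1 / (β - 1) : ℝ) : ℂ) := by push_cast; rfl
        rw [e1, Complex.ofReal_re]
        have e2 : (Z β).re ≤ K := by
          refine (Complex.re_le_norm _).trans (hK β ⟨?_, ?_⟩)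
          · linarith
          · linarith
        have e3 : β - 1 = -δ := by rw [hβdef]; ring
        have e4 : K + 1 ≤ 1 / δ := by
          rw [le_div_iff₀ hδ0]
          rw [le_div_iff₀ (by linarith)] at hδ2
          linarith
        rw [e3, div_neg]
        linarith
      refine si_main hε r₁ χ₁ n1 h1 β (by linarith) (by linarith) (by linarith) ?_
      intro r₂ _ χ₂ χ₃ n2 n3 h2 h3 _
      have hβ1 : 1 - η < β := by linarith
      have hβ2 : β < 1 := by linarith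
      obtain ⟨a1, a2⟩ := hpos r₁ χ₁ n1 h1 β hβ1 hβ2
      obtain ⟨b1, b2⟩ := hpos r₂ χ₂ n2 h2 β hβ1 hβ2
      obtain ⟨c1, c2⟩ := hpos (r₁ * r₂) χ₃ n3 h3 β hβ1 hβ2
      have ereal : ∀ z : ℂ, z.im = 0 → z = ((z.re : ℝ) : ℂ) := by
        intro z hz
        apply Complex.ext
        · simp
        · simp [hz]
      rw [ereal _ a2, ereal _ b2, ereal _ c2, ← Complex.ofReal_mul, ← Complex.ofReal_mul,
        mul_comm, Complex.re_ofReal_mul]
      exact mul_nonpos_of_nonneg_of_nonpos (by positivity) hζ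
    · refine ⟨1, one_pos, fun r _ χ _ hχ h2 => ?_⟩
      exact absurd ⟨r, inferInstance, χ, hχ, h2⟩ hB

end BV

end
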