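import Pool.Agent.Work.BV.LLB
import Pool.Agent.Work.BV.SIE

/-!
Module LALL (lower bound for all primitive characters; size M).

`ell r t = log r + log(|t|+3) ≤ (1 + log r) log(|t|+3)` (as `log(|t|+3) ≥ 1`), so
`ell^8 ≤ C_ε r^{ε/2} log(|t|+3)^8`.  A primitive character mod `r > 1` is not trivial.
If `χ² ≠ 1`: llb_complex.
If `χ² = 1`: let `ε₁ = ε/8`, `‖L(1,χ)‖ ≥ c₁ r^{-ε₁}` (siegel), and `δ = c₂ r^{-2ε₁}`, `c₂ ≤ 1` small.
(a) `‖s - 1‖ ≤ δ`: for `s, s'` in `{1 < Re ≤ 2, |Im| ≤ 1}`: `‖L(s) - L(s')‖ ≤ C ‖s - s'‖ (log 4r)²` (mean value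
inequality on a convex set, lub `j = 1`), let `s' → 1` (continuity of `LFunction χ`): so
`‖L(s)‖ ≥ c₁ r^{-ε₁} - C c₂ r^{-2ε₁} (log 4r)² ≥ (c₁/2) r^{-ε₁}` for small `c₂`.
(b) `‖s-1‖ > δ` and `|t| ≥ δ/2`: llb_real, `1 + 1/|t| ≤ 3/δ ≤ C r^{2ε₁}`.
(c) `‖s-1‖ > δ` and `Re s - 1 ≥ δ/2`: llb_triv: `≥ δ/4`.
-/

set_option autoImplicit false

open Finset Filter MeasureTheory Topology
open scoped ContDiff ArithmeticFunction.Moebius ArithmeticFunction.vonMangoldt

noncomputable section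

namespace BV

private theorem LALL_log_ge (t : ℝ) : 1 ≤ Real.log (|t| + 3) := by
  rw [Real.le_log_iff_exp_le (by positivity)]
  have h1 := Real.exp_one_lt_d9
  have h2 := abs_nonneg t
  linarith

private theorem LALL_ell_le (r : ℕ) (hr : 1 ≤ r) (t : ℝ) :
    ell r t ≤ (1 + Real.log r) * Real.log (|t| + 3) := by
  have h1 := LALL_log_ge t
  have h2 : 0 ≤ Real.log (r : ℝ) := Real.log_natCast_nonneg r
  unfold ell
  have hr0 : (r : ℝ) ≠ 0 := by
    have : r ≠ 0 := by omega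
    exact_mod_cast this
  rw [Real.log_mul hr0 (by positivity)]
  nlinarith

private theorem LALL_ell_ge (r : ℕ) (hr : 1 ≤ r) (t : ℝ) : 1 ≤ ell r t := by
  have h1 := LALL_log_ge t
  have h2 : 0 ≤ Real.log (r : ℝ) := Real.log_natCast_nonneg r
  unfold ell
  have hr0 : (r : ℝ) ≠ 0 := by
    have : r ≠ 0 := by omega
    exact_mod_cast this
  rw [Real.log_mul hr0 (by positivity)]
  linarith

private theorem LALL_pow_log (m : ℕ) (hm : 1 ≤ m) {δ : ℝ} (hδ : 0 < δ) :
    ∃ C : ℝ, 0 < C ∧ ∀ x : ℝ, 1 ≤ x → (1 + Real.log x) ^ m ≤ C * x ^ δ := by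
  have hm0 : (0 : ℝ) < m := by exact_mod_cast hm
  have hd : 0 < δ / m := by positivity
  refine ⟨(1 + 1 / (δ / m)) ^ m, by positivity, fun x hx => ?_⟩
  have hx0 : 0 ≤ x := by linarith
  have h1 : Real.log x ≤ x ^ (δ / m) / (δ / m) := Real.log_le_rpow_div hx0 hd
  have h2 : 1 ≤ x ^ (δ / m) := Real.one_le_rpow hx hd.le
  have h3 : 0 ≤ Real.log x := Real.log_nonneg hx
  have h4 : 1 + Real.log x ≤ (1 + 1 / (δ / m)) * x ^ (δ / m) := by
    have h5 : (1 + 1 / (δ / m)) * x ^ (δ / m) = x ^ (δ / m) + x ^ (δ / m) / (δ / m) := by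
      ring
    rw [h5]
    linarith
  calc (1 + Real.log x) ^ m ≤ ((1 + 1 / (δ / m)) * x ^ (δ / m)) ^ m :=
        pow_le_pow_left₀ (by linarith) h4 m
    _ = (1 + 1 / (δ / m)) ^ m * x ^ δ := by
        rw [mul_pow, ← Real.rpow_natCast (x ^ (δ / m)), ← Real.rpow_mul hx0]
        congr 2
        field_simp

/-- the distance to the value at `1` -/
private theorem LALL_near {r : ℕ} [NeZero r] {χ : DirichletCharacter ℂ r} (hχ : χ ≠ 1) {M : ℝ}
    (hM : ∀ z : ℂ, 1 < z.re → z.re ≤ 2 → |z.im| ≤ 1 → ‖Dc χ 1 z‖ ≤ M) {s : ℂ} (hs1 : 1 < s.re)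
    (hs2 : s.re ≤ 2) (hs3 : |s.im| ≤ 1) :
    ‖Dc χ 0 s - DirichletCharacter.LFunction χ 1‖ ≤ M * ‖s - 1‖ := by
  have hconv : Convex ℝ {z : ℂ | 1 < z.re ∧ z.re ≤ 2 ∧ |z.im| ≤ 1} := by
    intro z hz w hw a b ha hb hab
    obtain ⟨hz1, hz2, hz3⟩ := hz
    obtain ⟨hw1, hw2, hw3⟩ := hw
    have hre : (a • z + b • w).re = a * z.re + b * w.re := by simp
    have him : (a • z + b • w).im = a * z.im + b * w.im := by simp
    rw [abs_le] at hz3 hw3
    refine ⟨?_, ?_, ?_⟩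
    · rw [hre]
      rcases ha.eq_or_lt with h | h
      · rw [← h] at hab ⊢
        have : b = 1 := by linarith
        rw [this]
        linarith
      · nlinarith
    · rw [hre]
      nlinarith
    · rw [him, abs_le]
      constructor <;> nlinarith
  have hmem : ∀ x : ℝ, 0 < x → x ≤ 1 → (1 + (x : ℂ) * (s - 1)) ∈
      {z : ℂ | 1 < z.re ∧ z.re ≤ 2 ∧ |z.im| ≤ 1} := by
    intro x hx hx1
    have hre : (1 + (x : ℂ) * (s - 1)).re = 1 + x * (s.re - 1) := by simp
    have him : (1 + (x : ℂ) * (s - 1)).im = x * s.im := by simp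
    refine ⟨?_, ?_, ?_⟩
    · rw [hre]
      have : 0 < x * (s.re - 1) := mul_pos hx (by linarith)
      linarith
    · rw [hre]
      nlinarith
    · rw [him, abs_mul, abs_of_pos hx]
      have := abs_nonneg s.im
      nlinarith
  have hmem1 : s ∈ {z : ℂ | 1 < z.re ∧ z.re ≤ 2 ∧ |z.im| ≤ 1} := ⟨hs1, hs2, hs3⟩
  have hM0 : 0 ≤ M := (norm_nonneg _).trans (hM s hs1 hs2 hs3)
  have h1 : ∀ x : ℝ, 0 < x → x ≤ 1 →
      ‖Dc χ 0 s - DirichletCharacter.LFunction χ (1 + (x : ℂ) * (s - 1))‖ ≤ M * ‖s - 1‖ := by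
    intro x hx hx1
    have h2 := LLB_mvt χ hconv (fun z hz => hz.1) (fun z hz => hM z hz.1 hz.2.1 hz.2.2) hmem1
      (hmem x hx hx1)
    have h3 : Dc χ 0 (1 + (x : ℂ) * (s - 1)) =
        DirichletCharacter.LFunction χ (1 + (x : ℂ) * (s - 1)) := by
      rw [LLB_Dc_zero, DirichletCharacter.LFunction_eq_LSeries χ (hmem x hx hx1).1]
    rw [h3] at h2
    refine h2.trans (mul_le_mul_of_nonneg_left ?_ hM0)
    have h4 : s - (1 + (x : ℂ) * (s - 1)) = ((1 - x : ℝ) : ℂ) * (s - 1) := by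
      push_cast
      ring
    rw [h4, norm_mul, Complex.norm_real, Real.norm_eq_abs, abs_of_nonneg (by linarith)]
    have := norm_nonneg (s - 1)
    nlinarith
  have hcont : Tendsto (fun x : ℝ => ‖Dc χ 0 s -
      DirichletCharacter.LFunction χ (1 + (x : ℂ) * (s - 1))‖) (𝓝[>] 0)
      (𝓝 ‖Dc χ 0 s - DirichletCharacter.LFunction χ 1‖) := by
    have hc : Continuous (fun x : ℝ => ‖Dc χ 0 s -
        DirichletCharacter.LFunction χ (1 + (x : ℂ) * (s - 1))‖) := by
      have h5 := (DirichletCharacter.differentiable_LFunction hχ).continuous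
      fun_prop
    have h6 := (hc.tendsto 0).mono_left (nhdsWithin_le_nhds (s := Set.Ioi 0))
    simpa using h6
  refine le_of_tendsto hcont ?_
  have h7 : Set.Ioc (0 : ℝ) 1 ∈ 𝓝[>] (0 : ℝ) := Ioc_mem_nhdsGT one_pos
  filter_upwards [h7] with x hx
  exact h1 x hx.1 hx.2

theorem lall {ε : ℝ} (hε : 0 < ε) : ∃ c : ℝ, 0 < c ∧ ∀ (r : ℕ) [NeZero r]
    (χ : DirichletCharacter ℂ r), χ.IsPrimitive → 1 < r → ∀ s : ℂ, 1 < s.re → s.re ≤ 2 →
      c * (r : ℝ) ^ (-ε) / Real.log (|s.im| + 3) ^ 8 ≤ ‖Dc χ 0 s‖ := by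
  obtain ⟨ca, hca0, hca⟩ := llb_complex
  obtain ⟨cb, hcb0, hcb⟩ := llb_real
  obtain ⟨c1, hc10, hc1⟩ := siegel (ε := ε / 8) (by positivity)
  obtain ⟨CM, hCM0, hCM⟩ := lub 1
  obtain ⟨C8, hC80, hC8⟩ := LALL_pow_log 8 (by norm_num) (δ := ε / 2) (by positivity)
  obtain ⟨C2, hC20, hC2⟩ := LALL_pow_log 2 (by norm_num) (δ := ε / 8) (by positivity)
  -- `ell r t ^ 2 ≤ 4 C2 r^{ε/8}` for `|t| ≤ 1`
  set c2 : ℝ := min 1 (c1 / (2 * (CM * (4 * C2)))) with hc2
  have hc20 : 0 < c2 := lt_min one_pos (by positivity)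
  have hc21 : c2 ≤ 1 := min_le_left _ _
  have hc22 : CM * (4 * C2) * c2 ≤ c1 / 2 := by
    have h1 : c2 ≤ c1 / (2 * (CM * (4 * C2))) := min_le_right _ _
    rw [le_div_iff₀ (by positivity)] at h1
    linarith
  set c : ℝ := min (min (ca / C8) (c1 / 2)) (min (cb * c2 / (3 * C8)) (c2 / 4)) with hc
  have hc0 : 0 < c := lt_min (lt_min (by positivity) (by positivity))
    (lt_min (by positivity) (by positivity))
  refine ⟨c, hc0, ?_⟩
  intro r _ χ hχ hr s hs1 hs2
  have hr1 : 1 ≤ r := hr.le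
  have hr1' : (1 : ℝ) ≤ r := by exact_mod_cast hr1
  have hr0' : (0 : ℝ) < r := by linarith
  have hχ1 : χ ≠ 1 := by
    intro h
    have h1 := (DirichletCharacter.isPrimitive_def χ).1 hχ
    rw [h, DirichletCharacter.conductor_one] at h1
    omega
  set L : ℝ := Real.log (|s.im| + 3) with hL
  have hL1 : 1 ≤ L := LALL_log_ge s.im
  have hL8 : 1 ≤ L ^ 8 := one_le_pow₀ hL1
  have hell := LALL_ell_ge r hr1 s.im
  have hell8 : ell r s.im ^ 8 ≤ C8 * (r : ℝ) ^ (ε / 2) * L ^ 8 := by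
    calc ell r s.im ^ 8 ≤ ((1 + Real.log r) * L) ^ 8 :=
          pow_le_pow_left₀ (by linarith) (LALL_ell_le r hr1 s.im) 8
      _ = (1 + Real.log r) ^ 8 * L ^ 8 := mul_pow _ _ _
      _ ≤ C8 * (r : ℝ) ^ (ε / 2) * L ^ 8 :=
          mul_le_mul_of_nonneg_right (hC8 r hr1') (by positivity)
  have hrε : ∀ a : ℝ, a ≤ ε → (r : ℝ) ^ (-ε) ≤ (r : ℝ) ^ (-a) := fun a ha =>
    Real.rpow_le_rpow_of_exponent_le hr1' (by linarith)
  have hrpos : ∀ a : ℝ, 0 < (r : ℝ) ^ a := fun a => Real.rpow_pos_of_pos hr0' a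
  by_cases hχ2 : χ ^ 2 = 1
  · -- real characters
    set δ : ℝ := c2 * (r : ℝ) ^ (-(ε / 4)) with hδ
    have hδ0 : 0 < δ := mul_pos hc20 (hrpos _)
    have hδ1 : δ ≤ 1 := by
      have h1 : (r : ℝ) ^ (-(ε / 4)) ≤ 1 :=
        Real.rpow_le_one_of_one_le_of_nonpos hr1' (by linarith)
      have h2 := hrpos (-(ε / 4))
      nlinarith
    by_cases hsδ : ‖s - 1‖ ≤ δ
    · -- near `1`
      have him : |s.im| ≤ 1 := by
        have h1 : |(s - 1).im| ≤ ‖s - 1‖ := Complex.abs_im_le_norm _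
        have h2 : (s - 1).im = s.im := by simp
        rw [h2] at h1
        linarith
      have hM : ∀ z : ℂ, 1 < z.re → z.re ≤ 2 → |z.im| ≤ 1 →
          ‖Dc χ 1 z‖ ≤ CM * (4 * C2 * (r : ℝ) ^ (ε / 8)) := by
        intro z hz1 hz2 hz3
        refine (hCM r χ hχ1 z hz1 hz2).trans (mul_le_mul_of_nonneg_left ?_ hCM0.le)
        have h1 : ell r z.im ≤ (1 + Real.log r) * 2 := by
          refine (LALL_ell_le r hr1 z.im).trans (mul_le_mul_of_nonneg_left ?_ ?_)
          · have h2 : Real.log (|z.im| + 3) ≤ Real.log 4 :=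
              Real.log_le_log (by positivity) (by linarith)
            have h3 : Real.log 4 = 2 * Real.log 2 := by
              rw [show (4 : ℝ) = 2 ^ 2 by norm_num, Real.log_pow]
              norm_num
            have h4 := Real.log_two_lt_d9
            linarith
          · have := Real.log_natCast_nonneg r
            linarith
        have h0 := LALL_ell_ge r hr1 z.im
        calc ell r z.im ^ (1 + 1) ≤ ((1 + Real.log r) * 2) ^ (1 + 1) :=
              pow_le_pow_left₀ (by linarith) h1 _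
          _ = 4 * (1 + Real.log r) ^ 2 := by ring
          _ ≤ 4 * (C2 * (r : ℝ) ^ (ε / 8)) :=
              mul_le_mul_of_nonneg_left (hC2 r hr1') (by norm_num)
          _ = 4 * C2 * (r : ℝ) ^ (ε / 8) := by ring
      have h1 := LALL_near hχ1 hM hs1 hs2 him
      have h2 := hc1 r χ hχ hχ1 hχ2
      have h3 : ‖DirichletCharacter.LFunction χ 1‖ - ‖Dc χ 0 s‖ ≤
          ‖Dc χ 0 s - DirichletCharacter.LFunction χ 1‖ := by
        rw [norm_sub_rev]
        exact norm_sub_norm_le _ _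
      have h4 : CM * (4 * C2 * (r : ℝ) ^ (ε / 8)) * ‖s - 1‖ ≤
          c1 / 2 * (r : ℝ) ^ (-(ε / 8)) := by
        have h5 : (r : ℝ) ^ (ε / 8) * (r : ℝ) ^ (-(ε / 4)) = (r : ℝ) ^ (-(ε / 8)) := by
          rw [← Real.rpow_add hr0']
          congr 1
          ring
        calc CM * (4 * C2 * (r : ℝ) ^ (ε / 8)) * ‖s - 1‖
            ≤ CM * (4 * C2 * (r : ℝ) ^ (ε / 8)) * δ :=
              mul_le_mul_of_nonneg_left hsδ (by have := hrpos (ε / 8); positivity)
          _ = CM * (4 * C2) * c2 * ((r : ℝ) ^ (ε / 8) * (r : ℝ) ^ (-(ε / 4))) := by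
              rw [hδ]
              ring
          _ = CM * (4 * C2) * c2 * (r : ℝ) ^ (-(ε / 8)) := by rw [h5]
          _ ≤ c1 / 2 * (r : ℝ) ^ (-(ε / 8)) :=
              mul_le_mul_of_nonneg_right hc22 (hrpos _).le
      have h6 : c1 / 2 * (r : ℝ) ^ (-(ε / 8)) ≤ ‖Dc χ 0 s‖ := by
        have h7 : c1 * (r : ℝ) ^ (-(ε / 8)) = c1 / 2 * (r : ℝ) ^ (-(ε / 8)) +
            c1 / 2 * (r : ℝ) ^ (-(ε / 8)) := by ring
        linarith
      refine le_trans ?_ h6
      have h8 : c ≤ c1 / 2 := (min_le_left _ _).trans (min_le_right _ _)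
      rw [div_le_iff₀ (by positivity)]
      calc c * (r : ℝ) ^ (-ε) ≤ c1 / 2 * (r : ℝ) ^ (-(ε / 8)) :=
            mul_le_mul h8 (hrε _ (by linarith)) (hrpos _).le (by positivity)
        _ = c1 / 2 * (r : ℝ) ^ (-(ε / 8)) * 1 := (mul_one _).symm
        _ ≤ c1 / 2 * (r : ℝ) ^ (-(ε / 8)) * L ^ 8 :=
            mul_le_mul_of_nonneg_left hL8 (by have := hrpos (-(ε / 8)); positivity)
    · rw [not_le] at hsδ
      by_cases ht : δ / 2 ≤ |s.im|
      · have him : 0 < |s.im| := by linarith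
        have hne : s.im ≠ 0 := abs_pos.1 him
        refine le_trans ?_ (hcb r χ hχ1 hχ2 s hs1 hs2 hne)
        have h1 : 1 + 1 / |s.im| ≤ 3 / δ := by
          have h2 : 1 / |s.im| ≤ 1 / (δ / 2) := one_div_le_one_div_of_le (by positivity) ht
          have h3 : 1 / (δ / 2) = 2 / δ := by field_simp
          have h4 : 1 ≤ 1 / δ := by
            rw [le_div_iff₀ hδ0]
            linarith
          have h5 : 3 / δ = 1 / δ + 2 / δ := by ring
          rw [h5]
          linarith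
        have h2 : 3 / δ = 3 / c2 * (r : ℝ) ^ (ε / 4) := by
          rw [hδ, Real.rpow_neg hr0'.le]
          field_simp
        have h3 : ell r s.im ^ 8 * (1 + 1 / |s.im|) ≤
            (3 * C8 / c2) * (r : ℝ) ^ ε * L ^ 8 := by
          have h4 : (r : ℝ) ^ (ε / 2) * (r : ℝ) ^ (ε / 4) ≤ (r : ℝ) ^ ε := by
            rw [← Real.rpow_add hr0']
            exact Real.rpow_le_rpow_of_exponent_le hr1' (by linarith)
          calc ell r s.im ^ 8 * (1 + 1 / |s.im|)
              ≤ (C8 * (r : ℝ) ^ (ε / 2) * L ^ 8) * (3 / c2 * (r : ℝ) ^ (ε / 4)) := by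
                refine mul_le_mul hell8 (h1.trans h2.le) (by positivity) ?_
                have := hrpos (ε / 2)
                positivity
            _ = (3 * C8 / c2) * ((r : ℝ) ^ (ε / 2) * (r : ℝ) ^ (ε / 4)) * L ^ 8 := by ring
            _ ≤ (3 * C8 / c2) * (r : ℝ) ^ ε * L ^ 8 := by
                refine mul_le_mul_of_nonneg_right ?_ (by positivity)
                exact mul_le_mul_of_nonneg_left h4 (by positivity)
        have h5 : c ≤ cb * c2 / (3 * C8) := (min_le_right _ _).trans (min_le_left _ _)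
        have hpos : 0 < ell r s.im ^ 8 * (1 + 1 / |s.im|) := by positivity
        rw [div_le_div_iff₀ (by positivity) hpos]
        have hre := hrpos ε
        have hrn := hrpos (-ε)
        have h6 : (r : ℝ) ^ (-ε) * (r : ℝ) ^ ε = 1 := by
          rw [← Real.rpow_add hr0', neg_add_cancel, Real.rpow_zero]
        calc c * (r : ℝ) ^ (-ε) * (ell r s.im ^ 8 * (1 + 1 / |s.im|))
            ≤ (cb * c2 / (3 * C8)) * (r : ℝ) ^ (-ε) *
                ((3 * C8 / c2) * (r : ℝ) ^ ε * L ^ 8) := by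
              refine mul_le_mul (mul_le_mul_of_nonneg_right h5 hrn.le) h3 hpos.le ?_
              positivity
          _ = (cb * c2 / (3 * C8) * (3 * C8 / c2)) * ((r : ℝ) ^ (-ε) * (r : ℝ) ^ ε) * L ^ 8 := by
              ring
          _ = cb * L ^ 8 := by
              rw [h6]
              field_simp
      · rw [not_le] at ht
        refine le_trans ?_ (llb_triv χ hs1 hs2)
        have h1 : ‖s - 1‖ ≤ |(s - 1).re| + |(s - 1).im| := Complex.norm_le_abs_re_add_abs_im _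
        have h2 : (s - 1).im = s.im := by simp
        have h3 : (s - 1).re = s.re - 1 := by simp
        rw [h2, h3, abs_of_pos (by linarith : 0 < s.re - 1)] at h1
        have h4 : δ / 4 ≤ (s.re - 1) / 2 := by linarith
        refine le_trans ?_ h4
        have h5 : c ≤ c2 / 4 := (min_le_right _ _).trans (min_le_right _ _)
        rw [div_le_iff₀ (by positivity)]
        have h6 : δ / 4 = c2 / 4 * (r : ℝ) ^ (-(ε / 4)) := by
          rw [hδ]
          ring
        rw [h6]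
        calc c * (r : ℝ) ^ (-ε) ≤ c2 / 4 * (r : ℝ) ^ (-(ε / 4)) :=
              mul_le_mul h5 (hrε _ (by linarith)) (hrpos _).le (by positivity)
          _ = c2 / 4 * (r : ℝ) ^ (-(ε / 4)) * 1 := (mul_one _).symm
          _ ≤ c2 / 4 * (r : ℝ) ^ (-(ε / 4)) * L ^ 8 :=
              mul_le_mul_of_nonneg_left hL8 (by have := hrpos (-(ε / 4)); positivity)
  · -- complex characters
    refine le_trans ?_ (hca r χ hχ2 s hs1 hs2)
    have h5 : c ≤ ca / C8 := (min_le_left _ _).trans (min_le_left _ _)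
    have hpos : 0 < ell r s.im ^ 8 := by positivity
    rw [div_le_div_iff₀ (by positivity) hpos]
    have h1 : (r : ℝ) ^ (-ε) * (r : ℝ) ^ (ε / 2) ≤ 1 := by
      rw [← Real.rpow_add hr0']
      exact Real.rpow_le_one_of_one_le_of_nonpos hr1' (by linarith)
    have hrn := hrpos (-ε)
    have hr2 := hrpos (ε / 2)
    calc c * (r : ℝ) ^ (-ε) * ell r s.im ^ 8
        ≤ (ca / C8) * (r : ℝ) ^ (-ε) * (C8 * (r : ℝ) ^ (ε / 2) * L ^ 8) := by
          refine mul_le_mul (mul_le_mul_of_nonneg_right h5 hrn.le) hell8 hpos.le ?_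
          positivity
      _ = (ca / C8 * C8) * ((r : ℝ) ^ (-ε) * (r : ℝ) ^ (ε / 2)) * L ^ 8 := by ring
      _ ≤ (ca / C8 * C8) * 1 * L ^ 8 := by
          refine mul_le_mul_of_nonneg_right ?_ (by positivity)
          exact mul_le_mul_of_nonneg_left h1 (by positivity)
      _ = ca * L ^ 8 := by
          field_simp

end BV

end
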