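import Pool.Agent.Work.BV.LUA

/-!
Module LUT (trivial characters and zeta to the right of 1; size M).

lut0: `|∑_{(n,r)=1} n^{-1-x}| ≤ ζ(1+x) ≤ 1 + 1/x ≤ 2/x`.
lut: `s = σ + it`, `t ≠ 0`, `y = r(|t|+3)`.  The number of `n ≤ u` coprime to `r` is `u φ(r)/r + E(u)`,
`|E(u)| ≤ r` (period `r`).  Terms `n ≤ y`: at most `1 + ℓ`.  Terms `n > y`: summation by parts,
`∑_{n>y,(n,r)=1} n^{-s} = (φ(r)/r) ∫_y^∞ u^{-s} du + O(r (|s|+1) / y)`, and
`|∫_y^∞ u^{-s} du| = y^{1-σ} / |s-1| ≤ 1/|t|`.  Total `≤ C ℓ (1 + 1/|t|)`, `ℓ ≥ 1`.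
luz: `r = 1`, `|t| ≥ 1`, `f(u) = (log u)^j u^{-s}`, `y = |t| + 3`: terms `n ≤ y`: at most `2 ℓ^{j+1}`; terms
`n > y`: `∫_y^∞ f + O(sup_{u ≥ y} |f| + ∫_y^∞ |f'|)`, with `∫_y^∞ |f'| ≤ (|s|+j) ∫_y^∞ (log u)^j u^{-2} du ≤ C ℓ^j`,
and by `j` integrations by parts
`∫_y^∞ (log u)^j u^{-s} du = ∑_{i≤j} (j!/(j-i)!) (log y)^{j-i} y^{1-s} / (s-1)^{i+1}`, at most `C_j ℓ^j`.
-/

set_option autoImplicit false

open Finset Filter MeasureTheory Topology
open scoped ContDiff ArithmeticFunction.Moebius ArithmeticFunction.vonMangoldt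

noncomputable section

namespace BV

private theorem lut_step (x : ℝ) (hx : 0 < x) (M : ℕ) (hM : 1 ≤ M) :
    ((M + 1 : ℕ) : ℝ) ^ (-(1 + x)) ≤ ((M : ℝ) ^ (-x) - ((M + 1 : ℕ) : ℝ) ^ (-x)) / x := by
  have hM0 : (0 : ℝ) < M := by exact_mod_cast hM
  push_cast
  have hM1 : (0 : ℝ) < (M : ℝ) + 1 := by linarith
  have h1 : ((M : ℝ) + 1) ^ (-(1 + x)) = ((M : ℝ) + 1) ^ (-x) * (1 / ((M : ℝ) + 1)) := by
    rw [show -(1 + x) = -x + -1 by ring, Real.rpow_add hM1, Real.rpow_neg_one, one_div]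
  have h2 : (M : ℝ) ^ (-x) = ((M : ℝ) + 1) ^ (-x) * (((M : ℝ) + 1) / M) ^ x := by
    rw [Real.div_rpow hM1.le hM0.le, Real.rpow_neg hM1.le, Real.rpow_neg hM0.le]
    have := Real.rpow_pos_of_pos hM1 x
    have := Real.rpow_pos_of_pos hM0 x
    field_simp
  have h3 : 1 + x * (1 / ((M : ℝ) + 1)) ≤ (((M : ℝ) + 1) / M) ^ x := by
    have h4 := Real.one_sub_inv_le_log_of_pos (div_pos hM1 hM0)
    have h5 : 1 - (((M : ℝ) + 1) / M)⁻¹ = 1 / ((M : ℝ) + 1) := by
      field_simp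
      ring
    rw [h5] at h4
    rw [Real.rpow_def_of_pos (div_pos hM1 hM0)]
    have h6 := Real.add_one_le_exp (Real.log (((M : ℝ) + 1) / M) * x)
    nlinarith
  rw [le_div_iff₀ hx, h1, h2]
  have h7 : 0 < ((M : ℝ) + 1) ^ (-x) := Real.rpow_pos_of_pos hM1 _
  nlinarith

theorem lut0 : ∃ C : ℝ, 0 < C ∧ ∀ (r : ℕ) [NeZero r] (x : ℝ), 0 < x → x ≤ 1 →
    ‖Dc (1 : DirichletCharacter ℂ r) 0 (1 + x)‖ ≤ C / x := by
  refine ⟨2, by norm_num, ?_⟩
  intro r _ x hx hx1
  unfold Dc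
  refine lua_lim _ _ _ 0 (fun _ => 0) tendsto_const_nhds (by positivity) ?_
  intro M _
  rw [sub_zero, lua_range]
  have h1 : ∀ n ∈ Finset.Ico 1 M, ‖(1 : DirichletCharacter ℂ r) n * luf 0 (1 + (x : ℂ)) n‖ ≤
      (n : ℝ) ^ (-(1 + x)) := by
    intro n hn
    have hn1 : (0 : ℝ) < n := by exact_mod_cast (Finset.mem_Ico.1 hn).1
    rw [norm_mul]
    have h2 : ‖luf 0 (1 + (x : ℂ)) n‖ = (n : ℝ) ^ (-(1 + x)) := by
      unfold luf
      rw [pow_zero, one_mul, Complex.norm_cpow_eq_rpow_re_of_pos hn1]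
      simp
    rw [h2]
    exact mul_le_of_le_one_left (Real.rpow_nonneg hn1.le _)
      ((1 : DirichletCharacter ℂ r).norm_le_one _)
  refine (norm_sum_le _ _).trans ((Finset.sum_le_sum h1).trans ?_)
  have h3 : ∀ M : ℕ, 1 ≤ M → ∑ n ∈ Finset.Ico 1 (M + 1), (n : ℝ) ^ (-(1 + x)) ≤
      1 + (1 - (M : ℝ) ^ (-x)) / x := by
    intro M hM
    induction M, hM using Nat.le_induction with
    | base => simp
    | succ n hn ih =>
      rw [Finset.sum_Ico_succ_top (by omega)]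
      have h4 := lut_step x hx n hn
      have h5 : 1 + (1 - ((n + 1 : ℕ) : ℝ) ^ (-x)) / x = 1 + (1 - (n : ℝ) ^ (-x)) / x +
          ((n : ℝ) ^ (-x) - ((n + 1 : ℕ) : ℝ) ^ (-x)) / x := by
        field_simp
        ring
      rw [h5]
      exact add_le_add ih h4
  rcases Nat.lt_or_ge M 2 with hM2 | hM2
  · rw [Finset.Ico_eq_empty (by omega), Finset.sum_empty]
    positivity
  · obtain ⟨k, rfl⟩ : ∃ k, M = k + 1 := ⟨M - 1, by omega⟩
    refine (h3 k (by omega)).trans ?_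
    have h6 : 0 ≤ (k : ℝ) ^ (-x) := by positivity
    rw [le_div_iff₀ hx]
    have h7 : (1 + (1 - (k : ℝ) ^ (-x)) / x) * x = x + (1 - (k : ℝ) ^ (-x)) := by
      field_simp
    rw [h7]
    linarith

/-- minus a primitive of `luf` -/
private def lutF (s : ℂ) : ℕ → ℝ → ℂ
  | 0, u => (u : ℂ) ^ (1 - s) / (s - 1)
  | (j + 1), u => ((Real.log u : ℂ) ^ (j + 1) * (u : ℂ) ^ (1 - s) + (j + 1) * lutF s j u) / (s - 1)

private theorem lutF_deriv (s : ℂ) (hs : s ≠ 1) (j : ℕ) (u : ℝ) (hu : 0 < u) :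
    HasDerivAt (lutF s j) (-luf j s u) u := by
  have hs' : s - 1 ≠ 0 := sub_ne_zero.2 hs
  have hs2 : (1 - s) ≠ 0 := fun hc => hs (by linear_combination -hc)
  have h0 : HasDerivAt (fun u : ℝ => (u : ℂ) ^ (1 - s)) ((1 - s) * (u : ℂ) ^ (1 - s - 1)) u :=
    hasDerivAt_ofReal_cpow_const (x := u) hu.ne' hs2
  have e0 : (1 : ℂ) - s - 1 = -s := by ring
  rw [e0] at h0
  have hu' : (u : ℂ) ≠ 0 := by exact_mod_cast hu.ne'
  induction j with
  | zero =>
    have h1 := h0.div_const (s - 1)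
    refine h1.congr_deriv ?_
    unfold luf
    rw [pow_zero, one_mul, div_eq_iff hs']
    ring
  | succ j ih =>
    have h1 : HasDerivAt (fun u : ℝ => (Real.log u : ℂ) ^ (j + 1))
        (((j + 1 : ℕ) : ℂ) * (Real.log u : ℂ) ^ (j + 1 - 1) * ((u⁻¹ : ℝ) : ℂ)) u :=
      (Real.hasDerivAt_log hu.ne').ofReal_comp.pow (j + 1)
    have h2 := ((h1.mul h0).add (ih.const_mul ((j : ℂ) + 1))).div_const (s - 1)
    refine h2.congr_deriv ?_
    unfold luf
    rw [div_eq_iff hs', Nat.add_sub_cancel, show (1 : ℂ) - s = -s + 1 by ring,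
      Complex.cpow_add _ _ hu', Complex.cpow_one]
    push_cast
    field_simp
    ring

private theorem lutF_norm (s : ℂ) (hs1 : 1 ≤ s.re) (j : ℕ) (u : ℝ) (hu : 1 ≤ Real.log u)
    (hu1 : 1 ≤ u) (h1 : 1 ≤ ‖s - 1‖) :
    ‖lutF s j u‖ ≤ ((j + 1).factorial : ℝ) * Real.log u ^ j := by
  have hu0 : 0 < u := by linarith
  have hc : ‖(u : ℂ) ^ (1 - s)‖ ≤ 1 := by
    rw [Complex.norm_cpow_eq_rpow_re_of_pos hu0]
    apply Real.rpow_le_one_of_one_le_of_nonpos hu1
    simp only [Complex.sub_re, Complex.one_re]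
    linarith
  induction j with
  | zero =>
    unfold lutF
    rw [norm_div, zero_add, Nat.factorial_one, pow_zero, Nat.cast_one, one_mul]
    exact div_le_one_of_le₀ (hc.trans h1) (norm_nonneg _)
  | succ j ih =>
    unfold lutF
    rw [norm_div]
    have h2 : ‖(Real.log u : ℂ) ^ (j + 1) * (u : ℂ) ^ (1 - s) + (j + 1) * lutF s j u‖ ≤
        Real.log u ^ (j + 1) + (j + 1) * (((j + 1).factorial : ℝ) * Real.log u ^ j) := by
      refine (norm_add_le _ _).trans (add_le_add ?_ ?_)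
      · rw [norm_mul, norm_pow, Complex.norm_real, Real.norm_of_nonneg (by linarith)]
        exact mul_le_of_le_one_right (by positivity) hc
      · rw [norm_mul]
        have h3 : ‖(j : ℂ) + 1‖ = (j : ℝ) + 1 := by
          have := Complex.norm_natCast (j + 1)
          push_cast at this
          exact this
        rw [h3]
        exact mul_le_mul_of_nonneg_left ih (by positivity)
    have h4 : Real.log u ^ j ≤ Real.log u ^ (j + 1) := pow_le_pow_right₀ hu (Nat.le_succ j)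
    have h5 : (1 : ℝ) ≤ ((j + 1).factorial : ℝ) := by exact_mod_cast Nat.factorial_pos (j + 1)
    have h6 : (((j + 1 + 1).factorial : ℕ) : ℝ) = ((j : ℝ) + 2) * ((j + 1).factorial : ℝ) := by
      rw [Nat.factorial_succ (j + 1)]
      push_cast
      ring
    rw [div_le_iff₀ (by linarith), h6]
    have hj : (0 : ℝ) ≤ j := Nat.cast_nonneg j
    have h7 : 0 < Real.log u ^ (j + 1) := by positivity
    calc ‖(Real.log u : ℂ) ^ (j + 1) * (u : ℂ) ^ (1 - s) + (j + 1) * lutF s j u‖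
        ≤ Real.log u ^ (j + 1) + (j + 1) * (((j + 1).factorial : ℝ) * Real.log u ^ j) := h2
      _ ≤ Real.log u ^ (j + 1) + (j + 1) * (((j + 1).factorial : ℝ) * Real.log u ^ (j + 1)) := by
          gcongr
      _ ≤ ((j : ℝ) + 2) * ((j + 1).factorial : ℝ) * Real.log u ^ (j + 1) := by nlinarith
      _ ≤ ((j : ℝ) + 2) * ((j + 1).factorial : ℝ) * Real.log u ^ (j + 1) * ‖s - 1‖ :=
          le_mul_of_one_le_right (by positivity) h1

private theorem lutF_lim (s : ℂ) (hs1 : 1 < s.re) (j : ℕ) :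
    Tendsto (fun M : ℕ => lutF s j M) atTop (𝓝 0) := by
  have h0 : ∀ k : ℕ, Tendsto (fun M : ℕ => (Real.log (M : ℝ) : ℂ) ^ k * ((M : ℝ) : ℂ) ^ (1 - s))
      atTop (𝓝 0) := by
    intro k
    rw [tendsto_zero_iff_norm_tendsto_zero]
    have h1 : Tendsto (fun u : ℝ => Real.log u ^ k / u ^ (s.re - 1)) atTop (𝓝 0) := by
      have h2 := isLittleO_log_rpow_rpow_atTop (r := (k : ℝ)) (s := s.re - 1) (by linarith)
      have h3 := h2.tendsto_div_nhds_zero
      simpa only [Real.rpow_natCast] using h3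
    have h3 := h1.comp tendsto_natCast_atTop_atTop
    refine h3.congr' ?_
    filter_upwards [eventually_ge_atTop 1] with M hM
    have hM0 : (0 : ℝ) < M := by exact_mod_cast hM
    have hM1 : (1 : ℝ) ≤ M := by exact_mod_cast hM
    simp only [Function.comp]
    rw [norm_mul, norm_pow, Complex.norm_real, Real.norm_of_nonneg (Real.log_nonneg hM1),
      Complex.norm_cpow_eq_rpow_re_of_pos hM0]
    simp only [Complex.sub_re, Complex.one_re]
    rw [div_eq_mul_inv, ← Real.rpow_neg hM0.le, neg_sub]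
  induction j with
  | zero =>
    unfold lutF
    have := (h0 0).div_const (s - 1)
    simpa using this
  | succ j ih =>
    unfold lutF
    have := ((h0 (j + 1)).add (ih.const_mul ((j : ℂ) + 1))).div_const (s - 1)
    simpa using this

private theorem lut_tail (j : ℕ) (C : ℝ) (hC1 : 1 ≤ C)
    (hC : ∀ y u : ℝ, 1 ≤ Real.log y → 0 < y → y ≤ u →
      Real.log u ^ j ≤ C * Real.log y ^ j * Real.sqrt (u / y)) (s : ℂ) (hs : 1 < s.re)
    (y : ℝ) (hy : 1 ≤ Real.log y) (hy0 : 1 ≤ y) (m M : ℕ) (hm : y ≤ m) (hmM : m ≤ M) :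
    ‖∑ n ∈ Finset.Ico m M, luf j s n - (lutF s j m - lutF s j M)‖ ≤
      4 * (j + ‖s‖) * C * Real.log y ^ j / y := by
  have hs1 : s ≠ 1 := fun hc => by
    rw [hc, Complex.one_re] at hs
    exact lt_irrefl _ hs
  have h1 : ∑ n ∈ Finset.Ico m M, luf j s n - (lutF s j m - lutF s j M) =
      ∑ n ∈ Finset.Ico m M, (luf j s n - (lutF s j n - lutF s j ((n + 1 : ℕ) : ℝ))) := by
    induction M, hmM using Nat.le_induction with
    | base => simp
    | succ n hn ih =>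
      rw [Finset.sum_Ico_succ_top hn, Finset.sum_Ico_succ_top hn, ← ih]
      ring
  rw [h1]
  refine (norm_sum_le _ _).trans ?_
  refine luf_var_le j C hC1 s y hy hy0 m M hm
    (fun n => luf j s n - (lutF s j n - lutF s j ((n + 1 : ℕ) : ℝ))) ?_
  intro n hn
  have hnp : (0 : ℝ) < n := by linarith
  set K := (j + ‖s‖) * C * Real.log y ^ j / Real.sqrt y * (1 / ((n : ℝ) * Real.sqrt n)) with hK
  have hK0 : 0 ≤ K := by
    have := norm_nonneg s
    positivity
  have h2 : ∀ u ∈ Set.Icc (n : ℝ) ((n + 1 : ℕ) : ℝ), ‖luf j s u - luf j s n‖ ≤ K * (u - n) :=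
    norm_image_sub_le_of_norm_deriv_le_segment' (f := luf j s)
      (fun u hu => (luf_deriv j s u (lt_of_lt_of_le hnp hu.1)).hasDerivWithinAt)
      (fun u hu => luf_deriv_le j C hC1 hC s hs.le y hy hy0 n hn u hu.1)
  have h3 := norm_image_sub_le_of_norm_deriv_le_segment'
    (f := fun u : ℝ => lutF s j u + luf j s n * ((u : ℂ) - n)) (a := (n : ℝ))
    (b := ((n + 1 : ℕ) : ℝ)) (C := K)
    (f' := fun u => -luf j s u + luf j s n * 1)
    (fun u hu => ((lutF_deriv s hs1 j u (lt_of_lt_of_le hnp hu.1)).add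
      (((Complex.ofRealCLM.hasDerivAt (x := u)).sub_const (n : ℂ)).const_mul
        (luf j s n))).hasDerivWithinAt)
    (fun u hu => by
      have h4 := h2 u ⟨hu.1, hu.2.le⟩
      have h5 : -luf j s u + luf j s n * 1 = -(luf j s u - luf j s n) := by ring
      rw [h5, norm_neg]
      refine h4.trans ?_
      have h6 : u - n ≤ 1 := by
        have := hu.2
        push_cast at this
        linarith
      nlinarith [hu.1])
    ((n + 1 : ℕ) : ℝ) ⟨by push_cast; linarith, le_rfl⟩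
  have h7 : luf j s n - (lutF s j n - lutF s j ((n + 1 : ℕ) : ℝ)) =
      (lutF s j ((n + 1 : ℕ) : ℝ) + luf j s n * ((((n + 1 : ℕ) : ℝ) : ℂ) - n)) -
        (lutF s j n + luf j s n * (((n : ℝ) : ℂ) - n)) := by
    push_cast
    ring
  rw [h7]
  refine h3.trans_eq ?_
  push_cast
  ring

theorem lut : ∃ C : ℝ, 0 < C ∧ ∀ (r : ℕ) [NeZero r] (s : ℂ), 1 < s.re → s.re ≤ 2 → s.im ≠ 0 →
    ‖Dc (1 : DirichletCharacter ℂ r) 0 s‖ ≤ C * ell r s.im * (1 + 1 / |s.im|) := by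
  obtain ⟨C, hC1, hC⟩ := lua_log 0
  refine ⟨2 + 8 * C, by linarith, ?_⟩
  intro r _ s hs1 hs2 hs3
  have hr : 1 ≤ r := Nat.pos_of_ne_zero (NeZero.ne r)
  have hr0 : (0 : ℝ) < r := by exact_mod_cast hr
  have hr1 : (1 : ℝ) ≤ r := by exact_mod_cast hr
  obtain ⟨hl, hy3⟩ := lua_y r hr s.im
  have ht : 0 < |s.im| := abs_pos.2 hs3
  set y : ℝ := (r : ℝ) * (|s.im| + 3) with hy
  have hly : ell r s.im = Real.log y := rfl
  rw [hly] at hl ⊢
  have hy1 : 1 ≤ y := by linarith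
  have hns : ‖s‖ ≤ 2 + |s.im| := by
    have := Complex.norm_le_abs_re_add_abs_im s
    rw [abs_of_pos (by linarith : 0 < s.re)] at this
    linarith
  have ht1 : 0 < 1 / |s.im| := by positivity
  unfold Dc
  refine lua_lim _ s _ (⌊y⌋₊ + 1) (fun _ => 0) tendsto_const_nhds (by positivity) ?_
  intro M hM
  rw [sub_zero, lua_range]
  set m := ⌊y⌋₊ + 1 with hm
  have hm1 : y ≤ m := by
    rw [hm]
    push_cast
    exact (Nat.lt_floor_add_one _).le
  have hm2 : (m : ℝ) - 1 ≤ y := by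
    rw [hm]
    push_cast
    have := Nat.floor_le (by linarith : 0 ≤ y)
    linarith
  rw [← Finset.sum_Ico_consecutive _ (by omega : 1 ≤ m) hM]
  refine (norm_add_le _ _).trans ?_
  have h1 := luf_head_le 0 s hs1.le y hl (fun n => (1 : DirichletCharacter ℂ r) n)
    (fun n => (1 : DirichletCharacter ℂ r).norm_le_one _) m hm2
  rw [zero_add, pow_one] at h1
  -- the mean
  set φ : ℝ := (Nat.totient r : ℝ) / r with hφ
  have hφ0 : 0 ≤ φ := by positivity
  have hφ1 : φ ≤ 1 := by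
    rw [hφ, div_le_one hr0]
    exact_mod_cast Nat.totient_le r
  set a : ZMod r → ℂ := fun x => (1 : DirichletCharacter ℂ r) x - (φ : ℂ) with ha
  have ha0 : ∑ x, a x = 0 := by
    rw [ha]
    simp only [Finset.sum_sub_distrib]
    rw [MulChar.sum_one_eq_card_units, ZMod.card_units_eq_totient, Finset.sum_const,
      Finset.card_univ, ZMod.card, nsmul_eq_mul, hφ]
    push_cast
    have : (r : ℂ) ≠ 0 := by exact_mod_cast hr0.ne'
    field_simp
    ring
  have ha1 : ∀ x, ‖a x‖ ≤ 1 := by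
    intro x
    rw [ha]
    simp only
    by_cases hx : IsUnit x
    · rw [MulChar.one_apply hx, ← Complex.ofReal_one, ← Complex.ofReal_sub, Complex.norm_real, Real.norm_eq_abs,
        abs_le]
      constructor <;> linarith
    · rw [MulChar.map_nonunit _ hx, zero_sub, norm_neg, Complex.norm_real, Real.norm_eq_abs, abs_le]
      constructor <;> linarith
  have h2 : ∑ n ∈ Finset.Ico m M, (1 : DirichletCharacter ℂ r) n * luf 0 s n =
      ∑ n ∈ Finset.Ico m M, a (n : ZMod r) * luf 0 s n +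
        (φ : ℂ) * ∑ n ∈ Finset.Ico m M, luf 0 s n := by
    rw [Finset.mul_sum, ← Finset.sum_add_distrib]
    refine Finset.sum_congr rfl fun n _ => ?_
    rw [ha]
    ring
  rw [h2]
  have h3 := lua_parts_le (fun n => a (n : ZMod r)) (fun n => luf 0 s n) m M hM r
    (fun n => lua_period a ha0 ha1 m n)
  have h4 := luf_val_le 0 C hC s hs1.le y hl hy1 hC1 M (hm1.trans (by exact_mod_cast hM))
  have h5 := luf_var_le 0 C hC1 s y hl hy1 m M hm1
    (fun n => luf 0 s n - luf 0 s ((n + 1 : ℕ) : ℝ)) (fun n hn =>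
      luf_diff_le 0 C hC1 hC s hs1.le y hl hy1 n hn)
  have h6 := lut_tail 0 C hC1 hC s hs1 y hl hy1 m M hm1 hM
  have hns1 : |s.im| ≤ ‖s - 1‖ := by
    have := Complex.abs_im_le_norm (s - 1)
    simpa using this
  have hF : ∀ u : ℝ, 1 ≤ u → ‖lutF s 0 u‖ ≤ 1 / |s.im| := by
    intro u hu
    unfold lutF
    rw [norm_div, Complex.norm_cpow_eq_rpow_re_of_pos (by linarith)]
    refine div_le_div₀ zero_le_one ?_ ht hns1
    apply Real.rpow_le_one_of_one_le_of_nonpos hu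
    simp only [Complex.sub_re, Complex.one_re]
    linarith
  have hm1' : (1 : ℝ) ≤ m := by linarith
  have hM1' : (1 : ℝ) ≤ M := by
    have : (m : ℝ) ≤ M := by exact_mod_cast hM
    linarith
  have h7 : ‖∑ n ∈ Finset.Ico m M, luf 0 s n‖ ≤
      1 / |s.im| + 1 / |s.im| + 4 * ((0 : ℕ) + ‖s‖) * C * Real.log y ^ 0 / y := by
    have e1 : ∑ n ∈ Finset.Ico m M, luf 0 s n = (lutF s 0 m - lutF s 0 M) +
        (∑ n ∈ Finset.Ico m M, luf 0 s n - (lutF s 0 m - lutF s 0 M)) := by ring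
    rw [e1]
    refine (norm_add_le _ _).trans (add_le_add ?_ h6)
    exact (norm_sub_le _ _).trans (add_le_add (hF m hm1') (hF M hM1'))
  rw [pow_zero, mul_one] at h4
  rw [pow_zero, mul_one, Nat.cast_zero, zero_add] at h5 h7
  have h8 : (r : ℝ) * (‖luf 0 s M‖ + ∑ n ∈ Finset.Ico m M,
      ‖luf 0 s n - luf 0 s ((n + 1 : ℕ) : ℝ)‖) ≤ r * (C / y + 4 * (2 + |s.im|) * C / y) := by
    refine mul_le_mul_of_nonneg_left (add_le_add h4 (h5.trans ?_)) hr0.le
    gcongr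
  have h9 : (r : ℝ) * (C / y + 4 * (2 + |s.im|) * C / y) ≤ 4 * C := by
    have e1 : (r : ℝ) * (C / y + 4 * (2 + |s.im|) * C / y) =
        C * ((1 + 4 * (2 + |s.im|)) / (|s.im| + 3)) := by
      rw [hy]
      field_simp
    rw [e1]
    have e2 : (1 + 4 * (2 + |s.im|)) / (|s.im| + 3) ≤ 4 := by
      rw [div_le_iff₀ (by positivity)]
      linarith
    calc C * ((1 + 4 * (2 + |s.im|)) / (|s.im| + 3)) ≤ C * 4 :=
          mul_le_mul_of_nonneg_left e2 (by linarith)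
      _ = 4 * C := by ring
  have h10 : 4 * ‖s‖ * C / y ≤ 4 * C := by
    rw [div_le_iff₀ (by linarith)]
    have e3 : ‖s‖ ≤ y := by
      rw [hy]
      nlinarith
    nlinarith
  have h11 : ‖(φ : ℂ) * ∑ n ∈ Finset.Ico m M, luf 0 s n‖ ≤ 2 * (1 / |s.im|) + 4 * C := by
    rw [norm_mul, Complex.norm_real, Real.norm_of_nonneg hφ0]
    have := norm_nonneg (∑ n ∈ Finset.Ico m M, luf 0 s n)
    nlinarith
  have h12 : ‖∑ n ∈ Finset.Ico m M, a (n : ZMod r) * luf 0 s n‖ ≤ 4 * C :=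
    h3.trans (h8.trans h9)
  have h13 := norm_add_le (∑ n ∈ Finset.Ico m M, a (n : ZMod r) * luf 0 s n)
    ((φ : ℂ) * ∑ n ∈ Finset.Ico m M, luf 0 s n)
  have h14 : (2 + 8 * C) * Real.log y * (1 + 1 / |s.im|) ≥
      2 * Real.log y + 8 * C + 2 * (1 / |s.im|) := by
    have q1 : 8 * C ≤ 8 * C * Real.log y := le_mul_of_one_le_right (by linarith) hl
    have q2 : 2 * (1 / |s.im|) ≤ 2 * Real.log y * (1 / |s.im|) :=
      mul_le_mul_of_nonneg_right (by linarith) ht1.le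
    have q3 : 0 ≤ 8 * C * Real.log y * (1 / |s.im|) := by positivity
    nlinarith
  linarith

theorem luz (j : ℕ) : ∃ C : ℝ, 0 < C ∧ ∀ s : ℂ, 1 < s.re → s.re ≤ 2 → 1 ≤ |s.im| →
    ‖Dc (1 : DirichletCharacter ℂ 1) j s‖ ≤ C * ell 1 s.im ^ (j + 1) := by
  obtain ⟨C, hC1, hC⟩ := lua_log j
  refine ⟨2 + ((j + 1).factorial : ℝ) * 2 ^ j + 4 * (j + 1) * C, by positivity, ?_⟩
  intro s hs1 hs2 hs3
  obtain ⟨hl, hy3⟩ := lua_y 1 le_rfl s.im
  set y : ℝ := ((1 : ℕ) : ℝ) * (|s.im| + 3) with hy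
  have hly : ell 1 s.im = Real.log y := rfl
  rw [hly] at hl ⊢
  have hy1 : 1 ≤ y := by linarith
  have hy4 : y = |s.im| + 3 := by rw [hy, Nat.cast_one, one_mul]
  have hns : ‖s‖ ≤ 2 + |s.im| := by
    have := Complex.norm_le_abs_re_add_abs_im s
    rw [abs_of_pos (by linarith : 0 < s.re)] at this
    linarith
  unfold Dc
  have hlim : Tendsto (fun M : ℕ => -lutF s j M) atTop (𝓝 0) := by
    have := (lutF_lim s hs1 j).neg
    rwa [neg_zero] at this
  refine lua_lim _ s _ (⌊y⌋₊ + 1) (fun M => -lutF s j M) hlim (by positivity) ?_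
  intro M hM
  rw [lua_range]
  set m := ⌊y⌋₊ + 1 with hm
  have hm1 : y ≤ m := by
    rw [hm]
    push_cast
    exact (Nat.lt_floor_add_one _).le
  have hm2 : (m : ℝ) - 1 ≤ y := by
    rw [hm]
    push_cast
    have := Nat.floor_le (by linarith : 0 ≤ y)
    linarith
  rw [← Finset.sum_Ico_consecutive _ (by omega : 1 ≤ m) hM]
  have h1 := luf_head_le j s hs1.le y hl (fun n => (1 : DirichletCharacter ℂ 1) n)
    (fun n => (1 : DirichletCharacter ℂ 1).norm_le_one _) m hm2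
  have h2 : ∑ n ∈ Finset.Ico m M, (1 : DirichletCharacter ℂ 1) n * luf j s n =
      ∑ n ∈ Finset.Ico m M, luf j s n := by
    refine Finset.sum_congr rfl fun n _ => ?_
    rw [MulChar.one_apply (isUnit_of_subsingleton _), one_mul]
  rw [h2]
  have h6 := lut_tail j C hC1 hC s hs1 y hl hy1 m M hm1 hM
  have hns1 : |s.im| ≤ ‖s - 1‖ := by
    have := Complex.abs_im_le_norm (s - 1)
    simpa using this
  have hm1' : (1 : ℝ) ≤ m := by linarith
  have hlm : Real.log m ≤ 2 * Real.log y := by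
    have e1 : (m : ℝ) ≤ y ^ 2 := by nlinarith
    calc Real.log m ≤ Real.log (y ^ 2) := Real.log_le_log (by linarith) e1
      _ = 2 * Real.log y := by rw [Real.log_pow]; push_cast; ring
  have hlm1 : 1 ≤ Real.log m := hl.trans (Real.log_le_log (by linarith) hm1)
  have h7 := lutF_norm s hs1.le j m hlm1 hm1' (hs3.trans hns1)
  have h8 : ((j + 1).factorial : ℝ) * Real.log m ^ j ≤
      ((j + 1).factorial : ℝ) * 2 ^ j * Real.log y ^ (j + 1) := by
    have e1 : Real.log m ^ j ≤ (2 * Real.log y) ^ j := pow_le_pow_left₀ (by linarith) hlm j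
    rw [mul_pow] at e1
    have e2 : Real.log y ^ j ≤ Real.log y ^ (j + 1) := pow_le_pow_right₀ hl (Nat.le_succ j)
    calc ((j + 1).factorial : ℝ) * Real.log m ^ j
        ≤ ((j + 1).factorial : ℝ) * (2 ^ j * Real.log y ^ j) := by gcongr
      _ ≤ ((j + 1).factorial : ℝ) * (2 ^ j * Real.log y ^ (j + 1)) := by gcongr
      _ = _ := by ring
  have h9 : 4 * (j + ‖s‖) * C * Real.log y ^ j / y ≤ 4 * (j + 1) * C * Real.log y ^ (j + 1) := by
    have hj : (0 : ℝ) ≤ j := Nat.cast_nonneg j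
    have e2 : Real.log y ^ j ≤ Real.log y ^ (j + 1) := pow_le_pow_right₀ hl (Nat.le_succ j)
    have e3 : (j + ‖s‖) / y ≤ j + 1 := by
      rw [div_le_iff₀ (by linarith), hy4]
      nlinarith [abs_nonneg s.im]
    calc 4 * (j + ‖s‖) * C * Real.log y ^ j / y = 4 * ((j + ‖s‖) / y) * C * Real.log y ^ j := by
          ring
      _ ≤ 4 * (j + 1) * C * Real.log y ^ (j + 1) := by gcongr
  have h10 : ∑ n ∈ Finset.Ico 1 m, (1 : DirichletCharacter ℂ 1) n * luf j s n +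
      ∑ n ∈ Finset.Ico m M, luf j s n - -lutF s j M =
      ∑ n ∈ Finset.Ico 1 m, (1 : DirichletCharacter ℂ 1) n * luf j s n + lutF s j m +
      (∑ n ∈ Finset.Ico m M, luf j s n - (lutF s j m - lutF s j M)) := by ring
  rw [h10]
  refine (norm_add_le _ _).trans ((add_le_add (norm_add_le _ _) le_rfl).trans ?_)
  linarith

end BV

end
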