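import Pool.Agent.Work.BV.LUB
import Pool.Agent.Work.BV.LUT

/-!
Module LLB (lower bounds for L-functions from 3-4-1; size M).

`DirichletCharacter.norm_LSeries_product_ge_one`: for `x > 0`:
`1 ≤ ‖L(1+x, χ₀)‖³ ‖L(1+x+iy, χ)‖⁴ ‖L(1+x+2iy, χ²)‖` (Dirichlet series, `χ₀` trivial mod `r`).
Let `ℓ = ell r y`; `ell r (2y) ≤ 2 ℓ`.  Put `T = 1` if `χ² ≠ 1` and `T = 1 + 1/|y|` if `χ² = 1`; then
`‖L(1+x+2iy, χ²)‖ ≤ C ℓ T` (lub or lut), `‖L(1+x, χ₀)‖ ≤ C/x` (lut0).  So for all `0 < x ≤ 1`: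
`‖L(1+x+iy, χ)‖ ≥ c₁ x^{3/4} (ℓ T)^{-1/4}`.                                                    (1)
Also `‖L(1+x+iy,χ) - L(1+x'+iy,χ)‖ ≤ |x - x'| C₂ ℓ²` for `0 < x, x' ≤ 1` (mean value inequality; the
derivative of the series is `- Dc χ 1`, `LSeries_hasDerivAt`; lub with `j = 1`, for zeta luz).
Take `x₀ = c' ℓ^{-9} T^{-1} ≤ 1`.  For `x ≥ x₀`: (1) gives `≥ c₁ c'^{3/4} ℓ^{-7} T^{-1}`.  For `x < x₀`:
`≥ c₁ c'^{3/4} ℓ^{-7} T^{-1} - C₂ c' ℓ^{-7} T^{-1} ≥ (c₁/2) c'^{3/4} ℓ^{-7} T^{-1}` when `C₂ c'^{1/4} ≤ c₁/2`.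
llb_zeta: the same with `r = 1`, `χ = 1`, `|y| ≥ 1` (lut for the third factor, `1 + 1/|2y| ≤ 2`).
The exponent 8 in the statements is more than enough (`ℓ ≥ 1`).
llb_triv: `‖1/L(s,χ)‖ = ‖∑ μ(n) χ(n) n^{-s}‖ ≤ ∑ n^{-σ} = ζ(σ) ≤ 1 + 1/(σ-1) ≤ 2/(σ-1)`
(`DirichletCharacter.LSeries.mul_mu_eq_one` or the Euler product).
-/

set_option autoImplicit false

open Finset Filter MeasureTheory Topology
open scoped ContDiff ArithmeticFunction.Moebius ArithmeticFunction.vonMangoldt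

noncomputable section

namespace BV

/-- the series itself and its derivative -/
theorem LLB_Dc_zero {r : ℕ} (χ : DirichletCharacter ℂ r) :
    Dc χ 0 = LSeries (fun n => χ n) := by
  funext s
  unfold Dc
  congr 1
  funext n
  rw [pow_zero, mul_one]

theorem LLB_hasDerivAt {r : ℕ} (χ : DirichletCharacter ℂ r) {s : ℂ} (hs : 1 < s.re) :
    HasDerivAt (Dc χ 0) (-Dc χ 1 s) s := by
  have h1 : LSeries.abscissaOfAbsConv (fun n => χ n) ≤ (1 : ℝ) := by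
    refine LSeries.abscissaOfAbsConv_le_of_forall_lt_LSeriesSummable (fun y hy => ?_)
    exact DirichletCharacter.LSeriesSummable_of_one_lt_re χ (by simpa using hy)
  have h2 : LSeries.abscissaOfAbsConv (fun n => χ n) < s.re := by
    refine lt_of_le_of_lt h1 ?_
    exact_mod_cast hs
  have h3 := LSeries_hasDerivAt h2
  rw [LLB_Dc_zero]
  have h4 : Dc χ 1 s = LSeries (LSeries.logMul (fun n => χ n)) s := by
    unfold Dc
    congr 1
    funext n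
    change χ n * (Real.log n : ℂ) ^ 1 = Complex.log n * χ n
    rw [pow_one, Complex.natCast_log, mul_comm]
  rw [h4]
  exact h3

theorem LLB_mvt {r : ℕ} (χ : DirichletCharacter ℂ r) {K : Set ℂ} (hK : Convex ℝ K)
    (hK1 : ∀ z ∈ K, 1 < z.re) {M : ℝ} (hM : ∀ z ∈ K, ‖Dc χ 1 z‖ ≤ M) {z w : ℂ} (hz : z ∈ K)
    (hw : w ∈ K) : ‖Dc χ 0 z - Dc χ 0 w‖ ≤ M * ‖z - w‖ := by
  refine Convex.norm_image_sub_le_of_norm_hasDerivWithin_le (f := Dc χ 0)
    (f' := fun z => -Dc χ 1 z) (fun u hu => (LLB_hasDerivAt χ (hK1 u hu)).hasDerivWithinAt)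
    (fun u hu => ?_) hK hw hz
  rw [norm_neg]
  exact hM u hu

private theorem LLB_core {A B C2 : ℝ} (hA : 0 < A) (hB : 0 < B) (hC2 : 0 < C2) :
    ∃ c : ℝ, 0 < c ∧ ∀ (F : ℝ → ℂ) (l T : ℝ), 1 ≤ l → 1 ≤ T →
      (∀ x, 0 < x → x ≤ 1 → x ^ 3 ≤ A * ‖F x‖ ^ 4 * (B * l * T)) →
      (∀ x x', 0 < x → x ≤ 1 → 0 < x' → x' ≤ 1 → ‖F x - F x'‖ ≤ C2 * l ^ 2 * |x - x'|) →
      ∀ x, 0 < x → x ≤ 1 → c / (l ^ 8 * T) ≤ ‖F x‖ := by
  set b : ℝ := min 1 (1 / (A * B)) with hb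
  have hb0 : 0 < b := lt_min one_pos (by positivity)
  have hb1 : b ≤ 1 := min_le_left _ _
  have hb2 : b * (A * B) ≤ 1 := by
    have h1 : b ≤ 1 / (A * B) := min_le_right _ _
    rwa [le_div_iff₀ (by positivity)] at h1
  set a : ℝ := min 1 (b / (2 * C2)) with ha
  have ha0 : 0 < a := lt_min one_pos (by positivity)
  have ha1 : a ≤ 1 := min_le_left _ _
  have ha2 : C2 * a ≤ b / 2 := by
    have h1 : a ≤ b / (2 * C2) := min_le_right _ _
    rw [le_div_iff₀ (by positivity)] at h1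
    linarith
  refine ⟨b * a ^ 3 / 2, by positivity, ?_⟩
  intro F l T hl hT h1 h2
  have hl0 : 0 < l := by linarith
  have hT0 : 0 < T := by linarith
  set x₀ : ℝ := a ^ 4 / (l ^ 9 * T) with hx₀
  have hx₀0 : 0 < x₀ := by positivity
  have hx₀1 : x₀ ≤ 1 := by
    rw [hx₀, div_le_one (by positivity)]
    have h3 : a ^ 4 ≤ 1 := pow_le_one₀ ha0.le ha1
    have h4 : 1 ≤ l ^ 9 := one_le_pow₀ hl
    nlinarith
  -- the bound for `x ≥ x₀`
  have key : ∀ x, x₀ ≤ x → x ≤ 1 → b * a ^ 3 / (l ^ 7 * T) ≤ ‖F x‖ := by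
    intro x hx hx1
    have hx0 : 0 < x := lt_of_lt_of_le hx₀0 hx
    have h3 := h1 x hx0 hx1
    have h4 : x₀ ^ 3 ≤ x ^ 3 := pow_le_pow_left₀ hx₀0.le hx 3
    have h5 : (b * a ^ 3 / (l ^ 7 * T)) ^ 4 ≤ ‖F x‖ ^ 4 := by
      have h6 : x₀ ^ 3 = a ^ 12 / (l ^ 27 * T ^ 3) := by
        rw [hx₀, div_pow, mul_pow, ← pow_mul, ← pow_mul]
      have h7 : a ^ 12 / (l ^ 27 * T ^ 3) ≤ A * ‖F x‖ ^ 4 * (B * l * T) := by
        rw [← h6]
        exact h4.trans h3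
      have h8 : (b * a ^ 3 / (l ^ 7 * T)) ^ 4 = b ^ 4 * (a ^ 12 / (l ^ 27 * T ^ 3)) / (l * T) := by
        field_simp
      rw [h8, div_le_iff₀ (by positivity)]
      have h9 : b ^ 4 ≤ b := by
        have : b ^ 4 ≤ b ^ 1 := pow_le_pow_of_le_one hb0.le hb1 (by norm_num)
        simpa using this
      calc b ^ 4 * (a ^ 12 / (l ^ 27 * T ^ 3)) ≤ b ^ 4 * (A * ‖F x‖ ^ 4 * (B * l * T)) :=
            mul_le_mul_of_nonneg_left h7 (by positivity)
        _ ≤ b * (A * ‖F x‖ ^ 4 * (B * l * T)) :=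
            mul_le_mul_of_nonneg_right h9 (by positivity)
        _ = (b * (A * B)) * (‖F x‖ ^ 4 * (l * T)) := by ring
        _ ≤ 1 * (‖F x‖ ^ 4 * (l * T)) := mul_le_mul_of_nonneg_right hb2 (by positivity)
        _ = ‖F x‖ ^ 4 * (l * T) := one_mul _
    exact le_of_pow_le_pow_left₀ (by norm_num) (norm_nonneg _) h5
  intro x hx0 hx1
  have hfin : b * a ^ 3 / 2 / (l ^ 8 * T) ≤ b * a ^ 3 / 2 / (l ^ 7 * T) := by
    refine div_le_div_of_nonneg_left (by positivity) (by positivity) ?_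
    refine mul_le_mul_of_nonneg_right ?_ hT0.le
    exact pow_le_pow_right₀ hl (by norm_num)
  refine hfin.trans ?_
  rcases le_or_gt x₀ x with hx | hx
  · refine le_trans ?_ (key x hx hx1)
    refine div_le_div_of_nonneg_right ?_ (by positivity)
    have : 0 < b * a ^ 3 := by positivity
    linarith
  · have h3 := key x₀ le_rfl hx₀1
    have h4 := h2 x₀ x hx₀0 hx₀1 hx0 hx1
    have h5 : ‖F x₀‖ - ‖F x‖ ≤ ‖F x₀ - F x‖ := norm_sub_norm_le _ _
    have h6 : |x₀ - x| ≤ x₀ := by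
      rw [abs_of_pos (by linarith)]
      linarith
    have h7 : C2 * l ^ 2 * |x₀ - x| ≤ C2 * l ^ 2 * x₀ :=
      mul_le_mul_of_nonneg_left h6 (by positivity)
    have h8 : C2 * l ^ 2 * x₀ = (C2 * a) * a ^ 3 / (l ^ 7 * T) := by
      rw [hx₀]
      field_simp
    have h9 : (C2 * a) * a ^ 3 / (l ^ 7 * T) ≤ (b / 2) * a ^ 3 / (l ^ 7 * T) := by
      refine div_le_div_of_nonneg_right ?_ (by positivity)
      exact mul_le_mul_of_nonneg_right ha2 (by positivity)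
    have h10 : b * a ^ 3 / (l ^ 7 * T) = b * a ^ 3 / 2 / (l ^ 7 * T) +
        (b / 2) * a ^ 3 / (l ^ 7 * T) := by
      ring
    linarith

private theorem LLB_log_ge (r : ℕ) (hr : 1 ≤ r) (t : ℝ) : 1 ≤ ell r t := by
  have h1 : 1 ≤ Real.log (|t| + 3) := by
    rw [Real.le_log_iff_exp_le (by positivity)]
    have h1 := Real.exp_one_lt_d9
    have h2 := abs_nonneg t
    linarith
  have h2 : 0 ≤ Real.log (r : ℝ) := Real.log_natCast_nonneg r
  unfold ell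
  have hr0 : (r : ℝ) ≠ 0 := by
    have : r ≠ 0 := by omega
    exact_mod_cast this
  rw [Real.log_mul hr0 (by positivity)]
  linarith

private theorem LLB_ell_two (r : ℕ) (hr : 1 ≤ r) (y : ℝ) : ell r (2 * y) ≤ 2 * ell r y := by
  have hr1 : (1 : ℝ) ≤ r := by exact_mod_cast hr
  have h0 := abs_nonneg y
  have h1 : (2 : ℝ) * ell r y = Real.log ((r * (|y| + 3)) ^ 2) := by
    unfold ell
    rw [Real.log_pow]
    norm_num
  rw [h1]
  unfold ell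
  apply Real.log_le_log (by positivity)
  rw [abs_mul, abs_two]
  have h2 : (r : ℝ) * (2 * |y| + 3) ≤ r * (r * (|y| + 3) ^ 2) := by
    refine mul_le_mul_of_nonneg_left ?_ (by linarith)
    nlinarith [mul_nonneg (by linarith : (0 : ℝ) ≤ r - 1) (sq_nonneg (|y| + 3))]
  calc (r : ℝ) * (2 * |y| + 3) ≤ r * (r * (|y| + 3) ^ 2) := h2
    _ = (r * (|y| + 3)) ^ 2 := by ring

/-- the product inequality -/
private theorem LLB_prod {r : ℕ} [NeZero r] (χ : DirichletCharacter ℂ r) {x : ℝ} (hx : 0 < x)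
    (y : ℝ) {A B : ℝ} (hA : ‖Dc (1 : DirichletCharacter ℂ r) 0 (1 + x)‖ ≤ A / x)
    (hB : ‖Dc (χ ^ 2) 0 (1 + x + 2 * Complex.I * y)‖ ≤ B) :
    x ^ 3 ≤ A ^ 3 * ‖Dc χ 0 (1 + x + Complex.I * y)‖ ^ 4 * B := by
  have h1 := DirichletCharacter.norm_LSeries_product_ge_one χ hx y
  rw [norm_mul, norm_mul, norm_pow, norm_pow] at h1
  rw [LLB_Dc_zero] at hA hB ⊢
  have hA0 : 0 ≤ A / x := (norm_nonneg _).trans hA
  have hB0 : 0 ≤ B := (norm_nonneg _).trans hB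
  have h2 : ‖LSeries (fun n => (1 : DirichletCharacter ℂ r) n) (1 + x)‖ ^ 3 ≤ (A / x) ^ 3 :=
    pow_le_pow_left₀ (norm_nonneg _) hA 3
  have h3 : 1 ≤ (A / x) ^ 3 * ‖LSeries (fun n => χ n) (1 + x + Complex.I * y)‖ ^ 4 * B := by
    refine le_trans h1 ?_
    refine mul_le_mul (mul_le_mul_of_nonneg_right h2 (by positivity)) hB (norm_nonneg _)
      (by positivity)
  have h4 : x ^ 3 * 1 ≤ x ^ 3 *
      ((A / x) ^ 3 * ‖LSeries (fun n => χ n) (1 + x + Complex.I * y)‖ ^ 4 * B) :=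
    mul_le_mul_of_nonneg_left h3 (by positivity)
  rw [mul_one] at h4
  refine h4.trans (le_of_eq ?_)
  field_simp

private theorem LLB_convex (y : ℝ) : Convex ℝ {z : ℂ | 1 < z.re ∧ z.re ≤ 2 ∧ z.im = y} := by
  intro z hz w hw a b ha hb hab
  obtain ⟨hz1, hz2, hz3⟩ := hz
  obtain ⟨hw1, hw2, hw3⟩ := hw
  have hre : (a • z + b • w).re = a * z.re + b * w.re := by simp
  have him : (a • z + b • w).im = a * z.im + b * w.im := by simp
  refine ⟨?_, ?_, ?_⟩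
  · rw [hre]
    have h1 : a * 1 + b * 1 = 1 := by linarith
    rcases ha.eq_or_lt with h | h
    · rw [← h] at hab ⊢
      have : b = 1 := by linarith
      rw [this]
      linarith
    · nlinarith
  · rw [hre]
    nlinarith
  · rw [him, hz3, hw3, ← add_mul, hab, one_mul]

/-- the difference bound -/
private theorem LLB_lip {r : ℕ} (χ : DirichletCharacter ℂ r) (y : ℝ) {M : ℝ}
    (hM : ∀ z : ℂ, 1 < z.re → z.re ≤ 2 → z.im = y → ‖Dc χ 1 z‖ ≤ M) (x x' : ℝ) (hx : 0 < x)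
    (hx1 : x ≤ 1) (hx' : 0 < x') (hx1' : x' ≤ 1) :
    ‖Dc χ 0 (1 + x + Complex.I * y) - Dc χ 0 (1 + x' + Complex.I * y)‖ ≤ M * |x - x'| := by
  have hmem : ∀ u : ℝ, 0 < u → u ≤ 1 → (1 + (u : ℂ) + Complex.I * y) ∈
      {z : ℂ | 1 < z.re ∧ z.re ≤ 2 ∧ z.im = y} := by
    intro u hu hu1
    refine ⟨?_, ?_, ?_⟩
    · simp
      linarith
    · simp
      linarith
    · simp
  have h1 := LLB_mvt χ (LLB_convex y) (fun z hz => hz.1)
    (fun z hz => hM z hz.1 hz.2.1 hz.2.2) (hmem x hx hx1) (hmem x' hx' hx1')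
  have h2 : (1 + (x : ℂ) + Complex.I * y) - (1 + (x' : ℂ) + Complex.I * y) =
      ((x - x' : ℝ) : ℂ) := by
    push_cast
    ring
  rw [h2, Complex.norm_real, Real.norm_eq_abs] at h1
  exact h1

private theorem LLB_repr (s : ℂ) : (1 + ((s.re - 1 : ℝ) : ℂ) + Complex.I * (s.im : ℝ)) = s := by
  apply Complex.ext
  · simp
  · simp

theorem llb_complex : ∃ c : ℝ, 0 < c ∧ ∀ (r : ℕ) [NeZero r] (χ : DirichletCharacter ℂ r),
    χ ^ 2 ≠ 1 → ∀ s : ℂ, 1 < s.re → s.re ≤ 2 → c / ell r s.im ^ 8 ≤ ‖Dc χ 0 s‖ := by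
  obtain ⟨C0, hC00, hC0⟩ := lut0
  obtain ⟨C1, hC10, hC1⟩ := lub 0
  obtain ⟨C2, hC20, hC2⟩ := lub 1
  obtain ⟨c, hc0, hc⟩ := LLB_core (A := C0 ^ 3) (B := 2 * C1) (C2 := C2) (by positivity)
    (by positivity) hC20
  refine ⟨c, hc0, ?_⟩
  intro r _ χ hχ2 s hs1 hs2
  have hr : 1 ≤ r := Nat.pos_of_ne_zero (NeZero.ne r)
  have hχ : χ ≠ 1 := by
    rintro rfl
    exact hχ2 (one_pow 2)
  have hl := LLB_log_ge r hr s.im
  have h1 := hc (fun x => Dc χ 0 (1 + x + Complex.I * (s.im : ℝ))) (ell r s.im) 1 hl le_rfl ?_ ?_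
    (s.re - 1) (by linarith) (by linarith)
  · rw [mul_one] at h1
    change c / ell r s.im ^ 8 ≤ ‖Dc χ 0 (1 + ((s.re - 1 : ℝ) : ℂ) + Complex.I * (s.im : ℝ))‖ at h1
    rw [LLB_repr] at h1
    exact h1
  · intro x hx hx1
    refine LLB_prod χ hx s.im (hC0 r x hx hx1) ?_
    have h2 := hC1 r (χ ^ 2) hχ2 (1 + x + 2 * Complex.I * (s.im : ℝ)) (by simp; linarith)
      (by simp; linarith)
    have h3 : (1 + (x : ℂ) + 2 * Complex.I * (s.im : ℝ)).im = 2 * s.im := by simp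
    rw [h3, zero_add, pow_one] at h2
    refine h2.trans ?_
    have h4 := LLB_ell_two r hr s.im
    nlinarith
  · intro x x' hx hx1 hx' hx1'
    refine LLB_lip χ s.im (fun z hz1 hz2 hz3 => ?_) x x' hx hx1 hx' hx1'
    have h2 := hC2 r χ hχ z hz1 hz2
    rw [hz3] at h2
    exact h2

theorem llb_real : ∃ c : ℝ, 0 < c ∧ ∀ (r : ℕ) [NeZero r] (χ : DirichletCharacter ℂ r), χ ≠ 1 →
    χ ^ 2 = 1 → ∀ s : ℂ, 1 < s.re → s.re ≤ 2 → s.im ≠ 0 →
      c / (ell r s.im ^ 8 * (1 + 1 / |s.im|)) ≤ ‖Dc χ 0 s‖ := by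
  obtain ⟨C0, hC00, hC0⟩ := lut0
  obtain ⟨C1, hC10, hC1⟩ := lut
  obtain ⟨C2, hC20, hC2⟩ := lub 1
  obtain ⟨c, hc0, hc⟩ := LLB_core (A := C0 ^ 3) (B := 2 * C1) (C2 := C2) (by positivity)
    (by positivity) hC20
  refine ⟨c, hc0, ?_⟩
  intro r _ χ hχ hχ2 s hs1 hs2 hs3
  have hr : 1 ≤ r := Nat.pos_of_ne_zero (NeZero.ne r)
  have hl := LLB_log_ge r hr s.im
  have him : 0 < |s.im| := abs_pos.2 hs3
  have hT : (1 : ℝ) ≤ 1 + 1 / |s.im| := by
    have : 0 < 1 / |s.im| := by positivity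
    linarith
  have h1 := hc (fun x => Dc χ 0 (1 + x + Complex.I * (s.im : ℝ))) (ell r s.im)
    (1 + 1 / |s.im|) hl hT ?_ ?_ (s.re - 1) (by linarith) (by linarith)
  · change c / (ell r s.im ^ 8 * (1 + 1 / |s.im|)) ≤
      ‖Dc χ 0 (1 + ((s.re - 1 : ℝ) : ℂ) + Complex.I * (s.im : ℝ))‖ at h1
    rw [LLB_repr] at h1
    exact h1
  · intro x hx hx1
    refine LLB_prod χ hx s.im (hC0 r x hx hx1) ?_
    rw [hχ2]
    have h3 : (1 + (x : ℂ) + 2 * Complex.I * (s.im : ℝ)).im = 2 * s.im := by simp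
    have h2 := hC1 r (1 + x + 2 * Complex.I * (s.im : ℝ)) (by simp; linarith)
      (by simp; linarith) (by rw [h3]; simpa using hs3)
    rw [h3] at h2
    refine h2.trans ?_
    have h4 := LLB_ell_two r hr s.im
    have h5 : 1 + 1 / |2 * s.im| ≤ 1 + 1 / |s.im| := by
      rw [abs_mul, abs_two]
      have : 1 / (2 * |s.im|) ≤ 1 / |s.im| :=
        one_div_le_one_div_of_le him (by linarith)
      linarith
    have h6 : 0 ≤ 1 + 1 / |2 * s.im| := by positivity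
    calc C1 * ell r (2 * s.im) * (1 + 1 / |2 * s.im|)
        ≤ C1 * (2 * ell r s.im) * (1 + 1 / |s.im|) := by
          refine mul_le_mul (mul_le_mul_of_nonneg_left h4 hC10.le) h5 h6 (by positivity)
      _ = 2 * C1 * ell r s.im * (1 + 1 / |s.im|) := by ring
  · intro x x' hx hx1 hx' hx1'
    refine LLB_lip χ s.im (fun z hz1 hz2 hz3 => ?_) x x' hx hx1 hx' hx1'
    have h2 := hC2 r χ hχ z hz1 hz2
    rw [hz3] at h2
    exact h2

theorem llb_zeta : ∃ c : ℝ, 0 < c ∧ ∀ s : ℂ, 1 < s.re → s.re ≤ 2 → 1 ≤ |s.im| →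
    c / ell 1 s.im ^ 8 ≤ ‖Dc (1 : DirichletCharacter ℂ 1) 0 s‖ := by
  obtain ⟨C0, hC00, hC0⟩ := lut0
  obtain ⟨C1, hC10, hC1⟩ := lut
  obtain ⟨C2, hC20, hC2⟩ := luz 1
  obtain ⟨c, hc0, hc⟩ := LLB_core (A := C0 ^ 3) (B := 4 * C1) (C2 := C2) (by positivity)
    (by positivity) hC20
  refine ⟨c, hc0, ?_⟩
  intro s hs1 hs2 hs3
  have hl := LLB_log_ge 1 le_rfl s.im
  have him : 0 < |s.im| := by linarith
  have h1 := hc (fun x => Dc (1 : DirichletCharacter ℂ 1) 0 (1 + x + Complex.I * (s.im : ℝ)))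
    (ell 1 s.im) 1 hl le_rfl ?_ ?_ (s.re - 1) (by linarith) (by linarith)
  · rw [mul_one] at h1
    change c / ell 1 s.im ^ 8 ≤ ‖Dc (1 : DirichletCharacter ℂ 1) 0
      (1 + ((s.re - 1 : ℝ) : ℂ) + Complex.I * (s.im : ℝ))‖ at h1
    rw [LLB_repr] at h1
    exact h1
  · intro x hx hx1
    refine LLB_prod (1 : DirichletCharacter ℂ 1) hx s.im (hC0 1 x hx hx1) ?_
    rw [one_pow]
    have h3 : (1 + (x : ℂ) + 2 * Complex.I * (s.im : ℝ)).im = 2 * s.im := by simp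
    have h2 := hC1 1 (1 + x + 2 * Complex.I * (s.im : ℝ)) (by simp; linarith)
      (by simp; linarith) (by
        rw [h3]
        intro h0
        have : s.im = 0 := by linarith
        rw [this, abs_zero] at him
        exact lt_irrefl _ him)
    rw [h3] at h2
    refine h2.trans ?_
    have h4 := LLB_ell_two 1 le_rfl s.im
    have h5 : 1 + 1 / |2 * s.im| ≤ 2 := by
      rw [abs_mul, abs_two]
      have : 1 / (2 * |s.im|) ≤ 1 := by
        rw [div_le_one (by positivity)]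
        linarith
      linarith
    have h6 : 0 ≤ 1 + 1 / |2 * s.im| := by positivity
    calc C1 * ell 1 (2 * s.im) * (1 + 1 / |2 * s.im|)
        ≤ C1 * (2 * ell 1 s.im) * 2 := by
          refine mul_le_mul (mul_le_mul_of_nonneg_left h4 hC10.le) h5 h6 (by positivity)
      _ = 4 * C1 * ell 1 s.im * 1 := by ring
  · intro x x' hx hx1 hx' hx1'
    refine LLB_lip (1 : DirichletCharacter ℂ 1) s.im (fun z hz1 hz2 hz3 => ?_) x x' hx hx1 hx' hx1'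
    have h2 := hC2 z hz1 hz2 (by rw [hz3]; exact hs3)
    rw [hz3] at h2
    exact h2

private theorem LLB_step {δ : ℝ} (h0 : 0 < δ) {n : ℕ} (hn : 1 ≤ n) :
    ((n + 1 : ℕ) : ℝ) ^ (-(1 + δ)) ≤ (1 / δ) * ((n:ℝ) ^ (-δ) - ((n + 1 : ℕ) : ℝ) ^ (-δ)) := by
  have hn0 : (0:ℝ) < n := by exact_mod_cast hn
  have hm0 : (0:ℝ) < ((n + 1 : ℕ) : ℝ) := by positivity
  have e1 : ((n + 1 : ℕ) : ℝ) ^ (-(1 + δ)) = ((n + 1 : ℕ) : ℝ) ^ (-δ) * (1 / ((n + 1 : ℕ) : ℝ)) := by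
    rw [show -(1 + δ) = -δ + (-1) by ring, Real.rpow_add hm0, Real.rpow_neg_one, one_div]
  have e2 : (1 + δ * (1 / ((n + 1 : ℕ) : ℝ))) * ((n + 1 : ℕ) : ℝ) ^ (-δ) ≤ (n:ℝ) ^ (-δ) := by
    have h1 : (n:ℝ) ^ (-δ) = ((n + 1 : ℕ) : ℝ) ^ (-δ) * ((n:ℝ) / ((n + 1 : ℕ) : ℝ)) ^ (-δ) := by
      rw [← Real.mul_rpow hm0.le (by positivity)]
      congr 1
      field_simp
    have h2 : 1 + δ * (1 / ((n + 1 : ℕ) : ℝ)) ≤ ((n:ℝ) / ((n + 1 : ℕ) : ℝ)) ^ (-δ) := by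
      rw [Real.rpow_def_of_pos (by positivity)]
      have h3 : Real.log ((n:ℝ) / ((n + 1 : ℕ) : ℝ)) ≤ (n:ℝ) / ((n + 1 : ℕ) : ℝ) - 1 :=
        Real.log_le_sub_one_of_pos (by positivity)
      have h4 : (n:ℝ) / ((n + 1 : ℕ) : ℝ) - 1 = -(1 / ((n + 1 : ℕ) : ℝ)) := by
        field_simp
        push_cast
        ring
      have h5 : δ * (1 / ((n + 1 : ℕ) : ℝ)) ≤ Real.log ((n:ℝ) / ((n + 1 : ℕ) : ℝ)) * -δ := by
        rw [h4] at h3
        nlinarith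
      calc 1 + δ * (1 / ((n + 1 : ℕ) : ℝ)) ≤ 1 + Real.log ((n:ℝ) / ((n + 1 : ℕ) : ℝ)) * -δ := by
            linarith
        _ ≤ _ := by
            have := Real.add_one_le_exp (Real.log ((n:ℝ) / ((n + 1 : ℕ) : ℝ)) * -δ)
            linarith
    rw [h1, mul_comm]
    gcongr
  have e3 : δ * (((n + 1 : ℕ) : ℝ) ^ (-δ) * (1 / ((n + 1 : ℕ) : ℝ))) ≤
      (n:ℝ) ^ (-δ) - ((n + 1 : ℕ) : ℝ) ^ (-δ) := by nlinarith
  rw [e1]
  calc ((n + 1 : ℕ) : ℝ) ^ (-δ) * (1 / ((n + 1 : ℕ) : ℝ)) =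
      (1 / δ) * (δ * (((n + 1 : ℕ) : ℝ) ^ (-δ) * (1 / ((n + 1 : ℕ) : ℝ)))) := by
        field_simp
    _ ≤ _ := by gcongr

/-- series with coefficients bounded by one -/
private theorem LLB_series_le {f : ℕ → ℂ} (hf : ∀ n, ‖f n‖ ≤ 1) {s : ℂ} (hs : 1 < s.re)
    (hs2 : s.re ≤ 2) : ‖LSeries f s‖ ≤ 2 / (s.re - 1) := by
  have h0 : 0 < s.re - 1 := by linarith
  have hsum : LSeriesSummable f s :=
    LSeriesSummable_of_bounded_of_one_lt_re (m := 1) (fun n _ => hf n) hs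
  have hn := hsum.norm
  have hb : ∀ n : ℕ, ‖LSeries.term f s n‖ ≤
      if n = 0 then 0 else (n:ℝ) ^ (-(1 + (s.re - 1))) := by
    intro n
    rcases Nat.eq_zero_or_pos n with rfl | hn
    · simp
    · have hn0 : n ≠ 0 := by omega
      rw [LSeries.term_of_ne_zero hn0, if_neg hn0, norm_div,
        Complex.norm_natCast_cpow_of_pos hn, show -(1 + (s.re - 1)) = -s.re by ring,
        Real.rpow_neg (by positivity), ← one_div]
      gcongr
      exact hf n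
  have hb2 : ∀ N : ℕ, ∑ n ∈ Finset.range (N + 2), ‖LSeries.term f s n‖ ≤
      1 + (1 / (s.re - 1)) * (1 - ((N + 1 : ℕ) : ℝ) ^ (-(s.re - 1))) := by
    intro N
    induction N with
    | zero =>
      rw [Finset.sum_range_succ, Finset.sum_range_one]
      have h0 := hb 0
      have h1 := hb 1
      simp at h0 h1
      simp
      linarith
    | succ N ih =>
      rw [Finset.sum_range_succ]
      have h1 := hb (N + 2)
      rw [if_neg (by omega)] at h1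
      have h2 := LLB_step h0 (n := N + 1) (by omega)
      have e : N + 1 + 1 = N + 2 := by omega
      rw [e] at h2 ⊢
      nlinarith
  have hb3 : ∑' n : ℕ, ‖LSeries.term f s n‖ ≤ 1 + 1 / (s.re - 1) := by
    apply Real.tsum_le_of_sum_range_le (fun n => norm_nonneg _)
    intro n
    calc ∑ i ∈ Finset.range n, ‖LSeries.term f s i‖ ≤
        ∑ i ∈ Finset.range (n + 2), ‖LSeries.term f s i‖ :=
          Finset.sum_le_sum_of_subset_of_nonneg (by simp) fun _ _ _ => norm_nonneg _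
      _ ≤ 1 + (1 / (s.re - 1)) * (1 - ((n + 1 : ℕ) : ℝ) ^ (-(s.re - 1))) := hb2 n
      _ ≤ 1 + 1 / (s.re - 1) := by
          have h3 : 0 ≤ ((n + 1 : ℕ) : ℝ) ^ (-(s.re - 1)) := by positivity
          have h4 : 0 ≤ 1 / (s.re - 1) := by positivity
          nlinarith
  calc ‖LSeries f s‖ ≤ ∑' n : ℕ, ‖LSeries.term f s n‖ := norm_tsum_le_tsum_norm hn
    _ ≤ 1 + 1 / (s.re - 1) := hb3
    _ ≤ 2 / (s.re - 1) := by
        have h5 : 1 ≤ 1 / (s.re - 1) := by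
          rw [le_div_iff₀ h0]
          linarith
        have h6 : 2 / (s.re - 1) = 1 / (s.re - 1) + 1 / (s.re - 1) := by ring
        rw [h6]
        linarith

theorem llb_triv {r : ℕ} [NeZero r] (χ : DirichletCharacter ℂ r) {s : ℂ} (hs : 1 < s.re)
    (hs2 : s.re ≤ 2) : (s.re - 1) / 2 ≤ ‖Dc χ 0 s‖ := by
  rw [LLB_Dc_zero]
  have h1 := DirichletCharacter.LSeries.mul_mu_eq_one χ hs
  have h2 : ‖LSeries (fun n => χ n * (ArithmeticFunction.moebius n : ℂ)) s‖ ≤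
      2 / (s.re - 1) := by
    refine LLB_series_le (fun n => ?_) hs hs2
    rw [norm_mul]
    have h3 := DirichletCharacter.norm_le_one χ (n : ZMod r)
    have h4 : ‖(ArithmeticFunction.moebius n : ℂ)‖ ≤ 1 := by
      rw [Complex.norm_intCast]
      exact_mod_cast ArithmeticFunction.abs_moebius_le_one
    exact mul_le_one₀ h3 (norm_nonneg _) h4
  have h5 : ‖LSeries (fun n => χ n) s‖ *
      ‖LSeries (fun n => χ n * (ArithmeticFunction.moebius n : ℂ)) s‖ = 1 := by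
    rw [← norm_mul]
    have h6 : LSeries (fun n => χ n) s *
        LSeries (fun n => χ n * (ArithmeticFunction.moebius n : ℂ)) s = 1 := h1
    rw [h6, norm_one]
  have h0 : 0 < s.re - 1 := by linarith
  have h7 : 1 ≤ ‖LSeries (fun n => χ n) s‖ * (2 / (s.re - 1)) :=
    h5.symm.le.trans (mul_le_mul_of_nonneg_left h2 (norm_nonneg _))
  have h8 : ‖LSeries (fun n => χ n) s‖ * (2 / (s.re - 1)) =
      ‖LSeries (fun n => χ n) s‖ * 2 / (s.re - 1) := by ring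
  rw [h8, le_div_iff₀ h0] at h7
  linarith

end BV

end
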