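import Mathlib

/-!
Module PV (Polya-Vinogradov for primitive characters; Mathlib only; size M).

`χ` primitive mod `r > 1`: `τ(χ̄) χ(m) = ∑_{a mod r} χ̄(a) e(a m / r)` for all `m`
(`gaussSum_mulShift_of_isPrimitive` with `ZMod.stdAddChar`, see
`Mathlib/NumberTheory/DirichletCharacter/GaussSum.lean`), and `|τ(χ̄)|² = r` (sum the square of this
identity over `m mod r` and use orthogonality: `|τ|² φ(r) = r φ(r)`).  So
`|∑_{m<y} χ(m)| ≤ r^{-1/2} ∑_{a=1}^{r-1} |∑_{m<y} e(am/r)| ≤ r^{-1/2} ∑_{a=1}^{r-1} 1/|sin(π a/r)|`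
and `sin(π a / r) ≥ 2 min(a, r-a) / r`, so the last sum is at most `r (1 + log r)`.
polya_sum: summation by parts.
-/

set_option autoImplicit false

open Finset Filter MeasureTheory Topology
open scoped ContDiff ArithmeticFunction.Moebius ArithmeticFunction.vonMangoldt

noncomputable section

namespace BV

theorem PV_norm_char {r : ℕ} [NeZero r] (χ : DirichletCharacter ℂ r) (x : ZMod r) :
    ‖χ x‖ ^ 2 = if IsUnit x then 1 else 0 := by
  split_ifs with h
  · rw [← h.unit_spec, DirichletCharacter.unit_norm_eq_one, one_pow]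
  · rw [MulChar.map_nonunit _ h, norm_zero]
    norm_num

theorem PV_inv_apply {r : ℕ} [NeZero r] (χ : DirichletCharacter ℂ r) (x : ZMod r) :
    χ⁻¹ x = (starRingEnd ℂ) (χ x) := (MulChar.star_apply' χ x).symm

/-- Parseval on `ZMod r` -/
theorem PV_parseval {r : ℕ} [NeZero r] (f : ZMod r → ℂ) :
    ∑ a : ZMod r, ‖∑ x : ZMod r, f x * ZMod.stdAddChar (a * x)‖ ^ 2 = r * ∑ x, ‖f x‖ ^ 2 := by
  have hc : ∀ z : ℂ, ((‖z‖ ^ 2 : ℝ) : ℂ) = z * (starRingEnd ℂ) z := fun z => by
    rw [Complex.mul_conj, Complex.normSq_eq_norm_sq]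
  have h1 : ∀ a : ZMod r, ((‖∑ x : ZMod r, f x * ZMod.stdAddChar (a * x)‖ ^ 2 : ℝ) : ℂ) =
      ∑ x : ZMod r, ∑ y : ZMod r, f x * (starRingEnd ℂ) (f y) *
        ZMod.stdAddChar (a * (x - y)) := by
    intro a
    rw [hc, map_sum, Finset.sum_mul_sum]
    refine Finset.sum_congr rfl fun x _ => Finset.sum_congr rfl fun y _ => ?_
    have e2 : (starRingEnd ℂ) (f y * ZMod.stdAddChar (a * y)) =
        (starRingEnd ℂ) (f y) * ZMod.stdAddChar (-(a * y)) := by
      rw [map_mul (starRingEnd ℂ), AddChar.map_neg_eq_conj]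
    have e : a * (x - y) = a * x + -(a * y) := by ring
    rw [e2, e, AddChar.map_add_eq_mul]
    ring
  have h2 : ((∑ a : ZMod r, ‖∑ x : ZMod r, f x * ZMod.stdAddChar (a * x)‖ ^ 2 : ℝ) : ℂ) =
      ((r * ∑ x, ‖f x‖ ^ 2 : ℝ) : ℂ) := by
    rw [Complex.ofReal_sum, Finset.sum_congr rfl fun a _ => h1 a, Finset.sum_comm]
    have h3 : ∀ x : ZMod r, ∑ a : ZMod r, ∑ y : ZMod r, f x * (starRingEnd ℂ) (f y) *
        ZMod.stdAddChar (a * (x - y)) = (r : ℂ) * ((‖f x‖ ^ 2 : ℝ) : ℂ) := by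
      intro x
      rw [Finset.sum_comm]
      have h4 : ∀ y : ZMod r, ∑ a : ZMod r, f x * (starRingEnd ℂ) (f y) *
          ZMod.stdAddChar (a * (x - y)) = if x = y then (r : ℂ) * ((‖f x‖ ^ 2 : ℝ) : ℂ) else 0 := by
        intro y
        rw [← Finset.mul_sum, AddChar.sum_mulShift _ (ZMod.isPrimitive_stdAddChar r)]
        by_cases hxy : x = y
        · rw [if_pos hxy, if_pos (sub_eq_zero.2 hxy), ← hxy, hc, ZMod.card]
          push_cast
          ring
        · rw [if_neg hxy, if_neg (fun h => hxy (sub_eq_zero.1 h))]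
          push_cast
          ring
      rw [Finset.sum_congr rfl fun y _ => h4 y, Finset.sum_ite_eq]
      simp
    rw [Finset.sum_congr rfl fun x _ => h3 x, ← Finset.mul_sum]
    push_cast
    rfl
  exact_mod_cast h2

theorem PV_sum_sq {r : ℕ} [NeZero r] (χ : DirichletCharacter ℂ r) :
    ∑ x : ZMod r, ‖χ x‖ ^ 2 = Nat.totient r := by
  classical
  rw [Finset.sum_congr rfl fun x _ => PV_norm_char χ x, Finset.sum_boole, ← ZMod.card_units_eq_totient,
    ← Finset.card_univ]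
  congr 1
  refine (Finset.card_bij (fun (u : (ZMod r)ˣ) _ => (u : ZMod r)) ?_ ?_ ?_).symm
  · intro u _
    rw [Finset.mem_filter]
    exact ⟨Finset.mem_univ _, u.isUnit⟩
  · intro u _ v _ h
    exact Units.ext h
  · intro x hx
    rw [Finset.mem_filter] at hx
    exact ⟨hx.2.unit, Finset.mem_univ _, rfl⟩

theorem PV_gauss_sq {r : ℕ} [NeZero r] {χ : DirichletCharacter ℂ r} (hχ : χ.IsPrimitive) :
    ‖gaussSum χ (ZMod.stdAddChar (N := r))‖ ^ 2 = r := by
  have h1 := PV_parseval (r := r) χ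
  have h2 : ∀ a : ZMod r, ∑ x : ZMod r, χ x * ZMod.stdAddChar (a * x) =
      χ⁻¹ a * gaussSum χ (ZMod.stdAddChar (N := r)) := by
    intro a
    rw [← gaussSum_mulShift_of_isPrimitive _ hχ a]
    rfl
  simp_rw [h2, norm_mul, mul_pow] at h1
  rw [← Finset.sum_mul, PV_sum_sq, PV_sum_sq] at h1
  have h3 : (0 : ℝ) < Nat.totient r := by exact_mod_cast Nat.totient_pos.2 (NeZero.pos r)
  have h4 : (Nat.totient r : ℝ) * ‖gaussSum χ (ZMod.stdAddChar (N := r))‖ ^ 2 =
      Nat.totient r * r := by rw [h1]; ring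
  exact mul_left_cancel₀ h3.ne' h4

theorem PV_twist {r : ℕ} [NeZero r] {χ : DirichletCharacter ℂ r} (hχ : χ.IsPrimitive)
    (a : ZMod r) : χ⁻¹ a * gaussSum χ (ZMod.stdAddChar (N := r)) =
      ∑ x : ZMod r, χ x * ZMod.stdAddChar (a * x) := by
  rw [← gaussSum_mulShift_of_isPrimitive _ hχ a]
  rfl

/-- geometric sums -/
theorem PV_geom {r : ℕ} [NeZero r] {k : ℕ} (hk : 0 < k) (hkr : k < r) (y : ℕ) :
    ‖∑ m ∈ Finset.range y, ZMod.stdAddChar ((m : ZMod r) * (k : ZMod r))‖ ≤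
      r / 2 * (1 / (k : ℝ) + 1 / ((r - k : ℕ) : ℝ)) := by
  have hr0 : (0 : ℝ) < r := by exact_mod_cast NeZero.pos r
  have hk0 : (0 : ℝ) < k := by exact_mod_cast hk
  have hkr' : (k : ℝ) < r := by exact_mod_cast hkr
  have hsub : ((r - k : ℕ) : ℝ) = r - k := by rw [Nat.cast_sub hkr.le]
  rw [hsub]
  obtain ⟨z, hz⟩ : ∃ z : ℂ, z = ZMod.stdAddChar (k : ZMod r) := ⟨_, rfl⟩
  have hz' : z = Complex.exp (Complex.I * ((2 * Real.pi * (k / r) : ℝ) : ℂ)) := by
    have h := ZMod.stdAddChar_coe (N := r) (k : ℤ)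
    rw [hz]
    rw [Int.cast_natCast] at h
    rw [h]
    congr 1
    push_cast
    ring
  have hpow : ∀ m : ℕ, ZMod.stdAddChar ((m : ZMod r) * (k : ZMod r)) = z ^ m := by
    intro m
    rw [hz, ← AddChar.map_nsmul_eq_pow, nsmul_eq_mul]
  simp_rw [hpow]
  have hn1 : ‖z‖ = 1 := by
    rw [hz', mul_comm, Complex.norm_exp_ofReal_mul_I]
  have hsin : 2 * min (k : ℝ) (r - k) / r ≤ Real.sin (Real.pi * (k / r)) := by
    have hpi := Real.pi_pos
    rcases le_total (k : ℝ) (r / 2) with h | h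
    · rw [min_eq_left (by linarith)]
      have h1 : 2 / Real.pi * (Real.pi * (k / r)) ≤ Real.sin (Real.pi * (k / r)) := by
        refine Real.mul_le_sin (by positivity) ?_
        have : (k : ℝ) / r ≤ 1 / 2 := by rw [div_le_iff₀ hr0]; linarith
        nlinarith
      have h2 : 2 / Real.pi * (Real.pi * (k / r)) = 2 * k / r := by field_simp
      rwa [h2] at h1
    · rw [min_eq_right (by linarith)]
      have h1 : 2 / Real.pi * (Real.pi * ((r - k) / r)) ≤ Real.sin (Real.pi * ((r - k) / r)) := by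
        refine Real.mul_le_sin ?_ ?_
        · have : 0 ≤ (r : ℝ) - k := by linarith
          positivity
        · have : ((r : ℝ) - k) / r ≤ 1 / 2 := by rw [div_le_iff₀ hr0]; linarith
          nlinarith
      have h2 : 2 / Real.pi * (Real.pi * (((r : ℝ) - k) / r)) = 2 * (r - k) / r := by field_simp
      have h3 : Real.sin (Real.pi * ((r - k) / r)) = Real.sin (Real.pi * (k / r)) := by
        rw [← Real.sin_pi_sub]
        congr 1
        field_simp
        ring
      rw [h2, h3] at h1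
      exact h1
  have hmin : 0 < min (k : ℝ) (r - k) := lt_min hk0 (by linarith)
  have hz1 : 4 * min (k : ℝ) (r - k) / r ≤ ‖z - 1‖ := by
    rw [hz', Complex.norm_exp_I_mul_ofReal_sub_one]
    have e : (2 * Real.pi * ((k : ℝ) / r)) / 2 = Real.pi * (k / r) := by ring
    rw [e, norm_mul, Real.norm_of_nonneg (by norm_num : (0 : ℝ) ≤ 2)]
    have h1 := le_abs_self (Real.sin (Real.pi * (k / r)))
    rw [Real.norm_eq_abs]
    have h2 : 4 * min (k : ℝ) (r - k) / r = 2 * (2 * min (k : ℝ) (r - k) / r) := by ring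
    rw [h2]
    linarith
  have hzne : z ≠ 1 := by
    intro h
    rw [h, sub_self, norm_zero] at hz1
    have : 0 < 4 * min (k : ℝ) (r - k) / r := by positivity
    linarith
  rw [geom_sum_eq hzne, norm_div]
  have hnum : ‖z ^ y - 1‖ ≤ 2 := by
    refine (norm_sub_le _ _).trans ?_
    rw [norm_pow, hn1, one_pow, norm_one]
    norm_num
  have hpos : 0 < 4 * min (k : ℝ) (r - k) / r := by positivity
  calc ‖z ^ y - 1‖ / ‖z - 1‖ ≤ 2 / (4 * min (k : ℝ) (r - k) / r) :=
        div_le_div₀ (by norm_num) hnum hpos hz1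
    _ = r / 2 * (1 / min (k : ℝ) (r - k)) := by field_simp; ring
    _ ≤ r / 2 * (1 / (k : ℝ) + 1 / (r - k)) := by
        refine mul_le_mul_of_nonneg_left ?_ (by positivity)
        have h1 : 0 < 1 / (k : ℝ) := by positivity
        have h2 : 0 < 1 / ((r : ℝ) - k) := by
          have : 0 < (r : ℝ) - k := by linarith
          positivity
        rcases min_choice (k : ℝ) (r - k) with h | h <;> rw [h] <;> linarith

theorem polya {r : ℕ} [NeZero r] (hr : 1 < r) {χ : DirichletCharacter ℂ r} (hχ : χ.IsPrimitive)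
    (y : ℕ) : ‖∑ m ∈ Finset.range y, χ m‖ ≤ Real.sqrt r * (1 + Real.log r) := by
  have hr0 : (0 : ℝ) < r := by exact_mod_cast NeZero.pos r
  have hconj : ‖∑ m ∈ Finset.range y, χ m‖ = ‖∑ m ∈ Finset.range y, χ⁻¹ (m : ZMod r)‖ := by
    rw [← Complex.norm_conj, map_sum]
    simp_rw [PV_inv_apply]
  have h1 : (∑ m ∈ Finset.range y, χ⁻¹ (m : ZMod r)) * gaussSum χ (ZMod.stdAddChar (N := r)) =
      ∑ x : ZMod r, χ x * ∑ m ∈ Finset.range y, ZMod.stdAddChar ((m : ZMod r) * x) := by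
    calc (∑ m ∈ Finset.range y, χ⁻¹ (m : ZMod r)) * gaussSum χ (ZMod.stdAddChar (N := r))
        = ∑ m ∈ Finset.range y, χ⁻¹ (m : ZMod r) * gaussSum χ (ZMod.stdAddChar (N := r)) :=
          Finset.sum_mul _ _ _
      _ = ∑ m ∈ Finset.range y, ∑ x : ZMod r, χ x * ZMod.stdAddChar ((m : ZMod r) * x) :=
          Finset.sum_congr rfl fun m _ => PV_twist hχ (m : ZMod r)
      _ = ∑ x : ZMod r, ∑ m ∈ Finset.range y, χ x * ZMod.stdAddChar ((m : ZMod r) * x) :=
          Finset.sum_comm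
      _ = _ := Finset.sum_congr rfl fun x _ => (Finset.mul_sum _ _ _).symm
  have h2 : ‖∑ x : ZMod r, χ x * ∑ m ∈ Finset.range y, ZMod.stdAddChar ((m : ZMod r) * x)‖ ≤
      r * (1 + Real.log r) := by
    have hbij : ∑ x : ZMod r, χ x * ∑ m ∈ Finset.range y, ZMod.stdAddChar ((m : ZMod r) * x) =
        ∑ k ∈ Finset.range r, χ (k : ZMod r) *
          ∑ m ∈ Finset.range y, ZMod.stdAddChar ((m : ZMod r) * (k : ZMod r)) := by
      symm
      refine Finset.sum_bij (fun k _ => (k : ZMod r)) (fun k _ => Finset.mem_univ _) ?_ ?_ ?_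
      · intro a ha b hb hab
        rw [Finset.mem_range] at ha hb
        have := (ZMod.natCast_eq_natCast_iff' a b r).1 hab
        rwa [Nat.mod_eq_of_lt ha, Nat.mod_eq_of_lt hb] at this
      · intro x _
        exact ⟨x.val, Finset.mem_range.2 (ZMod.val_lt x), ZMod.natCast_zmod_val x⟩
      · intro k _
        rfl
    rw [hbij]
    obtain ⟨n, rfl⟩ : ∃ n, r = n + 1 := ⟨r - 1, by omega⟩
    rw [Finset.sum_range_succ']
    have hne : ¬ IsUnit (((0 : ℕ) : ZMod (n + 1))) := by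
      rw [Nat.cast_zero, isUnit_zero_iff]
      intro h
      have h3 := (ZMod.natCast_eq_natCast_iff' 0 1 (n + 1)).1 (by simpa using h)
      rw [Nat.zero_mod, Nat.mod_eq_of_lt hr] at h3
      omega
    rw [MulChar.map_nonunit _ hne, zero_mul, add_zero]
    refine (norm_sum_le _ _).trans ?_
    have h3 : ∀ k ∈ Finset.range n, ‖χ ((k + 1 : ℕ) : ZMod (n + 1)) *
        ∑ m ∈ Finset.range y, ZMod.stdAddChar ((m : ZMod (n + 1)) * ((k + 1 : ℕ) : ZMod (n + 1)))‖ ≤
        ((n + 1 : ℕ) : ℝ) / 2 * (1 / ((k + 1 : ℕ) : ℝ) + 1 / ((n - k : ℕ) : ℝ)) := by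
      intro k hk
      rw [Finset.mem_range] at hk
      rw [norm_mul]
      have h4 := PV_geom (r := n + 1) (Nat.succ_pos k) (by omega) y
      have h5 : n + 1 - (k + 1) = n - k := by omega
      rw [h5] at h4
      have h6 := DirichletCharacter.norm_le_one χ ((k + 1 : ℕ) : ZMod (n + 1))
      calc _ ≤ 1 * ‖∑ m ∈ Finset.range y, ZMod.stdAddChar
            ((m : ZMod (n + 1)) * ((k + 1 : ℕ) : ZMod (n + 1)))‖ :=
            mul_le_mul_of_nonneg_right h6 (norm_nonneg _)
        _ ≤ _ := by rw [one_mul]; exact h4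
    refine (Finset.sum_le_sum h3).trans ?_
    rw [← Finset.mul_sum, Finset.sum_add_distrib]
    have h7 : ∑ k ∈ Finset.range n, 1 / ((n - k : ℕ) : ℝ) =
        ∑ k ∈ Finset.range n, 1 / ((k + 1 : ℕ) : ℝ) := by
      rw [← Finset.sum_range_reflect]
      refine Finset.sum_congr rfl fun k hk => ?_
      rw [Finset.mem_range] at hk
      have : n - (n - 1 - k) = k + 1 := by omega
      rw [this]
    rw [h7]
    have h8 : ∑ k ∈ Finset.range n, 1 / ((k + 1 : ℕ) : ℝ) ≤ 1 + Real.log n := by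
      have := harmonic_le_one_add_log n
      rw [harmonic] at this
      push_cast at this
      refine le_trans (le_of_eq ?_) this
      refine Finset.sum_congr rfl fun k _ => ?_
      push_cast
      rw [one_div]
    have h9 : Real.log n ≤ Real.log ((n + 1 : ℕ) : ℝ) := by
      refine Real.log_le_log (by exact_mod_cast (by omega : 0 < n)) ?_
      push_cast
      linarith
    have h10 : (0 : ℝ) ≤ ((n + 1 : ℕ) : ℝ) := Nat.cast_nonneg _
    nlinarith
  rw [← h1, norm_mul, ← hconj] at h2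
  have h3 : ‖gaussSum χ (ZMod.stdAddChar (N := r))‖ = Real.sqrt r := by
    rw [← PV_gauss_sq hχ, Real.sqrt_sq (norm_nonneg _)]
  rw [h3] at h2
  have hs : 0 < Real.sqrt r := Real.sqrt_pos.2 hr0
  have h4 : (r : ℝ) = Real.sqrt r * Real.sqrt r := (Real.mul_self_sqrt hr0.le).symm
  have h5 : ‖∑ m ∈ Finset.range y, χ m‖ * Real.sqrt r ≤
      (Real.sqrt r * (1 + Real.log r)) * Real.sqrt r := by
    refine h2.trans (le_of_eq ?_)
    have h6 : Real.sqrt r * (1 + Real.log r) * Real.sqrt r =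
        (Real.sqrt r * Real.sqrt r) * (1 + Real.log r) := by ring
    rw [h6, ← h4]
  exact le_of_mul_le_mul_right h5 hs

theorem polya_sum {r : ℕ} [NeZero r] (hr : 1 < r) {χ : DirichletCharacter ℂ r}
    (hχ : χ.IsPrimitive) (f : ℕ → ℝ) (Y : ℕ) (hY : f Y = 0) :
    ‖∑ m ∈ Finset.range Y, χ m * (f m : ℂ)‖ ≤
      Real.sqrt r * (1 + Real.log r) * ∑ m ∈ Finset.range Y, |f (m + 1) - f m| := by
  have h1 : ∀ Y : ℕ, ∑ m ∈ Finset.range Y, χ (m : ZMod r) * (f m : ℂ) =
      (∑ m ∈ Finset.range Y, χ (m : ZMod r)) * (f Y : ℂ) -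
        ∑ m ∈ Finset.range Y, (∑ k ∈ Finset.range (m + 1), χ (k : ZMod r)) *
          ((f (m + 1) - f m : ℝ) : ℂ) := by
    intro Y
    induction Y with
    | zero => simp
    | succ Y ih =>
      rw [Finset.sum_range_succ, ih, Finset.sum_range_succ (fun m => (∑ k ∈ Finset.range (m + 1),
        χ (k : ZMod r)) * ((f (m + 1) - f m : ℝ) : ℂ)), Finset.sum_range_succ (fun m => χ (m : ZMod r))]
      push_cast
      ring
  rw [h1 Y, hY, Complex.ofReal_zero, mul_zero, zero_sub, norm_neg, Finset.mul_sum]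
  refine (norm_sum_le _ _).trans (Finset.sum_le_sum fun m _ => ?_)
  rw [norm_mul, Complex.norm_real, Real.norm_eq_abs]
  exact mul_le_mul_of_nonneg_right (polya hr hχ _) (abs_nonneg _)

end BV

end
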