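import Pool.Agent.Work.BV.Defs
import Pool.Agent.Work.BV.LSA
import Pool.Agent.Work.BV.PV

/-!
Module LSM (multiplicative large sieve; size M).

For `χ` primitive mod `r`: `τ(χ̄) ∑ a_n χ(n) = ∑_{b mod r} χ̄(b) S(b/r)`, `|τ(χ̄)|² = r` (also for
`r = 1`).  Summing `|∑_b χ̄(b) S(b/r)|²` over ALL characters mod `r` gives
`φ(r) ∑_{(b,r)=1} |S(b/r)|²` (orthogonality, `DirichletCharacter.sum_char_inv_mul_char_eq`).
So `r ∑*_χ |∑ a_n χ(n)|² ≤ φ(r) ∑*_b |S(b/r)|²`; divide by `φ(r)` and use `large_sieve_add`.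
pSum_const: there are at most `φ(r)` characters (`DirichletCharacter.card_eq_totient...`).
pSum_mul_le: Cauchy.  pSum_add, pSum_smul: linearity.
-/

set_option autoImplicit false

open Finset Filter MeasureTheory Topology
open scoped ContDiff ArithmeticFunction.Moebius ArithmeticFunction.vonMangoldt

noncomputable section

namespace BV

theorem pSum_nonneg {r : ℕ} {f : DirichletCharacter ℂ r → ℝ} (hf : ∀ χ, 0 ≤ f χ) :
    0 ≤ pSum r f := by
  classical
  unfold pSum
  split_ifs with h
  · exact le_rfl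
  · exact Finset.sum_nonneg fun χ _ => hf χ

theorem pSum_mono {r : ℕ} {f g : DirichletCharacter ℂ r → ℝ}
    (h : r ≠ 0 → ∀ χ : DirichletCharacter ℂ r, χ.IsPrimitive → f χ ≤ g χ) :
    pSum r f ≤ pSum r g := by
  classical
  unfold pSum
  split_ifs with h0
  · exact le_rfl
  · exact Finset.sum_le_sum fun χ hχ => h h0 χ (Finset.mem_filter.1 hχ).2

theorem pSum_add {r : ℕ} (f g : DirichletCharacter ℂ r → ℝ) :
    pSum r (fun χ => f χ + g χ) = pSum r f + pSum r g := by
  classical
  unfold pSum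
  split_ifs with h0
  · rw [add_zero]
  · exact Finset.sum_add_distrib

theorem pSum_smul {r : ℕ} (c : ℝ) (f : DirichletCharacter ℂ r → ℝ) :
    pSum r (fun χ => c * f χ) = c * pSum r f := by
  classical
  unfold pSum
  split_ifs with h0
  · rw [mul_zero]
  · exact (Finset.mul_sum _ _ _).symm

/-- number of primitive characters -/
theorem pSum_const (r : ℕ) (c : ℝ) (hc : 0 ≤ c) :
    pSum r (fun _ => c) ≤ Nat.totient r * c := by
  classical
  unfold pSum
  split_ifs with h0
  · positivity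
  · have : NeZero r := ⟨h0⟩
    rw [Finset.sum_const, nsmul_eq_mul]
    refine mul_le_mul_of_nonneg_right ?_ hc
    have h1 := DirichletCharacter.card_eq_totient_of_hasEnoughRootsOfUnity ℂ r
    rw [← h1, Nat.card_eq_fintype_card, ← Finset.card_univ]
    exact_mod_cast Finset.card_le_card (Finset.filter_subset _ _)

theorem pSum_mul_le {r : ℕ} (f g : DirichletCharacter ℂ r → ℝ) :
    pSum r (fun χ => f χ * g χ) ≤
      Real.sqrt (pSum r (fun χ => f χ ^ 2)) * Real.sqrt (pSum r (fun χ => g χ ^ 2)) := by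
  classical
  unfold pSum
  split_ifs with h0
  · simp
  · exact Real.sum_mul_le_sqrt_mul_sqrt _ f g

/-- the inequality for one modulus -/
private theorem lsm_one (r : ℕ) (hr : 0 < r) (M0 M : ℕ) (a : ℕ → ℂ) :
    (r / Nat.totient r : ℝ) *
      pSum r (fun χ => ‖∑ n ∈ Finset.Ico M0 (M0 + M), a n * χ n‖ ^ 2) ≤
    ∑ b ∈ (Finset.range r).filter (fun b => Nat.Coprime b r),
      ‖∑ n ∈ Finset.Ico M0 (M0 + M), (starRingEnd ℂ) (a n) *
        Complex.exp (2 * Real.pi * Complex.I * (b * n / r))‖ ^ 2 := by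
  classical
  have hne : r ≠ 0 := by omega
  have : NeZero r := ⟨hne⟩
  have hφ : (0 : ℝ) < Nat.totient r := by exact_mod_cast Nat.totient_pos.2 hr
  obtain ⟨S, hS⟩ : ∃ S : ZMod r → ℂ, S = fun x => ∑ n ∈ Finset.Ico M0 (M0 + M),
    (starRingEnd ℂ) (a n) * ZMod.stdAddChar ((n : ZMod r) * x) := ⟨_, rfl⟩
  -- primitive characters
  have h1 : ∀ χ : DirichletCharacter ℂ r, χ.IsPrimitive →
      (r : ℝ) * ‖∑ n ∈ Finset.Ico M0 (M0 + M), a n * χ n‖ ^ 2 = ‖∑ x : ZMod r, χ x * S x‖ ^ 2 := by
    intro χ hχ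
    have e1 : ‖∑ n ∈ Finset.Ico M0 (M0 + M), a n * χ n‖ =
        ‖∑ n ∈ Finset.Ico M0 (M0 + M), (starRingEnd ℂ) (a n) * χ⁻¹ (n : ZMod r)‖ := by
      rw [← Complex.norm_conj, map_sum]
      simp_rw [map_mul (starRingEnd ℂ), PV_inv_apply]
    have e2 : (∑ n ∈ Finset.Ico M0 (M0 + M), (starRingEnd ℂ) (a n) * χ⁻¹ (n : ZMod r)) *
        gaussSum χ (ZMod.stdAddChar (N := r)) = ∑ x : ZMod r, χ x * S x := by
      calc (∑ n ∈ Finset.Ico M0 (M0 + M), (starRingEnd ℂ) (a n) * χ⁻¹ (n : ZMod r)) *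
            gaussSum χ (ZMod.stdAddChar (N := r))
          = ∑ n ∈ Finset.Ico M0 (M0 + M), (starRingEnd ℂ) (a n) *
              (χ⁻¹ (n : ZMod r) * gaussSum χ (ZMod.stdAddChar (N := r))) := by
            rw [Finset.sum_mul]
            exact Finset.sum_congr rfl fun n _ => mul_assoc _ _ _
        _ = ∑ n ∈ Finset.Ico M0 (M0 + M), ∑ x : ZMod r, (starRingEnd ℂ) (a n) *
              (χ x * ZMod.stdAddChar ((n : ZMod r) * x)) := by
            refine Finset.sum_congr rfl fun n _ => ?_
            rw [PV_twist hχ, Finset.mul_sum]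
        _ = ∑ x : ZMod r, ∑ n ∈ Finset.Ico M0 (M0 + M), (starRingEnd ℂ) (a n) *
              (χ x * ZMod.stdAddChar ((n : ZMod r) * x)) := Finset.sum_comm
        _ = _ := by
            refine Finset.sum_congr rfl fun x _ => ?_
            rw [hS, Finset.mul_sum]
            refine Finset.sum_congr rfl fun n _ => ?_
            ring
    rw [← e2, norm_mul, mul_pow, PV_gauss_sq hχ, e1, mul_comm]
  -- orthogonality
  have hc : ∀ z : ℂ, ((‖z‖ ^ 2 : ℝ) : ℂ) = z * (starRingEnd ℂ) z := fun z => by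
    rw [Complex.mul_conj, Complex.normSq_eq_norm_sq]
  have h2 : ∑ χ : DirichletCharacter ℂ r, ‖∑ x : ZMod r, χ x * S x‖ ^ 2 =
      Nat.totient r * ∑ x ∈ (Finset.univ : Finset (ZMod r)).filter (fun x => IsUnit x),
        ‖S x‖ ^ 2 := by
    have h3 : ((∑ χ : DirichletCharacter ℂ r, ‖∑ x : ZMod r, χ x * S x‖ ^ 2 : ℝ) : ℂ) =
        ((Nat.totient r * ∑ x ∈ (Finset.univ : Finset (ZMod r)).filter (fun x => IsUnit x),
        ‖S x‖ ^ 2 : ℝ) : ℂ) := by
      calc ((∑ χ : DirichletCharacter ℂ r, ‖∑ x : ZMod r, χ x * S x‖ ^ 2 : ℝ) : ℂ)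
          = ∑ χ : DirichletCharacter ℂ r, ∑ x : ZMod r, ∑ y : ZMod r,
              (χ x * (starRingEnd ℂ) (χ y)) * (S x * (starRingEnd ℂ) (S y)) := by
            rw [Complex.ofReal_sum]
            refine Finset.sum_congr rfl fun χ _ => ?_
            rw [hc, map_sum, Finset.sum_mul_sum]
            refine Finset.sum_congr rfl fun x _ => Finset.sum_congr rfl fun y _ => ?_
            rw [map_mul (starRingEnd ℂ)]
            ring
        _ = ∑ x : ZMod r, ∑ y : ZMod r, ∑ χ : DirichletCharacter ℂ r,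
              (χ x * (starRingEnd ℂ) (χ y)) * (S x * (starRingEnd ℂ) (S y)) := by
            rw [Finset.sum_comm]
            exact Finset.sum_congr rfl fun x _ => Finset.sum_comm
        _ = ∑ x : ZMod r, if IsUnit x then (Nat.totient r : ℂ) * ((‖S x‖ ^ 2 : ℝ) : ℂ) else 0 := by
            refine Finset.sum_congr rfl fun x _ => ?_
            by_cases hx : IsUnit x
            · rw [if_pos hx]
              have h4 : ∀ y : ZMod r, ∑ χ : DirichletCharacter ℂ r,
                  (χ x * (starRingEnd ℂ) (χ y)) * (S x * (starRingEnd ℂ) (S y)) =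
                  if x = y then (Nat.totient r : ℂ) * ((‖S x‖ ^ 2 : ℝ) : ℂ) else 0 := by
                intro y
                rw [← Finset.sum_mul]
                have h5 : ∑ χ : DirichletCharacter ℂ r, χ x * (starRingEnd ℂ) (χ y) =
                    (starRingEnd ℂ) (∑ χ : DirichletCharacter ℂ r, χ x⁻¹ * χ y) := by
                  rw [map_sum]
                  refine Finset.sum_congr rfl fun χ _ => ?_
                  rw [map_mul (starRingEnd ℂ)]
                  congr 1
                  have h6 : χ x⁻¹ = χ⁻¹ x := by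
                    rw [MulChar.inv_apply, ← hx.unit_spec, ZMod.inv_coe_unit,
                      Ring.inverse_unit]
                  rw [h6, PV_inv_apply, Complex.conj_conj]
                rw [h5, DirichletCharacter.sum_char_inv_mul_char_eq ℂ hx]
                by_cases hxy : x = y
                · rw [if_pos hxy, if_pos hxy, ← hxy, hc, Complex.conj_natCast]
                · rw [if_neg hxy, if_neg hxy, map_zero, zero_mul]
              rw [Finset.sum_congr rfl fun y _ => h4 y, Finset.sum_ite_eq]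
              simp
            · rw [if_neg hx]
              refine Finset.sum_eq_zero fun y _ => Finset.sum_eq_zero fun χ _ => ?_
              rw [MulChar.map_nonunit _ hx, zero_mul, zero_mul]
        _ = _ := by
            rw [← Finset.sum_filter, ← Finset.mul_sum]
            push_cast
            rfl
    exact_mod_cast h3
  -- the sum over b
  have h4 : ∑ x ∈ (Finset.univ : Finset (ZMod r)).filter (fun x => IsUnit x), ‖S x‖ ^ 2 =
      ∑ b ∈ (Finset.range r).filter (fun b => Nat.Coprime b r),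
      ‖∑ n ∈ Finset.Ico M0 (M0 + M), (starRingEnd ℂ) (a n) *
        Complex.exp (2 * Real.pi * Complex.I * (b * n / r))‖ ^ 2 := by
    symm
    refine Finset.sum_bij (fun b _ => (b : ZMod r)) ?_ ?_ ?_ ?_
    · intro b hb
      rw [Finset.mem_filter] at hb ⊢
      exact ⟨Finset.mem_univ _, (ZMod.isUnit_iff_coprime b r).2 hb.2⟩
    · intro b hb b' hb' hbb
      rw [Finset.mem_filter, Finset.mem_range] at hb hb'
      have := (ZMod.natCast_eq_natCast_iff' b b' r).1 hbb
      rwa [Nat.mod_eq_of_lt hb.1, Nat.mod_eq_of_lt hb'.1] at this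
    · intro x hx
      rw [Finset.mem_filter] at hx
      refine ⟨x.val, ?_, ZMod.natCast_zmod_val x⟩
      rw [Finset.mem_filter, Finset.mem_range]
      refine ⟨ZMod.val_lt x, ?_⟩
      rw [← ZMod.isUnit_iff_coprime, ZMod.natCast_zmod_val]
      exact hx.2
    · intro b _
      rw [hS]
      congr 2
      refine Finset.sum_congr rfl fun n _ => ?_
      congr 1
      have h5 := ZMod.stdAddChar_coe (N := r) ((n * b : ℕ) : ℤ)
      have h6 : (((n * b : ℕ) : ℤ) : ZMod r) = (n : ZMod r) * (b : ZMod r) := by push_cast; ring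
      rw [h6] at h5
      rw [h5]
      congr 1
      push_cast
      ring
  rw [← h4]
  have h5 : (r : ℝ) * pSum r (fun χ => ‖∑ n ∈ Finset.Ico M0 (M0 + M), a n * χ n‖ ^ 2) ≤
      ∑ χ : DirichletCharacter ℂ r, ‖∑ x : ZMod r, χ x * S x‖ ^ 2 := by
    rw [← pSum_smul]
    unfold pSum
    rw [dif_neg hne]
    calc _ = ∑ χ ∈ (Finset.univ : Finset (DirichletCharacter ℂ r)).filter
          (fun χ => χ.IsPrimitive), ‖∑ x : ZMod r, χ x * S x‖ ^ 2 :=
          Finset.sum_congr rfl fun χ hχ => h1 χ (Finset.mem_filter.1 hχ).2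
      _ ≤ _ := Finset.sum_le_sum_of_subset_of_nonneg (Finset.filter_subset _ _)
          fun χ _ _ => by positivity
  rw [h2] at h5
  rw [div_mul_eq_mul_div, div_le_iff₀ hφ]
  linarith

theorem large_sieve_mul (R M0 M : ℕ) (a : ℕ → ℂ) :
    ∑ r ∈ Finset.Icc 1 R, (r / Nat.totient r : ℝ) *
      pSum r (fun χ => ‖∑ n ∈ Finset.Ico M0 (M0 + M), a n * χ n‖ ^ 2) ≤
      8 * (M + (R : ℝ) ^ 2) * ∑ n ∈ Finset.Ico M0 (M0 + M), ‖a n‖ ^ 2 := by
  have h1 := large_sieve_add R M0 M (fun n => (starRingEnd ℂ) (a n))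
  simp only [Complex.norm_conj] at h1
  refine le_trans (Finset.sum_le_sum fun r hr => ?_) h1
  exact lsm_one r (Finset.mem_Icc.1 hr).1 M0 M a

end BV

end
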