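import Pool.Agent.Work.BV.Defs

/-!
Auxiliary module for LUB and LUT: summation by parts tools.
-/

set_option autoImplicit false

open Finset Filter MeasureTheory Topology
open scoped ContDiff ArithmeticFunction.Moebius ArithmeticFunction.vonMangoldt

noncomputable section

namespace BV

/-- growth of powers of the logarithm -/
theorem lua_log (j : ℕ) : ∃ C : ℝ, 1 ≤ C ∧ ∀ y u : ℝ, 1 ≤ Real.log y → 0 < y → y ≤ u →
    Real.log u ^ j ≤ C * Real.log y ^ j * Real.sqrt (u / y) := by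
  refine ⟨(2 * ((j : ℝ) + 1)) ^ j, one_le_pow₀ (by
    have : (0 : ℝ) ≤ j := Nat.cast_nonneg j
    linarith), ?_⟩
  intro y u hy hy0 hyu
  have hu0 : 0 < u := lt_of_lt_of_le hy0 hyu
  set v := Real.log (u / y) with hv
  have hv0 : 0 ≤ v := Real.log_nonneg (by rw [le_div_iff₀ hy0]; linarith)
  have h1 : Real.log u = Real.log y + v := by
    rw [hv, Real.log_div hu0.ne' hy0.ne']
    ring
  have h2 : Real.log u ≤ Real.log y * (1 + v) := by
    rw [h1]
    nlinarith
  have hj : (0 : ℝ) ≤ j := Nat.cast_nonneg j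
  have h3 : 1 + v ≤ 2 * ((j : ℝ) + 1) * (1 + v / (2 * ((j : ℝ) + 1))) := by
    rw [mul_add, mul_div_cancel₀ _ (by positivity)]
    linarith
  have h4 : 1 + v / (2 * ((j : ℝ) + 1)) ≤ Real.exp (v / (2 * ((j : ℝ) + 1))) := by
    rw [add_comm]
    exact Real.add_one_le_exp _
  have h5 : (1 + v) ^ j ≤ (2 * ((j : ℝ) + 1)) ^ j * Real.sqrt (u / y) := by
    calc (1 + v) ^ j ≤ (2 * ((j : ℝ) + 1) * (1 + v / (2 * ((j : ℝ) + 1)))) ^ j :=
          pow_le_pow_left₀ (by positivity) h3 j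
      _ = (2 * ((j : ℝ) + 1)) ^ j * (1 + v / (2 * ((j : ℝ) + 1))) ^ j := mul_pow _ _ _
      _ ≤ (2 * ((j : ℝ) + 1)) ^ j * Real.exp (v / (2 * ((j : ℝ) + 1))) ^ j := by
          gcongr
      _ ≤ (2 * ((j : ℝ) + 1)) ^ j * Real.sqrt (u / y) := by
          refine mul_le_mul_of_nonneg_left ?_ (by positivity)
          rw [← Real.exp_nat_mul]
          have e1 : Real.sqrt (u / y) = Real.exp (v / 2) := by
            rw [hv, ← Real.exp_log (Real.sqrt_pos.2 (by positivity : 0 < u / y)),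
              Real.log_sqrt (by positivity)]
          rw [e1]
          apply Real.exp_le_exp.2
          rw [mul_div_assoc', div_le_div_iff₀ (by positivity) (by norm_num)]
          nlinarith
  calc Real.log u ^ j ≤ (Real.log y * (1 + v)) ^ j :=
        pow_le_pow_left₀ (by linarith) h2 j
    _ = Real.log y ^ j * (1 + v) ^ j := mul_pow _ _ _
    _ ≤ Real.log y ^ j * ((2 * ((j : ℝ) + 1)) ^ j * Real.sqrt (u / y)) :=
        mul_le_mul_of_nonneg_left h5 (by positivity)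
    _ = _ := by ring

/-- telescoping bound for the sum of `n^(-3/2)` -/
theorem lua_tel (m M : ℕ) (hm : 1 ≤ m) :
    ∑ n ∈ Finset.Ico m M, 1 / ((n : ℝ) * Real.sqrt n) ≤ 4 / Real.sqrt m := by
  rcases lt_or_ge M m with h | h
  · rw [Finset.Ico_eq_empty (by omega), Finset.sum_empty]
    positivity
  have key : ∑ n ∈ Finset.Ico m M, 1 / ((n : ℝ) * Real.sqrt n) ≤
      4 / Real.sqrt m - 4 / Real.sqrt M := by
    induction M, h using Nat.le_induction with
    | base => simp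
    | succ n hn ih =>
      rw [Finset.sum_Ico_succ_top hn]
      refine (add_le_add ih le_rfl).trans ?_
      have hn1 : (1 : ℝ) ≤ n := by exact_mod_cast hm.trans hn
      set a := Real.sqrt n with ha
      set b := Real.sqrt ((n + 1 : ℕ) : ℝ) with hb
      have ha2 : a ^ 2 = n := Real.sq_sqrt (by linarith)
      have hb2 : b ^ 2 = n + 1 := by
        rw [hb, Real.sq_sqrt (by positivity)]
        push_cast
        ring
      have ha1 : 1 ≤ a := by
        rw [ha]
        exact Real.one_le_sqrt.2 hn1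
      have hb0 : 0 < b := Real.sqrt_pos.2 (by positivity)
      have hab : a ≤ b := by
        apply Real.sqrt_le_sqrt
        push_cast
        linarith
      have h1 : (b - a) * (b + a) = 1 := by nlinarith
      have h2 : 4 / a - 4 / b = 4 / (a * b * (a + b)) := by
        have h3 : a + b ≠ 0 := by positivity
        field_simp
        nlinarith
      have h4 : 1 / ((n : ℝ) * a) ≤ 4 / (a * b * (a + b)) := by
        rw [← ha2, div_le_div_iff₀ (by positivity) (by positivity)]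
        have h5 : b * (a + b) ≤ 4 * a ^ 2 := by nlinarith
        nlinarith
      linarith
  have : 0 ≤ 4 / Real.sqrt M := by positivity
  linarith

/-- summation by parts -/
theorem lua_parts (a g : ℕ → ℂ) (m M : ℕ) (h : m ≤ M) :
    ∑ n ∈ Finset.Ico m M, a n * g n = (∑ k ∈ Finset.Ico m M, a k) * g M +
      ∑ n ∈ Finset.Ico m M, (∑ k ∈ Finset.Ico m (n + 1), a k) * (g n - g (n + 1)) := by
  induction M, h using Nat.le_induction with
  | base => simp
  | succ n hn ih =>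
    rw [Finset.sum_Ico_succ_top hn, Finset.sum_Ico_succ_top hn, Finset.sum_Ico_succ_top hn, ih,
      Finset.sum_Ico_succ_top hn]
    ring

theorem lua_parts_le (a g : ℕ → ℂ) (m M : ℕ) (h : m ≤ M) (B : ℝ)
    (hB : ∀ n, ‖∑ k ∈ Finset.Ico m n, a k‖ ≤ B) :
    ‖∑ n ∈ Finset.Ico m M, a n * g n‖ ≤
      B * (‖g M‖ + ∑ n ∈ Finset.Ico m M, ‖g n - g (n + 1)‖) := by
  rw [lua_parts a g m M h, mul_add, Finset.mul_sum]
  refine (norm_add_le _ _).trans (add_le_add ?_ ((norm_sum_le _ _).trans ?_))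
  · rw [norm_mul]
    exact mul_le_mul_of_nonneg_right (hB M) (norm_nonneg _)
  · refine Finset.sum_le_sum fun n _ => ?_
    rw [norm_mul]
    exact mul_le_mul_of_nonneg_right (hB _) (norm_nonneg _)

/-- the function `(log u)^j u^(-s)` -/
def luf (j : ℕ) (s : ℂ) (u : ℝ) : ℂ := (Real.log u : ℂ) ^ j * (u : ℂ) ^ (-s)

theorem luf_deriv (j : ℕ) (s : ℂ) (u : ℝ) (hu : 0 < u) :
    HasDerivAt (luf j s) (((j : ℂ) * (Real.log u : ℂ) ^ (j - 1) - s * (Real.log u : ℂ) ^ j) *
      (u : ℂ) ^ (-s - 1)) u := by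
  have h1 : HasDerivAt (fun u : ℝ => (Real.log u : ℂ) ^ j)
      ((j : ℂ) * (Real.log u : ℂ) ^ (j - 1) * ((u⁻¹ : ℝ) : ℂ)) u :=
    (Real.hasDerivAt_log hu.ne').ofReal_comp.pow j
  have h2 : HasDerivAt (fun u : ℝ => (u : ℂ) ^ (-s)) (-s * (u : ℂ) ^ (-s - 1)) u := by
    rcases eq_or_ne s 0 with rfl | hs
    · simp only [neg_zero, Complex.cpow_zero, zero_mul]
      exact hasDerivAt_const _ _
    · exact hasDerivAt_ofReal_cpow_const (x := u) hu.ne' (r := -s) (neg_ne_zero.2 hs)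
  have h3 := h1.mul h2
  refine h3.congr_deriv ?_
  have hu' : (u : ℂ) ≠ 0 := by exact_mod_cast hu.ne'
  rw [Complex.cpow_sub _ _ hu', Complex.cpow_one]
  push_cast
  field_simp
  ring

theorem lu_norm_cpow (s : ℂ) (u : ℝ) (hu : 1 ≤ u) (hs : 1 ≤ s.re) :
    ‖(u : ℂ) ^ (-s)‖ ≤ 1 / u := by
  rw [Complex.norm_cpow_eq_rpow_re_of_pos (by linarith), Complex.neg_re, one_div,
    ← Real.rpow_neg_one]
  exact Real.rpow_le_rpow_of_exponent_le hu (by linarith)

theorem luf_norm (j : ℕ) (s : ℂ) (u : ℝ) (hu : 1 ≤ u) (hs : 1 ≤ s.re) :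
    ‖luf j s u‖ ≤ Real.log u ^ j / u := by
  unfold luf
  rw [norm_mul, norm_pow, Complex.norm_real, Real.norm_of_nonneg (Real.log_nonneg hu)]
  calc Real.log u ^ j * ‖(u : ℂ) ^ (-s)‖ ≤ Real.log u ^ j * (1 / u) :=
        mul_le_mul_of_nonneg_left (lu_norm_cpow s u hu hs) (pow_nonneg (Real.log_nonneg hu) _)
    _ = _ := by ring

theorem luf_deriv_norm (j : ℕ) (s : ℂ) (u : ℝ) (hu0 : 1 ≤ u) (hu : 1 ≤ Real.log u)
    (hs : 1 ≤ s.re) :
    ‖((j : ℂ) * (Real.log u : ℂ) ^ (j - 1) - s * (Real.log u : ℂ) ^ j) *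
      (u : ℂ) ^ (-s - 1)‖ ≤ (j + ‖s‖) * Real.log u ^ j / u ^ 2 := by
  have h0 : 0 < u := by linarith
  have h1 : ‖(j : ℂ) * (Real.log u : ℂ) ^ (j - 1) - s * (Real.log u : ℂ) ^ j‖ ≤
      (j + ‖s‖) * Real.log u ^ j := by
    refine (norm_sub_le _ _).trans ?_
    rw [norm_mul, norm_mul, norm_pow, norm_pow, Complex.norm_real, Complex.norm_natCast,
      Real.norm_of_nonneg (by linarith)]
    have : Real.log u ^ (j - 1) ≤ Real.log u ^ j := pow_le_pow_right₀ hu (Nat.sub_le _ _)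
    have h2 : (j : ℝ) * Real.log u ^ (j - 1) ≤ j * Real.log u ^ j :=
      mul_le_mul_of_nonneg_left this (Nat.cast_nonneg _)
    linarith
  have h2 : ‖(u : ℂ) ^ (-s - 1)‖ ≤ 1 / u ^ 2 := by
    rw [Complex.norm_cpow_eq_rpow_re_of_pos h0, one_div, ← Real.rpow_natCast,
      ← Real.rpow_neg h0.le]
    apply Real.rpow_le_rpow_of_exponent_le hu0
    simp only [Complex.sub_re, Complex.neg_re, Complex.one_re]
    push_cast
    linarith
  rw [norm_mul]
  calc _ ≤ (j + ‖s‖) * Real.log u ^ j * (1 / u ^ 2) :=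
        mul_le_mul h1 h2 (norm_nonneg _) (by
          have := norm_nonneg s
          positivity)
    _ = _ := by ring

/-- the derivative on `[n, n+1]`, to the right of `y` -/
theorem luf_deriv_le (j : ℕ) (C : ℝ) (hC1 : 1 ≤ C)
    (hC : ∀ y u : ℝ, 1 ≤ Real.log y → 0 < y → y ≤ u →
      Real.log u ^ j ≤ C * Real.log y ^ j * Real.sqrt (u / y)) (s : ℂ) (hs : 1 ≤ s.re)
    (y : ℝ) (hy : 1 ≤ Real.log y) (hy0 : 1 ≤ y) (n : ℕ) (hn : y ≤ n) (u : ℝ) (hu : (n : ℝ) ≤ u) :
    ‖((j : ℂ) * (Real.log u : ℂ) ^ (j - 1) - s * (Real.log u : ℂ) ^ j) *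
      (u : ℂ) ^ (-s - 1)‖ ≤ (j + ‖s‖) * C * Real.log y ^ j / Real.sqrt y *
        (1 / ((n : ℝ) * Real.sqrt n)) := by
  have hyp : 0 < y := by linarith
  have hnp : (0 : ℝ) < n := by linarith
  have hup : 0 < u := by linarith
  have hlu : 1 ≤ Real.log u := hy.trans (Real.log_le_log hyp (hn.trans hu))
  refine (luf_deriv_norm j s u (by linarith) hlu hs).trans ?_
  have h1 := hC y u hy hyp (hn.trans hu)
  have hs0 := norm_nonneg s
  have h2 : Real.sqrt (u / y) / u ^ 2 = 1 / Real.sqrt y * (1 / (u * Real.sqrt u)) := by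
    rw [Real.sqrt_div hup.le]
    have h3 : Real.sqrt u ^ 2 = u := Real.sq_sqrt hup.le
    have h4 : 0 < Real.sqrt u := Real.sqrt_pos.2 hup
    have h5 : 0 < Real.sqrt y := Real.sqrt_pos.2 hyp
    field_simp
    nlinarith
  have h3 : 1 / (u * Real.sqrt u) ≤ 1 / ((n : ℝ) * Real.sqrt n) := by
    apply one_div_le_one_div_of_le
    · have := Real.sqrt_pos.2 hnp
      positivity
    · exact mul_le_mul hu (Real.sqrt_le_sqrt hu) (Real.sqrt_nonneg _) hup.le
  calc (j + ‖s‖) * Real.log u ^ j / u ^ 2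
      ≤ (j + ‖s‖) * (C * Real.log y ^ j * Real.sqrt (u / y)) / u ^ 2 := by gcongr
    _ = (j + ‖s‖) * C * Real.log y ^ j * (Real.sqrt (u / y) / u ^ 2) := by ring
    _ = (j + ‖s‖) * C * Real.log y ^ j * (1 / Real.sqrt y * (1 / (u * Real.sqrt u))) := by
        rw [h2]
    _ ≤ (j + ‖s‖) * C * Real.log y ^ j * (1 / Real.sqrt y * (1 / ((n : ℝ) * Real.sqrt n))) := by
        have : 0 < Real.sqrt y := Real.sqrt_pos.2 hyp
        gcongr
    _ = _ := by ring

/-- differences of consecutive values -/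
theorem luf_diff_le (j : ℕ) (C : ℝ) (hC1 : 1 ≤ C)
    (hC : ∀ y u : ℝ, 1 ≤ Real.log y → 0 < y → y ≤ u →
      Real.log u ^ j ≤ C * Real.log y ^ j * Real.sqrt (u / y)) (s : ℂ) (hs : 1 ≤ s.re)
    (y : ℝ) (hy : 1 ≤ Real.log y) (hy0 : 1 ≤ y) (n : ℕ) (hn : y ≤ n) :
    ‖luf j s n - luf j s (n + 1 : ℕ)‖ ≤ (j + ‖s‖) * C * Real.log y ^ j / Real.sqrt y *
        (1 / ((n : ℝ) * Real.sqrt n)) := by
  have hnp : (0 : ℝ) < n := by linarith
  have h1 := norm_image_sub_le_of_norm_deriv_le_segment' (f := luf j s) (a := (n : ℝ))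
    (b := ((n + 1 : ℕ) : ℝ)) (C := (j + ‖s‖) * C * Real.log y ^ j / Real.sqrt y *
        (1 / ((n : ℝ) * Real.sqrt n)))
    (fun u hu => (luf_deriv j s u (lt_of_lt_of_le hnp hu.1)).hasDerivWithinAt)
    (fun u hu => luf_deriv_le j C hC1 hC s hs y hy hy0 n hn u hu.1)
    ((n + 1 : ℕ) : ℝ) ⟨by push_cast; linarith, le_rfl⟩
  rw [norm_sub_rev]
  refine h1.trans_eq ?_
  push_cast
  ring

/-- the total variation to the right of `y` -/
theorem luf_var_le (j : ℕ) (C : ℝ) (hC1 : 1 ≤ C) (s : ℂ)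
    (y : ℝ) (hy : 1 ≤ Real.log y) (hy0 : 1 ≤ y) (m M : ℕ) (hm : y ≤ m) (e : ℕ → ℂ)
    (he : ∀ n : ℕ, y ≤ (n : ℝ) → ‖e n‖ ≤ (j + ‖s‖) * C * Real.log y ^ j / Real.sqrt y *
        (1 / ((n : ℝ) * Real.sqrt n))) :
    ∑ n ∈ Finset.Ico m M, ‖e n‖ ≤ 4 * (j + ‖s‖) * C * Real.log y ^ j / y := by
  have hyp : 0 < y := by linarith
  have hs0 := norm_nonneg s
  have hm1 : 1 ≤ m := by
    have : (1 : ℝ) ≤ m := hy0.trans hm
    exact_mod_cast this
  have h5 : 0 < Real.sqrt y := Real.sqrt_pos.2 hyp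
  calc ∑ n ∈ Finset.Ico m M, ‖e n‖
      ≤ ∑ n ∈ Finset.Ico m M, (j + ‖s‖) * C * Real.log y ^ j / Real.sqrt y *
        (1 / ((n : ℝ) * Real.sqrt n)) := by
        refine Finset.sum_le_sum fun n hn => he n ?_
        have : (m : ℝ) ≤ n := by exact_mod_cast (Finset.mem_Ico.1 hn).1
        linarith
    _ = (j + ‖s‖) * C * Real.log y ^ j / Real.sqrt y *
        ∑ n ∈ Finset.Ico m M, 1 / ((n : ℝ) * Real.sqrt n) := by rw [Finset.mul_sum]
    _ ≤ (j + ‖s‖) * C * Real.log y ^ j / Real.sqrt y * (4 / Real.sqrt y) := by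
        refine mul_le_mul_of_nonneg_left ?_ (by positivity)
        refine (lua_tel m M hm1).trans ?_
        exact div_le_div_of_nonneg_left (by norm_num) h5 (Real.sqrt_le_sqrt hm)
    _ = 4 * (j + ‖s‖) * C * Real.log y ^ j / y := by
        have h6 : Real.sqrt y * Real.sqrt y = y := Real.mul_self_sqrt hyp.le
        rw [div_mul_div_comm, h6]
        ring

/-- one value to the right of `y` -/
theorem luf_val_le (j : ℕ) (C : ℝ)
    (hC : ∀ y u : ℝ, 1 ≤ Real.log y → 0 < y → y ≤ u →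
      Real.log u ^ j ≤ C * Real.log y ^ j * Real.sqrt (u / y)) (s : ℂ) (hs : 1 ≤ s.re)
    (y : ℝ) (hy : 1 ≤ Real.log y) (hy0 : 1 ≤ y) (hC1 : 1 ≤ C) (u : ℝ) (hu : y ≤ u) :
    ‖luf j s u‖ ≤ C * Real.log y ^ j / y := by
  have hyp : 0 < y := by linarith
  have hup : 0 < u := by linarith
  refine (luf_norm j s u (by linarith) hs).trans ?_
  have h1 := hC y u hy hyp hu
  have h2 : Real.sqrt (u / y) ≤ u / y := by
    rw [Real.sqrt_le_left (by positivity)]
    have : 1 ≤ u / y := by rw [le_div_iff₀ hyp]; linarith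
    nlinarith
  calc Real.log u ^ j / u ≤ C * Real.log y ^ j * Real.sqrt (u / y) / u := by gcongr
    _ ≤ C * Real.log y ^ j * (u / y) / u := by gcongr
    _ = C * Real.log y ^ j / y := by field_simp

/-- the terms up to `y` -/
theorem luf_head_le (j : ℕ) (s : ℂ) (hs : 1 ≤ s.re) (y : ℝ) (hy : 1 ≤ Real.log y)
    (a : ℕ → ℂ) (ha : ∀ n, ‖a n‖ ≤ 1) (M : ℕ) (hM : ((M : ℝ) - 1) ≤ y) :
    ‖∑ n ∈ Finset.Ico 1 M, a n * luf j s n‖ ≤ 2 * Real.log y ^ (j + 1) := by
  refine (norm_sum_le _ _).trans ?_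
  have h1 : ∑ n ∈ Finset.Ico 1 M, ‖a n * luf j s n‖ ≤
      ∑ n ∈ Finset.Ico 1 M, Real.log y ^ j * (1 / (n : ℝ)) := by
    refine Finset.sum_le_sum fun n hn => ?_
    rw [Finset.mem_Ico] at hn
    have hn1 : (1 : ℝ) ≤ n := by exact_mod_cast hn.1
    have hn2 : (n : ℝ) ≤ y := by
      have : (n : ℝ) + 1 ≤ M := by exact_mod_cast hn.2
      linarith
    rw [norm_mul]
    calc ‖a n‖ * ‖luf j s n‖ ≤ 1 * ‖luf j s n‖ :=
          mul_le_mul_of_nonneg_right (ha n) (norm_nonneg _)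
      _ ≤ Real.log n ^ j / n := by
          rw [one_mul]
          exact luf_norm j s n hn1 hs
      _ ≤ Real.log y ^ j / n := by
          have h2 : 0 ≤ Real.log n := Real.log_nonneg hn1
          have h3 : Real.log n ≤ Real.log y := Real.log_le_log (by linarith) hn2
          gcongr
      _ = _ := by ring
  refine h1.trans ?_
  rw [← Finset.mul_sum]
  have h2 : ∑ n ∈ Finset.Ico 1 M, 1 / (n : ℝ) ≤ 1 + Real.log y := by
    rcases Nat.lt_or_ge M 2 with hM2 | hM2
    · rw [Finset.Ico_eq_empty (by omega), Finset.sum_empty]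
      linarith
    · have h3 := harmonic_le_one_add_log (M - 1)
      have h4 : ((harmonic (M - 1) : ℚ) : ℝ) = ∑ n ∈ Finset.Ico 1 M, 1 / (n : ℝ) := by
        rw [harmonic_eq_sum_Icc]
        push_cast
        have : Finset.Icc 1 (M - 1) = Finset.Ico 1 M := by
          ext x
          simp only [Finset.mem_Icc, Finset.mem_Ico]
          omega
        rw [this]
        exact Finset.sum_congr rfl fun n _ => (one_div _).symm
      rw [← h4]
      refine h3.trans ?_
      have h5 : Real.log ((M - 1 : ℕ) : ℝ) ≤ Real.log y := by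
        apply Real.log_le_log
        · have : 0 < M - 1 := by omega
          exact_mod_cast this
        · rw [Nat.cast_sub (by omega)]
          push_cast
          exact hM
      linarith
  calc Real.log y ^ j * ∑ n ∈ Finset.Ico 1 M, 1 / (n : ℝ)
      ≤ Real.log y ^ j * (1 + Real.log y) := mul_le_mul_of_nonneg_left h2 (by positivity)
    _ ≤ Real.log y ^ j * (2 * Real.log y) := mul_le_mul_of_nonneg_left (by linarith) (by positivity)
    _ = _ := by ring

/-- from partial sums to the L-series -/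
theorem lua_lim (f : ℕ → ℂ) (s : ℂ) (B : ℝ) (m : ℕ) (b : ℕ → ℂ) (hb : Tendsto b atTop (𝓝 0))
    (hB : 0 ≤ B)
    (h : ∀ M, m ≤ M → ‖(∑ n ∈ Finset.range M, LSeries.term f s n) - b M‖ ≤ B) :
    ‖LSeries f s‖ ≤ B := by
  by_cases hs : Summable (LSeries.term f s)
  · have h1 : Tendsto (fun M => ‖(∑ n ∈ Finset.range M, LSeries.term f s n) - b M‖) atTop
        (𝓝 ‖LSeries f s - 0‖) := (hs.hasSum.tendsto_sum_nat.sub hb).norm
    rw [sub_zero] at h1
    exact le_of_tendsto h1 (eventually_atTop.2 ⟨m, h⟩)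
  · have : LSeries f s = 0 := tsum_eq_zero_of_not_summable hs
    rw [this, norm_zero]
    exact hB

theorem lua_term {r : ℕ} (χ : DirichletCharacter ℂ r) (j : ℕ) (s : ℂ) (n : ℕ) (hn : 1 ≤ n) :
    LSeries.term (fun n => χ n * ((Real.log n : ℂ)) ^ j) s n = χ n * luf j s n := by
  rw [LSeries.term_of_ne_zero (by omega)]
  unfold luf
  rw [Complex.ofReal_natCast, Complex.cpow_neg]
  ring

theorem lua_range {r : ℕ} (χ : DirichletCharacter ℂ r) (j : ℕ) (s : ℂ) (M : ℕ) :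
    ∑ n ∈ Finset.range M, LSeries.term (fun n => χ n * ((Real.log n : ℂ)) ^ j) s n =
      ∑ n ∈ Finset.Ico 1 M, χ n * luf j s n := by
  rcases Nat.eq_zero_or_pos M with rfl | hM
  · simp
  rw [Finset.range_eq_Ico, Finset.sum_eq_sum_Ico_succ_bot hM, LSeries.term_zero, zero_add]
  exact Finset.sum_congr rfl fun n hn => lua_term χ j s n (Finset.mem_Ico.1 hn).1

/-- partial sums of a function of mean zero modulo `r` -/
theorem lua_period {r : ℕ} [NeZero r] (a : ZMod r → ℂ) (h0 : ∑ x, a x = 0) (hb : ∀ x, ‖a x‖ ≤ 1)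
    (m n : ℕ) : ‖∑ k ∈ Finset.Ico m n, a (k : ZMod r)‖ ≤ r := by
  have hr : 0 < r := Nat.pos_of_ne_zero (NeZero.ne r)
  have hper : ∀ m : ℕ, ∑ k ∈ Finset.Ico m (m + r), a (k : ZMod r) = 0 := by
    intro m
    rw [← h0]
    refine Finset.sum_bij (fun k _ => (k : ZMod r)) (fun _ _ => Finset.mem_univ _) ?_ ?_
      (fun _ _ => rfl)
    · intro k hk l hl hkl
      rw [Finset.mem_Ico] at hk hl
      rw [ZMod.natCast_eq_natCast_iff] at hkl
      rcases le_total k l with hle | hle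
      · have h1 := (Nat.modEq_iff_dvd' hle).1 hkl
        have h2 : l - k < r := by omega
        have h3 := Nat.eq_zero_of_dvd_of_lt h1 h2
        omega
      · have h1 := (Nat.modEq_iff_dvd' hle).1 hkl.symm
        have h2 : k - l < r := by omega
        have h3 := Nat.eq_zero_of_dvd_of_lt h1 h2
        omega
    · intro x _
      refine ⟨m + (x - (m : ZMod r)).val, ?_, ?_⟩
      · rw [Finset.mem_Ico]
        have := ZMod.val_lt (x - (m : ZMod r))
        omega
      · rw [Nat.cast_add, ZMod.natCast_zmod_val]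
        ring
  obtain ⟨d, hd⟩ : ∃ d, d = n - m := ⟨_, rfl⟩
  induction d using Nat.strong_induction_on generalizing m with
  | _ d ih =>
    rcases lt_or_ge d r with hdr | hdr
    · refine (norm_sum_le _ _).trans ?_
      refine (Finset.sum_le_sum fun k _ => hb _).trans ?_
      rw [Finset.sum_const, Nat.card_Ico, nsmul_eq_mul, mul_one, ← hd]
      exact_mod_cast hdr.le
    · have h1 : m + r ≤ n := by omega
      rw [← Finset.sum_Ico_consecutive (fun k : ℕ => a (k : ZMod r)) (Nat.le_add_right m r) h1,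
        hper, zero_add]
      exact ih (n - (m + r)) (by omega) (m + r) rfl

/-- properties of `y = r (|t| + 3)` -/
theorem lua_y (r : ℕ) (hr : 1 ≤ r) (t : ℝ) : 1 ≤ ell r t ∧ 3 ≤ (r : ℝ) * (|t| + 3) := by
  have h1 : (1 : ℝ) ≤ r := by exact_mod_cast hr
  have h2 : 3 ≤ (r : ℝ) * (|t| + 3) := by nlinarith [abs_nonneg t]
  refine ⟨?_, h2⟩
  unfold ell
  rw [Real.le_log_iff_exp_le (by linarith)]
  have := Real.exp_one_lt_d9
  linarith

end BV

end
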