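import Pool.Agent.Work.BV.VAU
import Pool.Agent.Work.BV.BIL
import Pool.Agent.Work.BV.DIVS

/-!
Module TII (type II sums; size M-L).

`T3 χ = ∑_{m,n} aV(m) bU(n) χ(mn) psi(mn/N)` over `m, n ≥ 1`, `mn < 2N`; `aV(m) = 0` for `m ≤ V`,
`bU(n) = 0` for `n ≤ U`, so `V < m < 2N/U`.  Cut `m` into dyadic blocks `[M, 2M)`, `M = 2^j`,
`V/2 < M < 2N/U` (at most `C log N` blocks); in a block `n` runs over `Ico 1 (1 + L)`, `L = 2N/M`
(terms with `mn ≥ 2N` vanish).  `bilinear` (with `M0 = M`) and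
`∑ aV² ≤ ∑_{m<2M} τ(m)² ≤ C M (log N)³` (`tau_sq`), `∑ bU² ≤ C (N/M) log N` (`lam_sq`):
the block contributes at most
`(C D/R) ((M + R²)(2N/M + R²))^{1/2} (N (log N)^4)^{1/2}
   ≤ C D (log N)² [N/R + (N M)^{1/2} + N/M^{1/2} + R N^{1/2}]`
using `√(a+b+c+d) ≤ √a + √b + √c + √d` and `(M + R²)(2N/M + R²) = 2N + R² M + 2 R² N/M + R⁴`.
With `M ≤ 2N/U` and `M ≥ V/2` sum over the at most `C log N` blocks.
-/

set_option autoImplicit false

open Finset Filter MeasureTheory Topology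
open scoped ContDiff ArithmeticFunction.Moebius ArithmeticFunction.vonMangoldt

noncomputable section

namespace BV

/-- type II sum -/
def T3 {r : ℕ} (χ : DirichletCharacter ℂ r) (psi : ℝ → ℝ) (N U V : ℕ) : ℂ :=
  ∑ n ∈ Finset.range (2 * N), χ n * (psi ((n : ℝ) / N) : ℂ) *
    (((∑ x ∈ n.divisorsAntidiagonal, aV V x.1 * bU U x.2 : ℝ)) : ℂ)

private theorem t2_psi {psi : ℝ → ℝ} {D : ℝ} (h : Bump psi D) {N m k : ℕ} (hN : 0 < N)
    (hne : psi ((m : ℝ) * k / N) ≠ 0) : N < m * k ∧ m * k < 2 * N := by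
  have hN' : (0 : ℝ) < N := by exact_mod_cast hN
  have h3 : 1 < (m : ℝ) * k / N ∧ (m : ℝ) * k / N < 2 := by
    constructor
    · by_contra hcon
      exact hne (h.zero _ (Or.inl (not_lt.1 hcon)))
    · by_contra hcon
      exact hne (h.zero _ (Or.inr (not_lt.1 hcon)))
  rw [lt_div_iff₀ hN', div_lt_iff₀ hN'] at h3
  have h4 : m * k < 2 * N := by exact_mod_cast h3.2
  have h5 : N < m * k := by
    have := h3.1
    rw [one_mul] at this
    exact_mod_cast this
  exact ⟨h5, h4⟩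

private theorem t2_swap {psi : ℝ → ℝ} {D : ℝ} (h : Bump psi D) {r : ℕ}
    (χ : DirichletCharacter ℂ r) (N J : ℕ) (hN : 0 < N) (hJ : 2 * N ≤ J) (a b : ℕ → ℝ) :
    ∑ n ∈ Finset.range (2 * N), χ n * (psi ((n : ℝ) / N) : ℂ) *
      (((∑ x ∈ n.divisorsAntidiagonal, a x.1 * b x.2 : ℝ)) : ℂ) =
      ∑ m ∈ Finset.Ico 1 J, ∑ k ∈ Finset.Ico 1 (1 + 2 * N),
        (a m : ℂ) * b k * (χ m * χ k) * (psi ((m : ℝ) * k / N) : ℂ) := by
  have hN' : (0 : ℝ) < N := by exact_mod_cast hN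
  have h1 : ∀ n ∈ Finset.range (2 * N), χ n * (psi ((n : ℝ) / N) : ℂ) *
      (((∑ x ∈ n.divisorsAntidiagonal, a x.1 * b x.2 : ℝ)) : ℂ) =
      ∑ x ∈ n.divisorsAntidiagonal, (a x.1 : ℂ) * b x.2 * (χ x.1 * χ x.2) *
        (psi ((x.1 : ℝ) * x.2 / N) : ℂ) := by
    intro n _
    rw [Complex.ofReal_sum, Finset.mul_sum]
    refine Finset.sum_congr rfl fun x hx => ?_
    rw [Nat.mem_divisorsAntidiagonal] at hx
    have e1 : χ (n : ZMod r) = χ (x.1 : ZMod r) * χ (x.2 : ZMod r) := by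
      rw [← map_mul, ← Nat.cast_mul, hx.1]
    have e2 : (x.1 : ℝ) * (x.2 : ℝ) = n := by exact_mod_cast hx.1
    rw [e1, e2]
    push_cast
    ring
  rw [Finset.sum_congr rfl h1, Finset.sum_sigma', Finset.sum_sigma']
  refine Finset.sum_bij_ne_zero (fun x _ _ => ⟨x.2.1, x.2.2⟩) ?_ ?_ ?_ ?_
  · rintro ⟨n, d⟩ hx hne
    simp only [Finset.mem_sigma, Finset.mem_range, Nat.mem_divisorsAntidiagonal,
      Finset.mem_Ico] at hx ⊢
    obtain ⟨hn, hd, hn0⟩ := hx
    have hd1 : 0 < d.1 := by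
      rcases Nat.eq_zero_or_pos d.1 with h0 | h0
      · rw [h0, zero_mul] at hd
        omega
      · exact h0
    have hd2 : 0 < d.2 := by
      rcases Nat.eq_zero_or_pos d.2 with h0 | h0
      · rw [h0, mul_zero] at hd
        omega
      · exact h0
    have h5 : d.1 ≤ d.1 * d.2 := Nat.le_mul_of_pos_right _ hd2
    have h6 : d.2 ≤ d.1 * d.2 := Nat.le_mul_of_pos_left _ hd1
    omega
  · rintro ⟨n, d⟩ hx _ ⟨n', d'⟩ hx' _ heq
    simp only [Finset.mem_sigma, Nat.mem_divisorsAntidiagonal] at hx hx'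
    have e1 : d.1 = d'.1 := congrArg Sigma.fst heq
    have e2 : d.2 = d'.2 := eq_of_heq (Sigma.mk.inj heq).2
    have e3 : d = d' := Prod.ext e1 e2
    subst e3
    have e3 : n = n' := by
      rw [← hx.2.1, ← hx'.2.1]
    rw [e3]
  · rintro ⟨d, m⟩ hx hne
    simp only [Finset.mem_sigma, Finset.mem_Ico] at hx
    simp only at hne
    have hpsi : psi ((d : ℝ) * m / N) ≠ 0 := by
      intro h0
      rw [h0] at hne
      simp at hne
    obtain ⟨h5, h4⟩ := t2_psi h hN hpsi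
    refine ⟨⟨d * m, (d, m)⟩, ?_, ?_, ?_⟩
    · simp only [Finset.mem_sigma, Finset.mem_range, Nat.mem_divisorsAntidiagonal]
      exact ⟨h4, trivial, by omega⟩
    · exact hne
    · rfl
  · rintro ⟨n, d⟩ _ _
    rfl

private theorem t2_log {N : ℕ} (hN : 3 ≤ N) :
    1 ≤ Real.log N ∧ 1 + Real.log ((4 * N : ℕ) : ℝ) ≤ 4 * Real.log N := by
  have h1 : (3 : ℝ) ≤ N := by exact_mod_cast hN
  have h2 : 1 ≤ Real.log N := by
    rw [Real.le_log_iff_exp_le (by linarith)]
    have := Real.exp_one_lt_d9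
    linarith
  refine ⟨h2, ?_⟩
  have h3 : Real.log ((4 * N : ℕ) : ℝ) = 2 * Real.log 2 + Real.log N := by
    push_cast
    rw [Real.log_mul (by norm_num) (by positivity)]
    have : (4 : ℝ) = 2 ^ 2 := by norm_num
    rw [this, Real.log_pow]
    push_cast
    ring
  rw [h3]
  have := Real.log_two_lt_d9
  linarith

/-- dyadic decomposition -/
private theorem t2_dyadic (J : ℕ) (F : ℕ → ℂ) :
    ∑ m ∈ Finset.Ico 1 (2 ^ J), F m = ∑ j ∈ Finset.range J, ∑ m ∈ Finset.Ico (2 ^ j) (2 ^ j + 2 ^ j), F m := by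
  induction J with
  | zero => simp
  | succ J ih =>
    rw [Finset.sum_range_succ, ← ih, pow_succ, mul_two]
    rw [Finset.sum_Ico_consecutive]
    · exact Nat.one_le_two_pow
    · exact Nat.le_add_right _ _

private theorem t2_sum_pSum {r : ℕ} (J : ℕ) (f : ℕ → DirichletCharacter ℂ r → ℝ) :
    pSum r (fun χ => ∑ j ∈ Finset.range J, f j χ) = ∑ j ∈ Finset.range J, pSum r (f j) := by
  classical
  unfold pSum
  split_ifs with h0
  · simp
  · exact Finset.sum_comm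

private theorem t2_sqrt_add {a b : ℝ} (ha : 0 ≤ a) (hb : 0 ≤ b) :
    Real.sqrt (a + b) ≤ Real.sqrt a + Real.sqrt b := by
  have h1 : a + b ≤ (Real.sqrt a + Real.sqrt b) ^ 2 := by
    have e : (Real.sqrt a + Real.sqrt b) ^ 2 =
        Real.sqrt a ^ 2 + Real.sqrt b ^ 2 + 2 * (Real.sqrt a * Real.sqrt b) := by ring
    rw [e, Real.sq_sqrt ha, Real.sq_sqrt hb]
    have : 0 ≤ Real.sqrt a * Real.sqrt b := by positivity
    linarith
  exact (Real.sqrt_le_sqrt h1).trans (le_of_eq (Real.sqrt_sq (by positivity)))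

/-- estimate of a block -/
private theorem t2_block : ∃ C : ℝ, 0 ≤ C ∧ ∀ (psi : ℝ → ℝ) (D : ℝ), Bump psi D →
    ∀ (N U V R M : ℕ), 3 ≤ N → 0 < U → 0 < V → 0 < R → 0 < M → M ≤ 2 * N →
      ∑ r ∈ Finset.Ioc R (2 * R), (1 / Nat.totient r : ℝ) * pSum r (fun χ =>
        ‖∑ m ∈ Finset.Ico M (M + M), ∑ k ∈ Finset.Ico 1 (1 + 2 * N),
          (aV V m : ℂ) * bU U k * (χ m * χ k) * (psi ((m : ℝ) * k / N) : ℂ)‖) ≤
        C * D * Real.log N ^ 2 * (N / R + N / Real.sqrt U + N / Real.sqrt V + R * Real.sqrt N) := by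
  obtain ⟨C1, hC1, hbil⟩ := bilinear
  obtain ⟨C2, hC2, hlam⟩ := lam_sq
  refine ⟨C1 * (64 * Real.sqrt C2), by positivity, fun psi D h N U V R M hN hU hV hR hM hMN => ?_⟩
  have hN0 : 0 < N := by omega
  have hN' : (0 : ℝ) < N := by exact_mod_cast hN0
  have hD : 0 ≤ D := (abs_nonneg _).trans (h.nrm 0 (by norm_num) 0)
  obtain ⟨hl1, hl4⟩ := t2_log hN
  have hR' : (0 : ℝ) < R := by exact_mod_cast hR
  have hM' : (0 : ℝ) < M := by exact_mod_cast hM
  have hU' : (0 : ℝ) < U := by exact_mod_cast hU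
  have hV' : (0 : ℝ) < V := by exact_mod_cast hV
  have hRHS : 0 ≤ C1 * (64 * Real.sqrt C2) * D * Real.log N ^ 2 *
      (N / R + N / Real.sqrt U + N / Real.sqrt V + R * Real.sqrt N) := by positivity
  obtain ⟨L, hL⟩ : ∃ L, L = 2 * N / M := ⟨_, rfl⟩
  have hL1 : 1 ≤ L := by
    rw [hL, Nat.le_div_iff_mul_le hM]
    omega
  have hLM : M * L ≤ 2 * N := by
    rw [hL]
    exact Nat.mul_div_le _ _
  have hLM' : (M : ℝ) * L ≤ 2 * N := by exact_mod_cast hLM
  have hL' : (1 : ℝ) ≤ L := by exact_mod_cast hL1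
  -- restrict the inner sum
  have hrestr : ∀ (r : ℕ) (χ : DirichletCharacter ℂ r),
      ∑ m ∈ Finset.Ico M (M + M), ∑ k ∈ Finset.Ico 1 (1 + 2 * N),
          (aV V m : ℂ) * bU U k * (χ m * χ k) * (psi ((m : ℝ) * k / N) : ℂ) =
      ∑ m ∈ Finset.Ico M (M + M), ∑ k ∈ Finset.Ico 1 (1 + L),
          (aV V m : ℂ) * bU U k * (χ m * χ k) * (psi ((m : ℝ) * k / N) : ℂ) := by
    intro r χ
    refine Finset.sum_congr rfl fun m hm => ?_
    rw [Finset.mem_Ico] at hm
    symm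
    refine Finset.sum_subset ?_ ?_
    · intro k hk
      rw [Finset.mem_Ico] at hk ⊢
      have : L ≤ 2 * N := by
        rw [hL]
        exact Nat.div_le_self _ _
      omega
    · intro k hk hk'
      rw [Finset.mem_Ico] at hk hk'
      by_contra hne
      have hpsi : psi ((m : ℝ) * k / N) ≠ 0 := by
        intro h0
        rw [h0] at hne
        simp at hne
      obtain ⟨-, h4⟩ := t2_psi h hN0 hpsi
      have h5 : L < k := by omega
      rw [hL, Nat.div_lt_iff_lt_mul hM] at h5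
      have h6 : k * M ≤ m * k := by
        rw [mul_comm]
        exact Nat.mul_le_mul_right _ hm.1
      omega
  by_cases hcase : V < 2 * M ∧ U < L
  swap
  · -- the block vanishes
    have hzero : ∀ (r : ℕ) (χ : DirichletCharacter ℂ r),
        ∑ m ∈ Finset.Ico M (M + M), ∑ k ∈ Finset.Ico 1 (1 + 2 * N),
          (aV V m : ℂ) * bU U k * (χ m * χ k) * (psi ((m : ℝ) * k / N) : ℂ) = 0 := by
      intro r χ
      rw [hrestr]
      refine Finset.sum_eq_zero fun m hm => Finset.sum_eq_zero fun k hk => ?_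
      rw [Finset.mem_Ico] at hm hk
      rcases not_and_or.1 hcase with hc | hc
      · rw [aV_zero V m (by omega)]
        simp
      · have : bU U k = 0 := by
          unfold bU
          rw [if_neg (by omega)]
        rw [this]
        simp
    refine le_trans (le_of_eq ?_) hRHS
    refine Finset.sum_eq_zero fun r _ => ?_
    have : pSum r (fun χ : DirichletCharacter ℂ r =>
        ‖∑ m ∈ Finset.Ico M (M + M), ∑ k ∈ Finset.Ico 1 (1 + 2 * N),
          (aV V m : ℂ) * bU U k * (χ m * χ k) * (psi ((m : ℝ) * k / N) : ℂ)‖) = 0 := by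
      apply le_antisymm
      · have := pSum_const r 0 le_rfl
        rw [mul_zero] at this
        refine le_trans (pSum_mono fun _ χ _ => ?_) this
        rw [hzero r χ, norm_zero]
      · exact pSum_nonneg fun χ => norm_nonneg _
    rw [this, mul_zero]
  obtain ⟨hVM, hUL⟩ := hcase
  have hVM' : (V : ℝ) ≤ 2 * M := by exact_mod_cast hVM.le
  have hUL' : (U : ℝ) ≤ L := by exact_mod_cast hUL.le
  have hmain := hbil psi D h N R M M 1 L hN0 hR (aV V) (bU U)
  have e0 : ∑ r ∈ Finset.Ioc R (2 * R), (1 / Nat.totient r : ℝ) * pSum r (fun χ =>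
        ‖∑ m ∈ Finset.Ico M (M + M), ∑ k ∈ Finset.Ico 1 (1 + 2 * N),
          (aV V m : ℂ) * bU U k * (χ m * χ k) * (psi ((m : ℝ) * k / N) : ℂ)‖) =
      ∑ r ∈ Finset.Ioc R (2 * R), (1 / Nat.totient r : ℝ) * pSum r (fun χ =>
        ‖∑ m ∈ Finset.Ico M (M + M), ∑ k ∈ Finset.Ico 1 (1 + L),
          (aV V m : ℂ) * bU U k * (χ m * χ k) * (psi ((m : ℝ) * k / N) : ℂ)‖) := by
    refine Finset.sum_congr rfl fun r _ => ?_
    congr 2
    funext χ
    rw [hrestr r χ]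
  rw [e0]
  refine hmain.trans ?_
  -- coefficient bounds
  have hA : ∑ m ∈ Finset.Ico M (M + M), aV V m ^ 2 ≤ 2 * M * (4 * Real.log N) ^ 3 := by
    have h1 : ∑ m ∈ Finset.Ico M (M + M), aV V m ^ 2 ≤
        ∑ m ∈ Finset.Icc 1 (2 * M), ((m.divisors.card : ℝ)) ^ 2 := by
      refine (Finset.sum_le_sum (g := fun m => ((m.divisors.card : ℝ)) ^ 2) fun m _ => ?_).trans
        (Finset.sum_le_sum_of_subset_of_nonneg ?_ fun m _ _ => by positivity)
      · rw [← sq_abs]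
        exact pow_le_pow_left₀ (abs_nonneg _) (aV_bound V m) 2
      · intro m hm
        rw [Finset.mem_Ico] at hm
        rw [Finset.mem_Icc]
        omega
    refine h1.trans ((tau_sq (2 * M) (by omega)).trans ?_)
    have h2 : Real.log ((2 * M : ℕ) : ℝ) ≤ Real.log ((4 * N : ℕ) : ℝ) := by
      refine Real.log_le_log (by exact_mod_cast (by omega : 0 < 2 * M)) ?_
      exact_mod_cast (by omega : 2 * M ≤ 4 * N)
    have h3 : 0 ≤ Real.log ((2 * M : ℕ) : ℝ) := Real.log_natCast_nonneg _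
    have h4 : 1 + Real.log ((2 * M : ℕ) : ℝ) ≤ 4 * Real.log N := by linarith
    have h5 : (1 + Real.log ((2 * M : ℕ) : ℝ)) ^ 3 ≤ (4 * Real.log N) ^ 3 :=
      pow_le_pow_left₀ (by linarith) h4 3
    have e : ((2 * M : ℕ) : ℝ) = 2 * M := by push_cast; ring
    rw [e] at h5 ⊢
    exact mul_le_mul_of_nonneg_left h5 (by positivity)
  have hB : ∑ k ∈ Finset.Ico 1 (1 + L), bU U k ^ 2 ≤ C2 * L * (4 * Real.log N) := by
    have h1 : ∑ k ∈ Finset.Ico 1 (1 + L), bU U k ^ 2 ≤ ∑ k ∈ Finset.Icc 1 L, Λ k ^ 2 := by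
      have e : Finset.Ico 1 (1 + L) = Finset.Icc 1 L := by
        ext k
        rw [Finset.mem_Ico, Finset.mem_Icc]
        omega
      rw [e]
      refine Finset.sum_le_sum fun k _ => ?_
      unfold bU
      split_ifs
      · exact le_rfl
      · rw [zero_pow (by norm_num)]
        exact sq_nonneg _
    refine h1.trans ((hlam L (by omega)).trans ?_)
    have h2 : Real.log (L : ℝ) ≤ Real.log ((4 * N : ℕ) : ℝ) := by
      refine Real.log_le_log (by exact_mod_cast (by omega : 0 < L)) ?_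
      have : L ≤ 4 * N := by
        have : L ≤ 2 * N := by
          rw [hL]
          exact Nat.div_le_self _ _
        omega
      exact_mod_cast this
    have h4 : 1 + Real.log (L : ℝ) ≤ 4 * Real.log N := by linarith
    exact mul_le_mul_of_nonneg_left h4 (by positivity)
  have hAB : Real.sqrt ((∑ m ∈ Finset.Ico M (M + M), aV V m ^ 2) *
      ∑ k ∈ Finset.Ico 1 (1 + L), bU U k ^ 2) ≤ 32 * Real.sqrt C2 * Real.sqrt N * Real.log N ^ 2 := by
    have h0 : 0 ≤ ∑ k ∈ Finset.Ico 1 (1 + L), bU U k ^ 2 := Finset.sum_nonneg fun _ _ => sq_nonneg _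
    have h1 : (∑ m ∈ Finset.Ico M (M + M), aV V m ^ 2) *
        ∑ k ∈ Finset.Ico 1 (1 + L), bU U k ^ 2 ≤
        (2 * M * (4 * Real.log N) ^ 3) * (C2 * L * (4 * Real.log N)) :=
      mul_le_mul hA hB h0 (by positivity)
    have h2 : (2 * M * (4 * Real.log N) ^ 3) * (C2 * L * (4 * Real.log N)) ≤
        (32 * Real.sqrt C2 * Real.sqrt N * Real.log N ^ 2) ^ 2 := by
      have e1 : (32 * Real.sqrt C2 * Real.sqrt N * Real.log N ^ 2) ^ 2 =
          1024 * (Real.sqrt C2 ^ 2) * (Real.sqrt N ^ 2) * Real.log N ^ 4 := by ring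
      rw [e1, Real.sq_sqrt hC2, Real.sq_sqrt hN'.le]
      have e2 : (2 * M * (4 * Real.log N) ^ 3) * (C2 * L * (4 * Real.log N)) =
          512 * C2 * ((M : ℝ) * L) * Real.log N ^ 4 := by ring
      rw [e2]
      have : 512 * C2 * ((M : ℝ) * L) * Real.log N ^ 4 ≤ 512 * C2 * (2 * N) * Real.log N ^ 4 := by
        refine mul_le_mul_of_nonneg_right ?_ (by positivity)
        exact mul_le_mul_of_nonneg_left hLM' (by positivity)
      linarith
    exact (Real.sqrt_le_sqrt (h1.trans h2)).trans (le_of_eq (Real.sqrt_sq (by positivity)))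
  have hS : Real.sqrt ((M + (R : ℝ) ^ 2) * (L + (R : ℝ) ^ 2)) ≤
      2 * Real.sqrt N + R * Real.sqrt M + R * Real.sqrt L + (R : ℝ) ^ 2 := by
    have e : (M + (R : ℝ) ^ 2) * (L + (R : ℝ) ^ 2) =
        (M : ℝ) * L + (R : ℝ) ^ 2 * M + (R : ℝ) ^ 2 * L + ((R : ℝ) ^ 2) ^ 2 := by ring
    rw [e]
    have s1 : Real.sqrt ((M : ℝ) * L) ≤ 2 * Real.sqrt N := by
      have : (M : ℝ) * L ≤ (2 * Real.sqrt N) ^ 2 := by
        rw [mul_pow, Real.sq_sqrt hN'.le]
        linarith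
      exact (Real.sqrt_le_sqrt this).trans (le_of_eq (Real.sqrt_sq (by positivity)))
    have s2 : Real.sqrt ((R : ℝ) ^ 2 * M) = R * Real.sqrt M := by
      rw [Real.sqrt_mul (by positivity), Real.sqrt_sq hR'.le]
    have s3 : Real.sqrt ((R : ℝ) ^ 2 * L) = R * Real.sqrt L := by
      rw [Real.sqrt_mul (by positivity), Real.sqrt_sq hR'.le]
    have s4 : Real.sqrt (((R : ℝ) ^ 2) ^ 2) = (R : ℝ) ^ 2 := Real.sqrt_sq (by positivity)
    have t1 := t2_sqrt_add (a := (M : ℝ) * L + (R : ℝ) ^ 2 * M + (R : ℝ) ^ 2 * L)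
      (b := ((R : ℝ) ^ 2) ^ 2) (by positivity) (by positivity)
    have t2 := t2_sqrt_add (a := (M : ℝ) * L + (R : ℝ) ^ 2 * M) (b := (R : ℝ) ^ 2 * L)
      (by positivity) (by positivity)
    have t3 := t2_sqrt_add (a := (M : ℝ) * L) (b := (R : ℝ) ^ 2 * M)
      (by positivity) (by positivity)
    linarith
  -- square roots of M and L
  have hM1 : Real.sqrt N * Real.sqrt M ≤ 2 * (N / Real.sqrt U) := by
    have hsU : 0 < Real.sqrt U := Real.sqrt_pos.2 hU'
    have h1 : Real.sqrt M * Real.sqrt U ≤ 2 * Real.sqrt N := by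
      rw [← Real.sqrt_mul hM'.le]
      have : (M : ℝ) * U ≤ (2 * Real.sqrt N) ^ 2 := by
        rw [mul_pow, Real.sq_sqrt hN'.le]
        have : (M : ℝ) * U ≤ M * L := mul_le_mul_of_nonneg_left hUL' hM'.le
        linarith
      exact (Real.sqrt_le_sqrt this).trans (le_of_eq (Real.sqrt_sq (by positivity)))
    rw [← mul_div_assoc, le_div_iff₀ hsU]
    calc Real.sqrt N * Real.sqrt M * Real.sqrt U = Real.sqrt N * (Real.sqrt M * Real.sqrt U) := by ring
      _ ≤ Real.sqrt N * (2 * Real.sqrt N) := mul_le_mul_of_nonneg_left h1 (Real.sqrt_nonneg _)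
      _ = 2 * (Real.sqrt N * Real.sqrt N) := by ring
      _ = 2 * N := by rw [Real.mul_self_sqrt hN'.le]
  have hL2 : Real.sqrt N * Real.sqrt L ≤ 2 * (N / Real.sqrt V) := by
    have hsV : 0 < Real.sqrt V := Real.sqrt_pos.2 hV'
    have h1 : Real.sqrt L * Real.sqrt V ≤ 2 * Real.sqrt N := by
      rw [← Real.sqrt_mul (by linarith : (0 : ℝ) ≤ L)]
      have : (L : ℝ) * V ≤ (2 * Real.sqrt N) ^ 2 := by
        rw [mul_pow, Real.sq_sqrt hN'.le]
        have : (L : ℝ) * V ≤ L * (2 * M) := mul_le_mul_of_nonneg_left hVM' (by linarith)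
        nlinarith
      exact (Real.sqrt_le_sqrt this).trans (le_of_eq (Real.sqrt_sq (by positivity)))
    rw [← mul_div_assoc, le_div_iff₀ hsV]
    calc Real.sqrt N * Real.sqrt L * Real.sqrt V = Real.sqrt N * (Real.sqrt L * Real.sqrt V) := by ring
      _ ≤ Real.sqrt N * (2 * Real.sqrt N) := mul_le_mul_of_nonneg_left h1 (Real.sqrt_nonneg _)
      _ = 2 * (Real.sqrt N * Real.sqrt N) := by ring
      _ = 2 * N := by rw [Real.mul_self_sqrt hN'.le]
  calc C1 * D / R * Real.sqrt ((M + (R : ℝ) ^ 2) * (L + (R : ℝ) ^ 2)) *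
        Real.sqrt ((∑ m ∈ Finset.Ico M (M + M), aV V m ^ 2) *
          ∑ k ∈ Finset.Ico 1 (1 + L), bU U k ^ 2)
      ≤ C1 * D / R * (2 * Real.sqrt N + R * Real.sqrt M + R * Real.sqrt L + (R : ℝ) ^ 2) *
        (32 * Real.sqrt C2 * Real.sqrt N * Real.log N ^ 2) := by
        refine mul_le_mul (mul_le_mul_of_nonneg_left hS (by positivity)) hAB
          (Real.sqrt_nonneg _) (by positivity)
    _ = C1 * (32 * Real.sqrt C2) * D * Real.log N ^ 2 *
        (2 * (Real.sqrt N * Real.sqrt N) / R + Real.sqrt N * Real.sqrt M +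
          Real.sqrt N * Real.sqrt L + R * Real.sqrt N) := by
        field_simp
    _ ≤ C1 * (32 * Real.sqrt C2) * D * Real.log N ^ 2 *
        (2 * (N / R + N / Real.sqrt U + N / Real.sqrt V + R * Real.sqrt N)) := by
        refine mul_le_mul_of_nonneg_left ?_ (by positivity)
        rw [Real.mul_self_sqrt hN'.le]
        have h1 : 0 ≤ R * Real.sqrt N := by positivity
        have h2 : 2 * (N : ℝ) / R = 2 * (N / R) := by ring
        rw [h2]
        linarith
    _ = _ := by ring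

theorem type_two : ∃ C : ℝ, 0 ≤ C ∧ ∀ (psi : ℝ → ℝ) (D : ℝ), Bump psi D →
    ∀ (N U V R : ℕ), 3 ≤ N → 0 < U → 0 < V → 0 < R → R ≤ N →
      ∑ r ∈ Finset.Ioc R (2 * R), (1 / Nat.totient r : ℝ) * pSum r (fun χ => ‖T3 χ psi N U V‖) ≤
        C * D * Real.log N ^ 3 * (N / R + N / Real.sqrt U + N / Real.sqrt V + R * Real.sqrt N) := by
  obtain ⟨C, hC, hblock⟩ := t2_block
  refine ⟨4 * C, by positivity, fun psi D h N U V R hN hU hV hR _ => ?_⟩
  have hN0 : 0 < N := by omega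
  have hN' : (0 : ℝ) < N := by exact_mod_cast hN0
  have hD : 0 ≤ D := (abs_nonneg _).trans (h.nrm 0 (by norm_num) 0)
  obtain ⟨hl1, hl4⟩ := t2_log hN
  have hR' : (0 : ℝ) < R := by exact_mod_cast hR
  have hU' : (0 : ℝ) < U := by exact_mod_cast hU
  have hV' : (0 : ℝ) < V := by exact_mod_cast hV
  obtain ⟨J, hJ⟩ : ∃ J, J = Nat.log 2 (2 * N) + 1 := ⟨_, rfl⟩
  have hJ1 : 2 * N ≤ 2 ^ J := by
    rw [hJ]
    exact (Nat.lt_pow_succ_log_self (by norm_num) _).le
  have hJ2 : ∀ j ∈ Finset.range J, 2 ^ j ≤ 2 * N := by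
    intro j hj
    rw [Finset.mem_range, hJ] at hj
    calc 2 ^ j ≤ 2 ^ Nat.log 2 (2 * N) := Nat.pow_le_pow_right (by norm_num) (by omega)
      _ ≤ 2 * N := Nat.pow_log_le_self 2 (by omega)
  have hJ3 : (J : ℝ) ≤ 4 * Real.log N := by
    have h1 : 2 ^ (Nat.log 2 (2 * N)) ≤ 2 * N := Nat.pow_log_le_self 2 (by omega)
    have h2 : ((Nat.log 2 (2 * N) : ℕ) : ℝ) * Real.log 2 ≤ Real.log 2 + Real.log N := by
      rw [← Real.log_pow, ← Real.log_mul (by norm_num) hN'.ne']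
      refine Real.log_le_log (by positivity) ?_
      exact_mod_cast h1
    have h3 := Real.log_two_gt_d9
    have h4 : (J : ℝ) = ((Nat.log 2 (2 * N) : ℕ) : ℝ) + 1 := by
      rw [hJ]
      push_cast
      ring
    rw [h4]
    by_contra hcon
    have h5 : 4 * Real.log N - 1 < ((Nat.log 2 (2 * N) : ℕ) : ℝ) := by linarith
    have h6 : (4 * Real.log N - 1) * Real.log 2 <
        ((Nat.log 2 (2 * N) : ℕ) : ℝ) * Real.log 2 := mul_lt_mul_of_pos_right h5 (by linarith)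
    have h7 : (2 : ℝ) * Real.log 2 + Real.log N < 4 * Real.log N * Real.log 2 := by
      have h8 := Real.log_two_lt_d9
      have h9 : 4 * Real.log N * 0.69 ≤ 4 * Real.log N * Real.log 2 :=
        mul_le_mul_of_nonneg_left (by linarith) (by linarith)
      linarith
    linarith
  have hrep : ∀ (r : ℕ) (χ : DirichletCharacter ℂ r), ‖T3 χ psi N U V‖ ≤
      ∑ j ∈ Finset.range J, ‖∑ m ∈ Finset.Ico (2 ^ j) (2 ^ j + 2 ^ j),
        ∑ k ∈ Finset.Ico 1 (1 + 2 * N),
          (aV V m : ℂ) * bU U k * (χ m * χ k) * (psi ((m : ℝ) * k / N) : ℂ)‖ := by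
    intro r χ
    unfold T3
    rw [t2_swap h χ N (2 ^ J) hN0 hJ1 (aV V) (bU U), t2_dyadic]
    exact norm_sum_le _ _
  calc ∑ r ∈ Finset.Ioc R (2 * R), (1 / Nat.totient r : ℝ) * pSum r (fun χ => ‖T3 χ psi N U V‖)
      ≤ ∑ r ∈ Finset.Ioc R (2 * R), (1 / Nat.totient r : ℝ) * ∑ j ∈ Finset.range J,
        pSum r (fun χ => ‖∑ m ∈ Finset.Ico (2 ^ j) (2 ^ j + 2 ^ j),
        ∑ k ∈ Finset.Ico 1 (1 + 2 * N),
          (aV V m : ℂ) * bU U k * (χ m * χ k) * (psi ((m : ℝ) * k / N) : ℂ)‖) := by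
        refine Finset.sum_le_sum fun r _ => mul_le_mul_of_nonneg_left ?_ (by positivity)
        rw [← t2_sum_pSum]
        exact pSum_mono fun _ χ _ => hrep r χ
    _ = ∑ j ∈ Finset.range J, ∑ r ∈ Finset.Ioc R (2 * R), (1 / Nat.totient r : ℝ) *
        pSum r (fun χ => ‖∑ m ∈ Finset.Ico (2 ^ j) (2 ^ j + 2 ^ j),
        ∑ k ∈ Finset.Ico 1 (1 + 2 * N),
          (aV V m : ℂ) * bU U k * (χ m * χ k) * (psi ((m : ℝ) * k / N) : ℂ)‖) := by
        rw [Finset.sum_comm]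
        refine Finset.sum_congr rfl fun r _ => ?_
        rw [Finset.mul_sum]
    _ ≤ ∑ _j ∈ Finset.range J, C * D * Real.log N ^ 2 *
        (N / R + N / Real.sqrt U + N / Real.sqrt V + R * Real.sqrt N) := by
        refine Finset.sum_le_sum fun j hj => ?_
        exact hblock psi D h N U V R (2 ^ j) hN hU hV hR (by positivity) (hJ2 j hj)
    _ = J * (C * D * Real.log N ^ 2 *
        (N / R + N / Real.sqrt U + N / Real.sqrt V + R * Real.sqrt N)) := by
        rw [Finset.sum_const, Finset.card_range, nsmul_eq_mul]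
    _ ≤ (4 * Real.log N) * (C * D * Real.log N ^ 2 *
        (N / R + N / Real.sqrt U + N / Real.sqrt V + R * Real.sqrt N)) :=
        mul_le_mul_of_nonneg_right hJ3 (by positivity)
    _ = _ := by ring

end BV

end
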