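import Pool.Agent.Work.BV.TI
import Pool.Agent.Work.BV.TII

/-!
Module MED (characters of large conductor; size M).

`U = V = ⌊N^{1/10}⌋` (at least 1, at most `N`); on the support of `psi(n/N)` we have `n > N ≥ U`, so
`vaughan` gives `laC χ = T1 χ - T2 χ + T3 χ`.
Type I: `∑_{1<r≤Q} (1/φ(r)) φ(r) C D UV √r (1+log r) log N ≤ C D Q^{3/2} N^{1/5} (log N)²
≤ C D N^{3/4 + 1/5} (log N)²` for `Q ≤ N^{1/2}` (`pSum_mono`, `pSum_const`).
Type II: cut `(R0, Q]`, `R0 = ⌊(log N)^B⌋ ≥ 1`, `Q = ⌊N^{1/2-ε}⌋`, into the dyadic blocks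
`(2^i R0, 2^{i+1} R0]` with `2^i R0 < Q` (all terms are nonnegative, so the last block may exceed `Q`; at
most `C log N` blocks); sum of `type_two`:
`C D (log N)^3 [2N/R0 + C log N N^{19/20} · 2 + 2 Q N^{1/2}]`.
With `B = A + 4` everything is `≤ K D N / (log N)^A` (powers of `log` against powers of `N`;
`⌊x⌋ ≥ x/2` for `x ≥ 1`).  If `R0 ≥ Q` the sum is empty.  If `ε ≥ 1/2` the sum is empty as well.
-/

set_option autoImplicit false

open Finset Filter MeasureTheory Topology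
open scoped ContDiff ArithmeticFunction.Moebius ArithmeticFunction.vonMangoldt

noncomputable section

namespace BV

private theorem med_log {δ : ℝ} (hδ : 0 < δ) (k : ℕ) : ∃ K : ℝ, 1 ≤ K ∧ ∀ N : ℕ, 3 ≤ N →
    Real.log N ^ k ≤ K * (N : ℝ) ^ δ := by
  refine ⟨max 1 ((((k : ℝ) + 1) / δ) ^ k), le_max_left _ _, ?_⟩
  intro N hN
  have hN1 : (1 : ℝ) ≤ N := by exact_mod_cast (by omega : 1 ≤ N)
  have hN0 : (0 : ℝ) ≤ N := by linarith
  have hk : (0 : ℝ) < (k : ℝ) + 1 := by positivity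
  have h1 := Real.log_le_rpow_div hN0 (div_pos hδ hk)
  have h2 : 0 ≤ Real.log N := Real.log_nonneg hN1
  calc Real.log N ^ k ≤ ((N : ℝ) ^ (δ / ((k : ℝ) + 1)) / (δ / ((k : ℝ) + 1))) ^ k :=
        pow_le_pow_left₀ h2 h1 k
    _ = (((k : ℝ) + 1) / δ) ^ k * ((N : ℝ) ^ (δ / ((k : ℝ) + 1))) ^ k := by
        rw [← mul_pow]
        congr 1
        field_simp
    _ ≤ max 1 ((((k : ℝ) + 1) / δ) ^ k) * (N : ℝ) ^ δ := by
        refine mul_le_mul (le_max_right _ _) ?_ (by positivity) (by positivity)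
        rw [← Real.rpow_natCast, ← Real.rpow_mul hN0]
        apply Real.rpow_le_rpow_of_exponent_le hN1
        rw [div_mul_eq_mul_div, div_le_iff₀ hk]
        nlinarith

private theorem med_dec {r : ℕ} (χ : DirichletCharacter ℂ r) {psi : ℝ → ℝ} {D : ℝ}
    (hb : Bump psi D) (N U V : ℕ) (hN : 3 ≤ N) (hU : U ≤ N) :
    laC χ psi N = T1 χ psi N V - T2 χ psi N U V + T3 χ psi N U V := by
  unfold laC T1 T2 T3
  rw [← Finset.sum_sub_distrib, ← Finset.sum_add_distrib]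
  refine Finset.sum_congr rfl fun n _ => ?_
  have hN0 : (0 : ℝ) < N := by exact_mod_cast (by omega : 0 < N)
  rcases le_or_gt n N with hn | hn
  · have h1 : psi ((n : ℝ) / N) = 0 := by
      apply hb.zero
      left
      rw [div_le_one hN0]
      exact_mod_cast hn
    rw [h1]
    simp
  · have h2 := vaughan U V n (lt_of_le_of_lt hU hn)
    have h3 : ((Λ n : ℝ) : ℂ) =
        (((∑ d ∈ n.divisors, if d ≤ V then (μ d : ℝ) * Real.log ((n / d : ℕ) : ℝ) else 0 : ℝ)) : ℂ)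
        - (((∑ l ∈ n.divisors, cV U V l : ℝ)) : ℂ)
        + (((∑ x ∈ n.divisorsAntidiagonal, aV V x.1 * bU U x.2 : ℝ)) : ℂ) := by
      rw [h2]
      push_cast
      ring
    rw [h3]
    ring

private theorem med_blocks (f : ℕ → ℝ) (hf : ∀ r, 0 ≤ f r) (R0 Q N : ℕ) (hR0 : 1 ≤ R0)
    (hQN : Q ≤ N) (hN : 3 ≤ N) (X : ℝ) (hX : 0 ≤ X)
    (h : ∀ R, R0 ≤ R → R < Q → ∑ r ∈ Finset.Ioc R (2 * R), f r ≤ X) :
    ∑ r ∈ Finset.Ioc R0 Q, f r ≤ 3 * Real.log N * X := by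
  have hN3 : (3 : ℝ) ≤ N := by exact_mod_cast hN
  have hL : 1 ≤ Real.log N := by
    rw [Real.le_log_iff_exp_le (by linarith)]
    have := Real.exp_one_lt_d9
    linarith
  have hex : ∃ I : ℕ, Q ≤ 2 ^ I * R0 := by
    refine ⟨Q, ?_⟩
    have := (Nat.lt_two_pow_self (n := Q)).le
    nlinarith
  classical
  obtain ⟨I, hI, hmin⟩ : ∃ I : ℕ, Q ≤ 2 ^ I * R0 ∧ ∀ i < I, 2 ^ i * R0 < Q :=
    ⟨Nat.find hex, Nat.find_spec hex, fun i hi => not_le.1 (Nat.find_min hex hi)⟩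
  have h1 : ∀ J : ℕ, ∑ r ∈ Finset.Ioc R0 (2 ^ J * R0), f r =
      ∑ i ∈ Finset.range J, ∑ r ∈ Finset.Ioc (2 ^ i * R0) (2 * (2 ^ i * R0)), f r := by
    intro J
    induction J with
    | zero => simp
    | succ J ih =>
      rw [Finset.sum_range_succ, ← ih]
      have e1 : 2 ^ (J + 1) * R0 = 2 * (2 ^ J * R0) := by ring
      rw [e1]
      have h2 : R0 ≤ 2 ^ J * R0 := Nat.le_mul_of_pos_left _ (by positivity)
      exact (Finset.sum_Ioc_consecutive f h2 (by omega)).symm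
  have h2 : ∑ r ∈ Finset.Ioc R0 Q, f r ≤ ∑ r ∈ Finset.Ioc R0 (2 ^ I * R0), f r :=
    Finset.sum_le_sum_of_subset_of_nonneg (Finset.Ioc_subset_Ioc_right hI) fun r _ _ => hf r
  have h3 : ∑ i ∈ Finset.range I, ∑ r ∈ Finset.Ioc (2 ^ i * R0) (2 * (2 ^ i * R0)), f r ≤
      I * X := by
    have h4 : ∀ i ∈ Finset.range I,
        ∑ r ∈ Finset.Ioc (2 ^ i * R0) (2 * (2 ^ i * R0)), f r ≤ X := by
      intro i hi
      exact h (2 ^ i * R0) (Nat.le_mul_of_pos_left _ (by positivity)) (hmin i (Finset.mem_range.1 hi))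
    refine (Finset.sum_le_sum h4).trans ?_
    rw [Finset.sum_const, Finset.card_range, nsmul_eq_mul]
  have h5 : (I : ℝ) ≤ 3 * Real.log N := by
    rcases Nat.eq_zero_or_pos I with h0 | h0
    · rw [h0]
      push_cast
      linarith
    · have h6 := hmin (I - 1) (by omega)
      have h7 : 2 ^ (I - 1) ≤ N := by
        have : 2 ^ (I - 1) ≤ 2 ^ (I - 1) * R0 := Nat.le_mul_of_pos_right _ hR0
        omega
      have h8 : ((I - 1 : ℕ) : ℝ) * Real.log 2 ≤ Real.log N := by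
        rw [← Real.log_pow]
        apply Real.log_le_log (by positivity)
        exact_mod_cast h7
      have h9 := Real.log_two_gt_d9
      have h10 : ((I - 1 : ℕ) : ℝ) = I - 1 := by
        rw [Nat.cast_sub h0]
        push_cast
        ring
      rw [h10] at h8
      have h11 : (1 : ℝ) ≤ I := by exact_mod_cast h0
      nlinarith
  calc ∑ r ∈ Finset.Ioc R0 Q, f r ≤ ∑ r ∈ Finset.Ioc R0 (2 ^ I * R0), f r := h2
    _ = _ := h1 I
    _ ≤ I * X := h3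
    _ ≤ 3 * Real.log N * X := mul_le_mul_of_nonneg_right h5 hX

theorem large_cond {ε : ℝ} (hε : 0 < ε) (A : ℕ) :
    ∃ (B : ℕ) (K : ℝ), 0 ≤ K ∧ ∀ (psi : ℝ → ℝ) (D : ℝ), Bump psi D → ∀ N : ℕ, 3 ≤ N →
      ∑ r ∈ Finset.Ioc ⌊Real.log N ^ B⌋₊ ⌊(N : ℝ) ^ (1 / 2 - ε)⌋₊,
        (1 / Nat.totient r : ℝ) * pSum r (fun χ => ‖laC χ psi N‖) ≤
          K * D * N / Real.log N ^ A := by
  obtain ⟨C1, hC1, hT1⟩ := type_one
  obtain ⟨C2, hC2, hT2⟩ := type_two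
  obtain ⟨K1, hK1, hlog1⟩ := med_log (δ := 1 / 20) (by norm_num) (A + 4)
  obtain ⟨K2, hK2, hlog2⟩ := med_log hε (A + 4)
  refine ⟨A + 4, 2 * C1 * K1 + 3 * C2 * (2 + 3 * K1 + K2), by positivity, ?_⟩
  intro psi D hb N hN
  have hD : 0 ≤ D := by
    have := hb.nrm 0 (by norm_num) 0
    exact (abs_nonneg _).trans this
  have hN3 : (3 : ℝ) ≤ N := by exact_mod_cast hN
  have hN1 : (1 : ℝ) ≤ N := by linarith
  have hN0 : (0 : ℝ) < N := by linarith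
  have hL : 1 ≤ Real.log N := by
    rw [Real.le_log_iff_exp_le (by linarith)]
    have := Real.exp_one_lt_d9
    linarith
  set L := Real.log N with hLdef
  have hL0 : 0 < L := by linarith
  set R0 := ⌊L ^ (A + 4)⌋₊ with hR0def
  set Q := ⌊(N : ℝ) ^ (1 / 2 - ε)⌋₊ with hQdef
  set U := ⌊(N : ℝ) ^ (1 / 10 : ℝ)⌋₊ with hUdef
  have hR0 : 1 ≤ R0 := (Nat.one_le_floor_iff _).2 (one_le_pow₀ hL)
  have hR0h : L ^ (A + 4) / 2 ≤ R0 := by
    have h1 := Nat.lt_floor_add_one (L ^ (A + 4))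
    have h2 : (1 : ℝ) ≤ R0 := by exact_mod_cast hR0
    rw [← hR0def] at h1
    linarith
  have hQ1 : (Q : ℝ) ≤ (N : ℝ) ^ (1 / 2 - ε) := Nat.floor_le (by positivity)
  have hQ2 : (Q : ℝ) ≤ (N : ℝ) ^ (1 / 2 : ℝ) :=
    hQ1.trans (Real.rpow_le_rpow_of_exponent_le hN1 (by linarith))
  have hQN : Q ≤ N := by
    have : (Q : ℝ) ≤ N := by
      refine hQ2.trans ?_
      calc (N : ℝ) ^ (1 / 2 : ℝ) ≤ (N : ℝ) ^ (1 : ℝ) :=
            Real.rpow_le_rpow_of_exponent_le hN1 (by norm_num)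
        _ = N := Real.rpow_one _
    exact_mod_cast this
  have hU1 : 1 ≤ U := (Nat.one_le_floor_iff _).2 (Real.one_le_rpow hN1 (by norm_num))
  have hU2 : (U : ℝ) ≤ (N : ℝ) ^ (1 / 10 : ℝ) := Nat.floor_le (by positivity)
  have hU3 : (N : ℝ) ^ (1 / 10 : ℝ) / 2 ≤ U := by
    have h1 := Nat.lt_floor_add_one ((N : ℝ) ^ (1 / 10 : ℝ))
    have h2 : (1 : ℝ) ≤ U := by exact_mod_cast hU1
    rw [← hUdef] at h1
    linarith
  have hUN : U ≤ N := by
    have : (U : ℝ) ≤ N := by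
      refine hU2.trans ?_
      calc (N : ℝ) ^ (1 / 10 : ℝ) ≤ (N : ℝ) ^ (1 : ℝ) :=
            Real.rpow_le_rpow_of_exponent_le hN1 (by norm_num)
        _ = N := Real.rpow_one _
    exact_mod_cast this
  -- the two parts
  have hsplit : ∑ r ∈ Finset.Ioc R0 Q, (1 / Nat.totient r : ℝ) * pSum r (fun χ => ‖laC χ psi N‖) ≤
      ∑ r ∈ Finset.Ioc R0 Q, (1 / Nat.totient r : ℝ) *
        pSum r (fun _ => C1 * D * (U * U : ℝ) * Real.sqrt r * (1 + Real.log r) * L) +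
      ∑ r ∈ Finset.Ioc R0 Q, (1 / Nat.totient r : ℝ) * pSum r (fun χ => ‖T3 χ psi N U U‖) := by
    rw [← Finset.sum_add_distrib]
    refine Finset.sum_le_sum fun r hr => ?_
    rw [Finset.mem_Ioc] at hr
    rw [← mul_add, ← pSum_add]
    refine mul_le_mul_of_nonneg_left (pSum_mono fun _ χ hχ => ?_) (by positivity)
    rw [med_dec χ hb N U U hN hUN]
    have h1 := hT1 psi D hb N U U r hN hU1 hU1 (by omega) χ hχ
    have h2 := norm_add_le (T1 χ psi N U - T2 χ psi N U U) (T3 χ psi N U U)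
    have h3 := norm_sub_le (T1 χ psi N U) (T2 χ psi N U U)
    linarith
  -- type one
  have hp1 : (N : ℝ) ^ (1 / 2 : ℝ) * ((N : ℝ) ^ (1 / 10 : ℝ) * (N : ℝ) ^ (1 / 10 : ℝ)) *
      (N : ℝ) ^ (1 / 4 : ℝ) = (N : ℝ) ^ (19 / 20 : ℝ) := by
    rw [← Real.rpow_add hN0, ← Real.rpow_add hN0, ← Real.rpow_add hN0]
    norm_num
  have hA1 : ∑ r ∈ Finset.Ioc R0 Q, (1 / Nat.totient r : ℝ) *
        pSum r (fun _ => C1 * D * (U * U : ℝ) * Real.sqrt r * (1 + Real.log r) * L) ≤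
      2 * C1 * D * L ^ 2 * (N : ℝ) ^ (19 / 20 : ℝ) := by
    have h1 : ∀ r ∈ Finset.Ioc R0 Q, (1 / Nat.totient r : ℝ) *
        pSum r (fun _ => C1 * D * (U * U : ℝ) * Real.sqrt r * (1 + Real.log r) * L) ≤
        C1 * D * ((N : ℝ) ^ (1 / 10 : ℝ) * (N : ℝ) ^ (1 / 10 : ℝ)) * (N : ℝ) ^ (1 / 4 : ℝ) *
          (2 * L) * L := by
      intro r hr
      rw [Finset.mem_Ioc] at hr
      have hr1 : 1 ≤ r := by omega
      have hr1' : (1 : ℝ) ≤ r := by exact_mod_cast hr1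
      have hφ : (0 : ℝ) < Nat.totient r := by exact_mod_cast Nat.totient_pos.2 (by omega)
      have hlr0 : 0 ≤ Real.log r := Real.log_nonneg hr1'
      have hrN : (r : ℝ) ≤ N := by exact_mod_cast hr.2.trans hQN
      have hlr : 1 + Real.log r ≤ 2 * L := by
        have := Real.log_le_log (by linarith) hrN
        linarith
      have hsr : Real.sqrt r ≤ (N : ℝ) ^ (1 / 4 : ℝ) := by
        rw [Real.sqrt_eq_rpow]
        have h2 : (r : ℝ) ≤ (N : ℝ) ^ (1 / 2 : ℝ) := by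
          have : (r : ℝ) ≤ Q := by exact_mod_cast hr.2
          exact this.trans hQ2
        calc (r : ℝ) ^ (1 / 2 : ℝ) ≤ ((N : ℝ) ^ (1 / 2 : ℝ)) ^ (1 / 2 : ℝ) :=
              Real.rpow_le_rpow (by linarith) h2 (by norm_num)
          _ = (N : ℝ) ^ (1 / 4 : ℝ) := by
              rw [← Real.rpow_mul hN0.le]
              norm_num
      have h3 := pSum_const r (C1 * D * (U * U : ℝ) * Real.sqrt r * (1 + Real.log r) * L)
        (by positivity)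
      calc (1 / Nat.totient r : ℝ) *
          pSum r (fun _ => C1 * D * (U * U : ℝ) * Real.sqrt r * (1 + Real.log r) * L)
          ≤ (1 / Nat.totient r : ℝ) * (Nat.totient r *
            (C1 * D * (U * U : ℝ) * Real.sqrt r * (1 + Real.log r) * L)) :=
            mul_le_mul_of_nonneg_left h3 (by positivity)
        _ = C1 * D * (U * U : ℝ) * Real.sqrt r * (1 + Real.log r) * L := by
            field_simp
        _ ≤ _ := by gcongr
    refine (Finset.sum_le_sum h1).trans ?_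
    rw [Finset.sum_const, Nat.card_Ioc, nsmul_eq_mul]
    have h2 : ((Q - R0 : ℕ) : ℝ) ≤ (N : ℝ) ^ (1 / 2 : ℝ) := by
      have : ((Q - R0 : ℕ) : ℝ) ≤ Q := by exact_mod_cast Nat.sub_le _ _
      exact this.trans hQ2
    calc ((Q - R0 : ℕ) : ℝ) * (C1 * D * ((N : ℝ) ^ (1 / 10 : ℝ) * (N : ℝ) ^ (1 / 10 : ℝ)) *
          (N : ℝ) ^ (1 / 4 : ℝ) * (2 * L) * L)
        ≤ (N : ℝ) ^ (1 / 2 : ℝ) * (C1 * D * ((N : ℝ) ^ (1 / 10 : ℝ) * (N : ℝ) ^ (1 / 10 : ℝ)) *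
          (N : ℝ) ^ (1 / 4 : ℝ) * (2 * L) * L) := mul_le_mul_of_nonneg_right h2 (by positivity)
      _ = 2 * C1 * D * L ^ 2 * ((N : ℝ) ^ (1 / 2 : ℝ) * ((N : ℝ) ^ (1 / 10 : ℝ) *
          (N : ℝ) ^ (1 / 10 : ℝ)) * (N : ℝ) ^ (1 / 4 : ℝ)) := by ring
      _ = _ := by rw [hp1]
  -- type two
  have hA2 : ∑ r ∈ Finset.Ioc R0 Q, (1 / Nat.totient r : ℝ) * pSum r (fun χ => ‖T3 χ psi N U U‖) ≤
      3 * L * (C2 * D * L ^ 3 * (2 * N / L ^ (A + 4) + 3 * (N : ℝ) ^ (19 / 20 : ℝ) +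
        (N : ℝ) ^ (1 - ε))) := by
    refine med_blocks (fun r => (1 / Nat.totient r : ℝ) * pSum r (fun χ => ‖T3 χ psi N U U‖))
      (fun r => mul_nonneg (by positivity) (pSum_nonneg fun _ => norm_nonneg _)) R0 Q N hR0 hQN hN
      _ (by positivity) ?_
    intro R hR hRQ
    have hR1 : 1 ≤ R := hR0.trans hR
    have hR1' : (0 : ℝ) < R := by exact_mod_cast hR1
    refine (hT2 psi D hb N U U R hN hU1 hU1 hR1 (by omega)).trans ?_
    refine mul_le_mul_of_nonneg_left ?_ (by positivity)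
    have h1 : (N : ℝ) / R ≤ 2 * N / L ^ (A + 4) := by
      have h2 : L ^ (A + 4) / 2 ≤ R := hR0h.trans (by exact_mod_cast hR)
      calc (N : ℝ) / R ≤ N / (L ^ (A + 4) / 2) :=
            div_le_div_of_nonneg_left hN0.le (by positivity) h2
        _ = _ := by field_simp
    have h2 : (N : ℝ) / Real.sqrt U ≤ 3 / 2 * (N : ℝ) ^ (19 / 20 : ℝ) := by
      have hU0 : (0 : ℝ) < U := by exact_mod_cast hU1
      have hsU : 0 < Real.sqrt U := Real.sqrt_pos.2 hU0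
      rw [div_le_iff₀ hsU]
      have h3 : (N : ℝ) ^ (1 / 20 : ℝ) * (2 / 3) ≤ Real.sqrt U := by
        apply Real.le_sqrt_of_sq_le
        have h4 : ((N : ℝ) ^ (1 / 20 : ℝ)) ^ 2 = (N : ℝ) ^ (1 / 10 : ℝ) := by
          rw [← Real.rpow_natCast, ← Real.rpow_mul hN0.le]
          norm_num
        rw [mul_pow, h4]
        have : (0 : ℝ) ≤ (N : ℝ) ^ (1 / 10 : ℝ) := by positivity
        linarith
      have h5 : (N : ℝ) ^ (19 / 20 : ℝ) * (N : ℝ) ^ (1 / 20 : ℝ) = N := by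
        rw [← Real.rpow_add hN0]
        norm_num
      calc (N : ℝ) = 3 / 2 * (N : ℝ) ^ (19 / 20 : ℝ) * ((N : ℝ) ^ (1 / 20 : ℝ) * (2 / 3)) := by
            rw [show 3 / 2 * (N : ℝ) ^ (19 / 20 : ℝ) * ((N : ℝ) ^ (1 / 20 : ℝ) * (2 / 3)) =
              (N : ℝ) ^ (19 / 20 : ℝ) * (N : ℝ) ^ (1 / 20 : ℝ) by ring, h5]
        _ ≤ 3 / 2 * (N : ℝ) ^ (19 / 20 : ℝ) * Real.sqrt U :=
            mul_le_mul_of_nonneg_left h3 (by positivity)
    have h3 : (R : ℝ) * Real.sqrt N ≤ (N : ℝ) ^ (1 - ε) := by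
      have h4 : (R : ℝ) ≤ (N : ℝ) ^ (1 / 2 - ε) := by
        have : (R : ℝ) ≤ Q := by exact_mod_cast hRQ.le
        exact this.trans hQ1
      rw [Real.sqrt_eq_rpow]
      calc (R : ℝ) * (N : ℝ) ^ (1 / 2 : ℝ) ≤ (N : ℝ) ^ (1 / 2 - ε) * (N : ℝ) ^ (1 / 2 : ℝ) :=
            mul_le_mul_of_nonneg_right h4 (by positivity)
        _ = (N : ℝ) ^ (1 - ε) := by
            rw [← Real.rpow_add hN0]
            congr 1
            ring
    linarith
  -- logarithms against powers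
  have e1 : L ^ (A + 4) = L ^ A * L ^ 4 := pow_add _ _ _
  have g1 : L ^ 4 * (N : ℝ) ^ (19 / 20 : ℝ) ≤ K1 * (N / L ^ A) := by
    have h1 := hlog1 N hN
    rw [← hLdef] at h1
    have h5 : (N : ℝ) ^ (1 / 20 : ℝ) * (N : ℝ) ^ (19 / 20 : ℝ) = N := by
      rw [← Real.rpow_add hN0]
      norm_num
    rw [mul_div_assoc', le_div_iff₀ (by positivity)]
    calc L ^ 4 * (N : ℝ) ^ (19 / 20 : ℝ) * L ^ A = L ^ (A + 4) * (N : ℝ) ^ (19 / 20 : ℝ) := by
          rw [e1]; ring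
      _ ≤ K1 * (N : ℝ) ^ (1 / 20 : ℝ) * (N : ℝ) ^ (19 / 20 : ℝ) :=
          mul_le_mul_of_nonneg_right h1 (by positivity)
      _ = K1 * N := by rw [mul_assoc, h5]
  have g2 : L ^ 4 * (N : ℝ) ^ (1 - ε) ≤ K2 * (N / L ^ A) := by
    have h1 := hlog2 N hN
    rw [← hLdef] at h1
    have h5 : (N : ℝ) ^ ε * (N : ℝ) ^ (1 - ε) = N := by
      rw [← Real.rpow_add hN0]
      norm_num
    rw [mul_div_assoc', le_div_iff₀ (by positivity)]
    calc L ^ 4 * (N : ℝ) ^ (1 - ε) * L ^ A = L ^ (A + 4) * (N : ℝ) ^ (1 - ε) := by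
          rw [e1]; ring
      _ ≤ K2 * (N : ℝ) ^ ε * (N : ℝ) ^ (1 - ε) :=
          mul_le_mul_of_nonneg_right h1 (by positivity)
      _ = K2 * N := by rw [mul_assoc, h5]
  have g3 : L ^ 2 * (N : ℝ) ^ (19 / 20 : ℝ) ≤ L ^ 4 * (N : ℝ) ^ (19 / 20 : ℝ) :=
    mul_le_mul_of_nonneg_right (pow_le_pow_right₀ hL (by norm_num)) (by positivity)
  have e2 : 3 * L * (C2 * D * L ^ 3 * (2 * N / L ^ (A + 4) + 3 * (N : ℝ) ^ (19 / 20 : ℝ) +
        (N : ℝ) ^ (1 - ε))) = 3 * C2 * D * (2 * (N / L ^ A) +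
        3 * (L ^ 4 * (N : ℝ) ^ (19 / 20 : ℝ)) + L ^ 4 * (N : ℝ) ^ (1 - ε)) := by
    rw [e1]
    field_simp
  have e3 : 2 * C1 * D * L ^ 2 * (N : ℝ) ^ (19 / 20 : ℝ) =
      2 * C1 * D * (L ^ 2 * (N : ℝ) ^ (19 / 20 : ℝ)) := by ring
  rw [e3] at hA1
  rw [e2] at hA2
  have f1 : 2 * C1 * D * (L ^ 2 * (N : ℝ) ^ (19 / 20 : ℝ)) ≤ 2 * C1 * D * (K1 * (N / L ^ A)) :=
    mul_le_mul_of_nonneg_left (g3.trans g1) (by positivity)
  have f2 : 3 * C2 * D * (2 * (N / L ^ A) +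
        3 * (L ^ 4 * (N : ℝ) ^ (19 / 20 : ℝ)) + L ^ 4 * (N : ℝ) ^ (1 - ε)) ≤
      3 * C2 * D * (2 * (N / L ^ A) + 3 * (K1 * (N / L ^ A)) + K2 * (N / L ^ A)) := by
    refine mul_le_mul_of_nonneg_left ?_ (by positivity)
    linarith
  refine (hsplit.trans (add_le_add (hA1.trans f1) (hA2.trans f2))).trans_eq ?_
  ring

end BV

end
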