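import Pool.Agent.Work.BV.BLK

/-!
Module SHA (sharp cut-off, fixed `y`).
-/

set_option autoImplicit false

open Finset Filter MeasureTheory Topology
open scoped ContDiff ArithmeticFunction.Moebius ArithmeticFunction.vonMangoldt

noncomputable section

namespace BV

/-- the difference of two values of `thp` -/
theorem thp_sub_bounds {a b : ℕ} (hab : a ≤ b) (q c : ℕ) :
    0 ≤ thp b q c - thp a q c ∧ thp b q c - thp a q c ≤ (b - a : ℝ) * Real.log b := by
  unfold thp
  have hunion : Finset.Icc 1 b = Finset.Icc 1 a ∪ Finset.Ioc a b := by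
    ext n
    simp only [Finset.mem_union, Finset.mem_Icc, Finset.mem_Ioc]
    omega
  have hdisj : Disjoint (Finset.Icc 1 a) (Finset.Ioc a b) := by
    rw [Finset.disjoint_left]
    intro n
    simp only [Finset.mem_Icc, Finset.mem_Ioc]
    omega
  rw [hunion, Finset.filter_union, Finset.sum_union (Finset.disjoint_filter_filter hdisj),
    add_sub_cancel_left]
  constructor
  · exact Finset.sum_nonneg fun p _ => Real.log_natCast_nonneg p
  · calc ∑ p ∈ (Finset.Ioc a b).filter (fun p => p.Prime ∧ p % q = c % q), Real.log p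
        ≤ ∑ p ∈ (Finset.Ioc a b).filter (fun p => p.Prime ∧ p % q = c % q), Real.log b := by
          refine Finset.sum_le_sum fun p hp => ?_
          rw [Finset.mem_filter, Finset.mem_Ioc] at hp
          have h1 : (0:ℝ) < p := by
            have : 0 < p := by omega
            exact_mod_cast this
          exact Real.log_le_log h1 (by exact_mod_cast hp.1.2)
      _ ≤ ∑ p ∈ Finset.Ioc a b, Real.log b :=
          Finset.sum_le_sum_of_subset_of_nonneg (Finset.filter_subset _ _)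
            fun _ _ _ => Real.log_natCast_nonneg b
      _ = (b - a : ℝ) * Real.log b := by
          rw [Finset.sum_const, Nat.card_Ioc, nsmul_eq_mul, Nat.cast_sub hab]

/-- the trivial bound for `thp` -/
theorem thp_trivial (y : ℕ) {q : ℕ} (hq : 1 ≤ q) (c : ℕ) :
    0 ≤ thp y q c ∧ thp y q c ≤ ((y : ℝ) / q + 1) * Real.log y := by
  unfold thp
  constructor
  · exact Finset.sum_nonneg fun p _ => Real.log_natCast_nonneg p
  · have hcard : (((Finset.Icc 1 y).filter (fun p => p.Prime ∧ p % q = c % q)).card : ℝ) ≤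
        (y : ℝ) / q + 1 := by
      have h1 : ((Finset.Icc 1 y).filter (fun p => p.Prime ∧ p % q = c % q)).card ≤
          (Finset.range (y / q + 1)).card := by
        refine Finset.card_le_card_of_injOn (fun n => n / q) ?_ ?_
        · intro n hn
          rw [Finset.mem_coe, Finset.mem_filter, Finset.mem_Icc] at hn
          rw [Finset.mem_coe, Finset.mem_range]
          exact Nat.lt_succ_of_le (Nat.div_le_div_right (c := q) hn.1.2)
        · intro m hm n hn hmn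
          rw [Finset.mem_coe, Finset.mem_filter] at hm hn
          simp only at hmn
          rw [← Nat.div_add_mod m q, ← Nat.div_add_mod n q, hmn, hm.2.2, hn.2.2]
      rw [Finset.card_range] at h1
      have h2 : ((y / q : ℕ) : ℝ) ≤ (y : ℝ) / q := Nat.cast_div_le
      calc (((Finset.Icc 1 y).filter (fun p => p.Prime ∧ p % q = c % q)).card : ℝ)
          ≤ ((y / q + 1 : ℕ) : ℝ) := by exact_mod_cast h1
        _ = ((y / q : ℕ) : ℝ) + 1 := by push_cast; ring
        _ ≤ (y : ℝ) / q + 1 := by linarith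
    calc ∑ p ∈ (Finset.Icc 1 y).filter (fun p => p.Prime ∧ p % q = c % q), Real.log p
        ≤ ∑ p ∈ (Finset.Icc 1 y).filter (fun p => p.Prime ∧ p % q = c % q), Real.log y := by
          refine Finset.sum_le_sum fun p hp => ?_
          rw [Finset.mem_filter, Finset.mem_Icc] at hp
          have h1 : (0:ℝ) < p := by
            have : 0 < p := by omega
            exact_mod_cast this
          exact Real.log_le_log h1 (by exact_mod_cast hp.1.2)
      _ = (((Finset.Icc 1 y).filter (fun p => p.Prime ∧ p % q = c % q)).card : ℝ) *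
          Real.log y := by rw [Finset.sum_const, nsmul_eq_mul]
      _ ≤ ((y : ℝ) / q + 1) * Real.log y := by
          have := Real.log_natCast_nonneg y
          gcongr

private theorem sha_pow {η : ℝ} (hη : η < 1) (B : ℕ) : ∃ K : ℝ, 0 ≤ K ∧ ∀ Y : ℝ, 1 ≤ Y →
    Y ^ η * Real.log Y ^ B ≤ K * Y := by
  set s : ℝ := (1 - η) / (B + 1) with hs
  have hs0 : 0 < s := by
    rw [hs]
    have : 0 < 1 - η := by linarith
    positivity
  refine ⟨(1 / s) ^ B, by positivity, fun Y hY => ?_⟩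
  have hY0 : 0 < Y := by linarith
  have h1 : Real.log Y ≤ Y ^ s / s := Real.log_le_rpow_div hY0.le hs0
  have h2 : 0 ≤ Real.log Y := Real.log_nonneg hY
  have h3 : Real.log Y ^ B ≤ (1 / s) ^ B * Y ^ (1 - η) := by
    calc Real.log Y ^ B ≤ (Y ^ s / s) ^ B := by gcongr
      _ = (1 / s) ^ B * Y ^ (s * B) := by
          rw [div_pow, ← Real.rpow_natCast (Y ^ s), ← Real.rpow_mul hY0.le, one_div, inv_pow]
          ring
      _ ≤ (1 / s) ^ B * Y ^ (1 - η) := by
          have : s * B ≤ 1 - η := by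
            rw [hs, div_mul_eq_mul_div, div_le_iff₀ (by positivity)]
            have : 0 < 1 - η := by linarith
            nlinarith
          gcongr
  calc Y ^ η * Real.log Y ^ B ≤ Y ^ η * ((1 / s) ^ B * Y ^ (1 - η)) := by gcongr
    _ = (1 / s) ^ B * (Y ^ η * Y ^ (1 - η)) := by ring
    _ = (1 / s) ^ B * Y := by
        rw [← Real.rpow_add hY0]
        norm_num

private theorem sha_step {Q Y M y : ℕ} (c : ℕ → ℕ) (h1 : 7 * M ≤ y) (h2 : y ≤ 7 * M + 6)
    (hy : y ≤ Y) :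
    ∑ q ∈ Finset.Icc 1 Q, |thp y q (c q) - y / (Nat.totient q : ℝ)| ≤
      ∑ q ∈ Finset.Icc 1 Q, |thp (5 * M) q (c q) - (5 * M : ℕ) / (Nat.totient q : ℝ)| +
      ∑ q ∈ Finset.Icc 1 Q,
        |thp (7 * M) q (c q) - thp (5 * M) q (c q) - 2 * M / (Nat.totient q : ℝ)| +
      Q * (6 * Real.log Y + 6) := by
  have hlast : (Q:ℝ) * (6 * Real.log Y + 6) = ∑ q ∈ Finset.Icc 1 Q, (6 * Real.log Y + 6) := by
    rw [Finset.sum_const, Nat.card_Icc, nsmul_eq_mul]
    simp
  rw [hlast, ← Finset.sum_add_distrib, ← Finset.sum_add_distrib]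
  refine Finset.sum_le_sum fun q hq => ?_
  have hq1 : 1 ≤ q := (Finset.mem_Icc.1 hq).1
  have hφ1 : (1:ℝ) ≤ Nat.totient q := by exact_mod_cast Nat.totient_pos.2 hq1
  have hφ0 : (0:ℝ) < Nat.totient q := by linarith
  obtain ⟨b1, b2⟩ := thp_sub_bounds h1 q (c q)
  have hlog : Real.log y ≤ Real.log Y := by
    rcases Nat.eq_zero_or_pos y with rfl | hy0
    · simp only [Nat.cast_zero, Real.log_zero]
      exact Real.log_natCast_nonneg Y
    · exact Real.log_le_log (by exact_mod_cast hy0) (by exact_mod_cast hy)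
  have hly : 0 ≤ Real.log y := Real.log_natCast_nonneg y
  have h3 : (y:ℝ) - (7 * M : ℕ) ≤ 6 := by
    have : (y:ℝ) ≤ (7 * M + 6 : ℕ) := by exact_mod_cast h2
    push_cast at this ⊢
    linarith
  have h4 : 0 ≤ (y:ℝ) - (7 * M : ℕ) := by
    have : ((7 * M : ℕ) : ℝ) ≤ y := by exact_mod_cast h1
    linarith
  have b3 : thp y q (c q) - thp (7 * M) q (c q) ≤ 6 * Real.log Y := by
    calc thp y q (c q) - thp (7 * M) q (c q) ≤ ((y:ℝ) - (7 * M : ℕ)) * Real.log y := b2
      _ ≤ 6 * Real.log Y := by gcongr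
  have h5 : ((y:ℝ) - (7 * M : ℕ)) / (Nat.totient q : ℝ) ≤ 6 := by
    rw [div_le_iff₀ hφ0]
    nlinarith
  have h6 : 0 ≤ ((y:ℝ) - (7 * M : ℕ)) / (Nat.totient q : ℝ) := by positivity
  have h7 : (y:ℝ) / (Nat.totient q : ℝ) = (5 * M : ℕ) / (Nat.totient q : ℝ) +
      2 * M / (Nat.totient q : ℝ) + ((y:ℝ) - (7 * M : ℕ)) / (Nat.totient q : ℝ) := by
    push_cast
    field_simp
    ring
  rw [h7]
  have e : thp y q (c q) - (((5 * M : ℕ) : ℝ) / (Nat.totient q : ℝ) +
      2 * M / (Nat.totient q : ℝ) + ((y:ℝ) - (7 * M : ℕ)) / (Nat.totient q : ℝ)) =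
      (thp (5 * M) q (c q) - (5 * M : ℕ) / (Nat.totient q : ℝ)) +
      (thp (7 * M) q (c q) - thp (5 * M) q (c q) - 2 * M / (Nat.totient q : ℝ)) +
      ((thp y q (c q) - thp (7 * M) q (c q)) -
        ((y:ℝ) - (7 * M : ℕ)) / (Nat.totient q : ℝ)) := by ring
  rw [e]
  refine (abs_add_three _ _ _).trans ?_
  gcongr
  rw [abs_le]
  constructor <;> linarith [Real.log_natCast_nonneg Y]

private theorem sha_main {t : ℝ} (ht0 : 1 / 4 ≤ t) (ht : t < 1 / 2) (A : ℕ) : ∃ K : ℝ, 0 ≤ K ∧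
    ∀ Y : ℕ, 3 ≤ Y →
    ∀ y : ℕ, y ≤ Y → ∀ c : ℕ → ℕ, (∀ q, 0 < q → Nat.Coprime (c q) q) →
      ∑ q ∈ Finset.Icc 1 ⌊(Y : ℝ) ^ t⌋₊, |thp y q (c q) - y / (Nat.totient q : ℝ)| ≤
        K * Y / Real.log Y ^ A := by
  have hε0 : 0 < (1 / 2 - t) / 2 := by linarith
  obtain ⟨K₁, hK₁, hbl⟩ := block hε0 A
  obtain ⟨C₃, hC₃, hti⟩ := totient_inv
  set η : ℝ := 4 * t / (1 + 2 * t) with hη
  have h12 : 0 < 1 + 2 * t := by linarith
  have hη1 : η < 1 := by
    rw [hη, div_lt_one h12]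
    linarith
  have hη2 : 1 / 2 ≤ η := by
    rw [hη, le_div_iff₀ h12]
    linarith
  have hηt : η * (1 / 2 - (1 / 2 - t) / 2) = t := by
    rw [hη]
    field_simp
    ring
  obtain ⟨K₂, hK₂, hp2⟩ := sha_pow hη1 (A + 2)
  obtain ⟨K₃, hK₃, hp3⟩ := sha_pow (show t < 1 by linarith) (A + 2)
  refine ⟨K₁ * 2 ^ A + 112 * C₃ * K₂ + K₃ + 48 * K₃, by positivity, ?_⟩
  intro Y hY y0 hy0 c hc
  have hYR : (3:ℝ) ≤ Y := by exact_mod_cast hY
  have hY0 : (0:ℝ) < Y := by linarith
  have hY1 : (1:ℝ) ≤ Y := by linarith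
  set L := Real.log Y with hL
  have hL1 : 1 < L := by
    rw [hL, Real.lt_log_iff_exp_lt hY0]
    have := Real.exp_one_lt_d9
    linarith
  have hL0 : 0 < L := by linarith
  set Q := ⌊(Y : ℝ) ^ t⌋₊ with hQ
  have hQle : (Q:ℝ) ≤ (Y:ℝ) ^ t := Nat.floor_le (by positivity)
  have hQY : Q ≤ Y := by
    have h1 : (Y:ℝ) ^ t ≤ Y := by
      calc (Y:ℝ) ^ t ≤ (Y:ℝ) ^ (1:ℝ) := Real.rpow_le_rpow_of_exponent_le hY1 (by linarith)
        _ = Y := Real.rpow_one _
    have h2 : (Q:ℝ) ≤ Y := hQle.trans h1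
    exact_mod_cast h2
  -- the threshold
  set T := ⌈(Y : ℝ) ^ η⌉₊ + 2 with hT
  have hTge : (Y:ℝ) ^ η ≤ T := by
    rw [hT]
    push_cast
    linarith [Nat.le_ceil ((Y:ℝ) ^ η)]
  have hT3 : 3 ≤ T := by
    have : 0 < ⌈(Y : ℝ) ^ η⌉₊ := Nat.ceil_pos.2 (by positivity)
    omega
  have hTle : (T:ℝ) ≤ 4 * (Y:ℝ) ^ η := by
    rw [hT]
    push_cast
    have h1 : (⌈(Y : ℝ) ^ η⌉₊ : ℝ) < (Y:ℝ) ^ η + 1 := Nat.ceil_lt_add_one (by positivity)
    have h2 : 1 ≤ (Y:ℝ) ^ η := Real.one_le_rpow hY1 (by linarith)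
    linarith
  have hts : ∑ q ∈ Finset.Icc 1 Q, (1 / (Nat.totient q : ℝ)) ≤ C₃ * (2 * L) := by
    calc ∑ q ∈ Finset.Icc 1 Q, (1 / (Nat.totient q : ℝ))
        ≤ ∑ q ∈ Finset.Icc 1 Y, (1 / (Nat.totient q : ℝ)) :=
          Finset.sum_le_sum_of_subset_of_nonneg (Finset.Icc_subset_Icc_right hQY)
            fun _ _ _ => by positivity
      _ ≤ C₃ * (1 + L) := hti Y (by omega)
      _ ≤ C₃ * (2 * L) := by gcongr; linarith
  -- blocks
  set α := K₁ * 2 ^ A / L ^ A with hα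
  have hα0 : 0 ≤ α := by positivity
  have hblock : ∀ M : ℕ, T ≤ M → ∑ q ∈ Finset.Icc 1 Q,
      |thp (7 * M) q (c q) - thp (5 * M) q (c q) - 2 * M / (Nat.totient q : ℝ)| ≤ α * M := by
    intro M hM
    have hMT : (Y:ℝ) ^ η ≤ M := hTge.trans (by exact_mod_cast hM)
    have hM0 : (0:ℝ) < M := lt_of_lt_of_le (by positivity) hMT
    have hsub : Finset.Icc 1 Q ⊆ Finset.Icc 1 ⌊(M : ℝ) ^ (1 / 2 - (1 / 2 - t) / 2)⌋₊ := by
      refine Finset.Icc_subset_Icc_right (Nat.floor_le_floor ?_)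
      calc (Y:ℝ) ^ t = ((Y:ℝ) ^ η) ^ (1 / 2 - (1 / 2 - t) / 2) := by
            rw [← Real.rpow_mul hY0.le, hηt]
        _ ≤ (M : ℝ) ^ (1 / 2 - (1 / 2 - t) / 2) := by
            refine Real.rpow_le_rpow (by positivity) hMT ?_
            linarith
    have hlogM : L / 2 ≤ Real.log M := by
      calc L / 2 ≤ η * L := by nlinarith
        _ = Real.log ((Y:ℝ) ^ η) := (Real.log_rpow hY0 _).symm
        _ ≤ Real.log M := Real.log_le_log (by positivity) hMT
    calc ∑ q ∈ Finset.Icc 1 Q,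
          |thp (7 * M) q (c q) - thp (5 * M) q (c q) - 2 * M / (Nat.totient q : ℝ)|
        ≤ ∑ q ∈ Finset.Icc 1 ⌊(M : ℝ) ^ (1 / 2 - (1 / 2 - t) / 2)⌋₊,
          |thp (7 * M) q (c q) - thp (5 * M) q (c q) - 2 * M / (Nat.totient q : ℝ)| :=
          Finset.sum_le_sum_of_subset_of_nonneg hsub fun _ _ _ => abs_nonneg _
      _ ≤ K₁ * M / Real.log M ^ A := hbl M (by omega) c hc
      _ ≤ K₁ * M / (L / 2) ^ A := by gcongr
      _ = α * M := by
          rw [hα, div_pow]
          field_simp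
  -- small values
  set W := 7 * T * (C₃ * (2 * L)) * L + Q * L + 7 * T * (C₃ * (2 * L)) with hW
  have hW0 : 0 ≤ W := by positivity
  have hsmall : ∀ y : ℕ, y ≤ Y → y / 7 < T →
      ∑ q ∈ Finset.Icc 1 Q, |thp y q (c q) - y / (Nat.totient q : ℝ)| ≤ W := by
    intro y hy hyT
    have hyT' : (y:ℝ) ≤ 7 * T := by
      have : y ≤ 7 * T := by omega
      exact_mod_cast this
    have hlog : Real.log y ≤ L := by
      rcases Nat.eq_zero_or_pos y with rfl | hy0
      · simp only [Nat.cast_zero, Real.log_zero]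
        exact hL0.le
      · exact Real.log_le_log (by exact_mod_cast hy0) (by exact_mod_cast hy)
    have hly : 0 ≤ Real.log y := Real.log_natCast_nonneg y
    have h1 : ∀ q ∈ Finset.Icc 1 Q, |thp y q (c q) - y / (Nat.totient q : ℝ)| ≤
        (7 * T * L) * (1 / (Nat.totient q : ℝ)) + L + 7 * T * (1 / (Nat.totient q : ℝ)) := by
      intro q hq
      have hq1 : 1 ≤ q := (Finset.mem_Icc.1 hq).1
      have hq0 : (0:ℝ) < q := by exact_mod_cast hq1
      have hφ0 : (0:ℝ) < Nat.totient q := by exact_mod_cast Nat.totient_pos.2 hq1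
      have hφq : (Nat.totient q : ℝ) ≤ q := by exact_mod_cast Nat.totient_le q
      obtain ⟨a1, a2⟩ := thp_trivial y hq1 (c q)
      have a3 : ((y:ℝ) / q + 1) * Real.log y ≤ (7 * T * (1 / (Nat.totient q : ℝ)) + 1) * L := by
        have : (y:ℝ) / q ≤ 7 * T * (1 / (Nat.totient q : ℝ)) := by
          rw [mul_one_div]
          gcongr
        gcongr
      have a4 : (y:ℝ) / (Nat.totient q : ℝ) ≤ 7 * T * (1 / (Nat.totient q : ℝ)) := by
        rw [mul_one_div]
        gcongr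
      have a5 : 0 ≤ (y:ℝ) / (Nat.totient q : ℝ) := by positivity
      have a6 : (7 * T * (1 / (Nat.totient q : ℝ)) + 1) * L =
          (7 * T * L) * (1 / (Nat.totient q : ℝ)) + L := by ring
      have a7 : 0 ≤ (7 * T * L) * (1 / (Nat.totient q : ℝ)) := by positivity
      rw [abs_le]
      constructor <;> linarith
    calc ∑ q ∈ Finset.Icc 1 Q, |thp y q (c q) - y / (Nat.totient q : ℝ)|
        ≤ ∑ q ∈ Finset.Icc 1 Q, ((7 * T * L) * (1 / (Nat.totient q : ℝ)) + L +
          7 * T * (1 / (Nat.totient q : ℝ))) := Finset.sum_le_sum h1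
      _ = (7 * T * L) * ∑ q ∈ Finset.Icc 1 Q, (1 / (Nat.totient q : ℝ)) + Q * L +
          7 * T * ∑ q ∈ Finset.Icc 1 Q, (1 / (Nat.totient q : ℝ)) := by
          rw [Finset.sum_add_distrib, Finset.sum_add_distrib, Finset.mul_sum, Finset.mul_sum,
            Finset.sum_const, Nat.card_Icc, nsmul_eq_mul]
          simp
      _ ≤ (7 * T * L) * (C₃ * (2 * L)) + Q * L + 7 * T * (C₃ * (2 * L)) := by gcongr
      _ = W := by rw [hW]; ring
  -- the induction
  set β := Q * (6 * L + 6) with hβ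
  have hβ0 : 0 ≤ β := by positivity
  have hind : ∀ y : ℕ, y ≤ Y → ∑ q ∈ Finset.Icc 1 Q, |thp y q (c q) - y / (Nat.totient q : ℝ)| ≤
      W + α / 2 * y + 4 * β * Real.log y := by
    intro y
    induction y using Nat.strong_induction_on with
    | _ y ih =>
      intro hy
      have hly : 0 ≤ Real.log y := Real.log_natCast_nonneg y
      by_cases hyT : y / 7 < T
      · have h1 := hsmall y hy hyT
        have h2 : 0 ≤ α / 2 * y := by positivity
        have h3 : 0 ≤ 4 * β * Real.log y := by positivity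
        linarith
      · set M := y / 7 with hM
        have hMT : T ≤ M := by omega
        have h7 : 7 * M ≤ y := by omega
        have h7' : y ≤ 7 * M + 6 := by omega
        have hstep := sha_step (Q := Q) c h7 h7' hy
        have hb := hblock M hMT
        have hih := ih (5 * M) (by omega) (by omega)
        have hM0 : (0:ℝ) < M := by
          have : 0 < M := by omega
          exact_mod_cast this
        have hlg : Real.log ((5 * M : ℕ) : ℝ) + 1 / 4 ≤ Real.log y := by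
          have e1 : Real.log ((5 * M : ℕ) : ℝ) + Real.log (7 / 5) = Real.log (7 * M) := by
            push_cast
            rw [← Real.log_mul (by positivity) (by norm_num)]
            congr 1
            ring
          have e2 : (1:ℝ) / 4 ≤ Real.log (7 / 5) := by
            have := Real.one_sub_inv_le_log_of_pos (show (0:ℝ) < 7 / 5 by norm_num)
            norm_num at this ⊢
            linarith
          have e3 : Real.log (7 * M) ≤ Real.log y := by
            refine Real.log_le_log (by positivity) ?_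
            exact_mod_cast h7
          linarith
        have hlin : α / 2 * ((5 * M : ℕ) : ℝ) + α * M ≤ α / 2 * y := by
          have : (7:ℝ) * M ≤ y := by exact_mod_cast h7
          push_cast
          nlinarith
        have hbeta : 4 * β * Real.log ((5 * M : ℕ) : ℝ) + β ≤ 4 * β * Real.log y := by
          nlinarith
        linarith
  -- the end
  have hfin := hind y0 hy0
  have hlogy : Real.log y0 ≤ L := by
    rcases Nat.eq_zero_or_pos y0 with h | h
    · rw [h]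
      simp only [Nat.cast_zero, Real.log_zero]
      exact hL0.le
    · exact Real.log_le_log (by exact_mod_cast h) (by exact_mod_cast hy0)
  have hy0R : (y0:ℝ) ≤ Y := by exact_mod_cast hy0
  have hLA : 0 < L ^ A := by positivity
  have hp2' : (Y:ℝ) ^ η * L ^ 2 ≤ K₂ * Y / L ^ A := by
    rw [le_div_iff₀ hLA]
    have := hp2 Y hY1
    rw [← hL] at this
    calc (Y:ℝ) ^ η * L ^ 2 * L ^ A = (Y:ℝ) ^ η * L ^ (A + 2) := by rw [pow_add]; ring
      _ ≤ K₂ * Y := this
  have hp3' : (Y:ℝ) ^ t * L ^ 2 ≤ K₃ * Y / L ^ A := by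
    rw [le_div_iff₀ hLA]
    have := hp3 Y hY1
    rw [← hL] at this
    calc (Y:ℝ) ^ t * L ^ 2 * L ^ A = (Y:ℝ) ^ t * L ^ (A + 2) := by rw [pow_add]; ring
      _ ≤ K₃ * Y := this
  have hL2 : L ≤ L ^ 2 := by nlinarith
  have w1 : 7 * T * (C₃ * (2 * L)) * L ≤ 56 * C₃ * (K₂ * Y / L ^ A) := by
    calc 7 * T * (C₃ * (2 * L)) * L ≤ 7 * (4 * (Y:ℝ) ^ η) * (C₃ * (2 * L)) * L := by gcongr
      _ = 56 * C₃ * ((Y:ℝ) ^ η * L ^ 2) := by ring
      _ ≤ 56 * C₃ * (K₂ * Y / L ^ A) := by gcongr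
  have w2 : Q * L ≤ K₃ * Y / L ^ A := by
    calc Q * L ≤ (Y:ℝ) ^ t * L ^ 2 := by gcongr
      _ ≤ K₃ * Y / L ^ A := hp3'
  have w3 : 7 * T * (C₃ * (2 * L)) ≤ 56 * C₃ * (K₂ * Y / L ^ A) := by
    calc 7 * T * (C₃ * (2 * L)) ≤ 7 * (4 * (Y:ℝ) ^ η) * (C₃ * (2 * L ^ 2)) := by gcongr
      _ = 56 * C₃ * ((Y:ℝ) ^ η * L ^ 2) := by ring
      _ ≤ 56 * C₃ * (K₂ * Y / L ^ A) := by gcongr
  have w4 : α / 2 * y0 ≤ K₁ * 2 ^ A * (Y / L ^ A) := by
    calc α / 2 * y0 ≤ α * Y := by nlinarith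
      _ = K₁ * 2 ^ A * (Y / L ^ A) := by rw [hα]; ring
  have w5 : 4 * β * Real.log y0 ≤ 48 * (K₃ * Y / L ^ A) := by
    calc 4 * β * Real.log y0 ≤ 4 * ((Y:ℝ) ^ t * (6 * L + 6 * L)) * L := by
          have : (6:ℝ) ≤ 6 * L := by linarith
          rw [hβ]
          gcongr
      _ = 48 * ((Y:ℝ) ^ t * L ^ 2) := by ring
      _ ≤ 48 * (K₃ * Y / L ^ A) := by gcongr
  have hrhs : (K₁ * 2 ^ A + 112 * C₃ * K₂ + K₃ + 48 * K₃) * Y / L ^ A =
      56 * C₃ * (K₂ * Y / L ^ A) + K₃ * Y / L ^ A + 56 * C₃ * (K₂ * Y / L ^ A) +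
      K₁ * 2 ^ A * (Y / L ^ A) + 48 * (K₃ * Y / L ^ A) := by ring
  rw [hrhs]
  rw [hW] at hfin
  linarith

theorem bv_fixed {t : ℝ} (ht : t < 1 / 2) (A : ℕ) : ∃ K : ℝ, 0 ≤ K ∧ ∀ Y : ℕ, 3 ≤ Y →
    ∀ y : ℕ, y ≤ Y → ∀ c : ℕ → ℕ, (∀ q, 0 < q → Nat.Coprime (c q) q) →
      ∑ q ∈ Finset.Icc 1 ⌊(Y : ℝ) ^ t⌋₊, |thp y q (c q) - y / (Nat.totient q : ℝ)| ≤
        K * Y / Real.log Y ^ A := by
  obtain ⟨K, hK, h⟩ := sha_main (le_max_right t (1 / 4)) (max_lt ht (by norm_num)) A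
  refine ⟨K, hK, fun Y hY y hy c hc => ?_⟩
  refine le_trans ?_ (h Y hY y hy c hc)
  refine Finset.sum_le_sum_of_subset_of_nonneg ?_ fun _ _ _ => abs_nonneg _
  refine Finset.Icc_subset_Icc_right (Nat.floor_le_floor ?_)
  refine Real.rpow_le_rpow_of_exponent_le ?_ (le_max_left _ _)
  have : (3:ℝ) ≤ Y := by exact_mod_cast hY
  linarith

end BV

end
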