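import Pool.Agent.Work.BV.SHA

/-!
Module SHB (sharp cut-off depending on `q`).
-/

set_option autoImplicit false

open Finset Filter MeasureTheory Topology
open scoped ContDiff ArithmeticFunction.Moebius ArithmeticFunction.vonMangoldt

noncomputable section

namespace BV

private theorem shb_pow (B : ℕ) : ∃ K : ℝ, 0 ≤ K ∧ ∀ Y : ℝ, 1 ≤ Y → Real.log Y ^ B ≤ K * Y := by
  set s : ℝ := 1 / (B + 1) with hs
  have hs0 : 0 < s := by
    rw [hs]
    positivity
  refine ⟨(1 / s) ^ B, by positivity, fun Y hY => ?_⟩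
  have hY0 : 0 < Y := by linarith
  have h1 : Real.log Y ≤ Y ^ s / s := Real.log_le_rpow_div hY0.le hs0
  have h2 : 0 ≤ Real.log Y := Real.log_nonneg hY
  calc Real.log Y ^ B ≤ (Y ^ s / s) ^ B := by gcongr
    _ = (1 / s) ^ B * Y ^ (s * B) := by
        rw [div_pow, ← Real.rpow_natCast (Y ^ s), ← Real.rpow_mul hY0.le, one_div, inv_pow]
        ring
    _ ≤ (1 / s) ^ B * Y ^ (1 : ℝ) := by
        have : s * B ≤ 1 := by
          rw [hs, div_mul_eq_mul_div, div_le_iff₀ (by positivity)]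
          linarith
        gcongr
    _ = (1 / s) ^ B * Y := by rw [Real.rpow_one]

theorem bv_theta {t : ℝ} (ht : t < 1 / 2) (A : ℕ) : ∃ C : ℝ, 0 < C ∧ ∀ Y : ℕ, 2 ≤ Y →
    ∀ y c : ℕ → ℕ, (∀ q, y q ≤ Y) → (∀ q, 0 < q → Nat.Coprime (c q) q) →
      ∑ q ∈ Finset.Icc 1 ⌊(Y : ℝ) ^ t⌋₊,
        |thp (y q) q (c q) - (y q : ℝ) / (Nat.totient q : ℝ)| ≤ C * Y / Real.log Y ^ A := by
  obtain ⟨K, hK, hbf⟩ := bv_fixed ht (2 * A + 2)
  obtain ⟨C₃, hC₃, hti⟩ := totient_inv
  obtain ⟨K₂, hK₂, hp⟩ := shb_pow (A + 1)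
  refine ⟨3 * K + 2 * C₃ + 2 * C₃ * K₂ + 5, by positivity, ?_⟩
  intro Y hY y c hy hc
  have hlog2 : Real.log 2 < 1 := by
    have := Real.log_two_lt_d9
    linarith
  have hlog20 : 0 < Real.log 2 := Real.log_pos (by norm_num)
  rcases Nat.lt_or_ge Y 3 with hY3 | hY3
  · -- the case Y = 2
    have hY2 : Y = 2 := by omega
    subst hY2
    have hfl : ⌊((2:ℕ) : ℝ) ^ t⌋₊ ≤ 1 := by
      have h1 : ((2:ℕ) : ℝ) ^ t < 2 := by
        calc ((2:ℕ) : ℝ) ^ t < ((2:ℕ) : ℝ) ^ (1:ℝ) :=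
              Real.rpow_lt_rpow_of_exponent_lt (by norm_num) (by linarith)
          _ = 2 := by rw [Real.rpow_one]; norm_num
      have h2 : ⌊((2:ℕ) : ℝ) ^ t⌋₊ < 2 := (Nat.floor_lt (by positivity)).2 (by exact_mod_cast h1)
      omega
    have hterm : ∀ q ∈ Finset.Icc 1 ⌊((2:ℕ) : ℝ) ^ t⌋₊,
        |thp (y q) q (c q) - (y q : ℝ) / (Nat.totient q : ℝ)| ≤ 5 := by
      intro q hq
      have hq1 : 1 ≤ q := (Finset.mem_Icc.1 hq).1
      have hqR : (1:ℝ) ≤ q := by exact_mod_cast hq1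
      have hφ1 : (1:ℝ) ≤ Nat.totient q := by exact_mod_cast Nat.totient_pos.2 hq1
      have hyq : (y q : ℝ) ≤ 2 := by exact_mod_cast hy q
      have hyq0 : (0:ℝ) ≤ y q := Nat.cast_nonneg _
      obtain ⟨a1, a2⟩ := thp_trivial (y q) hq1 (c q)
      have a3 : Real.log (y q) ≤ 1 := by
        rcases Nat.eq_zero_or_pos (y q) with h | h
        · rw [h]; simp
        · exact (Real.log_le_log (by exact_mod_cast h) hyq).trans hlog2.le
      have a4 : (y q : ℝ) / q ≤ 2 := by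
        rw [div_le_iff₀ (by linarith)]
        nlinarith
      have a5 : (y q : ℝ) / (Nat.totient q : ℝ) ≤ 2 := by
        rw [div_le_iff₀ (by linarith)]
        nlinarith
      have a6 : 0 ≤ (y q : ℝ) / (Nat.totient q : ℝ) := by positivity
      have a7 : ((y q : ℝ) / q + 1) * Real.log (y q) ≤ (2 + 1) * 1 := by
        have := Real.log_natCast_nonneg (y q)
        gcongr
      rw [abs_le]
      constructor <;> linarith
    have hsum : ∑ q ∈ Finset.Icc 1 ⌊((2:ℕ) : ℝ) ^ t⌋₊,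
        |thp (y q) q (c q) - (y q : ℝ) / (Nat.totient q : ℝ)| ≤ 5 := by
      refine (Finset.sum_le_card_nsmul _ _ _ hterm).trans ?_
      rw [Nat.card_Icc, nsmul_eq_mul]
      have : ((⌊((2:ℕ) : ℝ) ^ t⌋₊ + 1 - 1 : ℕ) : ℝ) ≤ 1 := by
        exact_mod_cast (by omega : ⌊((2:ℕ) : ℝ) ^ t⌋₊ + 1 - 1 ≤ 1)
      linarith
    refine hsum.trans ?_
    have hpw : Real.log ((2:ℕ):ℝ) ^ A ≤ 1 := by
      push_cast
      exact pow_le_one₀ hlog20.le hlog2.le
    have hpw0 : 0 < Real.log ((2:ℕ):ℝ) ^ A := by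
      push_cast
      positivity
    rw [le_div_iff₀ hpw0]
    have h0 : 0 ≤ 3 * K + 2 * C₃ + 2 * C₃ * K₂ := by positivity
    push_cast at hpw hpw0 ⊢
    nlinarith
  -- the general case
  have hYR : (3:ℝ) ≤ Y := by exact_mod_cast hY3
  have hY0 : (0:ℝ) < Y := by linarith
  have hY1 : (1:ℝ) ≤ Y := by linarith
  set L := Real.log Y with hL
  have hL1 : 1 < L := by
    rw [hL, Real.lt_log_iff_exp_lt hY0]
    have := Real.exp_one_lt_d9
    linarith
  have hL0 : 0 < L := by linarith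
  set Q := ⌊(Y : ℝ) ^ t⌋₊ with hQ
  have hQY : Q ≤ Y := by
    have h1 : (Y:ℝ) ^ t ≤ Y := by
      calc (Y:ℝ) ^ t ≤ (Y:ℝ) ^ (1:ℝ) := Real.rpow_le_rpow_of_exponent_le hY1 (by linarith)
        _ = Y := Real.rpow_one _
    have h2 : (Q:ℝ) ≤ Y := (Nat.floor_le (by positivity)).trans h1
    exact_mod_cast h2
  have hts : ∑ q ∈ Finset.Icc 1 Q, (1 / (Nat.totient q : ℝ)) ≤ C₃ * (2 * L) := by
    calc ∑ q ∈ Finset.Icc 1 Q, (1 / (Nat.totient q : ℝ))
        ≤ ∑ q ∈ Finset.Icc 1 Y, (1 / (Nat.totient q : ℝ)) :=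
          Finset.sum_le_sum_of_subset_of_nonneg (Finset.Icc_subset_Icc_right hQY)
            fun _ _ _ => by positivity
      _ ≤ C₃ * (1 + L) := hti Y (by omega)
      _ ≤ C₃ * (2 * L) := by gcongr; linarith
  have hLA : 0 < L ^ (A + 1) := by positivity
  have hLA1 : 1 ≤ L ^ (A + 1) := one_le_pow₀ hL1.le
  set h := ⌈(Y:ℝ) / L ^ (A + 1)⌉₊ with hh
  have hh1 : 1 ≤ h := Nat.ceil_pos.2 (by positivity)
  have hhge : (Y:ℝ) / L ^ (A + 1) ≤ h := Nat.le_ceil _
  have hhle : (h:ℝ) ≤ Y / L ^ (A + 1) + 1 := (Nat.ceil_lt_add_one (by positivity)).le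
  have hh0 : (0:ℝ) < h := by exact_mod_cast hh1
  set n := Y / h + 2 with hn
  have hnle : (n:ℝ) ≤ 3 * L ^ (A + 1) := by
    have h1 : ((Y / h : ℕ) : ℝ) ≤ (Y:ℝ) / h := Nat.cast_div_le
    have h2 : (Y:ℝ) / h ≤ L ^ (A + 1) := by
      rw [div_le_iff₀ hh0]
      rw [div_le_iff₀ hLA] at hhge
      linarith
    rw [hn]
    push_cast
    linarith
  -- the grid
  set g : ℕ → ℕ := fun k => min (k * h) Y with hg
  have hgY : ∀ k, g k ≤ Y := fun k => min_le_right _ _
  have key : ∀ q ∈ Finset.Icc 1 Q, |thp (y q) q (c q) - (y q : ℝ) / (Nat.totient q : ℝ)| ≤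
      ∑ k ∈ Finset.range n, |thp (g k) q (c q) - (g k : ℝ) / (Nat.totient q : ℝ)| +
        h * (1 / (Nat.totient q : ℝ)) := by
    intro q hq
    have hq1 : 1 ≤ q := (Finset.mem_Icc.1 hq).1
    have hφ0 : (0:ℝ) < Nat.totient q := by exact_mod_cast Nat.totient_pos.2 hq1
    set k := y q / h with hk
    have hdm := Nat.div_add_mod (y q) h
    have hml := Nat.mod_lt (y q) hh1
    have hk1 : k * h ≤ y q := Nat.div_mul_le_self _ _
    have hk2 : y q < (k + 1) * h := by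
      rw [hk]
      exact Nat.lt_mul_of_div_lt (Nat.lt_succ_self _) hh1
    have hkY : k ≤ Y / h := Nat.div_le_div_right (hy q)
    have hkn : k ∈ Finset.range n := Finset.mem_range.2 (by omega)
    have hkn' : k + 1 ∈ Finset.range n := Finset.mem_range.2 (by omega)
    have hgk : g k ≤ y q := (min_le_left _ _).trans hk1
    have hgk' : y q ≤ g (k + 1) := le_min hk2.le (hy q)
    have hgk2 : (y q : ℝ) ≤ g k + h := by
      have : y q ≤ g k + h := by
        simp only [hg]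
        have e := hy q
        have e2 : (k + 1) * h = k * h + h := by ring
        rcases le_total (k * h) Y with e3 | e3
        · rw [min_eq_left e3]; omega
        · rw [min_eq_right e3]; omega
      exact_mod_cast this
    have hgk3 : (g (k + 1) : ℝ) ≤ y q + h := by
      have : g (k + 1) ≤ y q + h := by
        have e : g (k + 1) ≤ (k + 1) * h := min_le_left _ _
        have e2 : (k + 1) * h = k * h + h := by ring
        omega
      exact_mod_cast this
    have m1 := (thp_sub_bounds hgk q (c q)).1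
    have m2 := (thp_sub_bounds hgk' q (c q)).1
    have s1 : |thp (g k) q (c q) - (g k : ℝ) / (Nat.totient q : ℝ)| ≤
        ∑ k ∈ Finset.range n, |thp (g k) q (c q) - (g k : ℝ) / (Nat.totient q : ℝ)| :=
      Finset.single_le_sum (f := fun k => |thp (g k) q (c q) - (g k : ℝ) / (Nat.totient q : ℝ)|)
        (fun _ _ => abs_nonneg _) hkn
    have s2 : |thp (g (k + 1)) q (c q) - (g (k + 1) : ℝ) / (Nat.totient q : ℝ)| ≤
        ∑ k ∈ Finset.range n, |thp (g k) q (c q) - (g k : ℝ) / (Nat.totient q : ℝ)| :=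
      Finset.single_le_sum (f := fun k => |thp (g k) q (c q) - (g k : ℝ) / (Nat.totient q : ℝ)|)
        (fun _ _ => abs_nonneg _) hkn'
    have d1 : (y q : ℝ) / (Nat.totient q : ℝ) ≤
        (g k : ℝ) / (Nat.totient q : ℝ) + h * (1 / (Nat.totient q : ℝ)) := by
      rw [mul_one_div, ← add_div]
      gcongr
    have d2 : (g (k + 1) : ℝ) / (Nat.totient q : ℝ) ≤
        (y q : ℝ) / (Nat.totient q : ℝ) + h * (1 / (Nat.totient q : ℝ)) := by
      rw [mul_one_div, ← add_div]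
      gcongr
    have t1 := neg_abs_le (thp (g k) q (c q) - (g k : ℝ) / (Nat.totient q : ℝ))
    have t2 := le_abs_self (thp (g (k + 1)) q (c q) - (g (k + 1) : ℝ) / (Nat.totient q : ℝ))
    rw [abs_le]
    constructor <;> linarith
  have hsumk : ∀ k ∈ Finset.range n, ∑ q ∈ Finset.Icc 1 Q,
      |thp (g k) q (c q) - (g k : ℝ) / (Nat.totient q : ℝ)| ≤ K * Y / L ^ (2 * A + 2) :=
    fun k _ => hbf Y hY3 (g k) (hgY k) c hc
  have hpY := hp Y hY1
  rw [← hL] at hpY
  calc ∑ q ∈ Finset.Icc 1 Q, |thp (y q) q (c q) - (y q : ℝ) / (Nat.totient q : ℝ)|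
      ≤ ∑ q ∈ Finset.Icc 1 Q, (∑ k ∈ Finset.range n,
        |thp (g k) q (c q) - (g k : ℝ) / (Nat.totient q : ℝ)| +
          h * (1 / (Nat.totient q : ℝ))) := Finset.sum_le_sum key
    _ = ∑ k ∈ Finset.range n, ∑ q ∈ Finset.Icc 1 Q,
        |thp (g k) q (c q) - (g k : ℝ) / (Nat.totient q : ℝ)| +
          h * ∑ q ∈ Finset.Icc 1 Q, (1 / (Nat.totient q : ℝ)) := by
        rw [Finset.sum_add_distrib, Finset.mul_sum, Finset.sum_comm]
    _ ≤ n * (K * Y / L ^ (2 * A + 2)) + h * (C₃ * (2 * L)) := by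
        refine add_le_add ?_ (by gcongr)
        refine (Finset.sum_le_card_nsmul _ _ _ hsumk).trans (le_of_eq ?_)
        rw [Finset.card_range, nsmul_eq_mul]
    _ ≤ 3 * L ^ (A + 1) * (K * Y / L ^ (2 * A + 2)) +
        (Y / L ^ (A + 1) + 1) * (C₃ * (2 * L)) := by gcongr
    _ ≤ (3 * K + 2 * C₃ + 2 * C₃ * K₂ + 5) * Y / L ^ A := by
        have e1 : 3 * L ^ (A + 1) * (K * Y / L ^ (2 * A + 2)) ≤ 3 * K * (Y / L ^ A) := by
          have : 3 * L ^ (A + 1) * (K * Y / L ^ (2 * A + 2)) = 3 * K * (Y / L ^ (A + 1)) := by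
            rw [show 2 * A + 2 = (A + 1) + (A + 1) by ring, pow_add L (A + 1) (A + 1)]
            field_simp
          rw [this]
          have h5 : L ^ A ≤ L ^ (A + 1) := pow_le_pow_right₀ hL1.le (by omega)
          gcongr
        have e2 : (Y / L ^ (A + 1) + 1) * (C₃ * (2 * L)) =
            2 * C₃ * (Y / L ^ A) + 2 * C₃ * L := by
          rw [pow_succ]
          field_simp
        have e3 : L ≤ K₂ * (Y / L ^ A) := by
          rw [mul_div_assoc', le_div_iff₀ (by positivity)]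
          calc L * L ^ A = L ^ (A + 1) := by rw [pow_succ]; ring
            _ ≤ K₂ * Y := hpY
        have e4 : 2 * C₃ * L ≤ 2 * C₃ * (K₂ * (Y / L ^ A)) := by gcongr
        have e5 : 0 ≤ (Y:ℝ) / L ^ A := by positivity
        have e6 : (3 * K + 2 * C₃ + 2 * C₃ * K₂ + 5) * Y / L ^ A =
            3 * K * (Y / L ^ A) + 2 * C₃ * (Y / L ^ A) + 2 * C₃ * (K₂ * (Y / L ^ A)) +
              5 * (Y / L ^ A) := by ring
        rw [e6, e2]
        linarith

end BV

end
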