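import Pool.Agent.Work.BV.TRA
import Pool.Agent.Work.BV.IBP

/-!
Module SSUM (smooth sums from bounds for Dirichlet series to the right of 1; size M).

Put `X = log N ≥ 1`, `σ = 1 + 1/X ∈ (1, 2]`, `L(ξ) = LSeries f (σ + iξ)` (absolutely convergent because
`‖f n‖ ≤ 2 (1 + log n)`).  By `TR_inv` with `c = σ`, `t = log (n/N)`, for `n ≥ 1`:
`psi(n/N) = (1/2π) ∫ TR psi (σ+iξ) (n/N)^{-σ-iξ} dξ`.  Sum over all `n ≥ 1` (the terms `n ≥ 2N` and
`n = 0` vanish) and exchange sum and integral (`∑ ‖f n‖ n^{-σ} ∫ ‖TR‖ < ∞`):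
`∑ f(n) psi(n/N) = (1/2π) N^σ ∫ F(ξ) e^{iξX} dξ`, `F(ξ) = TR psi (σ+iξ) L(ξ)`, `N^σ = e N`.
`L` is smooth and `L^{(j)}(ξ) = (-i)^j LSeries (f log^j) (σ+iξ)` (`LSeries_hasDerivAt`, or
`LSeries_iteratedDeriv`, with `LSeries.logMul`; the abscissa of absolute convergence of `f` is at
most 1).  Leibniz with `TR_bound` and the hypothesis: `‖F^{(j)}(ξ)‖ ≤ 2^j C D K (1+|ξ|)/(1+|ξ|)^3` for
`j ≤ A`.  `osc_bound` with this `X`: `‖∫ F e^{iξX}‖ ≤ C D K / X^A`.
(`0 ≤ K`: take `s = 2` in the hypothesis.)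
-/

set_option autoImplicit false

open Finset Filter MeasureTheory Topology
open scoped ContDiff ArithmeticFunction.Moebius ArithmeticFunction.vonMangoldt

noncomputable section

namespace BV

/-- the coefficients with a power of the logarithm -/
private def ssF (f : ℕ → ℂ) (m : ℕ) : ℕ → ℂ := fun n => f n * ((Real.log n : ℂ)) ^ m

private lemma ssF_logMul (f : ℕ → ℂ) (m : ℕ) : LSeries.logMul (ssF f m) = ssF f (m + 1) := by
  ext n
  unfold LSeries.logMul ssF
  rw [Complex.natCast_log]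
  ring

private lemma ssF_zero (f : ℕ → ℂ) : ssF f 0 = f := by
  ext n
  simp [ssF]

private lemma ss_absc {f : ℕ → ℂ} (hf : ∀ n : ℕ, ‖f n‖ ≤ 2 * (1 + Real.log n)) (m : ℕ) :
    LSeries.abscissaOfAbsConv (ssF f m) ≤ 1 := by
  have h0 : LSeries.abscissaOfAbsConv f ≤ 1 := by
    have h1 : ∀ ε : ℝ, 0 < ε → LSeries.abscissaOfAbsConv f ≤ ((ε : ℝ) : EReal) + 1 := by
      intro ε hε
      apply LSeries.abscissaOfAbsConv_le_of_le_const_mul_rpow
      refine ⟨2 * (1 + 1 / ε), fun n hn => (hf n).trans ?_⟩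
      have hn1 : (1:ℝ) ≤ n := by
        have : 1 ≤ n := Nat.one_le_iff_ne_zero.2 hn
        exact_mod_cast this
      have h2 := Real.log_le_rpow_div (x := (n : ℝ)) (by linarith) hε
      have h3 : (1:ℝ) ≤ (n : ℝ) ^ ε := Real.one_le_rpow hn1 hε.le
      calc 2 * (1 + Real.log n) ≤ 2 * ((n : ℝ) ^ ε + (n : ℝ) ^ ε / ε) := by gcongr
        _ = 2 * (1 + 1 / ε) * (n : ℝ) ^ ε := by ring
    refine EReal.le_of_forall_lt_iff_le.1 fun z hz => ?_
    have hz' : (1:ℝ) < z := by exact_mod_cast hz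
    have := h1 (z - 1) (by linarith)
    refine this.trans ?_
    have e : (((z - 1 : ℝ) : EReal) + 1) = ((z : ℝ) : EReal) := by
      rw [show (1 : EReal) = ((1 : ℝ) : EReal) from rfl, ← EReal.coe_add]
      congr 1
      ring
    rw [e]
  induction m with
  | zero => rw [ssF_zero]; exact h0
  | succ m ih => rw [← ssF_logMul, LSeries.abscissaOfAbsConv_logMul]; exact ih

private lemma ss_hasDeriv {f : ℕ → ℂ} (hf : ∀ n : ℕ, ‖f n‖ ≤ 2 * (1 + Real.log n)) (m : ℕ)
    {σ : ℝ} (hσ : 1 < σ) (ξ : ℝ) :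
    HasDerivAt (fun ξ : ℝ => LSeries (ssF f m) (σ + ξ * Complex.I))
      (-Complex.I * LSeries (ssF f (m + 1)) (σ + ξ * Complex.I)) ξ := by
  have hre : ((σ : ℂ) + ξ * Complex.I).re = σ := by simp
  have h1 : LSeries.abscissaOfAbsConv (ssF f m) < (((σ : ℂ) + ξ * Complex.I).re : EReal) := by
    rw [hre]
    refine (ss_absc hf m).trans_lt ?_
    exact_mod_cast hσ
  have h2 := LSeries_hasDerivAt h1
  rw [ssF_logMul] at h2
  have h3 : HasDerivAt (fun ξ : ℝ => (σ : ℂ) + ξ * Complex.I) Complex.I ξ := by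
    have := ((Complex.ofRealCLM.hasDerivAt (x := ξ)).mul_const Complex.I).const_add (σ : ℂ)
    simpa using this
  have h4 := h2.comp_of_eq ξ h3 rfl
  have e : -Complex.I * LSeries (ssF f (m + 1)) (σ + ξ * Complex.I) =
      -LSeries (ssF f (m + 1)) (σ + ξ * Complex.I) * Complex.I := by ring
  rw [e]
  exact h4

private lemma ss_iter {f : ℕ → ℂ} (hf : ∀ n : ℕ, ‖f n‖ ≤ 2 * (1 + Real.log n)) (m : ℕ)
    {σ : ℝ} (hσ : 1 < σ) :
    iteratedDeriv m (fun ξ : ℝ => LSeries f (σ + ξ * Complex.I)) =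
      fun ξ : ℝ => (-Complex.I) ^ m * LSeries (ssF f m) (σ + ξ * Complex.I) := by
  induction m with
  | zero =>
    rw [iteratedDeriv_zero, ssF_zero]
    simp
  | succ m ih =>
    rw [iteratedDeriv_succ, ih]
    ext ξ
    have := (ss_hasDeriv hf m hσ ξ).const_mul ((-Complex.I) ^ m)
    rw [this.deriv]
    ring

private lemma ss_contDiff {f : ℕ → ℂ} (hf : ∀ n : ℕ, ‖f n‖ ≤ 2 * (1 + Real.log n)) (A : ℕ)
    {σ : ℝ} (hσ : 1 < σ) :
    ContDiff ℝ A (fun ξ : ℝ => LSeries f (σ + ξ * Complex.I)) := by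
  have : ContDiff ℝ ((A : ℕ∞) : WithTop ℕ∞) (fun ξ : ℝ => LSeries f (σ + ξ * Complex.I)) := by
    apply contDiff_of_differentiable_iteratedDeriv
    intro m _
    rw [ss_iter hf m hσ]
    intro ξ
    exact ((ss_hasDeriv hf m hσ ξ).const_mul ((-Complex.I) ^ m)).differentiableAt
  exact_mod_cast this

private lemma ss_interchange {psi : ℝ → ℝ} {D : ℝ} (h : Bump psi D) {f : ℕ → ℂ}
    (hf : ∀ n : ℕ, ‖f n‖ ≤ 2 * (1 + Real.log n)) {N : ℕ} (hN : 0 < N) {σ : ℝ} (hσ : 1 < σ)
    (hσ2 : σ ≤ 2) :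
    ∑ n ∈ Finset.range (2 * N), f n * (psi ((n : ℝ) / N) : ℂ) =
      (1 / (2 * Real.pi)) * ∫ ξ : ℝ, Complex.exp ((σ + ξ * Complex.I) * Real.log N) *
        (TR psi (σ + ξ * Complex.I) * LSeries f (σ + ξ * Complex.I)) := by
  have hNR : (0:ℝ) < N := by exact_mod_cast hN
  set X := Real.log N with hX
  obtain ⟨C, hC0, hC⟩ := TR_int
  obtain ⟨hTint, -⟩ := hC psi D h σ (by rw [abs_of_pos (by linarith)]; exact hσ2)
  have hTcont : Continuous (fun ξ : ℝ => TR psi (σ + ξ * Complex.I)) := (TR_smooth h σ).continuous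
  have hsum : LSeriesSummable f (σ : ℂ) := by
    apply LSeriesSummable_of_abscissaOfAbsConv_lt_re
    have := ss_absc hf 0
    rw [ssF_zero] at this
    refine this.trans_lt ?_
    simp only [Complex.ofReal_re]
    exact_mod_cast hσ
  set F : ℕ → ℝ → ℂ := fun n ξ => Complex.exp ((σ + ξ * Complex.I) * X) *
    (TR psi (σ + ξ * Complex.I) * LSeries.term f (σ + ξ * Complex.I) n) with hFdef
  have hnormF : ∀ n ξ, ‖F n ξ‖ = (Real.exp (σ * X) * ‖LSeries.term f (σ : ℂ) n‖) *
      ‖TR psi (σ + ξ * Complex.I)‖ := by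
    intro n ξ
    simp only [hFdef, norm_mul, Complex.norm_exp]
    rw [LSeries.norm_term_eq, LSeries.norm_term_eq]
    have e1 : (((σ : ℂ) + ξ * Complex.I) * X).re = σ * X := by simp
    have e2 : ((σ : ℂ) + ξ * Complex.I).re = σ := by simp
    rw [e1, e2, Complex.ofReal_re]
    ring
  have hFint : ∀ n, Integrable (F n) := by
    intro n
    have hb := hTint.norm.const_mul (Real.exp (σ * X) * ‖LSeries.term f (σ : ℂ) n‖)
    refine hb.mono' ?_ (Eventually.of_forall fun ξ => (hnormF n ξ).le)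
    apply Continuous.aestronglyMeasurable
    apply Continuous.mul
    · fun_prop
    · apply hTcont.mul
      rcases Nat.eq_zero_or_pos n with h0 | h0
      · subst h0
        simp only [LSeries.term_zero]
        exact continuous_const
      · have hn : (n : ℂ) ≠ 0 := by
          exact_mod_cast h0.ne'
        simp only [LSeries.term_of_ne_zero h0.ne']
        apply Continuous.div continuous_const
        · apply Continuous.const_cpow _ (Or.inl hn)
          fun_prop
        · intro ξ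
          exact (Complex.cpow_ne_zero_iff_of_exponent_ne_zero (by
            intro hc
            have := congrArg Complex.re hc
            simp at this
            linarith)).2 hn
  have hFsum : Summable (fun n => ∫ ξ, ‖F n ξ‖) := by
    simp_rw [hnormF]
    simp_rw [integral_const_mul]
    have h1 := hsum.norm
    exact (h1.mul_left (Real.exp (σ * X))).mul_right _
  have hS := hasSum_integral_of_summable_integral_norm hFint hFsum
  -- the value of each integral
  have hval : ∀ n, (1 / (2 * Real.pi) : ℂ) * ∫ ξ, F n ξ = f n * (psi ((n : ℝ) / N) : ℂ) := by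
    intro n
    rcases Nat.eq_zero_or_pos n with h0 | h0
    · subst h0
      have e1 : psi (((0 : ℕ) : ℝ) / N) = 0 := h.zero _ (Or.inl (by simp))
      rw [e1]
      simp [hFdef]
    · have hnR : (0:ℝ) < n := by exact_mod_cast h0
      have hinv := TR_inv h σ (Real.log ((n : ℝ) / N))
      rw [Real.exp_log (by positivity)] at hinv
      rw [hinv, mul_left_comm, ← integral_const_mul (f n)]
      congr 1
      congr 1
      ext ξ
      simp only [hFdef, LSeries.term_of_ne_zero h0.ne']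
      have hn : (n : ℂ) ≠ 0 := by exact_mod_cast h0.ne'
      rw [Complex.cpow_def_of_ne_zero hn, Real.log_div hnR.ne' hNR.ne',
        ← hX]
      push_cast
      rw [show -(((σ : ℂ) + ξ * Complex.I) * (Complex.log n - X)) =
        ((σ + ξ * Complex.I) * X) + (-(Complex.log n * (σ + ξ * Complex.I))) by ring,
        Complex.exp_add, Complex.exp_neg]
      field_simp
  have hS2 := hS.mul_left (1 / (2 * Real.pi) : ℂ)
  simp_rw [hval] at hS2
  have hfin : HasSum (fun n : ℕ => f n * (psi ((n : ℝ) / N) : ℂ))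
      (∑ n ∈ Finset.range (2 * N), f n * (psi ((n : ℝ) / N) : ℂ)) := by
    apply hasSum_sum_of_ne_finset_zero
    intro n hn
    have hn' : 2 * N ≤ n := by
      by_contra hcon
      exact hn (Finset.mem_range.2 (by omega))
    have : psi ((n : ℝ) / N) = 0 := by
      apply h.zero
      right
      rw [le_div_iff₀ hNR]
      exact_mod_cast hn'
    rw [this]
    simp
  rw [hfin.unique hS2]
  congr 1
  congr 1
  ext ξ
  simp only [hFdef]
  rw [tsum_mul_left, tsum_mul_left]
  rfl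

theorem smooth_sum (A : ℕ) : ∃ C : ℝ, 0 ≤ C ∧ ∀ (psi : ℝ → ℝ) (D : ℝ), Bump psi D →
    ∀ (f : ℕ → ℂ) (K : ℝ), (∀ n : ℕ, ‖f n‖ ≤ 2 * (1 + Real.log n)) →
      (∀ j ≤ A, ∀ s : ℂ, 1 < s.re → s.re ≤ 2 →
        ‖LSeries (fun n => f n * ((Real.log n : ℂ)) ^ j) s‖ ≤ K * (1 + |s.im|)) →
      ∀ N : ℕ, 3 ≤ N →
        ‖∑ n ∈ Finset.range (2 * N), f n * (psi ((n : ℝ) / N) : ℂ)‖ ≤
          C * D * K * N / Real.log N ^ A := by
  choose B hB0 hB using TR_bound
  set B' := ∑ k ∈ Finset.range (A + 1), B k with hB'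
  have hB'0 : 0 ≤ B' := Finset.sum_nonneg fun k _ => hB0 k
  refine ⟨3 * (4 * (2 ^ A * B')), by positivity, ?_⟩
  intro psi D h f K hf hK N hN
  have hD : 0 ≤ D := (abs_nonneg _).trans (h.nrm 0 (by norm_num) 0)
  have hK0 : 0 ≤ K := by
    have := (norm_nonneg _).trans (hK 0 (Nat.zero_le _) 2 (by norm_num) (by norm_num))
    simpa using this
  have hNR : (0:ℝ) < N := by
    have : 0 < N := by omega
    exact_mod_cast this
  set X := Real.log N with hX
  have hX1 : 1 ≤ X := by
    have h3 : Real.log 3 ≤ X := Real.log_le_log (by norm_num) (by exact_mod_cast hN)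
    have h4 : (1:ℝ) ≤ Real.log 3 := by
      rw [Real.le_log_iff_exp_le (by norm_num)]
      have := Real.exp_one_lt_d9
      linarith
    linarith
  set σ : ℝ := 1 + 1 / X with hσdef
  have hσ : 1 < σ := by
    have : 0 < 1 / X := by positivity
    linarith
  have hσ2 : σ ≤ 2 := by
    have : 1 / X ≤ 1 := by
      rw [div_le_one (by linarith)]
      exact hX1
    linarith
  rw [ss_interchange h hf (by omega) hσ hσ2, ← hX]
  set Φ : ℝ → ℂ := fun ξ => TR psi (σ + ξ * Complex.I) * LSeries f (σ + ξ * Complex.I) with hΦ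
  have hT := TR_smooth h σ
  have hL := ss_contDiff hf A hσ
  have hΦs : ContDiff ℝ A Φ := (hT.of_le (by exact_mod_cast le_top)).mul hL
  have hbound : ∀ j ≤ A, ∀ ξ : ℝ, ‖iteratedDeriv j Φ ξ‖ ≤ (2 ^ A * B' * D * K) / (1 + |ξ|) ^ 2 := by
    intro j hj ξ
    have hx : 0 ≤ |ξ| := abs_nonneg ξ
    have h1 := norm_iteratedFDeriv_mul_le (𝕜 := ℝ) (N := (A : ℕ∞ω))
      (f := fun ξ : ℝ => TR psi (σ + ξ * Complex.I)) (g := fun ξ : ℝ => LSeries f (σ + ξ * Complex.I))
      (hT.of_le (by exact_mod_cast le_top)) hL ξ (n := j) (by exact_mod_cast hj)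
    simp_rw [norm_iteratedFDeriv_eq_norm_iteratedDeriv] at h1
    refine h1.trans ?_
    calc ∑ k ∈ Finset.range (j + 1), (j.choose k : ℝ) *
          ‖iteratedDeriv k (fun ξ : ℝ => TR psi (σ + ξ * Complex.I)) ξ‖ *
          ‖iteratedDeriv (j - k) (fun ξ : ℝ => LSeries f (σ + ξ * Complex.I)) ξ‖
        ≤ ∑ k ∈ Finset.range (j + 1), (j.choose k : ℝ) * (B' * D / (1 + |ξ|) ^ 3) *
          (K * (1 + |ξ|)) := by
          apply Finset.sum_le_sum
          intro k hk
          have hk' : k ≤ j := by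
            have := Finset.mem_range.1 hk
            omega
          have a := hB k psi D h σ ξ (by rw [abs_of_pos (by linarith)]; exact hσ2)
          have a' : B k * D / (1 + |ξ|) ^ 3 ≤ B' * D / (1 + |ξ|) ^ 3 := by
            have : B k ≤ B' := Finset.single_le_sum (f := B) (fun i _ => hB0 i)
              (Finset.mem_range.2 (by omega))
            gcongr
          have b : ‖iteratedDeriv (j - k) (fun ξ : ℝ => LSeries f (σ + ξ * Complex.I)) ξ‖ ≤
              K * (1 + |ξ|) := by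
            rw [ss_iter hf (j - k) hσ]
            simp only [norm_mul, norm_pow, norm_neg, Complex.norm_I, one_pow, one_mul]
            have h9 := hK (j - k) (by omega) (σ + ξ * Complex.I) (by simpa using hσ)
              (by simpa using hσ2)
            have e9 : (fun n : ℕ => f n * ((Real.log n : ℂ)) ^ (j - k)) = ssF f (j - k) := rfl
            rw [e9] at h9
            simpa using h9
          have hc : (0:ℝ) ≤ (j.choose k : ℝ) := Nat.cast_nonneg _
          have h5 := mul_le_mul_of_nonneg_left (a.trans a') hc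
          have hn : (0:ℝ) ≤ (j.choose k : ℝ) * (B' * D / (1 + |ξ|) ^ 3) := by positivity
          exact mul_le_mul h5 b (norm_nonneg _) hn
      _ = (2:ℝ) ^ j * (B' * D * K / (1 + |ξ|) ^ 2) := by
          rw [← Finset.sum_mul, ← Finset.sum_mul]
          have : ∑ k ∈ Finset.range (j + 1), (j.choose k : ℝ) = (2:ℝ) ^ j := by
            exact_mod_cast Nat.sum_range_choose j
          rw [this]
          field_simp
      _ ≤ (2:ℝ) ^ A * (B' * D * K / (1 + |ξ|) ^ 2) := by
          have : (2:ℝ) ^ j ≤ 2 ^ A := pow_le_pow_right₀ (by norm_num) hj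
          gcongr
      _ = (2 ^ A * B' * D * K) / (1 + |ξ|) ^ 2 := by ring
  have hosc := osc_bound A hΦs hbound (by linarith : 0 < X)
  have e1 : ∫ ξ : ℝ, Complex.exp ((σ + ξ * Complex.I) * X) *
      (TR psi (σ + ξ * Complex.I) * LSeries f (σ + ξ * Complex.I)) =
      Complex.exp (σ * X) * ∫ ξ : ℝ, Φ ξ * Complex.exp (ξ * X * Complex.I) := by
    rw [← integral_const_mul]
    congr 1
    ext ξ
    simp only [hΦ]
    rw [show ((σ : ℂ) + ξ * Complex.I) * X = σ * X + ξ * X * Complex.I by ring, Complex.exp_add]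
    ring
  rw [e1, norm_mul, norm_mul]
  have e2 : ‖Complex.exp ((σ : ℂ) * X)‖ = Real.exp 1 * N := by
    rw [Complex.norm_exp]
    have : ((σ : ℂ) * X).re = 1 + X := by
      simp [hσdef]
      field_simp
      ring
    rw [this, Real.exp_add, hX, Real.exp_log hNR]
  rw [e2]
  have e3 : ‖(1 / (2 * Real.pi) : ℂ)‖ ≤ 1 := by
    rw [norm_div, norm_one, norm_mul, Complex.norm_real, Real.norm_eq_abs, abs_of_pos Real.pi_pos,
      Complex.norm_ofNat, div_le_one (by positivity)]
    linarith [Real.pi_gt_three]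
  have e4 : Real.exp 1 ≤ 3 := by
    have := Real.exp_one_lt_d9
    linarith
  have hpos : 0 ≤ 4 * (2 ^ A * B' * D * K) / X ^ A := by positivity
  calc ‖(1 / (2 * Real.pi) : ℂ)‖ * (Real.exp 1 * N *
        ‖∫ ξ : ℝ, Φ ξ * Complex.exp (ξ * X * Complex.I)‖)
      ≤ 1 * (3 * N * (4 * (2 ^ A * B' * D * K) / X ^ A)) := by
        gcongr
    _ = 3 * (4 * (2 ^ A * B')) * D * K * N / X ^ A := by ring

end BV

end
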