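import Pool.Agent.Work.BV.VAU
import Pool.Agent.Work.BV.PV
import Pool.Agent.Work.BV.LSM

/-!
Module TI (type I sums; size M).

Let `χ` be primitive mod `r > 1`.
First sum (`T1`): `∑_{d ≤ V} μ(d) χ(d) ∑_m χ(m) log m psi(dm/N)` (write `n = dm`; `d < 2N`); the inner sum
by `polya_sum` with `f m = log m * psi(dm/N)` (zero for `m = 0` and for `dm ≥ 2N`), whose total variation
is at most `C D log N` (product rule: `|psi| ≤ D`, `∑_m |psi(d(m+1)/N) - psi(dm/N)| ≤ ∫ |psi'| ≤ D`
(mean value theorem, the derivative vanishes outside `[1, 2]`), and `log m ≤ log 2N ≤ 2 log N` on the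
support, `log (m+1) - log m ≤ 1/m`, sum over `N/d - 1 ≤ m ≤ 2N/d` at most 3).
So the first sum is `≤ C D V √r (1+log r) log N`.
Second sum (`T2`): `∑_{l ≤ UV} cV(l) χ(l) ∑_m χ(m) psi(lm/N)`, `|cV| ≤ log l ≤ 2 log N` for `l < 2N`
(for `l ≥ 2N` the inner sum is empty), inner sum `≤ C D √r (1+log r)`.
-/

set_option autoImplicit false

open Finset Filter MeasureTheory Topology
open scoped ContDiff ArithmeticFunction.Moebius ArithmeticFunction.vonMangoldt

noncomputable section

namespace BV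

/-- first type I sum -/
def T1 {r : ℕ} (χ : DirichletCharacter ℂ r) (psi : ℝ → ℝ) (N V : ℕ) : ℂ :=
  ∑ n ∈ Finset.range (2 * N), χ n * (psi ((n : ℝ) / N) : ℂ) *
    (((∑ d ∈ n.divisors, if d ≤ V then (μ d : ℝ) * Real.log ((n / d : ℕ) : ℝ) else 0 : ℝ)) : ℂ)

/-- second type I sum -/
def T2 {r : ℕ} (χ : DirichletCharacter ℂ r) (psi : ℝ → ℝ) (N U V : ℕ) : ℂ :=
  ∑ n ∈ Finset.range (2 * N), χ n * (psi ((n : ℝ) / N) : ℂ) *
    (((∑ l ∈ n.divisors, cV U V l : ℝ)) : ℂ)

private theorem ti_psi_le {psi : ℝ → ℝ} {D : ℝ} (h : Bump psi D) (t : ℝ) : |psi t| ≤ D := by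
  have := h.nrm 0 (by norm_num) t
  simpa using this

private theorem ti_D_nonneg {psi : ℝ → ℝ} {D : ℝ} (h : Bump psi D) : 0 ≤ D :=
  (abs_nonneg _).trans (ti_psi_le h 0)

private theorem ti_lip {psi : ℝ → ℝ} {D : ℝ} (h : Bump psi D) (a b : ℝ) :
    |psi b - psi a| ≤ D * |b - a| := by
  have hd : Differentiable ℝ psi := h.smooth.differentiable (by norm_num)
  have := Convex.norm_image_sub_le_of_norm_deriv_le (f := psi) (s := Set.univ) (C := D)
    (fun x _ => hd x) (fun x _ => by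
      have := h.nrm 1 (by norm_num) x
      rw [iteratedDeriv_one] at this
      rwa [Real.norm_eq_abs]) convex_univ (Set.mem_univ a) (Set.mem_univ b)
  rwa [Real.norm_eq_abs, Real.norm_eq_abs] at this

/-- clamping to `[1, 2]` -/
private def tiC (x : ℝ) : ℝ := max 1 (min x 2)

private theorem ti_clamp {psi : ℝ → ℝ} {D : ℝ} (h : Bump psi D) (x : ℝ) : psi (tiC x) = psi x := by
  unfold tiC
  rcases le_total x 1 with h1 | h1
  · rw [min_eq_left (by linarith), max_eq_left h1, h.zero 1 (Or.inl le_rfl), h.zero x (Or.inl h1)]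
  · rcases le_total x 2 with h2 | h2
    · rw [min_eq_left h2, max_eq_right h1]
    · rw [min_eq_right h2, max_eq_right (by norm_num), h.zero 2 (Or.inr le_rfl),
        h.zero x (Or.inr h2)]

private theorem ti_clamp_mono {x y : ℝ} (h : x ≤ y) : tiC x ≤ tiC y := by
  unfold tiC
  exact max_le_max le_rfl (min_le_min h le_rfl)

private theorem ti_var {psi : ℝ → ℝ} {D : ℝ} (h : Bump psi D) (x : ℕ → ℝ) (hx : Monotone x)
    (Y : ℕ) : ∑ m ∈ Finset.range Y, |psi (x (m + 1)) - psi (x m)| ≤ D := by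
  have hD := ti_D_nonneg h
  have h1 : ∀ m ∈ Finset.range Y, |psi (x (m + 1)) - psi (x m)| ≤
      D * (tiC (x (m + 1)) - tiC (x m)) := by
    intro m _
    rw [← ti_clamp h (x (m + 1)), ← ti_clamp h (x m)]
    refine (ti_lip h _ _).trans (le_of_eq ?_)
    rw [abs_of_nonneg]
    have := ti_clamp_mono (hx (Nat.le_succ m))
    linarith
  refine (Finset.sum_le_sum h1).trans ?_
  rw [← Finset.mul_sum, Finset.sum_range_sub (fun m => tiC (x m))]
  have h2 : tiC (x Y) ≤ 2 := by
    unfold tiC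
    exact max_le (by norm_num) (min_le_right _ _)
  have h3 : 1 ≤ tiC (x 0) := le_max_left _ _
  nlinarith

private theorem ti_swap {psi : ℝ → ℝ} {D : ℝ} (h : Bump psi D) {r : ℕ}
    (χ : DirichletCharacter ℂ r) (N : ℕ) (hN : 0 < N) (G : ℕ → ℕ → ℝ) :
    ∑ n ∈ Finset.range (2 * N), χ n * (psi ((n : ℝ) / N) : ℂ) *
      (((∑ d ∈ n.divisors, G d (n / d) : ℝ)) : ℂ) =
      ∑ d ∈ Finset.Icc 1 (2 * N), χ d * ∑ m ∈ Finset.range (2 * N), χ m *
        ((G d m * psi ((d : ℝ) * m / N) : ℝ) : ℂ) := by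
  have hN' : (0 : ℝ) < N := by exact_mod_cast hN
  have h1 : ∀ n ∈ Finset.range (2 * N), χ n * (psi ((n : ℝ) / N) : ℂ) *
      (((∑ d ∈ n.divisors, G d (n / d) : ℝ)) : ℂ) =
      ∑ d ∈ n.divisors, χ (d : ZMod r) * (χ ((n / d : ℕ) : ZMod r) *
        ((G d (n / d) * psi ((d : ℝ) * (n / d : ℕ) / N) : ℝ) : ℂ)) := by
    intro n _
    rw [Complex.ofReal_sum, Finset.mul_sum]
    refine Finset.sum_congr rfl fun d hd => ?_
    rw [Nat.mem_divisors] at hd
    have e : d * (n / d) = n := Nat.mul_div_cancel' hd.1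
    have e1 : χ (n : ZMod r) = χ (d : ZMod r) * χ ((n / d : ℕ) : ZMod r) := by
      rw [← map_mul, ← Nat.cast_mul, e]
    have e2 : (d : ℝ) * ((n / d : ℕ) : ℝ) = n := by exact_mod_cast e
    rw [e1, e2]
    push_cast
    ring
  have h2 : ∀ d ∈ Finset.Icc 1 (2 * N), χ (d : ZMod r) * ∑ m ∈ Finset.range (2 * N),
      χ (m : ZMod r) * ((G d m * psi ((d : ℝ) * m / N) : ℝ) : ℂ) =
      ∑ m ∈ Finset.range (2 * N), χ (d : ZMod r) * (χ (m : ZMod r) *
        ((G d m * psi ((d : ℝ) * m / N) : ℝ) : ℂ)) := fun d _ => Finset.mul_sum _ _ _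
  rw [Finset.sum_congr rfl h1, Finset.sum_congr rfl h2, Finset.sum_sigma', Finset.sum_sigma']
  refine Finset.sum_bij_ne_zero (fun x _ _ => ⟨x.2, x.1 / x.2⟩) ?_ ?_ ?_ ?_
  · rintro ⟨n, d⟩ hx _
    simp only [Finset.mem_sigma, Finset.mem_range, Nat.mem_divisors, Finset.mem_Icc] at hx ⊢
    obtain ⟨hn, hd, hn0⟩ := hx
    have hd0 : 0 < d := Nat.pos_of_dvd_of_pos hd (Nat.pos_of_ne_zero hn0)
    have hle := Nat.le_of_dvd (Nat.pos_of_ne_zero hn0) hd
    have := Nat.div_le_self n d
    omega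
  · rintro ⟨n, d⟩ hx _ ⟨n', d'⟩ hx' _ heq
    simp only [Finset.mem_sigma, Nat.mem_divisors] at hx hx'
    have e1 : d = d' := congrArg Sigma.fst heq
    subst e1
    have e2 : n / d = n' / d := eq_of_heq (Sigma.mk.inj heq).2
    have e3 : n = n' := by
      rw [← Nat.mul_div_cancel' hx.2.1, ← Nat.mul_div_cancel' hx'.2.1, e2]
    rw [e3]
  · rintro ⟨d, m⟩ hx hne
    simp only [Finset.mem_sigma, Finset.mem_range, Finset.mem_Icc] at hx
    simp only at hne
    have hpsi : psi ((d : ℝ) * m / N) ≠ 0 := by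
      intro h0
      rw [h0] at hne
      simp at hne
    have h3 : 1 < (d : ℝ) * m / N ∧ (d : ℝ) * m / N < 2 := by
      constructor
      · by_contra hcon
        exact hpsi (h.zero _ (Or.inl (not_lt.1 hcon)))
      · by_contra hcon
        exact hpsi (h.zero _ (Or.inr (not_lt.1 hcon)))
    rw [lt_div_iff₀ hN', div_lt_iff₀ hN'] at h3
    have h4 : d * m < 2 * N := by exact_mod_cast h3.2
    have h5 : N < d * m := by
      have := h3.1
      rw [one_mul] at this
      exact_mod_cast this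
    have hd0 : 0 < d := hx.1.1
    refine ⟨⟨d * m, d⟩, ?_, ?_, ?_⟩
    · simp only [Finset.mem_sigma, Finset.mem_range, Nat.mem_divisors]
      exact ⟨h4, dvd_mul_right d m, by omega⟩
    · simp only [Nat.mul_div_cancel_left m hd0]
      exact hne
    · simp only [Nat.mul_div_cancel_left m hd0]
  · rintro ⟨n, d⟩ _ _
    rfl

private theorem ti_log {N : ℕ} (hN : 3 ≤ N) : 1 ≤ Real.log N ∧ Real.log ((2 * N : ℕ) : ℝ) ≤ 2 * Real.log N := by
  have h1 : (3 : ℝ) ≤ N := by exact_mod_cast hN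
  have h2 : 1 ≤ Real.log N := by
    rw [Real.le_log_iff_exp_le (by linarith)]
    have := Real.exp_one_lt_d9
    linarith
  refine ⟨h2, ?_⟩
  have h3 : Real.log ((2 * N : ℕ) : ℝ) = Real.log 2 + Real.log N := by
    push_cast
    rw [Real.log_mul (by norm_num) (by linarith)]
  have h4 : Real.log 2 ≤ Real.log N := Real.log_le_log (by norm_num) (by linarith)
  linarith

private theorem ti_harm (n : ℕ) : ∑ m ∈ Finset.range n, (1 / (m : ℝ)) ≤ 1 + Real.log n := by
  rcases Nat.eq_zero_or_pos n with h0 | h0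
  · subst h0; simp
  obtain ⟨k, rfl⟩ : ∃ k, n = k + 1 := ⟨n - 1, by omega⟩
  have h1 := harmonic_le_one_add_log k
  rw [harmonic] at h1
  push_cast at h1
  rw [Finset.sum_range_succ']
  have h2 : Real.log k ≤ Real.log ((k + 1 : ℕ) : ℝ) := by
    rcases Nat.eq_zero_or_pos k with hk | hk
    · subst hk; simp
    · refine Real.log_le_log (by exact_mod_cast hk) ?_
      push_cast; linarith
  refine le_trans ?_ (add_le_add_right h2 1)
  refine le_trans (le_of_eq ?_) h1
  simp only [Nat.cast_zero, div_zero, add_zero]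
  refine Finset.sum_congr rfl fun m _ => ?_
  push_cast
  rw [one_div]

theorem type_one : ∃ C : ℝ, 0 ≤ C ∧ ∀ (psi : ℝ → ℝ) (D : ℝ), Bump psi D →
    ∀ (N U V r : ℕ), 3 ≤ N → 0 < U → 0 < V → 1 < r →
      ∀ χ : DirichletCharacter ℂ r, χ.IsPrimitive →
        ‖T1 χ psi N V‖ + ‖T2 χ psi N U V‖ ≤
          C * D * (U * V : ℝ) * Real.sqrt r * (1 + Real.log r) * Real.log N := by
  refine ⟨7, by norm_num, fun psi D h N U V r hN hU hV hr χ hχ => ?_⟩
  have hD := ti_D_nonneg h
  have hne : NeZero r := ⟨by omega⟩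
  have hN0 : 0 < N := by omega
  have hN' : (0 : ℝ) < N := by exact_mod_cast hN0
  obtain ⟨hlog1, hlog2⟩ := ti_log hN
  have hlogr : 0 ≤ Real.log r := Real.log_natCast_nonneg r
  obtain ⟨B, hB⟩ : ∃ B : ℝ, B = Real.sqrt r * (1 + Real.log r) := ⟨_, rfl⟩
  have hB0 : 0 ≤ B := by rw [hB]; positivity
  have hx : ∀ d : ℕ, Monotone (fun m : ℕ => (d : ℝ) * m / N) := by
    intro d a b hab
    have : (a : ℝ) ≤ b := by exact_mod_cast hab
    exact div_le_div_of_nonneg_right (mul_le_mul_of_nonneg_left this (Nat.cast_nonneg d)) hN'.le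
  have hzero : ∀ d : ℕ, 1 ≤ d → psi ((d : ℝ) * ((2 * N : ℕ) : ℝ) / N) = 0 := by
    intro d hd
    refine h.zero _ (Or.inr ?_)
    rw [le_div_iff₀ hN']
    push_cast
    have : (1 : ℝ) ≤ d := by exact_mod_cast hd
    nlinarith
  -- inner sums
  have hin2 : ∀ d : ℕ, 1 ≤ d → ‖∑ m ∈ Finset.range (2 * N), χ (m : ZMod r) *
      ((psi ((d : ℝ) * m / N) : ℝ) : ℂ)‖ ≤ B * D := by
    intro d hd
    have h1 := polya_sum hr hχ (fun m => psi ((d : ℝ) * m / N)) (2 * N) (hzero d hd)
    rw [← hB] at h1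
    refine h1.trans (mul_le_mul_of_nonneg_left ?_ hB0)
    exact ti_var h (fun m : ℕ => (d : ℝ) * m / N) (hx d) (2 * N)
  have hin1 : ∀ d : ℕ, 1 ≤ d → ‖∑ m ∈ Finset.range (2 * N), χ (m : ZMod r) *
      ((Real.log m * psi ((d : ℝ) * m / N) : ℝ) : ℂ)‖ ≤ B * (5 * D * Real.log N) := by
    intro d hd
    have h1 := polya_sum hr hχ (fun m => Real.log m * psi ((d : ℝ) * m / N)) (2 * N)
      (by simp only [hzero d hd, mul_zero])
    rw [← hB] at h1
    refine h1.trans (mul_le_mul_of_nonneg_left ?_ hB0)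
    have h2 : ∀ m ∈ Finset.range (2 * N), |Real.log ((m + 1 : ℕ) : ℝ) *
        psi ((d : ℝ) * ((m + 1 : ℕ) : ℝ) / N) - Real.log m * psi ((d : ℝ) * m / N)| ≤
        1 / (m : ℝ) * D + 2 * Real.log N *
          |psi ((d : ℝ) * ((m + 1 : ℕ) : ℝ) / N) - psi ((d : ℝ) * m / N)| := by
      intro m hm
      rw [Finset.mem_range] at hm
      rcases Nat.eq_zero_or_pos m with h0 | h0
      · subst h0
        simp only [Nat.cast_zero, Real.log_zero, zero_mul, sub_zero, zero_add, Nat.cast_one,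
          Real.log_one, abs_zero, div_zero]
        positivity
      · have hm' : (0 : ℝ) < m := by exact_mod_cast h0
        have e1 : Real.log ((m + 1 : ℕ) : ℝ) * psi ((d : ℝ) * ((m + 1 : ℕ) : ℝ) / N) -
            Real.log m * psi ((d : ℝ) * m / N) =
            (Real.log ((m + 1 : ℕ) : ℝ) - Real.log m) * psi ((d : ℝ) * ((m + 1 : ℕ) : ℝ) / N) +
            Real.log m * (psi ((d : ℝ) * ((m + 1 : ℕ) : ℝ) / N) - psi ((d : ℝ) * m / N)) := by ring
        rw [e1]
        refine (abs_add_le _ _).trans (add_le_add ?_ ?_)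
        · rw [abs_mul]
          have e2 : Real.log ((m + 1 : ℕ) : ℝ) - Real.log m ≤ 1 / m := by
            rw [← Real.log_div (by positivity) hm'.ne']
            have := Real.log_le_sub_one_of_pos (show (0 : ℝ) < ((m + 1 : ℕ) : ℝ) / m by positivity)
            refine this.trans (le_of_eq ?_)
            push_cast
            field_simp
            ring
          have e3 : 0 ≤ Real.log ((m + 1 : ℕ) : ℝ) - Real.log m := by
            have : Real.log m ≤ Real.log ((m + 1 : ℕ) : ℝ) :=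
              Real.log_le_log hm' (by push_cast; linarith)
            linarith
          rw [abs_of_nonneg e3]
          exact mul_le_mul e2 (ti_psi_le h _) (abs_nonneg _) (by positivity)
        · rw [abs_mul, abs_of_nonneg (Real.log_natCast_nonneg m)]
          refine mul_le_mul_of_nonneg_right ?_ (abs_nonneg _)
          refine le_trans ?_ hlog2
          exact Real.log_le_log hm' (by exact_mod_cast hm.le)
    have h3 := Finset.sum_le_sum h2
    refine h3.trans ?_
    rw [Finset.sum_add_distrib, ← Finset.sum_mul, ← Finset.mul_sum]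
    have h4 := ti_harm (2 * N)
    have h5 := ti_var h (fun m : ℕ => (d : ℝ) * m / N) (hx d) (2 * N)
    have h6 : (∑ m ∈ Finset.range (2 * N), (1 / (m : ℝ))) * D ≤ (1 + 2 * Real.log N) * D :=
      mul_le_mul_of_nonneg_right (h4.trans (by linarith)) hD
    have h7 : 2 * Real.log N * ∑ m ∈ Finset.range (2 * N),
        |psi ((d : ℝ) * ((m + 1 : ℕ) : ℝ) / N) - psi ((d : ℝ) * m / N)| ≤ 2 * Real.log N * D :=
      mul_le_mul_of_nonneg_left h5 (by linarith)
    nlinarith
  have hχ1 : ∀ d : ℕ, ‖χ (d : ZMod r)‖ ≤ 1 := fun d => DirichletCharacter.norm_le_one χ _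
  -- first sum
  have hT1 : ‖T1 χ psi N V‖ ≤ V * (B * (5 * D * Real.log N)) := by
    have e0 : T1 χ psi N V = ∑ d ∈ Finset.Icc 1 (2 * N), χ (d : ZMod r) *
        ∑ m ∈ Finset.range (2 * N), χ (m : ZMod r) *
        (((if d ≤ V then (μ d : ℝ) * Real.log (m : ℝ) else 0) * psi ((d : ℝ) * m / N) : ℝ) : ℂ) := by
      have := ti_swap h χ N hN0 (fun d m => if d ≤ V then (μ d : ℝ) * Real.log (m : ℝ) else 0)
      exact this
    rw [e0]
    have e1 : ∀ d ∈ Finset.Icc 1 (2 * N), ‖χ (d : ZMod r) * ∑ m ∈ Finset.range (2 * N),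
        χ (m : ZMod r) * (((if d ≤ V then (μ d : ℝ) * Real.log (m : ℝ) else 0) *
          psi ((d : ℝ) * m / N) : ℝ) : ℂ)‖ ≤
        if d ∈ Finset.Icc 1 V then B * (5 * D * Real.log N) else 0 := by
      intro d hd
      rw [Finset.mem_Icc] at hd
      by_cases hdV : d ≤ V
      · rw [if_pos (Finset.mem_Icc.2 ⟨hd.1, hdV⟩)]
        simp only [if_pos hdV]
        have e2 : ∑ m ∈ Finset.range (2 * N), χ (m : ZMod r) *
            (((μ d : ℝ) * Real.log (m : ℝ) * psi ((d : ℝ) * m / N) : ℝ) : ℂ) =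
            ((μ d : ℝ) : ℂ) * ∑ m ∈ Finset.range (2 * N), χ (m : ZMod r) *
              ((Real.log m * psi ((d : ℝ) * m / N) : ℝ) : ℂ) := by
          rw [Finset.mul_sum]
          refine Finset.sum_congr rfl fun m _ => ?_
          push_cast
          ring
        rw [e2, norm_mul, norm_mul, Complex.norm_real, Real.norm_eq_abs]
        have e3 : |(μ d : ℝ)| ≤ 1 := by
          have := ArithmeticFunction.abs_moebius_le_one (n := d)
          exact_mod_cast this
        calc ‖χ (d : ZMod r)‖ * (|(μ d : ℝ)| * ‖∑ m ∈ Finset.range (2 * N), χ (m : ZMod r) *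
              ((Real.log m * psi ((d : ℝ) * m / N) : ℝ) : ℂ)‖)
            ≤ 1 * (1 * (B * (5 * D * Real.log N))) := by
              refine mul_le_mul (hχ1 d) (mul_le_mul e3 (hin1 d hd.1) (norm_nonneg _) zero_le_one)
                (by positivity) zero_le_one
          _ = _ := by ring
      · simp only [if_neg hdV]
        rw [if_neg (fun hc => hdV (Finset.mem_Icc.1 hc).2)]
        simp
    refine (norm_sum_le _ _).trans ((Finset.sum_le_sum e1).trans ?_)
    rw [← Finset.sum_filter, Finset.sum_const, nsmul_eq_mul]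
    refine mul_le_mul_of_nonneg_right ?_ (by positivity)
    have e4 : ((Finset.Icc 1 (2 * N)).filter (fun d => d ∈ Finset.Icc 1 V)).card ≤
        (Finset.Icc 1 V).card := by
      refine Finset.card_le_card fun d hd => ?_
      exact (Finset.mem_filter.1 hd).2
    rw [Nat.card_Icc, Nat.add_sub_cancel] at e4
    exact_mod_cast e4
  have hT2 : ‖T2 χ psi N U V‖ ≤ ((U * V : ℕ) : ℝ) * (2 * Real.log N * (B * D)) := by
    have e0 : T2 χ psi N U V = ∑ d ∈ Finset.Icc 1 (2 * N), χ (d : ZMod r) *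
        ∑ m ∈ Finset.range (2 * N), χ (m : ZMod r) *
        ((cV U V d * psi ((d : ℝ) * m / N) : ℝ) : ℂ) := by
      have := ti_swap h χ N hN0 (fun d _ => cV U V d)
      exact this
    rw [e0]
    have e1 : ∀ d ∈ Finset.Icc 1 (2 * N), ‖χ (d : ZMod r) * ∑ m ∈ Finset.range (2 * N),
        χ (m : ZMod r) * ((cV U V d * psi ((d : ℝ) * m / N) : ℝ) : ℂ)‖ ≤
        if d ∈ Finset.Icc 1 (U * V) then 2 * Real.log N * (B * D) else 0 := by
      intro d hd
      rw [Finset.mem_Icc] at hd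
      have e2 : ∑ m ∈ Finset.range (2 * N), χ (m : ZMod r) *
          ((cV U V d * psi ((d : ℝ) * m / N) : ℝ) : ℂ) =
          ((cV U V d : ℝ) : ℂ) * ∑ m ∈ Finset.range (2 * N), χ (m : ZMod r) *
            ((psi ((d : ℝ) * m / N) : ℝ) : ℂ) := by
        rw [Finset.mul_sum]
        refine Finset.sum_congr rfl fun m _ => ?_
        push_cast
        ring
      by_cases hdV : d ≤ U * V
      · rw [if_pos (Finset.mem_Icc.2 ⟨hd.1, hdV⟩), e2, norm_mul, norm_mul, Complex.norm_real,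
          Real.norm_eq_abs]
        have e3 : |cV U V d| ≤ 2 * Real.log N := by
          refine (cV_bound U V d hd.1).trans (le_trans ?_ hlog2)
          exact Real.log_le_log (by exact_mod_cast hd.1) (by exact_mod_cast hd.2)
        calc ‖χ (d : ZMod r)‖ * (|cV U V d| * ‖∑ m ∈ Finset.range (2 * N), χ (m : ZMod r) *
              ((psi ((d : ℝ) * m / N) : ℝ) : ℂ)‖)
            ≤ 1 * (2 * Real.log N * (B * D)) := by
              refine mul_le_mul (hχ1 d) (mul_le_mul e3 (hin2 d hd.1) (norm_nonneg _) (by linarith))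
                (by positivity) zero_le_one
          _ = _ := by ring
      · rw [if_neg (fun hc => hdV (Finset.mem_Icc.1 hc).2), e2, cV_zero U V d (by omega)]
        simp
    refine (norm_sum_le _ _).trans ((Finset.sum_le_sum e1).trans ?_)
    rw [← Finset.sum_filter, Finset.sum_const, nsmul_eq_mul]
    refine mul_le_mul_of_nonneg_right ?_ (by positivity)
    have e4 : ((Finset.Icc 1 (2 * N)).filter (fun d => d ∈ Finset.Icc 1 (U * V))).card ≤
        (Finset.Icc 1 (U * V)).card := by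
      refine Finset.card_le_card fun d hd => ?_
      exact (Finset.mem_filter.1 hd).2
    rw [Nat.card_Icc, Nat.add_sub_cancel] at e4
    exact_mod_cast e4
  have hVUV : (V : ℝ) ≤ U * V := by
    have h1 : (1 : ℝ) ≤ U := by exact_mod_cast hU
    have h2 : (0 : ℝ) ≤ V := Nat.cast_nonneg V
    nlinarith
  have hX : 0 ≤ B * (5 * D * Real.log N) := by positivity
  have h8 := mul_le_mul_of_nonneg_right hVUV hX
  push_cast at hT2
  calc ‖T1 χ psi N V‖ + ‖T2 χ psi N U V‖ ≤ (U * V : ℝ) * (B * (5 * D * Real.log N)) +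
        (U * V : ℝ) * (2 * Real.log N * (B * D)) := add_le_add (hT1.trans h8) hT2
    _ = 7 * D * (U * V : ℝ) * B * Real.log N := by ring
    _ = _ := by rw [hB]; ring

end BV

end
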