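import Mathlib

/-!
Module VAU (Vaughan's identity; Mathlib only; size S-M).

In the ring of arithmetic functions (`ArithmeticFunction ℝ`): `Λ * ζ = log`, `μ * ζ = 1`.  Write
`μ = μ₁ + μ₂` (arguments `≤ V`, `> V`), `Λ = Λ₁ + Λ₂` (`≤ U`, `> U`).  Then
`Λ₂ = Λ₂ * ζ * μ₁ + Λ₂ * ζ * μ₂ = μ₁ * log - μ₁ * Λ₁ * ζ + (μ₂ * ζ) * Λ₂`.
At `n > U` the left side is `Λ n`.  `cV U V = μ₁ * Λ₁`, `aV V = μ₂ * ζ`, `bU U = Λ₂`.
The bounds: `|cV U V l| ≤ ∑_{e | l} Λ(e) = log l`; it is zero for `l > U V`; `aV V m` is a sum over the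
divisors `> V` of `m`, at most `τ(m)` in absolute value, and zero for `m ≤ V`.
-/

set_option autoImplicit false

open Finset Filter MeasureTheory Topology
open scoped ContDiff ArithmeticFunction.Moebius ArithmeticFunction.vonMangoldt ArithmeticFunction.zeta

noncomputable section

namespace BV

/-- coefficients of the first kind -/
def cV (U V l : ℕ) : ℝ :=
  ∑ x ∈ l.divisorsAntidiagonal, if x.1 ≤ V ∧ x.2 ≤ U then (μ x.1 : ℝ) * Λ x.2 else 0

/-- coefficients of the second kind -/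
def aV (V m : ℕ) : ℝ := ∑ d ∈ m.divisors, if V < d then (μ d : ℝ) else 0

/-- the von Mangoldt function above `U` -/
def bU (U n : ℕ) : ℝ := if U < n then Λ n else 0

private def va_m1 (V : ℕ) : ArithmeticFunction ℝ :=
  ⟨fun n => if n ≤ V then (μ n : ℝ) else 0, by simp⟩

private def va_m2 (V : ℕ) : ArithmeticFunction ℝ :=
  ⟨fun n => if V < n then (μ n : ℝ) else 0, by simp⟩

private def va_l1 (U : ℕ) : ArithmeticFunction ℝ :=
  ⟨fun n => if n ≤ U then Λ n else 0, by simp⟩

private def va_l2 (U : ℕ) : ArithmeticFunction ℝ :=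
  ⟨fun n => if U < n then Λ n else 0, by simp⟩

private lemma va_m (V : ℕ) : va_m1 V + va_m2 V = (μ : ArithmeticFunction ℝ) := by
  ext n
  rw [ArithmeticFunction.add_apply]
  show (if n ≤ V then (μ n : ℝ) else 0) + (if V < n then (μ n : ℝ) else 0) = _
  rw [ArithmeticFunction.intCoe_apply]
  by_cases h : n ≤ V
  · rw [if_pos h, if_neg (by omega), add_zero]
  · rw [if_neg h, if_pos (by omega), zero_add]

private lemma va_l (U : ℕ) : va_l1 U + va_l2 U = (Λ : ArithmeticFunction ℝ) := by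
  ext n
  rw [ArithmeticFunction.add_apply]
  show (if n ≤ U then Λ n else 0) + (if U < n then Λ n else 0) = _
  by_cases h : n ≤ U
  · rw [if_pos h, if_neg (by omega), add_zero]
  · rw [if_neg h, if_pos (by omega), zero_add]

private lemma va_id (U V : ℕ) : va_l2 U + (va_m1 V * va_l1 U) * (ζ : ArithmeticFunction ℝ) =
    va_m1 V * ArithmeticFunction.log + (va_m2 V * (ζ : ArithmeticFunction ℝ)) * va_l2 U := by
  have h1 : (va_m1 V + va_m2 V) * (ζ : ArithmeticFunction ℝ) = 1 := by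
    rw [va_m]; exact ArithmeticFunction.coe_moebius_mul_coe_zeta
  have h2 : (va_l1 U + va_l2 U) * (ζ : ArithmeticFunction ℝ) = ArithmeticFunction.log := by
    rw [va_l]; exact ArithmeticFunction.vonMangoldt_mul_zeta
  rw [← h2]
  calc va_l2 U + (va_m1 V * va_l1 U) * (ζ : ArithmeticFunction ℝ) =
        ((va_m1 V + va_m2 V) * (ζ : ArithmeticFunction ℝ)) * va_l2 U +
          (va_m1 V * va_l1 U) * (ζ : ArithmeticFunction ℝ) := by
        rw [h1, one_mul]
    _ = _ := by ring

theorem vaughan (U V n : ℕ) (hn : U < n) :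
    Λ n = (∑ d ∈ n.divisors, if d ≤ V then (μ d : ℝ) * Real.log ((n / d : ℕ) : ℝ) else 0) -
      (∑ l ∈ n.divisors, cV U V l) + ∑ x ∈ n.divisorsAntidiagonal, aV V x.1 * bU U x.2 := by
  have h := congrArg (fun f : ArithmeticFunction ℝ => f n) (va_id U V)
  simp only [ArithmeticFunction.add_apply] at h
  have e1 : va_l2 U n = Λ n := by
    show (if U < n then Λ n else 0) = _
    rw [if_pos hn]
  have e2 : (va_m1 V * ArithmeticFunction.log) n =
      ∑ d ∈ n.divisors, if d ≤ V then (μ d : ℝ) * Real.log ((n / d : ℕ) : ℝ) else 0 := by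
    rw [ArithmeticFunction.mul_apply]
    have := Nat.sum_divisorsAntidiagonal (n := n)
      (fun i j => (if i ≤ V then (μ i : ℝ) else 0) * Real.log ((j : ℕ) : ℝ))
    rw [show (∑ x ∈ n.divisorsAntidiagonal, (va_m1 V) x.1 * ArithmeticFunction.log x.2) =
      ∑ x ∈ n.divisorsAntidiagonal, (if x.1 ≤ V then (μ x.1 : ℝ) else 0) * Real.log ((x.2 : ℕ) : ℝ)
      from rfl, this]
    apply Finset.sum_congr rfl
    intro d _
    split_ifs <;> simp
  have e3 : ((va_m1 V * va_l1 U) * (ζ : ArithmeticFunction ℝ)) n = ∑ l ∈ n.divisors, cV U V l := by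
    rw [ArithmeticFunction.coe_mul_zeta_apply]
    apply Finset.sum_congr rfl
    intro l _
    rw [ArithmeticFunction.mul_apply]
    unfold cV
    apply Finset.sum_congr rfl
    intro x _
    show (if x.1 ≤ V then (μ x.1 : ℝ) else 0) * (if x.2 ≤ U then Λ x.2 else 0) = _
    by_cases h1 : x.1 ≤ V
    · by_cases h2 : x.2 ≤ U
      · simp [h1, h2]
      · simp [h2]
    · simp [h1]
  have e4 : ((va_m2 V * (ζ : ArithmeticFunction ℝ)) * va_l2 U) n =
      ∑ x ∈ n.divisorsAntidiagonal, aV V x.1 * bU U x.2 := by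
    rw [ArithmeticFunction.mul_apply]
    apply Finset.sum_congr rfl
    intro x _
    rw [ArithmeticFunction.coe_mul_zeta_apply]
    rfl
  rw [e1, e2, e3, e4] at h
  linarith

private lemma va_mu_le (n : ℕ) : |(μ n : ℝ)| ≤ 1 := by
  have h := ArithmeticFunction.abs_moebius_le_one (n := n)
  have h2 : ((|μ n| : ℤ) : ℝ) ≤ ((1 : ℤ) : ℝ) := by exact_mod_cast h
  rwa [Int.cast_abs, Int.cast_one] at h2

theorem cV_bound (U V l : ℕ) (hl : 0 < l) : |cV U V l| ≤ Real.log l := by
  have _ := hl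
  unfold cV
  have h1 : ∑ x ∈ l.divisorsAntidiagonal, Λ x.2 = Real.log l := by
    rw [Nat.sum_divisorsAntidiagonal' (f := fun _ j => Λ j)]
    exact ArithmeticFunction.vonMangoldt_sum
  rw [← h1]
  refine (Finset.abs_sum_le_sum_abs _ _).trans ?_
  apply Finset.sum_le_sum
  intro x _
  split_ifs
  · rw [abs_mul, abs_of_nonneg (ArithmeticFunction.vonMangoldt_nonneg (n := x.2))]
    calc |(μ x.1 : ℝ)| * Λ x.2 ≤ 1 * Λ x.2 :=
          mul_le_mul_of_nonneg_right (va_mu_le _) ArithmeticFunction.vonMangoldt_nonneg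
      _ = Λ x.2 := one_mul _
  · rw [abs_zero]; exact ArithmeticFunction.vonMangoldt_nonneg

theorem cV_zero (U V l : ℕ) (hl : U * V < l) : cV U V l = 0 := by
  unfold cV
  apply Finset.sum_eq_zero
  intro x hx
  rw [if_neg]
  rintro ⟨h1, h2⟩
  have h3 := (Nat.mem_divisorsAntidiagonal.1 hx).1
  have h4 : x.1 * x.2 ≤ V * U := Nat.mul_le_mul h1 h2
  rw [h3, mul_comm V U] at h4
  omega

theorem aV_bound (V m : ℕ) : |aV V m| ≤ (m.divisors.card : ℝ) := by
  unfold aV
  refine (Finset.abs_sum_le_sum_abs _ _).trans ?_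
  calc ∑ d ∈ m.divisors, |if V < d then (μ d : ℝ) else 0| ≤ ∑ d ∈ m.divisors, (1 : ℝ) := by
        apply Finset.sum_le_sum
        intro d _
        split_ifs
        · exact va_mu_le d
        · simp
    _ = (m.divisors.card : ℝ) := by simp

theorem aV_zero (V m : ℕ) (hm : m ≤ V) : aV V m = 0 := by
  unfold aV
  apply Finset.sum_eq_zero
  intro d hd
  rw [if_neg]
  have := Nat.divisor_le hd
  omega

end BV

end
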