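import Mathlib

/-!
Module ZENT (zeta minus its pole; Mathlib only; size S).

`Z = Function.update (fun s => riemannZeta s - 1 / (s - 1)) 1 γ`: differentiable off `1`
(`differentiableAt_riemannZeta`), continuous at `1` (`tendsto_riemannZeta_sub_one_div`), so differentiable
everywhere by the removable singularity theorem
(`Complex.analyticAt_of_differentiable_on_punctured_nhds_of_continuousAt`).
-/

set_option autoImplicit false

open Finset Filter MeasureTheory Topology
open scoped ContDiff ArithmeticFunction.Moebius ArithmeticFunction.vonMangoldt

noncomputable section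

namespace BV

theorem zeta_entire : ∃ Z : ℂ → ℂ, Differentiable ℂ Z ∧
    ∀ s : ℂ, s ≠ 1 → riemannZeta s = Z s + 1 / (s - 1) := by
  refine ⟨riemannZeta₀, differentiable_riemannZeta₀, fun s hs => ?_⟩
  simp [riemannZeta₀, hs]

end BV

end
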